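import Mathlib
import Pool.Agent.Helper467.FP.Defs

/-!
Universal spectral gap for non-Gamma II_1 factors (MP_ab5fa7_an, S03914): definitions.
-/

set_option autoImplicit false

open scoped ComplexOrder Topology
open Filter

noncomputable section

namespace Pool.Agent.H518R4.UG

open Pool.Agent.H467F

section defs

variable {A : Type} [CStarAlgebra A]

/-- The commutator. -/
def cm (x y : A) : A := x * y - y * x

/-- Projections. -/
def IsPrj (p : A) : Prop := star p = p ∧ p * p = p

/-- `p` is equivalent to a subprojection of `q`. -/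
def Sub (p q : A) : Prop := ∃ v : A, star v * v = p ∧ q * v = v

/-- `v i * star (v j)` are matrix units indexed by `I` with sum 1. -/
structure IsMU {I : Type} [Fintype I] (v : I → A) (g : A) : Prop where
  ini : ∀ i, star (v i) * v i = g
  ort : ∀ i j, i ≠ j → star (v i) * v j = 0
  sum : ∑ i, v i * star (v i) = 1

/-- `q` is a partition of the projection `e`. -/
structure IsPart {J : Type} [Fintype J] (q : J → A) (e : A) : Prop where
  prj : ∀ j, IsPrj (q j)
  ort : ∀ i j, i ≠ j → q i * q j = 0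
  sum : ∑ j, q j = e

/-- The part of `f` that commutes with the `q j`. -/
def pin {J : Type} [Fintype J] (q : J → A) (f : A) : A := ∑ j, q j * f * q j

/-- The copy of `x` (an element of the corner of `g`) that commutes with the matrix units. -/
def lift {I : Type} [Fintype I] (v : I → A) (x : A) : A := ∑ i, v i * x * star (v i)

/-- The compression to the corner: `x ↦ (1/r) ∑ v_j^* x v_j`. -/
def dn {I : Type} [Fintype I] (v : I → A) (x : A) : A :=
  ((Fintype.card I : ℂ))⁻¹ • ∑ j, star (v j) * x * v j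

/-- The conditional expectation on the commutant of the matrix units. -/
def EM {I : Type} [Fintype I] (v : I → A) (x : A) : A := lift v (dn v x)

/-- The diagonal projections of matrix units. -/
def dg {I : Type} (v : I → A) (i : I) : A := v i * star (v i)

/-- The Weyl operators. -/
def Wy {n : ℕ} [NeZero n] (v : ZMod n → A) (a b : ZMod n) : A :=
  ∑ i, (ZMod.stdAddChar (b * i) : ℂ) • (v (i + a) * star (v i))

/-- The properties of a II_1 factor that are used. -/
structure Fct (τ : A →ₗ[ℂ] ℂ) : Prop where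
  tw : TW τ
  fs : ∀ e : A, IsPrj e → ∀ a : A, star a = a → e * a = a → ∀ δ : ℝ, 0 < δ →
    ∃ (n : ℕ) (p : Fin n → A) (l : Fin n → ℝ), IsPart p e ∧ ‖a - ∑ i, (l i : ℂ) • p i‖ ≤ δ
  comp : ∀ p q : A, IsPrj p → IsPrj q → Sub p q ∨ Sub q p
  mu : ∀ k : ℕ, ∃ (v : Fin (2 ^ k) → A) (g : A), IsMU v g

/-- No spectral gap: no family of `k` contractions has spectral gap `c`. -/
def NG (τ : A →ₗ[ℂ] ℂ) (k : ℕ) (c : ℝ) : Prop :=
  ∀ x : Fin k → A, (∀ i, ‖x i‖ ≤ 1) →
    ∃ y : A, τ y = 0 ∧ ∑ i, n2 τ (cm (x i) y) ^ 2 < c * n2 τ y ^ 2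

/-- A family of unitaries with average spectral gap `Λ`. -/
def AG {ι : Type} [Fintype ι] (τ : A →ₗ[ℂ] ℂ) (Λ : ℝ) (u : ι → unitary A) : Prop :=
  ∀ y : A, τ y = 0 →
    Λ * (Fintype.card ι : ℝ) * n2 τ y ^ 2 ≤ ∑ i, n2 τ (cm (u i : A) y) ^ 2

end defs

end Pool.Agent.H518R4.UG
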