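import Mathlib
import Pool.Agent.H518R4.UG.Defs

/-!
Universal spectral gap for non-Gamma II_1 factors (MP_ab5fa7_an, S03914): exact statements of the
tasks (table h518u_tasks).  For each `S_X` the task is to prove `theorem p_X (…) : S_X`, where the
hypotheses `…` are the statements `S_Y` listed in the note of the task.
-/

set_option autoImplicit false

open scoped ComplexOrder Topology InnerProductSpace
open Filter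

noncomputable section

namespace Pool.Agent.H518R4.UG

open Pool.Agent.H467F

/-! ### Block A: basic facts -/

/-- SELF: a self-adjoint almost central vector. -/
def S_SELF : Prop :=
  ∀ (A : Type) [CStarAlgebra A] (τ : A →ₗ[ℂ] ℂ), TW τ → ∀ (k : ℕ) (c : ℝ), NG τ k c →
    ∀ (ι : Type) [Fintype ι] (x : ι → A), (∀ i, ‖x i‖ ≤ 1) → 2 * Fintype.card ι ≤ k →
    ∃ y : A, star y = y ∧ τ y = 0 ∧
      ∑ i, (n2 τ (cm (x i) y) ^ 2 + n2 τ (cm (star (x i)) y) ^ 2) < c * n2 τ y ^ 2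

/-- TWOU: contractions of a corner are combinations of unitaries commuting with `p`. -/
def S_TWOU : Prop :=
  ∀ (A : Type) [CStarAlgebra A] (τ : A →ₗ[ℂ] ℂ), TW τ → ∀ p x : A, IsPrj p → p * x * p = x →
    ‖x‖ ≤ 1 → ∃ u₁ u₂ : unitary A, (u₁ : A) * p = p * u₁ ∧ (u₂ : A) * p = p * u₂ ∧
      ∀ y : A, p * y = y → y * p = y →
        n2 τ (cm x y) ≤ n2 τ (cm (u₁ : A) y) + n2 τ (cm (u₂ : A) y) ∧
        n2 τ (cm (star x) y) ≤ n2 τ (cm (u₁ : A) y) + n2 τ (cm (u₂ : A) y)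

/-- PYTH: energy of a refined partition. -/
def S_PYTH : Prop :=
  ∀ (A : Type) [CStarAlgebra A] (τ : A →ₗ[ℂ] ℂ), TW τ →
    ∀ (J : Type) [Fintype J] (K : J → Type) [∀ j, Fintype (K j)] (e : A) (q : J → A)
      (s : ∀ j, K j → A) (f : A), IsPrj e → IsPart q e → (∀ j, IsPart (s j) (q j)) →
      IsPart (fun a : Σ j, K j => s a.1 a.2) e ∧
      n2 τ (e * f * e - pin (fun a : Σ j, K j => s a.1 a.2) f) ^ 2 =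
        n2 τ (e * f * e - pin q f) ^ 2 + ∑ j, n2 τ (q j * f * q j - pin (s j) f) ^ 2

/-! ### Block B: almost commuting projections -/

/-- WEI: weights of a unitary with respect to a partition. -/
def S_WEI : Prop :=
  ∀ (A : Type) [CStarAlgebra A] (τ : A →ₗ[ℂ] ℂ), TW τ →
    ∀ (I : Type) [Fintype I] (p : I → A) (e : A), IsPrj e → IsPart p e →
    ∀ u : unitary A, (u : A) * e = e * u →
    ∃ w : I → I → ℝ, (∀ i k, 0 ≤ w i k) ∧ (∀ i, ∑ k, w i k = (τ (p i)).re) ∧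
      (∀ k, ∑ i, w i k = (τ (p k)).re) ∧
      ∀ f : I → ℝ, n2 τ (cm (u : A) (∑ i, (f i : ℂ) • p i)) ^ 2 =
        ∑ i, ∑ k, w i k * (f i - f k) ^ 2

/-- COAR: real combinatorics (median, layer cake, Cauchy-Schwarz). -/
def S_COAR : Prop :=
  ∀ (I J : Type) [Fintype I] [Fintype J] [DecidableEq I] (t : I → ℝ), (∀ i, 0 ≤ t i) →
    ∀ w : J → I → I → ℝ, (∀ j i k, 0 ≤ w j i k) → (∀ j i, ∑ k, w j i k = t i) →
    (∀ j k, ∑ i, w j i k = t k) → ∀ (l : I → ℝ) (ε : ℝ), 0 ≤ ε →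
    (∀ c : ℝ, 0 < ∑ i, t i * (l i - c) ^ 2) →
    (∀ c : ℝ, ∑ j, ∑ i, ∑ k, w j i k * (l i - l k) ^ 2 ≤ ε ^ 2 * ∑ i, t i * (l i - c) ^ 2) →
    ∃ S : Finset I, 0 < ∑ i ∈ S, t i ∧ 2 * ∑ i ∈ S, t i ≤ ∑ i, t i ∧
      ∑ j, ∑ i, ∑ k, w j i k * ((if i ∈ S then (1 : ℝ) else 0) - (if k ∈ S then 1 else 0)) ^ 2 ≤
        3 * Real.sqrt (Fintype.card J) * ε * ∑ i ∈ S, t i

/-- CONN: an almost central self-adjoint element of a corner gives an almost central projection. -/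
def S_CONN : Prop :=
  ∀ (A : Type) [CStarAlgebra A] (τ : A →ₗ[ℂ] ℂ), Fct τ → ∀ (J : Type) [Fintype J]
    (u : J → unitary A) (e y : A) (ε : ℝ), IsPrj e → (∀ j, (u j : A) * e = e * u j) →
    star y = y → e * y = y → τ y = 0 → y ≠ 0 → 0 < ε →
    ∑ j, n2 τ (cm (u j : A) y) ^ 2 ≤ ε ^ 2 * n2 τ y ^ 2 →
    ∃ q : A, IsPrj q ∧ e * q = q ∧ 0 < (τ q).re ∧ (τ q).re ≤ (τ e).re / 2 ∧
      ∑ j, n2 τ (cm (u j : A) q) ^ 2 ≤ 6 * Real.sqrt (Fintype.card J) * ε * (τ q).re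

/-- COVER: finitely many partial isometries from `p` cover the unit. -/
def S_COVER : Prop :=
  ∀ (A : Type) [CStarAlgebra A] (τ : A →ₗ[ℂ] ℂ), Fct τ → ∀ (ρ : ℝ), 0 < ρ → ∀ p : A, IsPrj p →
    ρ ≤ (τ p).re → ∃ v : Fin (⌈1 / ρ⌉₊ + 1) → A, (∀ i, ‖v i‖ ≤ 1) ∧ (∀ i, v i * p = v i) ∧
      ∑ i, v i * star (v i) = 1

/-- COMPR: compression of an almost central vector to a corner. -/
def S_COMPR : Prop :=
  ∀ (A : Type) [CStarAlgebra A] (τ : A →ₗ[ℂ] ℂ), TW τ → ∀ (N : ℕ) (v : Fin N → A) (p y : A)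
    (c : ℝ), (∀ i, ‖v i‖ ≤ 1) → IsPrj p → (∀ i, v i * p = v i) → ∑ i, v i * star (v i) = 1 →
    τ y = 0 → ∑ i, n2 τ (cm (star (v i)) y) ^ 2 ≤ c * n2 τ y ^ 2 → c * N ≤ 1 / 4 →
    ∀ l : ℂ, n2 τ y ≤ 2 * N * n2 τ (p * y * p - l • p)

/-- PHASE: an almost commuting small subprojection in every corner which is not too small. -/
def S_PHASE : Prop :=
  ∀ (n : ℕ) (ρ ε : ℝ), 0 < ρ → 0 < ε → ∃ (k : ℕ) (c : ℝ), 0 < c ∧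
    ∀ (A : Type) [CStarAlgebra A] (τ : A →ₗ[ℂ] ℂ), Fct τ → NG τ k c →
    ∀ F : Fin n → A, (∀ i, ‖F i‖ ≤ 1) → ∀ p : A, IsPrj p → ρ ≤ (τ p).re →
    ∃ q : A, IsPrj q ∧ p * q = q ∧ 0 < (τ q).re ∧ (τ q).re ≤ (τ p).re / 2 ∧
      ∑ i, n2 τ (p * F i * p - (q * F i * q + (p - q) * F i * (p - q))) ^ 2 ≤ ε * (τ q).re

/-! ### Block C: partitions and matrix units -/

/-- LIMP: decreasing sequences of projections converge. -/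
def S_LIMP : Prop :=
  ∀ (A : Type) [CStarAlgebra A] (τ : A →ₗ[ℂ] ℂ), TW τ → ∀ e : ℕ → A, (∀ n, IsPrj (e n)) →
    (∀ n, e n * e (n + 1) = e (n + 1)) →
    ∃ e' : A, IsPrj e' ∧ (∀ n, e n * e' = e') ∧ Tendsto (fun n => n2 τ (e n - e')) atTop (𝓝 0)

/-- HALVE: every projection which is not too small can be cut in small pieces at small cost. -/
def S_HALVE : Prop :=
  ∀ (n : ℕ) (ρ ε : ℝ), 0 < ρ → 0 < ε → ∃ (k : ℕ) (c : ℝ), 0 < c ∧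
    ∀ (A : Type) [CStarAlgebra A] (τ : A →ₗ[ℂ] ℂ), Fct τ → NG τ k c →
    ∀ F : Fin n → A, (∀ i, ‖F i‖ ≤ 1) → ∀ e : A, IsPrj e → ρ ≤ (τ e).re →
    ∃ (m : ℕ) (q : Fin m → A), IsPart q e ∧ (∀ j, (τ (q j)).re ≤ (τ e).re / 2) ∧
      ∑ i, n2 τ (e * F i * e - pin q (F i)) ^ 2 ≤ ε

/-- PART: almost commuting partitions of the unit in small pieces. -/
def S_PART : Prop :=
  ∀ (n m : ℕ) (ε : ℝ), 0 < ε → ∃ (k : ℕ) (c : ℝ), 0 < c ∧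
    ∀ (A : Type) [CStarAlgebra A] (τ : A →ₗ[ℂ] ℂ), Fct τ → NG τ k c →
    ∀ F : Fin n → A, (∀ i, ‖F i‖ ≤ 1) →
    ∃ (M : ℕ) (q : Fin M → A), IsPart q 1 ∧ (∀ j, (τ (q j)).re ≤ (1 / 2) ^ m) ∧
      ∑ i, n2 τ (F i - pin q (F i)) ^ 2 ≤ ε

/-- GROUP: grouping small weights. -/
def S_GROUP : Prop :=
  ∀ (M r : ℕ) (t : Fin M → ℝ) (ρ : ℝ), 0 < r → 0 ≤ ρ → (∀ j, 0 ≤ t j) → ∑ j, t j = 1 →
    (∀ j, t j ≤ ρ) → ∃ c : Fin M → Fin r, ∀ s : Fin r,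
      |(∑ j, if c j = s then t j else 0) - 1 / r| ≤ ρ

/-- MERGE: merging a partition. -/
def S_MERGE : Prop :=
  ∀ (A : Type) [CStarAlgebra A] (τ : A →ₗ[ℂ] ℂ), TW τ → ∀ (M r : ℕ) (q : Fin M → A)
    (c : Fin M → Fin r), IsPart q 1 →
    IsPart (fun s : Fin r => ∑ j, if c j = s then q j else 0) 1 ∧
    ∀ f : A, n2 τ (f - pin (fun s : Fin r => ∑ j, if c j = s then q j else 0) f) ≤
      n2 τ (f - pin q f)

/-- ALIGN: matrix units whose diagonal is close to a given partition. -/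
def S_ALIGN : Prop :=
  ∀ (A : Type) [CStarAlgebra A] (τ : A →ₗ[ℂ] ℂ), Fct τ → ∀ (r : ℕ) (g : Fin r → A) (ρ : ℝ)
    (v : Fin r → A) (g₀ : A), 0 ≤ ρ → IsPart g 1 → (∀ s, |(τ (g s)).re - 1 / r| ≤ ρ) →
    IsMU v g₀ → ∃ w : unitary A, ∀ s, n2 τ ((w : A) * dg v s * star (w : A) - g s) ≤ Real.sqrt ρ

/-- MUL: without spectral gap, finite families almost commute with the diagonal of some matrix
units. -/
def S_MUL : Prop :=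
  ∀ (n a : ℕ) (η : ℝ), 0 < η → ∃ (k : ℕ) (c : ℝ), 0 < c ∧
    ∀ (A : Type) [CStarAlgebra A] (τ : A →ₗ[ℂ] ℂ), Fct τ → NG τ k c →
    ∀ F : Fin n → A, (∀ i, ‖F i‖ ≤ 1) →
    ∃ (v : Fin (2 ^ a) → A) (g : A), IsMU v g ∧ ∀ i, n2 τ (F i - pin (dg v) (F i)) ≤ η

/-! ### Block D: quantum expanders -/

/-- BURG: the combinatorial core. -/
def S_BURG : Prop :=
  ∀ (n : ℕ) [NeZero n] (c : ZMod n × ZMod n → ℝ), (∀ v, 0 ≤ c v) → c 0 = 0 →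
    ∑ v, c v ^ 2 ≤ 400 * (∑ v, ‖(ZMod.stdAddChar v.1 : ℂ) - 1‖ ^ 2 * c v ^ 2 +
      ∑ v, ‖(ZMod.stdAddChar v.2 : ℂ) - 1‖ ^ 2 * c v ^ 2 +
      ∑ v, (c (v.1, v.2 + v.1) - c v) ^ 2 + ∑ v, (c (v.1 + v.2, v.2) - c v) ^ 2)

/-- LIFT: elementary properties of `lift`, `dn`, `EM`. -/
def S_LIFT : Prop :=
  ∀ (A : Type) [CStarAlgebra A] (τ : A →ₗ[ℂ] ℂ), TW τ → ∀ (I : Type) [Fintype I] [Nonempty I]
    (v : I → A) (g : A), IsMU v g → IsPrj g ∧ (∀ i, v i * g = v i) ∧ (∀ i, ‖v i‖ ≤ 1) ∧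
    (∀ i, (τ (dg v i)).re = 1 / Fintype.card I) ∧
    (∀ x, g * dn v x = dn v x ∧ dn v x * g = dn v x) ∧
    (∀ x, g * x = x → x * g = x → dn v (lift v x) = x) ∧
    (∀ x, n2 τ (lift v x) ^ 2 = Fintype.card I * n2 τ (g * x * g) ^ 2) ∧
    (∀ x y, lift v (g * x * g) * lift v (g * y * g) = lift v (g * x * g * (g * y * g))) ∧
    (∀ x, star (lift v x) = lift v (star x)) ∧
    (∀ x, τ (EM v x) = τ x) ∧
    (∀ x, n2 τ (EM v x) ≤ n2 τ x) ∧ (∀ x, ‖EM v x‖ ≤ ‖x‖) ∧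
    (∀ x i j, v i * star (v j) * EM v x = EM v x * (v i * star (v j))) ∧
    (∀ x y, (∀ i j, v i * star (v j) * y = y * (v i * star (v j))) →
      EM v y = y ∧ EM v (x * y) = EM v x * y ∧ EM v (y * x) = y * EM v x ∧
      τ (x * y) = τ (EM v x * y))

/-- PARS: Parseval identity for the Weyl operators. -/
def S_PARS : Prop :=
  ∀ (A : Type) [CStarAlgebra A] (τ : A →ₗ[ℂ] ℂ), TW τ → ∀ (n : ℕ) [NeZero n] (v : ZMod n → A)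
    (g : A), IsMU v g → ∀ y : A,
    ∑ w : ZMod n × ZMod n, n2 τ (EM v (star (Wy v w.1 w.2) * y)) ^ 2 = n2 τ y ^ 2

/-- WEYL: the four unitaries. -/
def S_WEYL : Prop :=
  ∀ (A : Type) [CStarAlgebra A] (τ : A →ₗ[ℂ] ℂ), TW τ → ∀ (n : ℕ) [NeZero n], Even n →
    ∀ (v : ZMod n → A) (g : A), IsMU v g →
    ∃ u : Fin 4 → unitary A,
      (∀ i, ∃ κ : ZMod n → ZMod n → ℂ, (u i : A) = ∑ s, ∑ t, κ s t • (v s * star (v t))) ∧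
      (∀ a b : ZMod n, ∃ z : Fin 4 → ℂ, (∀ i, ‖z i‖ = 1) ∧
        (u 0 : A) * Wy v a b * star (u 0 : A) = (ZMod.stdAddChar a : ℂ) • Wy v a b ∧
        (u 1 : A) * Wy v a b * star (u 1 : A) = (ZMod.stdAddChar (-b) : ℂ) • Wy v a b ∧
        (u 2 : A) * Wy v a b * star (u 2 : A) = z 2 • Wy v a (b + a) ∧
        (u 3 : A) * Wy v a b * star (u 3 : A) = z 3 • Wy v (a - b) b)

/-- QE: quantum expanders. -/
def S_QE : Prop :=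
  ∀ (A : Type) [CStarAlgebra A] (τ : A →ₗ[ℂ] ℂ), TW τ → ∀ (a : ℕ) (v : Fin (2 ^ a) → A) (g : A),
    IsMU v g → ∃ u : Fin 4 → unitary A, ∀ y : A,
      n2 τ (y - EM v y) ^ 2 ≤ 400 * ∑ i, n2 τ (cm (u i : A) y) ^ 2

/-! ### Block E: packing -/

/-- SIGNS: `G = r^{-1/2} ∑ ± v_s f_s^t v_t^*`. -/
def S_SIGNS : Prop :=
  ∀ (A : Type) [CStarAlgebra A] (τ : A →ₗ[ℂ] ℂ), TW τ → ∀ (I : Type) [Fintype I] [Nonempty I]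
    (v : I → A) (g : A), IsMU v g → ∀ f : I → A, (∀ s, ‖f s‖ ≤ 1) →
    ∃ G : A, n2 τ (star G * G) ^ 2 ≤ 2 ∧
      (∀ y : A, g * y = y → y * g = y → (Fintype.card I : ℝ) * n2 τ (cm G (lift v y)) ^ 2 =
        ∑ s, n2 τ (cm (pin (dg v) (f s)) (lift v y)) ^ 2) ∧
      (∀ y : A, g * y = y → y * g = y → n2 τ (G * lift v y) ≤ n2 τ (lift v y) ∧
        n2 τ (lift v y * G) ≤ n2 τ (lift v y))

/-- TRUNC: truncation. -/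
def S_TRUNC : Prop :=
  ∀ (A : Type) [CStarAlgebra A] (τ : A →ₗ[ℂ] ℂ), TW τ → ∀ (G : A) (C : ℝ), 0 < C →
    n2 τ (star G * G) ^ 2 ≤ 2 →
    ∃ G₁ G₂ : A, G = G₁ + G₂ ∧ ‖G₁‖ ≤ C / 2 ∧ n2 τ G₂ ^ 2 ≤ 1 / (2 * C ^ 2) ∧
      ∀ x : A, n2 τ (G₂ * x) ≤ n2 τ (G * x) ∧ n2 τ (x * G₂) ≤ n2 τ (x * G)

/-- ZPR: outside a small projection of the commutant of the matrix units, elements with small
2-norm are small on the commutant. -/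
def S_ZPR : Prop :=
  ∀ (A : Type) [CStarAlgebra A] (τ : A →ₗ[ℂ] ℂ), Fct τ → ∀ (I : Type) [Fintype I] [Nonempty I]
    (v : I → A) (g : A), IsMU v g → ∀ (L : Type) [Fintype L] (x : L → A) (θ : ℝ), 0 < θ →
    ∃ z : A, IsPrj z ∧ g * z = z ∧
      (τ (lift v z)).re ≤ 2 * (∑ l, n2 τ (x l) ^ 2) / θ ∧
      ∀ y : A, g * y = y → y * g = y → z * y = 0 →
        ∑ l, n2 τ (x l * lift v y) ^ 2 ≤ θ * n2 τ (lift v y) ^ 2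

/-- COPIES: many orthogonal copies of a small projection. -/
def S_COPIES : Prop :=
  ∀ (A : Type) [CStarAlgebra A] (τ : A →ₗ[ℂ] ℂ), Fct τ → ∀ (N : ℕ) (z : A), IsPrj z →
    N * (τ z).re ≤ 1 → ∃ w : Fin N → A, (∀ i, star (w i) * w i = z) ∧
      ∀ i j, i ≠ j → star (w i) * w j = 0

/-- MASS: almost central vectors have small mass on small projections. -/
def S_MASS : Prop :=
  ∀ (A : Type) [CStarAlgebra A] (τ : A →ₗ[ℂ] ℂ), TW τ → ∀ (N : ℕ) (z : A) (w : Fin N → A),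
    IsPrj z → (∀ i, star (w i) * w i = z) → (∀ i j, i ≠ j → star (w i) * w j = 0) →
    (∀ i, ‖w i‖ ≤ 1) ∧ ∀ y : A,
      N * n2 τ (z * y) ^ 2 ≤ 2 * n2 τ y ^ 2 + 2 * ∑ i, n2 τ (cm (w i) y) ^ 2 ∧
      N * n2 τ (y * z) ^ 2 ≤ 2 * n2 τ y ^ 2 + 2 * ∑ i, n2 τ (cm (star (w i)) y) ^ 2

/-- BLOCK: `2^a` contractions are packed in a bounded number of unitaries. -/
def S_BLOCK : Prop :=
  ∃ (L : ℕ) (C η : ℝ), 0 < L ∧ 0 < C ∧ 0 < η ∧ ∀ (a : ℕ) (A : Type) [CStarAlgebra A]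
    (τ : A →ₗ[ℂ] ℂ), Fct τ → ∀ (v : Fin (2 ^ a) → A) (g : A), IsMU v g →
    ∀ f : Fin (2 ^ a) → A, (∀ s, ‖f s‖ ≤ 1) →
    (∀ s, (2 : ℝ) ^ a * n2 τ (f s - pin (dg v) (f s)) ^ 2 ≤ η) →
    ∃ u : Fin L → unitary A, ∀ y : A, ∑ s, n2 τ (cm (f s) y) ^ 2 ≤
      (2 : ℝ) ^ a * ((1 / 20) * n2 τ y ^ 2 + C * ∑ i, n2 τ (cm (u i : A) y) ^ 2)

/-- PACK: without universal spectral gap a long tuple with gap can be shortened. -/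
def S_PACK : Prop :=
  ∃ (L : ℕ) (Λ : ℝ), 0 < L ∧ 0 < Λ ∧ ∀ a : ℕ, ∃ (k : ℕ) (c : ℝ), 0 < c ∧
    ∀ (A : Type) [CStarAlgebra A] (τ : A →ₗ[ℂ] ℂ), Fct τ → NG τ k c →
    ∀ (K : ℕ) (u : Fin K → unitary A), 2 ^ a ≤ K → AG τ 1 u →
    ∃ K₁ : ℕ, 0 < K₁ ∧ 2 ^ a * K₁ ≤ 2 * K * L ∧ ∃ u' : Fin K₁ → unitary A, AG τ Λ u'

/-! ### Block F: boosting by expander walks -/

/-- PSD: a positive operator with small numerical range has small norm. -/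
def S_PSD : Prop :=
  ∀ (E : Type) [NormedAddCommGroup E] [InnerProductSpace ℂ E] (T : E →ₗ[ℂ] E) (t : ℝ),
    (∀ x y, ⟪T x, y⟫_ℂ = ⟪x, T y⟫_ℂ) → (∀ x, 0 ≤ (⟪T x, x⟫_ℂ).re) →
    (∀ x, (⟪T x, x⟫_ℂ).re ≤ t * ‖x‖ ^ 2) → ∀ x, ‖T x‖ ≤ t * ‖x‖

/-- CEXP: the classical expander on `ZMod m × ZMod m`. -/
def S_CEXP : Prop :=
  ∀ (E : Type) [NormedAddCommGroup E] [InnerProductSpace ℂ E] (m : ℕ) [NeZero m]
    (F : ZMod m × ZMod m → E), ∑ v, F v = 0 →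
    ∑ v, ‖F v‖ ^ 2 ≤ 400 * (∑ v, ‖F (v.1 + 1, v.2) - F v‖ ^ 2 + ∑ v, ‖F (v.1, v.2 + 1) - F v‖ ^ 2 +
      ∑ v, ‖F (v.1, v.2 + v.1) - F v‖ ^ 2 + ∑ v, ‖F (v.1 + v.2, v.2) - F v‖ ^ 2)

/-- GRAPH: permutations with spectral gap on `ZMod m × ZMod m`. -/
def S_GRAPH : Prop :=
  ∃ (d : ℕ) (p : ℝ), 0 < d ∧ 0 ≤ p ∧ p < 1 ∧ ∀ (m : ℕ) [NeZero m],
    ∃ σ : Fin d → Equiv.Perm (ZMod m × ZMod m),
    ∀ (E : Type) [NormedAddCommGroup E] [InnerProductSpace ℂ E] (F : ZMod m × ZMod m → E),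
    ∑ v, F v = 0 →
    ∑ v, ‖((d : ℂ))⁻¹ • ∑ i, F (σ i v)‖ ^ 2 ≤ p ^ 2 * ∑ v, ‖F v‖ ^ 2

/-- WALK: products along walks. -/
def S_WALK : Prop :=
  ∀ (V : Type) [Fintype V] [Nonempty V] (d : ℕ) (p t : ℝ) (σ : Fin d → Equiv.Perm V) (M : ℕ),
    0 < d → 0 ≤ p → p < 1 → 0 ≤ t → t ≤ 1 →
    ∃ (Ω : Type) (_ : Fintype Ω) (pa : Ω → List V), Fintype.card Ω = Fintype.card V * d ^ (2 * M) ∧
    ∀ (E : Type) [NormedAddCommGroup E] [InnerProductSpace ℂ E] (U : V → (E →ₗ[ℂ] E)),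
      (∀ v x, ‖U v x‖ = ‖x‖) →
      (∀ F : V → E, ∑ v, F v = 0 →
        ∑ v, ‖((d : ℂ))⁻¹ • ∑ i, F (σ i v)‖ ^ 2 ≤ p ^ 2 * ∑ v, ‖F v‖ ^ 2) →
      (∀ x, ‖((Fintype.card V : ℂ))⁻¹ • ∑ v, U v x‖ ≤ t * ‖x‖) →
      ∀ x, ‖((Fintype.card Ω : ℂ))⁻¹ • ∑ ω, (pa ω).foldr (fun v y => U v y) x‖ ≤
        (1 - (1 - p) ^ 2 * (1 - t)) ^ M * ‖x‖

/-- SPACE: the trace zero part as an inner product space. -/
def S_SPACE : Prop :=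
  ∀ (A : Type) [CStarAlgebra A] (τ : A →ₗ[ℂ] ℂ), TW τ →
    ∃ (E : Type) (_ : NormedAddCommGroup E) (_ : InnerProductSpace ℂ E)
      (ι : E →ₗ[ℂ] A), Function.Injective ι ∧ (∀ y : A, (∃ x, ι x = y) ↔ τ y = 0) ∧
      (∀ x y : E, ⟪x, y⟫_ℂ = τ (star (ι x) * ι y)) ∧ (∀ x : E, ‖x‖ = n2 τ (ι x)) ∧
      ∀ u : unitary A, ∃ U : E →ₗ[ℂ] E, ∀ x, ι (U x) = (u : A) * ι x * star (u : A)

/-- BOOST: boosting the gap at the cost of a constant factor. -/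
def S_BOOST : Prop :=
  ∀ Λ : ℝ, 0 < Λ → ∃ B : ℕ, ∀ (A : Type) [CStarAlgebra A] (τ : A →ₗ[ℂ] ℂ), TW τ →
    ∀ (K : ℕ) (u : Fin K → unitary A), 0 < K → AG τ Λ u →
    ∃ K' : ℕ, 0 < K' ∧ K' ≤ B * K ∧ ∃ u' : Fin K' → unitary A, AG τ 1 u'

/-! ### Block G: conclusion -/

/-- FROMGAP: contractions with gap give unitaries with gap. -/
def S_FROMGAP : Prop :=
  ∀ (A : Type) [CStarAlgebra A] (τ : A →ₗ[ℂ] ℂ), TW τ → ∀ (k : ℕ) (c : ℝ), 0 < c → ¬ NG τ k c →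
    ∃ (K : ℕ) (Λ : ℝ) (u : Fin K → unitary A), 0 < K ∧ 0 < Λ ∧ AG τ Λ u

/-- UNIV: the universal spectral gap. -/
def S_UNIV : Prop :=
  ∃ (k : ℕ) (c : ℝ), 0 < c ∧ ∀ (A : Type) [CStarAlgebra A] (τ : A →ₗ[ℂ] ℂ), Fct τ →
    (∃ (k' : ℕ) (c' : ℝ), 0 < c' ∧ ¬ NG τ k' c') → ¬ NG τ k c

/-- NGAM: no gap at all implies property Gamma. -/
def S_NGAM : Prop :=
  ∀ (A : Type) [CStarAlgebra A] (τ : A →ₗ[ℂ] ℂ), Fct τ → (∀ (k : ℕ) (c : ℝ), 0 < c → NG τ k c) →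
    ∀ (n : ℕ) (x : Fin n → A) (ε : ℝ), 0 < ε →
    ∃ u : unitary A, τ (u : A) = 0 ∧ ∀ i, n2 τ (cm (u : A) (x i)) < ε

/-! ### Block H: concrete von Neumann algebras -/

/-- FCT: concrete II_1 factors (with a normal trace) have the properties used. -/
def S_FCT : Prop :=
  ∀ (H : Type) [NormedAddCommGroup H] [InnerProductSpace ℂ H] [CompleteSpace H]
    (N : VonNeumannAlgebra H) (t : Elt N →ₗ[ℂ] ℂ), IsIIOneFactor N (t : Elt N → ℂ) → Fct t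

/-- NORM: a faithful tracial state on an infinite dimensional factor on `ℓ²` is normal. -/
def S_NORM : Prop :=
  ∀ (N : VonNeumannAlgebra (lp (fun _ : ℕ => ℂ) 2))
    (τ : (lp (fun _ : ℕ => ℂ) 2 →L[ℂ] lp (fun _ : ℕ => ℂ) 2) →ₗ[ℂ] ℂ),
    (∀ z ∈ N, (∀ x ∈ N, z * x = x * z) →
      ∃ c : ℂ, z = algebraMap ℂ (lp (fun _ : ℕ => ℂ) 2 →L[ℂ] lp (fun _ : ℕ => ℂ) 2) c) →
    (∀ n : ℕ, ∃ f : Fin n → (lp (fun _ : ℕ => ℂ) 2 →L[ℂ] lp (fun _ : ℕ => ℂ) 2),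
      (∀ k, f k ∈ N) ∧ LinearIndependent ℂ f) →
    τ 1 = 1 →
    (∀ x ∈ N, (τ (star x * x)).im = 0 ∧ 0 ≤ (τ (star x * x)).re) →
    (∀ x ∈ N, ∀ y ∈ N, τ (x * y) = τ (y * x)) →
    (∀ x ∈ N, τ (star x * x) = 0 → x = 0) →
    ∃ t : Elt N →ₗ[ℂ] ℂ, IsIIOneFactor N (t : Elt N → ℂ) ∧ ∀ x : Elt N, t x = τ (x : _ →L[ℂ] _)

/-- FINAL: the frozen statement S03914. -/
def S_FINAL : Prop :=
    ¬ (∃ (N : ℕ → VonNeumannAlgebra (lp (fun _ : ℕ => ℂ) 2))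
      (τ : ℕ → ((lp (fun _ : ℕ => ℂ) 2 →L[ℂ] lp (fun _ : ℕ => ℂ) 2) →ₗ[ℂ] ℂ)),
      (∀ i : ℕ,
        (∀ z ∈ N i, (∀ x ∈ N i, z * x = x * z) →
          ∃ c : ℂ, z = algebraMap ℂ (lp (fun _ : ℕ => ℂ) 2 →L[ℂ] lp (fun _ : ℕ => ℂ) 2) c) ∧
        (∀ n : ℕ, ∃ f : Fin n → (lp (fun _ : ℕ => ℂ) 2 →L[ℂ] lp (fun _ : ℕ => ℂ) 2),
          (∀ k, f k ∈ N i) ∧ LinearIndependent ℂ f) ∧
        τ i 1 = 1 ∧
        (∀ x ∈ N i, (τ i (star x * x)).im = 0 ∧ 0 ≤ (τ i (star x * x)).re) ∧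
        (∀ x ∈ N i, ∀ y ∈ N i, τ i (x * y) = τ i (y * x)) ∧
        (∀ x ∈ N i, τ i (star x * x) = 0 → x = 0) ∧
        ¬ (∀ n : ℕ, ∀ x : Fin n → (lp (fun _ : ℕ => ℂ) 2 →L[ℂ] lp (fun _ : ℕ => ℂ) 2),
            (∀ k, x k ∈ N i) → ∀ ε : ℝ, 0 < ε →
            ∃ u ∈ N i, u ∈ unitary (lp (fun _ : ℕ => ℂ) 2 →L[ℂ] lp (fun _ : ℕ => ℂ) 2) ∧
              τ i u = 0 ∧
              ∀ k, (τ i (star (u * x k - x k * u) * (u * x k - x k * u))).re < ε ^ 2)) ∧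
      ∃ U : Ultrafilter ℕ, (U : Filter ℕ) ≤ Filter.cofinite ∧
        ∀ n : ℕ, ∀ x : Fin n → ℕ → (lp (fun _ : ℕ => ℂ) 2 →L[ℂ] lp (fun _ : ℕ => ℂ) 2),
          (∀ k i, x k i ∈ N i) → (∃ C : ℝ, ∀ k i, ‖x k i‖ ≤ C) → ∀ ε : ℝ, 0 < ε →
          ∃ u : ℕ → (lp (fun _ : ℕ => ℂ) 2 →L[ℂ] lp (fun _ : ℕ => ℂ) 2),
            (∀ i, u i ∈ N i ∧ u i ∈ unitary (lp (fun _ : ℕ => ℂ) 2 →L[ℂ] lp (fun _ : ℕ => ℂ) 2)) ∧
            Filter.Tendsto (fun i => τ i (u i)) (U : Filter ℕ) (nhds 0) ∧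
            ∀ k, ∀ᶠ i in (U : Filter ℕ),
              (τ i (star (u i * x k i - x k i * u i) * (u i * x k i - x k i * u i))).re < ε ^ 2)

end Pool.Agent.H518R4.UG
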