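import Mathlib
import Pool.Agent.H518R4.UG.Stubs

/-!
ALIGN: matrix units whose diagonal is close to a given partition.
-/

set_option autoImplicit false

open scoped ComplexOrder Topology InnerProductSpace
open Filter

noncomputable section

namespace Pool.Agent.H518R4.UG

open Pool.Agent.H467F

section align

variable {A : Type} [CStarAlgebra A] {τ : A →ₗ[ℂ] ℂ}

theorem al_mul_dom (h : TW τ) {v p : A} (hp : IsPrj p) (hv : star v * v = p) : v * p = v := by
  have h1 : star (v - v * p) * (v - v * p) = 0 := by
    have e : star (v - v * p) * (v - v * p) =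
        star v * v - star v * v * p - p * (star v * v) + p * (star v * v) * p := by
      rw [star_sub, star_mul, hp.1]
      noncomm_ring
    rw [e, hv, hp.2, hp.2]
    noncomm_ring
  have h2 := h.faithful (v - v * p) (by rw [h1, map_zero])
  exact (sub_eq_zero.1 h2).symm

theorem al_exV (h : Fct τ) {p q : A} (hp : IsPrj p) (hq : IsPrj q) :
    ∃ V : A, V * p = V ∧ q * V = V ∧ V * star V * V = V ∧ (star V * V = p ∨ V * star V = q) := by
  rcases h.comp p q hp hq with ⟨v, h1, h2⟩ | ⟨u, h1, h2⟩
  · have h3 := al_mul_dom h.tw hp h1
    refine ⟨v, h3, h2, ?_, Or.inl h1⟩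
    rw [mul_assoc, h1, h3]
  · have h3 := al_mul_dom h.tw hq h1
    have h4 : star u * p = star u := by
      have := congrArg star h2
      rwa [star_mul, hp.1] at this
    have h5 : q * star u = star u := by
      have := congrArg star h3
      rwa [star_mul, hq.1] at this
    refine ⟨star u, h4, h5, ?_, Or.inr ?_⟩
    · rw [star_star, h1, h5]
    · rw [star_star, h1]

theorem al_prj_sub {p : A} (hp : IsPrj p) : IsPrj (1 - p) := by
  refine ⟨by rw [star_sub, star_one, hp.1], ?_⟩
  have : (1 - p) * (1 - p) = 1 - p - p + p * p := by noncomm_ring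
  rw [this, hp.2]
  noncomm_ring

/-- comparison of projections with the same trace -/
theorem al_eq_of_sub (h : TW τ) {p q : A} (hp : IsPrj p) (hq : IsPrj q) (ht : τ p = τ q)
    (hs : Sub p q) : ∃ b : A, star b * b = p ∧ b * star b = q := by
  obtain ⟨b, h1, h2⟩ := hs
  refine ⟨b, h1, ?_⟩
  have h3 := al_mul_dom h hp h1
  have hbb : b * star b * (b * star b) = b * star b := by
    calc b * star b * (b * star b) = b * (star b * b) * star b := by noncomm_ring
      _ = b * star b := by rw [h1, h3]
  have hqb : q * (b * star b) = b * star b := by rw [← mul_assoc, h2]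
  have hbq : b * star b * q = b * star b := by
    have := congrArg star hqb
    rwa [star_mul, star_mul, star_star, hq.1] at this
  have hself : star (q - b * star b) = q - b * star b := by
    rw [star_sub, hq.1, star_mul, star_star]
  have h4 : star (q - b * star b) * (q - b * star b) = q - b * star b := by
    rw [hself]
    calc (q - b * star b) * (q - b * star b)
        = q * q - q * (b * star b) - b * star b * q + b * star b * (b * star b) := by noncomm_ring
      _ = q - b * star b := by rw [hq.2, hqb, hbq, hbb]; noncomm_ring
  have h5 : τ (star (q - b * star b) * (q - b * star b)) = 0 := by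
    rw [h4, map_sub, h.comm b (star b), h1, ht, sub_self]
  exact (sub_eq_zero.1 (h.faithful _ h5)).symm

theorem al_eq (h : Fct τ) {p q : A} (hp : IsPrj p) (hq : IsPrj q) (ht : τ p = τ q) :
    ∃ b : A, star b * b = p ∧ b * star b = q := by
  rcases h.comp p q hp hq with hs | hs
  · exact al_eq_of_sub h.tw hp hq ht hs
  · obtain ⟨b, h1, h2⟩ := al_eq_of_sub h.tw hq hp ht.symm hs
    exact ⟨star b, by rw [star_star, h2], by rw [star_star, h1]⟩

end align

theorem p_ALIGN : S_ALIGN := by
  intro A _ τ hF r g ρ v g₀ hρ hg hgt hv
  have h := hF.tw
  -- the diagonal of the matrix units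
  have hvv : ∀ s, v s * star (v s) * v s = v s := by
    intro s
    have h1 : (∑ i, v i * star (v i)) * v s = v s := by rw [hv.sum, one_mul]
    rw [Finset.sum_mul, Finset.sum_eq_single s] at h1
    · exact h1
    · intro i _ hi
      rw [mul_assoc, hv.ort i s hi, mul_zero]
    · intro hn
      exact absurd (Finset.mem_univ s) hn
  set d : Fin r → A := dg v with hd
  have hdd : ∀ s, d s = v s * star (v s) := fun s => rfl
  have hdp : ∀ s, IsPrj (d s) := by
    intro s
    refine ⟨by rw [hdd, star_mul, star_star], ?_⟩
    rw [hdd, ← mul_assoc, hvv]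
  have hdo : ∀ s t, s ≠ t → d s * d t = 0 := by
    intro s t hst
    rw [hdd, hdd]
    calc v s * star (v s) * (v t * star (v t)) = v s * (star (v s) * v t) * star (v t) := by
          noncomm_ring
      _ = 0 := by rw [hv.ort s t hst]; noncomm_ring
  have hdt : ∀ s, (τ (d s)).re = 1 / r := by
    intro s
    have h1 : ∀ t, τ (d t) = τ g₀ := by
      intro t
      rw [hdd, h.comm, hv.ini]
    have h2 : (r : ℂ) * τ g₀ = 1 := by
      have h3 := congrArg τ hv.sum
      rw [map_sum, h.one] at h3
      have h5 : ∑ t, τ (v t * star (v t)) = ∑ _t : Fin r, τ g₀ :=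
        Finset.sum_congr rfl fun t _ => h1 t
      rw [← h3, h5, Finset.sum_const, Finset.card_univ, Fintype.card_fin, nsmul_eq_mul]
    have h4 := congrArg Complex.re h2
    rw [← Complex.ofReal_natCast, Complex.re_ofReal_mul, Complex.one_re] at h4
    have hr : (r : ℝ) ≠ 0 := by
      intro h0
      rw [h0, zero_mul] at h4
      exact zero_ne_one h4
    rw [h1 s]
    field_simp
    linarith
  -- partial isometries
  choose V V1 V2 V3 V4 using fun s => al_exV hF (hdp s) (hg.prj s)
  have V1' : ∀ s, d s * star (V s) = star (V s) := by
    intro s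
    have := congrArg star (V1 s)
    rwa [star_mul, (hdp s).1] at this
  have V2' : ∀ s, star (V s) * g s = star (V s) := by
    intro s
    have := congrArg star (V2 s)
    rwa [star_mul, (hg.prj s).1] at this
  have O1 : ∀ s t, s ≠ t → star (V s) * V t = 0 := by
    intro s t hst
    calc star (V s) * V t = star (V s) * g s * (g t * V t) := by rw [V2', V2]
      _ = star (V s) * (g s * g t) * V t := by noncomm_ring
      _ = 0 := by rw [hg.ort s t hst]; noncomm_ring
  have O2 : ∀ s t, s ≠ t → V s * star (V t) = 0 := by
    intro s t hst
    calc V s * star (V t) = V s * d s * (d t * star (V t)) := by rw [V1', V1]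
      _ = V s * (d s * d t) * star (V t) := by noncomm_ring
      _ = 0 := by rw [hdo s t hst]; noncomm_ring
  have O3 : ∀ s t, s ≠ t → V s * d t = 0 := by
    intro s t hst
    calc V s * d t = V s * d s * d t := by rw [V1]
      _ = V s * (d s * d t) := by noncomm_ring
      _ = 0 := by rw [hdo s t hst]; noncomm_ring
  set P : A := ∑ s, star (V s) * V s with hP
  set Q : A := ∑ s, V s * star (V s) with hQ
  set W : A := ∑ s, V s with hW
  have single : ∀ (f : Fin r → A) (s : Fin r), (∀ t, t ≠ s → f t = 0) → ∑ t, f t = f s := by
    intro f s hf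
    exact Finset.sum_eq_single s (fun t _ ht => hf t ht) (fun hn => absurd (Finset.mem_univ s) hn)
  have hWW : star W * W = P := by
    rw [hW, star_sum, Finset.sum_mul_sum]
    exact Finset.sum_congr rfl fun s _ => single _ s fun t ht => O1 s t ht.symm
  have hWW' : W * star W = Q := by
    rw [hW, star_sum, Finset.sum_mul_sum]
    exact Finset.sum_congr rfl fun s _ => single _ s fun t ht => O2 s t ht.symm
  have VP : ∀ s, V s * P = V s := by
    intro s
    rw [hP, Finset.mul_sum, single _ s]
    · rw [← mul_assoc, V3]
    · intro t ht
      rw [← mul_assoc, O2 s t ht.symm, zero_mul]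
  have QV : ∀ s, Q * V s = V s := by
    intro s
    rw [hQ, Finset.sum_mul, single _ s (fun t ht => by rw [mul_assoc, O1 t s ht, mul_zero]), V3]
  have hPs : star P = P := by
    rw [hP, star_sum]
    exact Finset.sum_congr rfl fun s _ => by rw [star_mul, star_star]
  have hQs : star Q = Q := by
    rw [hQ, star_sum]
    exact Finset.sum_congr rfl fun s _ => by rw [star_mul, star_star]
  have hPP : P * P = P := by
    conv_lhs => rw [hP, ← hP]
    calc P * P = ∑ s, star (V s) * V s * P := by
          conv_lhs => rw [show P * P = (∑ s, star (V s) * V s) * P from rfl, Finset.sum_mul]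
      _ = P := Finset.sum_congr rfl fun s _ => by rw [mul_assoc, VP]
  have hQQ : Q * Q = Q := by
    calc Q * Q = ∑ s, Q * (V s * star (V s)) := by
          conv_lhs => rw [show Q * Q = Q * (∑ s, V s * star (V s)) from rfl, Finset.mul_sum]
      _ = Q := Finset.sum_congr rfl fun s _ => by rw [← mul_assoc, QV]
  have hWP : W * P = W := by
    rw [hW, Finset.sum_mul]
    exact Finset.sum_congr rfl fun s _ => VP s
  have hQW : Q * W = W := by
    rw [hW, Finset.mul_sum]
    exact Finset.sum_congr rfl fun s _ => QV s
  have hPQ : τ (1 - P) = τ (1 - Q) := by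
    rw [map_sub, map_sub, ← hWW, ← hWW', h.comm]
  obtain ⟨b, b1, b2⟩ := al_eq hF (al_prj_sub ⟨hPs, hPP⟩) (al_prj_sub ⟨hQs, hQQ⟩) hPQ
  have b3 : b * P = 0 := by
    have h1 := al_mul_dom h (al_prj_sub ⟨hPs, hPP⟩) b1
    rw [mul_sub, mul_one] at h1
    exact sub_eq_self.1 h1
  have b4 : Q * b = 0 := by
    have h1 : (1 - Q) * b = b := by
      rw [← b2, mul_assoc, b1]
      exact al_mul_dom h (al_prj_sub ⟨hPs, hPP⟩) b1
    rw [sub_mul, one_mul] at h1
    exact sub_eq_self.1 h1
  have c1 : star W * b = 0 := by
    calc star W * b = star (Q * W) * b := by rw [hQW]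
      _ = star W * (Q * b) := by rw [star_mul, hQs, mul_assoc]
      _ = 0 := by rw [b4, mul_zero]
  have c1' : star b * W = 0 := by
    have := congrArg star c1
    rwa [star_mul, star_star, star_zero] at this
  have c2 : W * star b = 0 := by
    calc W * star b = W * P * star b := by rw [hWP]
      _ = W * star (b * P) := by rw [star_mul, hPs, mul_assoc]
      _ = 0 := by rw [b3, star_zero, mul_zero]
  have c2' : b * star W = 0 := by
    have := congrArg star c2
    rwa [star_mul, star_star, star_zero] at this
  have u1 : star (W + b) * (W + b) = 1 := by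
    calc star (W + b) * (W + b) = star W * W + star W * b + star b * W + star b * b := by
          rw [star_add]; noncomm_ring
      _ = 1 := by rw [hWW, c1, c1', b1]; noncomm_ring
  have u2 : (W + b) * star (W + b) = 1 := by
    calc (W + b) * star (W + b) = W * star W + W * star b + b * star W + b * star b := by
          rw [star_add]; noncomm_ring
      _ = 1 := by rw [hWW', c2, c2', b2]; noncomm_ring
  refine ⟨⟨W + b, Unitary.mem_iff.2 ⟨u1, u2⟩⟩, fun s => ?_⟩
  change n2 τ ((W + b) * d s * star (W + b) - g s) ≤ Real.sqrt ρ
  have e1 : (W + b) * d s = V s + b * d s := by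
    rw [add_mul]
    congr 1
    rw [hW, Finset.sum_mul, single _ s fun t ht => O3 t s ht, V1]
  have c3 : V s * star b = 0 := by
    calc V s * star b = V s * P * star b := by rw [VP]
      _ = V s * star (b * P) := by rw [star_mul, hPs, mul_assoc]
      _ = 0 := by rw [b3, star_zero, mul_zero]
  have c3' : b * star (V s) = 0 := by
    have := congrArg star c3
    rwa [star_mul, star_star, star_zero] at this
  have e2 : (W + b) * d s * star (W + b) = V s * star (V s) + b * d s * star b := by
    calc (W + b) * d s * star (W + b) = ((W + b) * d s) * star ((W + b) * d s) := by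
          rw [star_mul, (hdp s).1, ← mul_assoc, mul_assoc (W + b) (d s) (d s), (hdp s).2]
      _ = V s * star (V s) + V s * d s * star b + b * (d s * star (V s)) + b * (d s * d s) * star b := by
          rw [e1, star_add, star_mul, (hdp s).1]; noncomm_ring
      _ = V s * star (V s) + b * d s * star b := by
          rw [V1, V1', c3, c3', (hdp s).2]; noncomm_ring
  rw [e2]
  unfold n2
  apply Real.sqrt_le_sqrt
  have hVV : V s * star (V s) * (V s * star (V s)) = V s * star (V s) := by
    rw [← mul_assoc, V3]
  have hgd := hgt s
  rw [abs_le] at hgd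
  rcases V4 s with hc | hc
  · -- the domain is `d s`
    have hPd : P * d s = star (V s) * V s := by
      rw [hP, Finset.sum_mul, single _ s fun t ht => by rw [mul_assoc, O3 t s ht, mul_zero],
        mul_assoc, V1]
    have hbd : b * d s = 0 := by
      have h1 := al_mul_dom h (al_prj_sub ⟨hPs, hPP⟩) b1
      calc b * d s = b * (1 - P) * d s := by rw [h1]
        _ = b * (d s - P * d s) := by noncomm_ring
        _ = 0 := by rw [hPd, hc, sub_self, mul_zero]
    have e3 : star (V s * star (V s) + b * d s * star b - g s) *
        (V s * star (V s) + b * d s * star b - g s) = g s - V s * star (V s) := by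
      have hgV : g s * (V s * star (V s)) = V s * star (V s) := by rw [← mul_assoc, V2]
      have hVg : V s * star (V s) * g s = V s * star (V s) := by rw [mul_assoc, V2']
      rw [hbd, zero_mul, add_zero, star_sub, star_mul, star_star, (hg.prj s).1]
      calc (V s * star (V s) - g s) * (V s * star (V s) - g s) =
            V s * star (V s) * (V s * star (V s)) - V s * star (V s) * g s -
              g s * (V s * star (V s)) + g s * g s := by noncomm_ring
        _ = g s - V s * star (V s) := by rw [hVV, hVg, hgV, (hg.prj s).2]; noncomm_ring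
    rw [e3, map_sub, Complex.sub_re, h.comm (V s) (star (V s)), hc, hdt]
    linarith [hgd.2]
  · -- the range is `g s`
    have hPd : P * d s = star (V s) * V s := by
      rw [hP, Finset.sum_mul, single _ s fun t ht => by rw [mul_assoc, O3 t s ht, mul_zero],
        mul_assoc, V1]
    have hdP : d s * P = star (V s) * V s := by
      have := congrArg star hPd
      rwa [star_mul, (hdp s).1, hPs, star_mul, star_star] at this
    have hdV : d s * (star (V s) * V s) = star (V s) * V s := by rw [← mul_assoc, V1']
    have hVP : star (V s) * V s * P = star (V s) * V s := by rw [mul_assoc, VP]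
    have e3 : τ (star (V s * star (V s) + b * d s * star b - g s) *
        (V s * star (V s) + b * d s * star b - g s)) = τ (d s - star (V s) * V s) := by
      rw [hc]
      have e4 : g s + b * d s * star b - g s = b * d s * star b := by noncomm_ring
      rw [e4]
      have e5 : star (b * d s * star b) * (b * d s * star b) =
          b * (d s * (star b * b) * d s) * star b := by
        rw [star_mul, star_mul, star_star, (hdp s).1]
        noncomm_ring
      have e6 : d s * (1 - P) * d s = d s - star (V s) * V s := by
        calc d s * (1 - P) * d s = d s * d s - d s * (P * d s) := by noncomm_ring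
          _ = d s - star (V s) * V s := by rw [(hdp s).2, hPd, hdV]
      rw [e5, b1, e6, h.comm, ← mul_assoc, b1]
      congr 1
      calc (1 - P) * (d s - star (V s) * V s) =
            d s - star (V s) * V s - P * d s + P * (star (V s) * V s) := by noncomm_ring
        _ = d s - star (V s) * V s := by
          have hPV : P * (star (V s) * V s) = star (V s) * V s := by
            have := congrArg star hVP
            rwa [star_mul, star_mul, star_star, hPs] at this
          rw [hPd, hPV]; noncomm_ring
    rw [e3, map_sub, Complex.sub_re, h.comm (star (V s)) (V s), hc, hdt]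
    linarith [hgd.1]

end Pool.Agent.H518R4.UG
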