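import Pool.Agent.H518R4.UG.Stubs
import Pool.Agent.Helper467.FP.P_n2_mul_le

set_option autoImplicit false

open scoped ComplexOrder Topology InnerProductSpace
open Filter

noncomputable section

namespace Pool.Agent.H518R4.UG

open Pool.Agent.H467F

namespace BLOCKx

section

variable {A : Type} [CStarAlgebra A] {τ : A →ₗ[ℂ] ℂ}

theorem cm_add_right (x y z : A) : cm x (y + z) = cm x y + cm x z := by
  unfold cm; noncomm_ring

theorem cm_add_left (x y z : A) : cm (x + y) z = cm x z + cm y z := by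
  unfold cm; noncomm_ring

theorem cm_smul_left (c : ℂ) (x y : A) : cm (c • x) y = c • cm x y := by
  unfold cm
  rw [smul_mul_assoc, mul_smul_comm, smul_sub]

theorem cm_le (h : TW τ) (x y : A) : n2 τ (cm x y) ≤ n2 τ (x * y) + n2 τ (y * x) :=
  h.n2_sub_le _ _

theorem cm_le' (h : TW τ) (x y : A) : n2 τ (cm x y) ≤ 2 * ‖x‖ * n2 τ y := by
  have h1 := cm_le h x y
  have h2 := (n2_mul_le h x y).1
  have h3 := (n2_mul_le h x y).2
  linarith

theorem cm_split (h : TW τ) (x y z : A) :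
    n2 τ (cm x y) ≤ n2 τ (cm x z) + n2 τ (cm x (y - z)) := by
  have h1 := h.n2_add_le (cm x z) (cm x (y - z))
  rw [← cm_add_right, add_sub_cancel] at h1
  exact h1

theorem prj_norm {p : A} (hp : IsPrj p) : ‖p‖ ≤ 1 := by
  have h1 : ‖star p * p‖ = ‖p‖ * ‖p‖ := CStarRing.norm_star_mul_self
  rw [hp.1, hp.2] at h1
  by_contra hc
  rw [not_le] at hc
  nlinarith

theorem prj_compl {p : A} (hp : IsPrj p) : IsPrj (1 - p) := by
  refine ⟨?_, ?_⟩
  · rw [star_sub, star_one, hp.1]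
  · have h2 := hp.2
    calc (1 - p) * (1 - p) = 1 - p - p + p * p := by noncomm_ring
      _ = 1 - p := by rw [h2]; abel

theorem lift_sub {I : Type} [Fintype I] (v : I → A) (x y : A) :
    lift v (x - y) = lift v x - lift v y := by
  unfold lift
  rw [← Finset.sum_sub_distrib]
  apply Finset.sum_congr rfl
  intro i _
  rw [mul_sub, sub_mul]

theorem real_sq_add3 (a b c : ℝ) : (a + b + c) ^ 2 ≤ 3 * (a ^ 2 + b ^ 2 + c ^ 2) := by
  nlinarith [sq_nonneg (a - b), sq_nonneg (a - c), sq_nonneg (b - c)]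

theorem real_sq_add4 (a b c d : ℝ) :
    (a + b + c + d) ^ 2 ≤ 4 * (a ^ 2 + b ^ 2 + c ^ 2 + d ^ 2) := by
  nlinarith [sq_nonneg (a - b), sq_nonneg (a - c), sq_nonneg (a - d), sq_nonneg (b - c),
    sq_nonneg (b - d), sq_nonneg (c - d)]

/-- the numerical part -/
theorem num {C₀ t Y γ d₁ d₂ m g β : ℝ} (hC₀ : 0 ≤ C₀) (ht : 0 ≤ t) (hY : 0 ≤ Y) (hγ : 0 ≤ γ)
    (hd₁ : 0 ≤ d₁) (hd₂ : 0 ≤ d₂) (hm : 0 ≤ m) (hg : 0 ≤ g)
    (h1 : g ≤ γ + C₀ * d₁ + 2 * t * Y + 4 * d₂) (h2 : β = 2 * t * Y + 2 * (d₁ + d₂))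
    (h3 : d₂ ≤ 2 * d₁ + m) :
    2 * g ^ 2 + 2 * β ^ 2 ≤ 8 * γ ^ 2 + (8 * (C₀ + 8) ^ 2 + 216) * d₁ ^ 2 +
      56 * t ^ 2 * Y ^ 2 + 152 * m ^ 2 := by
  have h4 : g ≤ γ + (C₀ + 8) * d₁ + 2 * t * Y + 4 * m := by nlinarith
  have h5 : g ^ 2 ≤ (γ + (C₀ + 8) * d₁ + 2 * t * Y + 4 * m) ^ 2 := by
    apply pow_le_pow_left₀ hg h4
  have h6 := real_sq_add4 γ ((C₀ + 8) * d₁) (2 * t * Y) (4 * m)
  have h7 : β ≤ 2 * t * Y + 6 * d₁ + 2 * m := by rw [h2]; linarith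
  have h8 : 0 ≤ β := by rw [h2]; positivity
  have h9 : β ^ 2 ≤ (2 * t * Y + 6 * d₁ + 2 * m) ^ 2 := pow_le_pow_left₀ h8 h7 2
  have h10 := real_sq_add3 (2 * t * Y) (6 * d₁) (2 * m)
  nlinarith

/-- the operator part, for a fixed vector -/
theorem core (h : TW τ) {r : ℕ} (hr : 0 < r) (f f' : Fin r → A) (G G₁ G₂ y yb yo Z : A)
    {C₀ t : ℝ} (hC₀ : 0 < C₀) (ht : 0 ≤ t) (hf : ∀ s, ‖f s‖ ≤ 1)
    (hG : G = G₁ + G₂) (hG₁ : ‖G₁‖ ≤ C₀ / 2)
    (hZ : IsPrj Z) (hyo : yo = (1 - Z) * yb * (1 - Z)) (hyb : n2 τ yb ≤ n2 τ y)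
    (hS : (r : ℝ) * n2 τ (cm G yo) ^ 2 = ∑ s, n2 τ (cm (f' s) yo) ^ 2)
    (hGl : n2 τ (G * (yb - yo)) ≤ n2 τ (yb - yo)) (hGr : n2 τ ((yb - yo) * G) ≤ n2 τ (yb - yo))
    (hTl : ∀ x : A, n2 τ (G₂ * x) ≤ n2 τ (G * x)) (hTr : ∀ x : A, n2 τ (x * G₂) ≤ n2 τ (x * G))
    (hZl : n2 τ (G₂ * yo) ≤ t * n2 τ yo) (hZr : n2 τ (yo * G₂) ≤ t * n2 τ yo)
    (hDl : ∀ s, n2 τ ((f s - f' s) * yo) ≤ t * n2 τ yo)
    (hDr : ∀ s, n2 τ (yo * (f s - f' s)) ≤ t * n2 τ yo) :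
    ∑ s, n2 τ (cm (f s) y) ^ 2 ≤ (r : ℝ) * (8 * n2 τ (cm G₁ y) ^ 2 +
      (8 * (C₀ + 8) ^ 2 + 216) * n2 τ (y - yb) ^ 2 + 56 * t ^ 2 * n2 τ y ^ 2 +
      152 * (n2 τ (Z * y) + n2 τ (y * Z)) ^ 2) := by
  have hrpos : (0 : ℝ) < r := by exact_mod_cast hr
  have hZc := prj_compl hZ
  have hZn := prj_norm hZ
  have hZcn := prj_norm hZc
  have hyo_le : n2 τ yo ≤ n2 τ y := by
    rw [hyo]
    have h1 := (n2_mul_le h (1 - Z) ((1 - Z) * yb)).2
    have h2 := (n2_mul_le h (1 - Z) yb).1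
    have h3 := n2_nonneg τ yb
    have h4 := n2_nonneg τ ((1 - Z) * yb)
    have h5 := norm_nonneg (1 - Z)
    nlinarith
  set d₁ := n2 τ (y - yb) with hd₁
  set d₂ := n2 τ (yb - yo) with hd₂
  set m := n2 τ (Z * y) + n2 τ (y * Z) with hm
  have hd₁0 : 0 ≤ d₁ := n2_nonneg _ _
  have hd₂0 : 0 ≤ d₂ := n2_nonneg _ _
  have hm0 : 0 ≤ m := add_nonneg (n2_nonneg _ _) (n2_nonneg _ _)
  -- d₂
  have hd₂le : d₂ ≤ 2 * d₁ + m := by
    have e1 : yb - yo = Z * yb + (1 - Z) * (yb * Z) := by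
      rw [hyo]; noncomm_ring
    have h1 : d₂ ≤ n2 τ (Z * yb) + n2 τ ((1 - Z) * (yb * Z)) := by
      rw [hd₂, e1]
      exact h.n2_add_le _ _
    have h2 : n2 τ ((1 - Z) * (yb * Z)) ≤ n2 τ (yb * Z) := by
      have h3 := (n2_mul_le h (1 - Z) (yb * Z)).1
      have h4 := n2_nonneg τ (yb * Z)
      nlinarith
    have h5 : n2 τ (Z * yb) ≤ n2 τ (Z * y) + d₁ := by
      have e2 : Z * yb = Z * y + -(Z * (y - yb)) := by noncomm_ring
      rw [e2]
      refine (h.n2_add_le _ _).trans ?_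
      rw [n2_neg]
      have h6 := (n2_mul_le h Z (y - yb)).1
      have h7 : ‖Z‖ * d₁ ≤ 1 * d₁ := mul_le_mul_of_nonneg_right hZn hd₁0
      have h6' : n2 τ (Z * (y - yb)) ≤ ‖Z‖ * d₁ := h6
      linarith
    have h8 : n2 τ (yb * Z) ≤ n2 τ (y * Z) + d₁ := by
      have e2 : yb * Z = y * Z + -((y - yb) * Z) := by noncomm_ring
      rw [e2]
      refine (h.n2_add_le _ _).trans ?_
      rw [n2_neg]
      have h6 := (n2_mul_le h Z (y - yb)).2
      have h7 : d₁ * ‖Z‖ ≤ d₁ * 1 := mul_le_mul_of_nonneg_left hZn hd₁0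
      have h6' : n2 τ ((y - yb) * Z) ≤ d₁ * ‖Z‖ := h6
      linarith
    linarith
  have htY : t * n2 τ yo ≤ t * n2 τ y := mul_le_mul_of_nonneg_left hyo_le ht
  -- B
  have hB : n2 τ (cm G yo) ≤ n2 τ (cm G₁ y) + C₀ * d₁ + 2 * t * n2 τ y + 4 * d₂ := by
    have h1 : n2 τ (cm G yo) ≤ n2 τ (cm G yb) + 2 * d₂ := by
      refine (cm_split h G yo yb).trans ?_
      have e1 : cm G (yo - yb) = -(cm G (yb - yo)) := by unfold cm; noncomm_ring
      rw [e1, n2_neg]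
      have h2 := cm_le h G (yb - yo)
      linarith
    have h3 : n2 τ (cm G yb) ≤ n2 τ (cm G₁ yb) + n2 τ (cm G₂ yb) := by
      rw [hG, cm_add_left]
      exact h.n2_add_le _ _
    have h4 : n2 τ (cm G₂ yb) ≤ 2 * t * n2 τ y + 2 * d₂ := by
      refine (cm_split h G₂ yb yo).trans ?_
      have h5 := cm_le h G₂ yo
      have h6 := cm_le h G₂ (yb - yo)
      have h7 := hTl (yb - yo)
      have h8 := hTr (yb - yo)
      linarith
    have h9 : n2 τ (cm G₁ yb) ≤ n2 τ (cm G₁ y) + C₀ * d₁ := by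
      refine (cm_split h G₁ yb y).trans ?_
      have h10 := cm_le' h G₁ (yb - y)
      rw [n2_sub_comm τ yb y] at h10
      have h11 : 2 * ‖G₁‖ * d₁ ≤ C₀ * d₁ := mul_le_mul_of_nonneg_right (by linarith) hd₁0
      have h10' : n2 τ (cm G₁ (yb - y)) ≤ 2 * ‖G₁‖ * d₁ := h10
      linarith
    linarith
  -- A
  set β := 2 * t * n2 τ y + 2 * (d₁ + d₂) with hβ
  have hβ0 : 0 ≤ β := by
    have := n2_nonneg τ y
    positivity
  have hA : ∀ s, n2 τ (cm (f s) y) ≤ n2 τ (cm (f' s) yo) + β := by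
    intro s
    have h1 := cm_split h (f s) y yo
    have h2 := cm_le' h (f s) (y - yo)
    have h3 : n2 τ (y - yo) ≤ d₁ + d₂ := h.n2_tri y yb yo
    have h4 : 2 * ‖f s‖ * n2 τ (y - yo) ≤ 2 * (d₁ + d₂) := by
      have h5 := hf s
      have h6 := n2_nonneg τ (y - yo)
      have h7 := norm_nonneg (f s)
      nlinarith
    have h8 : n2 τ (cm (f s) yo) ≤ n2 τ (cm (f' s) yo) + 2 * t * n2 τ y := by
      have e1 : cm (f s) yo = cm (f' s) yo + cm (f s - f' s) yo := by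
        rw [← cm_add_left, add_sub_cancel]
      rw [e1]
      refine (h.n2_add_le _ _).trans ?_
      have h9 := cm_le h (f s - f' s) yo
      have h10 := hDl s
      have h11 := hDr s
      linarith
    linarith
  have hsum : ∑ s, n2 τ (cm (f s) y) ^ 2 ≤ (r : ℝ) * (2 * n2 τ (cm G yo) ^ 2 + 2 * β ^ 2) := by
    have h1 : ∀ s ∈ Finset.univ, n2 τ (cm (f s) y) ^ 2 ≤
        2 * n2 τ (cm (f' s) yo) ^ 2 + 2 * β ^ 2 := by
      intro s _
      have h2 := pow_le_pow_left₀ (n2_nonneg τ (cm (f s) y)) (hA s) 2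
      nlinarith [sq_nonneg (n2 τ (cm (f' s) yo) - β)]
    refine (Finset.sum_le_sum h1).trans ?_
    rw [Finset.sum_add_distrib, ← Finset.mul_sum, ← hS, Finset.sum_const, Finset.card_univ,
      Fintype.card_fin, nsmul_eq_mul]
    apply le_of_eq
    ring
  refine hsum.trans ?_
  apply mul_le_mul_of_nonneg_left _ hrpos.le
  exact num hC₀.le ht (n2_nonneg _ _) (n2_nonneg _ _) hd₁0 hd₂0 hm0 (n2_nonneg _ _) hB hβ hd₂le

end

/-- the number of copies -/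
def NN : ℕ := 48640

/-- the index type of the unitaries -/
abbrev Ty : Type := Fin 4 ⊕ (Fin 2 ⊕ (Fin NN × Fin 2))

/-- the constant -/
def CC : ℝ := 4 * 30000 ^ 2 + 400 * (8 * (30000 + 8) ^ 2 + 216) + 2432

end BLOCKx

open BLOCKx in
theorem p_BLOCK (hLIFT : S_LIFT) (hQE : S_QE) (hSIGNS : S_SIGNS) (hTRUNC : S_TRUNC)
    (hZPR : S_ZPR) (hCOPIES : S_COPIES) (hMASS : S_MASS) (hTWOU : S_TWOU) : S_BLOCK := by
  refine ⟨Fintype.card Ty, CC, 1 / 30000 ^ 2, Fintype.card_pos_iff.2 ⟨Sum.inl 0⟩, ?_, by norm_num, ?_⟩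
  · unfold CC; norm_num
  intro a A _ τ hF v g hv f hf hη
  have h := hF.tw
  have hrN : 0 < 2 ^ a := by positivity
  obtain ⟨L1, L2, L3, L4, L5, L6, L7, L8, L9, L10, L11, L12, L13, L14⟩ := hLIFT A τ h (Fin (2 ^ a)) v g hv
  have hg := L1
  obtain ⟨u4, hu4⟩ := hQE A τ h a v g hv
  obtain ⟨G, hG1, hG2, hG3⟩ := hSIGNS A τ h (Fin (2 ^ a)) v g hv f hf
  obtain ⟨G₁, G₂, hGG, hG₁n, hG₂n, hTr⟩ := hTRUNC A τ h G 30000 (by norm_num) hG1
  -- the family for ZPR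
  set D : Fin (2 ^ a) → A := fun s => f s - pin (dg v) (f s) with hD
  let x : Option (Fin (2 ^ a)) × Bool → A := fun l =>
    match l with
    | (none, false) => G₂
    | (none, true) => star G₂
    | (some s, false) => D s
    | (some s, true) => star (D s)
  have hDsum : ∑ s, n2 τ (D s) ^ 2 ≤ 1 / 30000 ^ 2 := by
    have h1 : ∀ s ∈ Finset.univ, n2 τ (D s) ^ 2 ≤ (1 / 30000 ^ 2) / (2 : ℝ) ^ a := by
      intro s _
      rw [le_div_iff₀ (by positivity), mul_comm]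
      exact hη s
    refine (Finset.sum_le_sum h1).trans ?_
    rw [Finset.sum_const, Finset.card_univ, Fintype.card_fin, nsmul_eq_mul]
    push_cast
    rw [mul_div_cancel₀ _ (by positivity)]
  have hxsum : ∑ l, n2 τ (x l) ^ 2 ≤ 3 * (1 / 30000 ^ 2) := by
    have h1 : ∑ l, n2 τ (x l) ^ 2 = 2 * n2 τ G₂ ^ 2 + 2 * ∑ s, n2 τ (D s) ^ 2 := by
      rw [Fintype.sum_prod_type, Fintype.sum_option]
      simp only [Fintype.sum_bool, x, h.n2_star]
      rw [Finset.sum_add_distrib]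
      ring
    rw [h1]
    norm_num at hG₂n hDsum ⊢
    linarith
  obtain ⟨z, hz1, hz2, hz3, hz4⟩ := hZPR A τ hF (Fin (2 ^ a)) v g hv _ x (1 / 2240) (by norm_num)
  have hzg : z * g = z := by
    have := congrArg star hz2
    rwa [star_mul, hz1.1, hg.1] at this
  have hgzg : g * z * g = z := by rw [hz2, hzg]
  -- Z is a projection
  set Z : A := lift v z with hZdef
  have hZ : IsPrj Z := by
    refine ⟨by rw [hZdef, L9, hz1.1], ?_⟩
    have := L8 z z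
    rw [hgzg, hz1.2] at this
    exact this
  have hNZ : (NN : ℝ) * (τ Z).re ≤ 1 := by
    have h1 : (τ Z).re ≤ 2 * (3 * (1 / 30000 ^ 2)) / (1 / 2240) := by
      refine hz3.trans ?_
      apply div_le_div_of_nonneg_right _ (by norm_num)
      linarith
    have h2 : (NN : ℝ) = 48640 := by unfold NN; norm_num
    rw [h2]
    norm_num at h1 ⊢
    linarith
  obtain ⟨w, hw1, hw2⟩ := hCOPIES A τ hF NN Z hZ hNZ
  obtain ⟨hwn, hmass⟩ := hMASS A τ h NN Z w hZ hw1 hw2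
  -- unitaries
  have hprj1 : IsPrj (1 : A) := ⟨star_one A, one_mul 1⟩
  have htwo : ∀ x : A, ‖x‖ ≤ 1 → ∃ u : Fin 2 → unitary A, ∀ y : A,
      n2 τ (cm x y) ≤ n2 τ (cm (u 0 : A) y) + n2 τ (cm (u 1 : A) y) ∧
      n2 τ (cm (star x) y) ≤ n2 τ (cm (u 0 : A) y) + n2 τ (cm (u 1 : A) y) := by
    intro x hx
    obtain ⟨u₁, u₂, -, -, hu⟩ := hTWOU A τ h 1 x hprj1 (by rw [one_mul, mul_one]) hx
    refine ⟨![u₁, u₂], fun y => ?_⟩
    exact hu y (one_mul y) (mul_one y)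
  obtain ⟨uG, huG⟩ := htwo (((2 / 30000 : ℝ) : ℂ) • G₁) (by
    rw [norm_smul, Complex.norm_real, Real.norm_of_nonneg (by norm_num)]
    linarith)
  choose uw huw using fun i => htwo (w i) (hwn i)
  let U : Ty → unitary A := Sum.elim u4 (Sum.elim uG (fun p => uw p.1 p.2))
  refine ⟨fun i => U ((Fintype.equivFin Ty).symm i), ?_⟩
  intro y
  have hUsum : ∑ i, n2 τ (cm (U ((Fintype.equivFin Ty).symm i) : A) y) ^ 2 =
      ∑ i, n2 τ (cm (u4 i : A) y) ^ 2 + (∑ i, n2 τ (cm (uG i : A) y) ^ 2 +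
        ∑ i, ∑ j, n2 τ (cm (uw i j : A) y) ^ 2) := by
    rw [Equiv.sum_comp (Fintype.equivFin Ty).symm (fun t => n2 τ (cm (U t : A) y) ^ 2),
      Fintype.sum_sum_type, Fintype.sum_sum_type, Fintype.sum_prod_type]
    rfl
  rw [hUsum]
  -- the elements
  set b : A := dn v y with hb
  have hbg := L5 y
  have hgbg : g * b * g = b := by rw [hbg.1, hbg.2]
  set y₀ : A := (g - z) * b * (g - z) with hy₀
  have hgz1 : g * (g - z) = g - z := by rw [mul_sub, hg.2, hz2]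
  have hgz2 : (g - z) * g = g - z := by rw [sub_mul, hg.2, hzg]
  have hgzgz : g * (g - z) * g = g - z := by rw [hgz1, hgz2]
  have hy₀l : g * y₀ = y₀ := by rw [hy₀, ← mul_assoc, ← mul_assoc, hgz1]
  have hy₀r : y₀ * g = y₀ := by rw [hy₀, mul_assoc, hgz2]
  have hzy₀ : z * y₀ = 0 := by
    have h1 : z * (g - z) = 0 := by rw [mul_sub, hzg, hz1.2, sub_self]
    rw [hy₀, ← mul_assoc, ← mul_assoc, h1, zero_mul, zero_mul]
  have hy₀z : y₀ * z = 0 := by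
    have h1 : (g - z) * z = 0 := by rw [sub_mul, hz2, hz1.2, sub_self]
    rw [hy₀, mul_assoc, h1, mul_zero]
  have hlg : lift v g = 1 := by
    unfold lift
    rw [← hv.sum]
    apply Finset.sum_congr rfl
    intro i _
    rw [L2 i]
  set yb : A := EM v y with hyb
  set yo : A := lift v y₀ with hyo
  have hyb' : yb = lift v b := rfl
  have hyoeq : yo = (1 - Z) * yb * (1 - Z) := by
    have h1 := L8 (g - z) b
    rw [hgzgz, hgbg] at h1
    have h2 := L8 ((g - z) * b) (g - z)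
    have h3 : g * ((g - z) * b) * g = (g - z) * b := by
      rw [← mul_assoc, hgz1, mul_assoc, hbg.2]
    rw [h3, hgzgz] at h2
    rw [hyo, hy₀, ← h2, ← h1, lift_sub, hlg, ← hyb']
  -- ZPR consequences
  have hsqrt : Real.sqrt (1 / 2240) ^ 2 = 1 / 2240 := Real.sq_sqrt (by norm_num)
  have hle : ∀ {p q : ℝ}, 0 ≤ p → 0 ≤ q → p ^ 2 ≤ 1 / 2240 * q ^ 2 →
      p ≤ Real.sqrt (1 / 2240) * q := by
    intro p q hp hq hpq
    apply le_of_sq_le_sq _ (mul_nonneg (Real.sqrt_nonneg _) hq)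
    rw [mul_pow, hsqrt]
    exact hpq
  have hzl : ∀ l, n2 τ (x l * yo) ≤ Real.sqrt (1 / 2240) * n2 τ yo := by
    intro l
    apply hle (n2_nonneg _ _) (n2_nonneg _ _)
    refine le_trans ?_ (hz4 y₀ hy₀l hy₀r hzy₀)
    exact Finset.single_le_sum (f := fun l => n2 τ (x l * lift v y₀) ^ 2)
      (fun l _ => sq_nonneg _) (Finset.mem_univ l)
  have hsy₀l : g * star y₀ = star y₀ := by
    have := congrArg star hy₀r
    rwa [star_mul, hg.1] at this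
  have hsy₀r : star y₀ * g = star y₀ := by
    have := congrArg star hy₀l
    rwa [star_mul, hg.1] at this
  have hzsy₀ : z * star y₀ = 0 := by
    have := congrArg star hy₀z
    rwa [star_mul, hz1.1, star_zero] at this
  have hzr : ∀ l, n2 τ (yo * star (x l)) ≤ Real.sqrt (1 / 2240) * n2 τ yo := by
    intro l
    have h1 : n2 τ (x l * star yo) ≤ Real.sqrt (1 / 2240) * n2 τ (star yo) := by
      apply hle (n2_nonneg _ _) (n2_nonneg _ _)
      rw [hyo, L9]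
      refine le_trans ?_ (hz4 (star y₀) hsy₀l hsy₀r hzsy₀)
      exact Finset.single_le_sum (f := fun l => n2 τ (x l * lift v (star y₀)) ^ 2)
        (fun l _ => sq_nonneg _) (Finset.mem_univ l)
    rw [h.n2_star] at h1
    have h2 : star (x l * star yo) = yo * star (x l) := by rw [star_mul, star_star]
    rw [← h2, h.n2_star]
    exact h1
  have hcore := core h hrN f (fun s => pin (dg v) (f s)) G G₁ G₂ y yb yo Z (C₀ := 30000)
    (t := Real.sqrt (1 / 2240)) (by norm_num) (Real.sqrt_nonneg _) hf hGG hG₁n hZ hyoeq (L11 y)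
    (by
      have := hG2 y₀ hy₀l hy₀r
      rw [Fintype.card_fin] at this
      exact this)
    (by
      have h1 : yb - yo = lift v (b - y₀) := by rw [lift_sub, ← hyb', ← hyo]
      rw [h1]
      exact (hG3 (b - y₀) (by rw [mul_sub, hbg.1, hy₀l]) (by rw [sub_mul, hbg.2, hy₀r])).1)
    (by
      have h1 : yb - yo = lift v (b - y₀) := by rw [lift_sub, ← hyb', ← hyo]
      rw [h1]
      exact (hG3 (b - y₀) (by rw [mul_sub, hbg.1, hy₀l]) (by rw [sub_mul, hbg.2, hy₀r])).2)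
    (fun x => (hTr x).1) (fun x => (hTr x).2)
    (hzl (none, false))
    (by
      have := hzr (none, true)
      simpa only [x, star_star] using this)
    (fun s => hzl (some s, false))
    (fun s => by
      have := hzr (some s, true)
      simpa only [x, star_star] using this)
  -- final estimate
  have hcast : ((2 ^ a : ℕ) : ℝ) = (2 : ℝ) ^ a := by push_cast; rfl
  rw [hcast] at hcore
  refine hcore.trans ?_
  apply mul_le_mul_of_nonneg_left _ (by positivity)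
  rw [hsqrt]
  have e1 : n2 τ (y - yb) ^ 2 ≤ 400 * ∑ i, n2 τ (cm (u4 i : A) y) ^ 2 := hu4 y
  have e2 : n2 τ (cm G₁ y) ^ 2 ≤ (30000 ^ 2 / 2) * ∑ i, n2 τ (cm (uG i : A) y) ^ 2 := by
    have h1 := (huG y).1
    rw [cm_smul_left, n2_smul, Complex.norm_real, Real.norm_of_nonneg (by norm_num)] at h1
    rw [Fin.sum_univ_two]
    have h2 : n2 τ (cm G₁ y) ≤ 15000 * (n2 τ (cm (uG 0 : A) y) + n2 τ (cm (uG 1 : A) y)) := by
      linarith
    have h3 := pow_le_pow_left₀ (n2_nonneg τ (cm G₁ y)) h2 2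
    nlinarith [sq_nonneg (n2 τ (cm (uG 0 : A) y) - n2 τ (cm (uG 1 : A) y))]
  have e3 : ∀ i, n2 τ (cm (w i) y) ^ 2 ≤ 2 * ∑ j, n2 τ (cm (uw i j : A) y) ^ 2 := by
    intro i
    have h1 := (huw i y).1
    rw [Fin.sum_univ_two]
    have h3 := pow_le_pow_left₀ (n2_nonneg τ (cm (w i) y)) h1 2
    nlinarith [sq_nonneg (n2 τ (cm (uw i 0 : A) y) - n2 τ (cm (uw i 1 : A) y))]
  have e4 : ∀ i, n2 τ (cm (star (w i)) y) ^ 2 ≤ 2 * ∑ j, n2 τ (cm (uw i j : A) y) ^ 2 := by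
    intro i
    have h1 := (huw i y).2
    rw [Fin.sum_univ_two]
    have h3 := pow_le_pow_left₀ (n2_nonneg τ (cm (star (w i)) y)) h1 2
    nlinarith [sq_nonneg (n2 τ (cm (uw i 0 : A) y) - n2 τ (cm (uw i 1 : A) y))]
  have e5 : ∑ i, n2 τ (cm (w i) y) ^ 2 ≤ 2 * ∑ i, ∑ j, n2 τ (cm (uw i j : A) y) ^ 2 := by
    rw [Finset.mul_sum]
    exact Finset.sum_le_sum (fun i _ => e3 i)
  have e6 : ∑ i, n2 τ (cm (star (w i)) y) ^ 2 ≤ 2 * ∑ i, ∑ j, n2 τ (cm (uw i j : A) y) ^ 2 := by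
    rw [Finset.mul_sum]
    exact Finset.sum_le_sum (fun i _ => e4 i)
  have hN : (NN : ℝ) = 48640 := by unfold NN; norm_num
  obtain ⟨m1, m2⟩ := hmass y
  rw [hN] at m1 m2
  set S₁ : ℝ := ∑ i, n2 τ (cm (u4 i : A) y) ^ 2 with hS₁
  set S₂ : ℝ := ∑ i, n2 τ (cm (uG i : A) y) ^ 2 with hS₂
  set S₃ : ℝ := ∑ i, ∑ j, n2 τ (cm (uw i j : A) y) ^ 2 with hS₃
  have hS₁0 : 0 ≤ S₁ := Finset.sum_nonneg (fun i _ => sq_nonneg _)
  have hS₂0 : 0 ≤ S₂ := Finset.sum_nonneg (fun i _ => sq_nonneg _)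
  have hS₃0 : 0 ≤ S₃ := Finset.sum_nonneg (fun i _ => Finset.sum_nonneg (fun j _ => sq_nonneg _))
  have e7 : (n2 τ (Z * y) + n2 τ (y * Z)) ^ 2 ≤ 2 * (n2 τ (Z * y) ^ 2 + n2 τ (y * Z) ^ 2) := by
    nlinarith [sq_nonneg (n2 τ (Z * y) - n2 τ (y * Z))]
  unfold CC
  generalize n2 τ (Z * y) ^ 2 = p1 at *
  generalize n2 τ (y * Z) ^ 2 = p2 at *
  generalize (n2 τ (Z * y) + n2 τ (y * Z)) ^ 2 = p3 at *
  generalize n2 τ (cm G₁ y) ^ 2 = p4 at *
  generalize n2 τ (y - yb) ^ 2 = p5 at *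
  generalize n2 τ y ^ 2 = p6 at *
  norm_num at e1 e2 ⊢
  linarith

end Pool.Agent.H518R4.UG
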