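import Pool.Agent.H518R4.UG.Stubs

/-! Task BOOST: boosting the gap by products along expander walks. -/

set_option autoImplicit false

open scoped ComplexOrder Topology InnerProductSpace
open Filter

noncomputable section

namespace Pool.Agent.H518R4.UG

open Pool.Agent.H467F

namespace BOOST

variable {A : Type} [CStarAlgebra A] {τ : A →ₗ[ℂ] ℂ}

theorem n2_conj (hτ : TW τ) (u : unitary A) (a : A) :
    n2 τ ((u : A) * a * star (u : A)) = n2 τ a := by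
  unfold n2
  congr 2
  have h1 : star ((u : A) * a * star (u : A)) * ((u : A) * a * star (u : A)) =
      (u : A) * (star a * a * star (u : A)) := by
    have h2 : star (u : A) * (u : A) = 1 := Unitary.coe_star_mul_self u
    calc star ((u : A) * a * star (u : A)) * ((u : A) * a * star (u : A))
        = (u : A) * star a * (star (u : A) * (u : A)) * a * star (u : A) := by
          rw [star_mul, star_mul, star_star]; noncomm_ring
      _ = _ := by rw [h2]; noncomm_ring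
  rw [h1, hτ.comm, mul_assoc, Unitary.coe_star_mul_self, mul_one]

theorem n2_cm (hτ : TW τ) (u : unitary A) (a : A) :
    n2 τ ((u : A) * a * star (u : A) - a) = n2 τ (cm (u : A) a) := by
  unfold n2
  congr 2
  have h2 : (u : A) * star (u : A) = 1 := Unitary.coe_mul_star_self u
  have h3 : (u : A) * a * star (u : A) - a = cm (u : A) a * star (u : A) := by
    unfold cm
    rw [sub_mul, mul_assoc a, h2, mul_one]
  rw [h3, star_mul, star_star, mul_assoc, hτ.comm, mul_assoc, mul_assoc,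
    Unitary.coe_star_mul_self, mul_one]

section space

variable (hτ : TW τ) {E : Type} [NormedAddCommGroup E] [InnerProductSpace ℂ E] {ι : E →ₗ[ℂ] A}
  (hinj : Function.Injective ι) (hin : ∀ x y : E, ⟪x, y⟫_ℂ = τ (star (ι x) * ι y))
  (hn : ∀ x : E, ‖x‖ = n2 τ (ι x)) {Ad : unitary A → (E →ₗ[ℂ] E)}
  (hAd : ∀ u x, ι (Ad u x) = (u : A) * ι x * star (u : A))

include hτ hn hAd in
theorem norm_Ad (u : unitary A) (x : E) : ‖Ad u x‖ = ‖x‖ := by
  rw [hn, hAd, n2_conj hτ, hn]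

include hinj hAd in
theorem Ad_one (x : E) : Ad 1 x = x := by
  apply hinj
  rw [hAd]
  simp

include hinj hAd in
theorem Ad_mul (u v : unitary A) (x : E) : Ad (u * v) x = Ad u (Ad v x) := by
  apply hinj
  rw [hAd, hAd, hAd]
  simp only [Submonoid.coe_mul, star_mul]
  noncomm_ring

include hτ hin hAd in
theorem inner_Ad (u : unitary A) (x y : E) : ⟪Ad u x, y⟫_ℂ = ⟪x, Ad (star u) y⟫_ℂ := by
  rw [hin, hin, hAd, hAd, star_mul, star_mul, star_star, Unitary.coe_star, star_star]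
  rw [mul_assoc, hτ.comm, mul_assoc, mul_assoc]
  congr 1
  noncomm_ring

include hτ hn hAd in
theorem norm_sub (u : unitary A) (x : E) : ‖Ad u x - x‖ = n2 τ (cm (u : A) (ι x)) := by
  rw [hn, map_sub, hAd, n2_cm hτ]

include hτ hn hAd in
theorem re_inner (u : unitary A) (x : E) :
    (⟪Ad u x, x⟫_ℂ).re = ‖x‖ ^ 2 - ‖Ad u x - x‖ ^ 2 / 2 := by
  have h := norm_sub_sq (𝕜 := ℂ) (Ad u x) x
  rw [norm_Ad hτ hn hAd] at h
  have h2 : RCLike.re ⟪Ad u x, x⟫_ℂ = (⟪Ad u x, x⟫_ℂ).re := rfl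
  rw [h2] at h
  linarith

include hτ hin hn hAd in
theorem norm_sub_star (u : unitary A) (x : E) : ‖Ad (star u) x - x‖ = ‖Ad u x - x‖ := by
  have h1 := re_inner hτ hn hAd u x
  have h2 := re_inner hτ hn hAd (star u) x
  have h3 : (⟪Ad u x, x⟫_ℂ).re = (⟪Ad (star u) x, x⟫_ℂ).re := by
    rw [inner_Ad hτ hin hAd]
    exact inner_re_symm (𝕜 := ℂ) x (Ad (star u) x)
  rw [h1, h2] at h3
  have h4 : ‖Ad (star u) x - x‖ ^ 2 = ‖Ad u x - x‖ ^ 2 := by linarith
  exact (pow_left_inj₀ (norm_nonneg _) (norm_nonneg _) two_ne_zero).1 h4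

/-- the lazy symmetrised average -/
def TT (Ad : unitary A → (E →ₗ[ℂ] E)) {K : ℕ} (u : Fin K → unitary A) : E →ₗ[ℂ] E :=
  ((4 * K : ℂ))⁻¹ • ∑ i, ((2 : ℂ) • LinearMap.id + Ad (u i) + Ad (star (u i)))

theorem TT_apply (Ad : unitary A → (E →ₗ[ℂ] E)) {K : ℕ} (u : Fin K → unitary A) (x : E) :
    TT Ad u x = ((4 * K : ℂ))⁻¹ • ∑ i, ((2 : ℂ) • x + Ad (u i) x + Ad (star (u i)) x) := by
  simp [TT]

include hτ hin hAd in
theorem TT_symm {K : ℕ} (u : Fin K → unitary A) (x y : E) :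
    ⟪TT Ad u x, y⟫_ℂ = ⟪x, TT Ad u y⟫_ℂ := by
  rw [TT_apply, TT_apply, inner_smul_left, inner_smul_right, sum_inner, inner_sum]
  have h1 : (starRingEnd ℂ) ((4 * K : ℂ))⁻¹ = ((4 * K : ℂ))⁻¹ := by
    rw [map_inv₀, map_mul, Complex.conj_natCast]
    congr 2
    exact Complex.conj_ofNat 4
  rw [h1]
  congr 1
  refine Finset.sum_congr rfl fun i _ => ?_
  rw [inner_add_left, inner_add_left, inner_add_right, inner_add_right, inner_smul_left,
    inner_smul_right, inner_Ad hτ hin hAd (u i), inner_Ad hτ hin hAd (star (u i)), star_star]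
  have h2 : (starRingEnd ℂ) (2 : ℂ) = 2 := Complex.conj_ofNat 2
  rw [h2]
  ring

include hτ hin hn hAd in
theorem TT_re {K : ℕ} (u : Fin K → unitary A) (x : E) :
    (⟪TT Ad u x, x⟫_ℂ).re = (4 * K : ℝ)⁻¹ * ∑ i, (4 * ‖x‖ ^ 2 - ‖Ad (u i) x - x‖ ^ 2) := by
  rw [TT_apply, inner_smul_left, sum_inner]
  have h1 : (starRingEnd ℂ) ((4 * K : ℂ))⁻¹ = (((4 * K : ℝ)⁻¹ : ℝ) : ℂ) := by
    push_cast
    rw [map_inv₀, map_mul, Complex.conj_natCast]
    congr 2
    exact Complex.conj_ofNat 4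
  rw [h1, Complex.re_ofReal_mul, Complex.re_sum]
  congr 1
  refine Finset.sum_congr rfl fun i _ => ?_
  rw [inner_add_left, inner_add_left, Complex.add_re, Complex.add_re,
    re_inner hτ hn hAd, re_inner hτ hn hAd, norm_sub_star hτ hin hn hAd, inner_smul_left]
  have h2 : (starRingEnd ℂ) (2 : ℂ) = ((2 : ℝ) : ℂ) := by
    rw [Complex.conj_ofNat 2]; norm_num
  have h3 : (⟪x, x⟫_ℂ).re = ‖x‖ ^ 2 := inner_self_eq_norm_sq (𝕜 := ℂ) x
  rw [h2, Complex.re_ofReal_mul, h3]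
  ring

include hτ hin hn hAd in
theorem TT_norm (hPSD : S_PSD) (hz : ∀ x : E, τ (ι x) = 0) {K : ℕ} (hK : 0 < K)
    (u : Fin K → unitary A) (Λ : ℝ) (hu : AG τ Λ u) (x : E) :
    ‖TT Ad u x‖ ≤ (1 - Λ / 4) * ‖x‖ := by
  have hKr : (0 : ℝ) < K := Nat.cast_pos.2 hK
  refine hPSD E (TT Ad u) (1 - Λ / 4) (TT_symm hτ hin hAd u) (fun x => ?_) (fun x => ?_) x
  · rw [TT_re hτ hin hn hAd]
    refine mul_nonneg (by positivity) (Finset.sum_nonneg fun i _ => ?_)
    have h1 : ‖Ad (u i) x - x‖ ≤ 2 * ‖x‖ := by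
      calc ‖Ad (u i) x - x‖ ≤ ‖Ad (u i) x‖ + ‖x‖ := norm_sub_le _ _
        _ = 2 * ‖x‖ := by rw [norm_Ad hτ hn hAd]; ring
    have h2 : ‖Ad (u i) x - x‖ ^ 2 ≤ (2 * ‖x‖) ^ 2 := by gcongr
    nlinarith
  · rw [TT_re hτ hin hn hAd, Finset.sum_sub_distrib, Finset.sum_const, Finset.card_univ,
      Fintype.card_fin, nsmul_eq_mul]
    have h1 := hu (ι x) (hz x)
    rw [Fintype.card_fin, ← hn] at h1
    simp only [← norm_sub hτ hn hAd] at h1
    rw [inv_mul_le_iff₀ (by positivity)]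
    nlinarith

end space

/-! ### the size of the torus -/

theorem exists_m (K : ℕ) (hK : 0 < K) : ∃ m : ℕ, 0 < m ∧ 4 * K ≤ m * m ∧ m * m ≤ 16 * K := by
  refine ⟨Nat.sqrt (4 * K) + 1, Nat.succ_pos _, (Nat.lt_succ_sqrt (4 * K)).le, ?_⟩
  have h1 : Nat.sqrt (4 * K) * Nat.sqrt (4 * K) ≤ 4 * K := Nat.sqrt_le (4 * K)
  have h2 : 1 ≤ Nat.sqrt (4 * K) := by
    rw [Nat.le_sqrt]
    omega
  nlinarith

/-- the family of `4K` unitaries -/
def fam {K : ℕ} (u : Fin K → unitary A) : Fin K × Fin 4 → unitary A := fun a =>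
  ![1, 1, u a.1, star (u a.1)] a.2

theorem fam_sum {E : Type} [NormedAddCommGroup E] [InnerProductSpace ℂ E]
    {Ad : unitary A → (E →ₗ[ℂ] E)} (h1 : ∀ x, Ad 1 x = x) {K : ℕ} (hK : 0 < K)
    (u : Fin K → unitary A) (x : E) :
    ∑ a, (Ad (fam u a) x - x) = (4 * K : ℂ) • (TT Ad u x - x) := by
  have hKc : (4 * K : ℂ) ≠ 0 := by
    have : (K : ℂ) ≠ 0 := Nat.cast_ne_zero.2 hK.ne'
    simp [this]
  rw [TT_apply, smul_sub, smul_smul, mul_inv_cancel₀ hKc, one_smul, Fintype.sum_prod_type]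
  have h2 : (4 * K : ℂ) • x = ∑ i : Fin K, (4 : ℂ) • x := by
    rw [Finset.sum_const, Finset.card_univ, Fintype.card_fin, mul_comm, mul_smul]
    rw [Nat.cast_smul_eq_nsmul]
  rw [h2, ← Finset.sum_sub_distrib]
  refine Finset.sum_congr rfl fun i _ => ?_
  simp only [fam, Fin.sum_univ_four, Matrix.cons_val_zero, Matrix.cons_val_one, Matrix.cons_val,
    h1]
  module

theorem ext_sum {E : Type} [NormedAddCommGroup E] [InnerProductSpace ℂ E]
    {Ad : unitary A → (E →ₗ[ℂ] E)} (h1 : ∀ x, Ad 1 x = x) {K : ℕ} (hK : 0 < K)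
    (u : Fin K → unitary A) {V : Type} [Fintype V] [Nonempty V] (e : Fin K × Fin 4 → V)
    (he : Function.Injective e) (x : E) :
    ((Fintype.card V : ℂ))⁻¹ • ∑ v, Ad (Function.extend e (fam u) (fun _ => 1) v) x =
      x + ((4 * K : ℂ) / Fintype.card V) • (TT Ad u x - x) := by
  have hV : (Fintype.card V : ℂ) ≠ 0 := Nat.cast_ne_zero.2 Fintype.card_ne_zero
  have h2 : ∑ v, (Ad (Function.extend e (fam u) (fun _ => 1) v) x - x) =
      ∑ a, (Ad (fam u a) x - x) := by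
    symm
    refine Fintype.sum_of_injective e he _ _ (fun v hv => ?_) (fun a => ?_)
    · rw [Function.extend_apply' _ _ _ (by simpa using hv), h1, sub_self]
    · rw [he.extend_apply]
  rw [fam_sum h1 hK, Finset.sum_sub_distrib, Finset.sum_const, Finset.card_univ,
    sub_eq_iff_eq_add] at h2
  rw [h2, smul_add, smul_smul, ← Nat.cast_smul_eq_nsmul ℂ, smul_smul, inv_mul_cancel₀ hV, one_smul,
    add_comm, div_eq_inv_mul]

theorem foldr_eq {E : Type} [NormedAddCommGroup E] [InnerProductSpace ℂ E]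
    {Ad : unitary A → (E →ₗ[ℂ] E)} (h1 : ∀ x, Ad 1 x = x)
    (h2 : ∀ u v x, Ad (u * v) x = Ad u (Ad v x)) {V : Type} (W : V → unitary A) (l : List V)
    (x : E) : l.foldr (fun v y => Ad (W v) y) x = Ad (l.map W).prod x := by
  induction l with
  | nil => simp [h1]
  | cons v l ih => rw [List.foldr_cons, ih, List.map_cons, List.prod_cons, h2]

end BOOST

theorem p_BOOST (hPSD : S_PSD) (hGRAPH : S_GRAPH) (hWALK : S_WALK) (hSPACE : S_SPACE) :
    S_BOOST := by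
  intro Λ₀ hΛ₀
  obtain ⟨d, p, hd, hp0, hp1, hG⟩ := hGRAPH
  set Λ : ℝ := min Λ₀ 4 with hΛdef
  have hΛ : 0 < Λ := lt_min hΛ₀ (by norm_num)
  have hΛ4 : Λ ≤ 4 := min_le_right _ _
  set t : ℝ := 1 - Λ / 16 with ht
  have ht0 : 0 ≤ t := by rw [ht]; linarith
  have ht1 : t < 1 := by rw [ht]; linarith
  have hr1 : 1 - (1 - p) ^ 2 * (1 - t) < 1 := by
    have : 0 < (1 - p) ^ 2 * (1 - t) := mul_pos (pow_pos (by linarith) 2) (by linarith)
    linarith
  obtain ⟨M, hM⟩ := exists_pow_lt_of_lt_one (show (0 : ℝ) < 1 / 2 by norm_num) hr1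
  refine ⟨16 * d ^ (2 * M), ?_⟩
  intro A _ τ hτ K u hK hu₀
  have hu : AG τ Λ u := by
    intro y hy
    refine le_trans ?_ (hu₀ y hy)
    have : Λ ≤ Λ₀ := min_le_left _ _
    gcongr
  obtain ⟨m, hm0, hm1, hm2⟩ := BOOST.exists_m K hK
  have : NeZero m := ⟨hm0.ne'⟩
  obtain ⟨σ, hσ⟩ := hG m
  have hcV : Fintype.card (ZMod m × ZMod m) = m * m := by
    rw [Fintype.card_prod, ZMod.card]
  obtain ⟨Ω, instΩ, pa, hcΩ, hΩ⟩ := hWALK (ZMod m × ZMod m) d p t σ M hd hp0 hp1 ht0 ht1.le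
  obtain ⟨E, instE1, instE2, ι, hinj, hcov, hin, hn, hU⟩ := hSPACE A τ hτ
  choose Ad hAd using hU
  have hz : ∀ x : E, τ (ι x) = 0 := fun x => (hcov (ι x)).1 ⟨x, rfl⟩
  have hA1 : ∀ x, Ad 1 x = x := BOOST.Ad_one hinj hAd
  have hA2 : ∀ u v x, Ad (u * v) x = Ad u (Ad v x) := BOOST.Ad_mul hinj hAd
  have hcard : Fintype.card (Fin K × Fin 4) ≤ Fintype.card (ZMod m × ZMod m) := by
    rw [hcV, Fintype.card_prod, Fintype.card_fin, Fintype.card_fin]
    linarith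
  obtain ⟨e⟩ := Function.Embedding.nonempty_of_card_le hcard
  set W : ZMod m × ZMod m → unitary A :=
    Function.extend e (BOOST.fam u) (fun _ => 1) with hW
  have hmr : (0 : ℝ) < (m * m : ℕ) := Nat.cast_pos.2 (Nat.mul_pos hm0 hm0)
  have havg : ∀ x : E, ‖((Fintype.card (ZMod m × ZMod m) : ℂ))⁻¹ • ∑ v, Ad (W v) x‖ ≤
      t * ‖x‖ := by
    intro x
    rw [hW, BOOST.ext_sum hA1 hK u e e.injective x, hcV]
    have hs : (4 * K : ℂ) / ((m * m : ℕ) : ℂ) = ((4 * K / (m * m : ℕ) : ℝ) : ℂ) := by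
      push_cast; ring
    rw [hs]
    set s : ℝ := 4 * K / (m * m : ℕ) with hsdef
    have hs0 : 0 ≤ s := by positivity
    have hs1 : s ≤ 1 := by
      rw [hsdef, div_le_one hmr]
      exact_mod_cast hm1
    have hs4 : 1 / 4 ≤ s := by
      rw [hsdef, le_div_iff₀ hmr]
      have : ((m * m : ℕ) : ℝ) ≤ 16 * K := by exact_mod_cast hm2
      linarith
    have e1 : x + (s : ℂ) • (BOOST.TT Ad u x - x) =
        ((1 - s : ℝ) : ℂ) • x + (s : ℂ) • BOOST.TT Ad u x := by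
      push_cast
      module
    rw [e1]
    have hT := BOOST.TT_norm hτ hin hn hAd hPSD hz hK u Λ hu x
    calc ‖((1 - s : ℝ) : ℂ) • x + (s : ℂ) • BOOST.TT Ad u x‖
        ≤ ‖((1 - s : ℝ) : ℂ) • x‖ + ‖(s : ℂ) • BOOST.TT Ad u x‖ := norm_add_le _ _
      _ = (1 - s) * ‖x‖ + s * ‖BOOST.TT Ad u x‖ := by
          rw [norm_smul, norm_smul, Complex.norm_real, Complex.norm_real,
            Real.norm_of_nonneg hs0, Real.norm_of_nonneg (by linarith)]
      _ ≤ (1 - s) * ‖x‖ + s * ((1 - Λ / 4) * ‖x‖) := by gcongr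
      _ = (1 - s * (Λ / 4)) * ‖x‖ := by ring
      _ ≤ t * ‖x‖ := by
          refine mul_le_mul_of_nonneg_right ?_ (norm_nonneg _)
          rw [ht]
          nlinarith
  have hfin := hΩ E (fun v => Ad (W v)) (fun v x => BOOST.norm_Ad hτ hn hAd (W v) x)
    (fun F hF => hσ E F hF) havg
  simp only [BOOST.foldr_eq hA1 hA2] at hfin
  have hΩpos : 0 < Fintype.card Ω := by
    rw [hcΩ, hcV]
    exact Nat.mul_pos (Nat.mul_pos hm0 hm0) (pow_pos hd _)
  refine ⟨Fintype.card Ω, hΩpos, ?_, fun i =>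
    ((pa ((Fintype.equivFin Ω).symm i)).map W).prod, ?_⟩
  · rw [hcΩ, hcV]
    calc m * m * d ^ (2 * M) ≤ 16 * K * d ^ (2 * M) := Nat.mul_le_mul_right _ hm2
      _ = 16 * d ^ (2 * M) * K := by ring
  · intro y hy
    obtain ⟨x, rfl⟩ := (hcov y).2 hy
    have hNr : (0 : ℝ) < Fintype.card Ω := Nat.cast_pos.2 hΩpos
    rw [Fintype.card_fin, one_mul]
    have e2 : ∑ i, n2 τ (cm ((((pa ((Fintype.equivFin Ω).symm i)).map W).prod : unitary A) : A)
        (ι x)) ^ 2 = ∑ ω, ‖Ad ((pa ω).map W).prod x - x‖ ^ 2 := by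
      rw [← Equiv.sum_comp (Fintype.equivFin Ω).symm]
      refine Finset.sum_congr rfl fun i _ => ?_
      rw [BOOST.norm_sub hτ hn hAd]
    rw [e2, ← hn]
    have e3 : ∀ ω, ‖Ad ((pa ω).map W).prod x - x‖ ^ 2 =
        2 * ‖x‖ ^ 2 - 2 * (⟪Ad ((pa ω).map W).prod x, x⟫_ℂ).re := by
      intro ω
      have := BOOST.re_inner hτ hn hAd ((pa ω).map W).prod x
      linarith
    rw [Finset.sum_congr rfl fun ω _ => e3 ω, Finset.sum_sub_distrib, Finset.sum_const,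
      Finset.card_univ, nsmul_eq_mul, ← Finset.mul_sum]
    have e4 : ∑ ω, (⟪Ad ((pa ω).map W).prod x, x⟫_ℂ).re =
        (⟪∑ ω, Ad ((pa ω).map W).prod x, x⟫_ℂ).re := by
      rw [sum_inner, Complex.re_sum]
    have e5 : ‖∑ ω, Ad ((pa ω).map W).prod x‖ ≤ Fintype.card Ω * (1 / 2 * ‖x‖) := by
      have h1 := hfin x
      rw [norm_smul, norm_inv, Complex.norm_natCast, inv_mul_le_iff₀ hNr] at h1
      refine h1.trans ?_
      gcongr
    have e6 : (⟪∑ ω, Ad ((pa ω).map W).prod x, x⟫_ℂ).re ≤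
        Fintype.card Ω * (1 / 2 * ‖x‖) * ‖x‖ := by
      calc (⟪∑ ω, Ad ((pa ω).map W).prod x, x⟫_ℂ).re
          ≤ ‖⟪∑ ω, Ad ((pa ω).map W).prod x, x⟫_ℂ‖ := Complex.re_le_norm _
        _ ≤ ‖∑ ω, Ad ((pa ω).map W).prod x‖ * ‖x‖ := norm_inner_le_norm _ _
        _ ≤ _ := by gcongr
    rw [e4]
    nlinarith

end Pool.Agent.H518R4.UG
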