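import Pool.Agent.H518R4.UG.Stubs

/-! Task BURG: the combinatorial core of the expander. -/

set_option autoImplicit false

namespace Pool.Agent.H518R4.UG

namespace BURGx

open Finset

/-! ### the trigonometric estimate -/

theorem norm_exp_sub_one_sq (θ : ℝ) :
    ‖Complex.exp ((θ : ℂ) * Complex.I) - 1‖ ^ 2 = 2 - 2 * Real.cos θ := by
  rw [← Complex.normSq_eq_norm_sq, Complex.normSq_apply]
  have h1 : (Complex.exp ((θ : ℂ) * Complex.I) - 1).re = Real.cos θ - 1 := by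
    rw [Complex.sub_re, Complex.exp_ofReal_mul_I_re, Complex.one_re]
  have h2 : (Complex.exp ((θ : ℂ) * Complex.I) - 1).im = Real.sin θ := by
    rw [Complex.sub_im, Complex.exp_ofReal_mul_I_im, Complex.one_im, sub_zero]
  rw [h1, h2]
  nlinarith [Real.sin_sq_add_cos_sq θ]

theorem char_ge (n : ℕ) [NeZero n] (x : ZMod n) (h : (n : ℤ) ≤ 8 * |x.valMinAbs|) :
    (58 / 100 : ℝ) ≤ ‖(ZMod.stdAddChar x : ℂ) - 1‖ ^ 2 := by
  have hn : (0 : ℝ) < n := by exact_mod_cast Nat.pos_of_ne_zero (NeZero.ne n)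
  set j : ℤ := x.valMinAbs with hj
  have hx : x = (j : ZMod n) := (ZMod.coe_valMinAbs x).symm
  have hIoc := ZMod.valMinAbs_mem_Ioc x
  rw [← hj] at hIoc
  have hchar : (ZMod.stdAddChar x : ℂ) =
      Complex.exp (((2 * Real.pi * |(j : ℝ)| / n * (if 0 ≤ j then 1 else -1) : ℝ) : ℂ) * Complex.I) := by
    rw [hx, ZMod.stdAddChar_coe]
    congr 1
    have h2 : (2 * Real.pi * |(j : ℝ)| / n * (if 0 ≤ j then 1 else -1) : ℝ) =
        2 * Real.pi * j / n := by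
      split_ifs with h0
      · have : (0 : ℝ) ≤ j := by exact_mod_cast h0
        rw [abs_of_nonneg this, mul_one]
      · have : (j : ℝ) < 0 := by exact_mod_cast (not_le.mp h0)
        rw [abs_of_neg this]
        ring
    rw [h2]
    push_cast
    ring
  rw [hchar, norm_exp_sub_one_sq]
  have hcos : Real.cos (2 * Real.pi * |(j : ℝ)| / n * (if 0 ≤ j then 1 else -1)) =
      Real.cos (2 * Real.pi * |(j : ℝ)| / n) := by
    split_ifs
    · rw [mul_one]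
    · rw [mul_neg_one, Real.cos_neg]
  rw [hcos]
  have habs : (n : ℝ) ≤ 8 * |(j : ℝ)| := by exact_mod_cast h
  have habs2 : 2 * |(j : ℝ)| ≤ n := by
    have : |j| * 2 ≤ (n : ℤ) := by
      rcases abs_cases j with ⟨h1, _⟩ | ⟨h1, _⟩ <;> rw [h1]
      · exact hIoc.2
      · linarith [hIoc.1]
    have h3 : (|(j : ℝ)|) * 2 ≤ n := by exact_mod_cast this
    linarith
  have hpi := Real.pi_pos
  have h1 : Real.pi / 4 ≤ 2 * Real.pi * |(j : ℝ)| / n := by
    rw [le_div_iff₀ hn]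
    nlinarith
  have h2 : 2 * Real.pi * |(j : ℝ)| / n ≤ Real.pi := by
    rw [div_le_iff₀ hn]
    nlinarith
  have h3 := Real.cos_le_cos_of_nonneg_of_le_pi (by positivity) h2 h1
  rw [Real.cos_pi_div_four] at h3
  have h4 : Real.sqrt 2 ≤ 142 / 100 := by
    rw [Real.sqrt_le_left (by norm_num)]
    norm_num
  linarith

/-! ### the combinatorial part -/

section

variable {n : ℕ} [NeZero n]

/-- shears -/
def sh1 (s : ZMod n) (v : ZMod n × ZMod n) : ZMod n × ZMod n := (v.1, v.2 + s * v.1)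

/-- shears -/
def sh2 (s : ZMod n) (v : ZMod n × ZMod n) : ZMod n × ZMod n := (v.1 + s * v.2, v.2)

/-- shear as a permutation -/
def e1 (s : ZMod n) : (ZMod n × ZMod n) ≃ (ZMod n × ZMod n) where
  toFun := sh1 s
  invFun := sh1 (-s)
  left_inv v := by
    unfold sh1
    ext <;> simp
  right_inv v := by
    unfold sh1
    ext <;> simp

/-- shear as a permutation -/
def e2 (s : ZMod n) : (ZMod n × ZMod n) ≃ (ZMod n × ZMod n) where
  toFun := sh2 s
  invFun := sh2 (-s)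
  left_inv v := by
    unfold sh2
    ext <;> simp
  right_inv v := by
    unfold sh2
    ext <;> simp

theorem energy (c : ZMod n × ZMod n → ℝ) (hc : ∀ v, 0 ≤ c v)
    (e : (ZMod n × ZMod n) ≃ (ZMod n × ZMod n)) (A : Finset (ZMod n × ZMod n)) :
    ∑ v ∈ A, c v ^ 2 ≤ ∑ v ∈ A, c (e v) ^ 2 +
      2 * Real.sqrt ((∑ v, (c (e v) - c v) ^ 2) * ∑ v, c v ^ 2) := by
  set T := ∑ v, c v ^ 2 with hT
  set E := ∑ v, (c (e v) - c v) ^ 2 with hE
  have hT0 : 0 ≤ T := Finset.sum_nonneg fun v _ => sq_nonneg _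
  have hE0 : 0 ≤ E := Finset.sum_nonneg fun v _ => sq_nonneg _
  have h1 : ∑ v ∈ A, c v ^ 2 - ∑ v ∈ A, c (e v) ^ 2 ≤ ∑ v, |c (e v) - c v| * (c (e v) + c v) := by
    rw [← Finset.sum_sub_distrib]
    calc ∑ v ∈ A, (c v ^ 2 - c (e v) ^ 2) ≤ ∑ v ∈ A, |c (e v) - c v| * (c (e v) + c v) := by
          refine Finset.sum_le_sum fun v _ => ?_
          have a1 := neg_abs_le (c (e v) - c v)
          have a2 : 0 ≤ c (e v) + c v := add_nonneg (hc _) (hc _)
          nlinarith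
      _ ≤ ∑ v, |c (e v) - c v| * (c (e v) + c v) := by
          refine Finset.sum_le_sum_of_subset_of_nonneg (Finset.subset_univ _) fun v _ _ => ?_
          exact mul_nonneg (abs_nonneg _) (add_nonneg (hc _) (hc _))
  have h2 : (∑ v, |c (e v) - c v| * (c (e v) + c v)) ^ 2 ≤
      (∑ v, |c (e v) - c v| ^ 2) * ∑ v, (c (e v) + c v) ^ 2 :=
    Finset.sum_mul_sq_le_sq_mul_sq _ _ _
  have h3 : ∑ v, |c (e v) - c v| ^ 2 = E := by
    rw [hE]
    exact Finset.sum_congr rfl fun v _ => sq_abs _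
  have h4 : ∑ v, (c (e v) + c v) ^ 2 ≤ 4 * T := by
    have h5 : ∑ v, c (e v) ^ 2 = T := Equiv.sum_comp e (fun v => c v ^ 2)
    calc ∑ v, (c (e v) + c v) ^ 2 ≤ ∑ v, (2 * c (e v) ^ 2 + 2 * c v ^ 2) := by
          refine Finset.sum_le_sum fun v _ => ?_
          nlinarith [sq_nonneg (c (e v) - c v)]
      _ = 4 * T := by
          rw [Finset.sum_add_distrib, ← Finset.mul_sum, ← Finset.mul_sum, h5]
          ring
  have h6 : ∑ v, |c (e v) - c v| * (c (e v) + c v) ≤ 2 * Real.sqrt (E * T) := by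
    have h7 : (2 * Real.sqrt (E * T)) ^ 2 = 4 * (E * T) := by
      rw [mul_pow, Real.sq_sqrt (mul_nonneg hE0 hT0)]
      norm_num
    refine le_of_sq_le_sq ?_ (by positivity)
    rw [h7]
    refine le_trans h2 ?_
    rw [h3]
    nlinarith
  linarith

theorem two_shear (w : ZMod n × ZMod n → ℝ) (hw : ∀ v, 0 ≤ w v) (Q Qp : Finset (ZMod n × ZMod n))
    (f g : (ZMod n × ZMod n) ≃ (ZMod n × ZMod n)) (h1 : ∀ v ∈ Q, f v ∈ Qp)
    (h2 : ∀ v ∈ Q, g v ∈ Qp) (h3 : ∀ u ∈ Q, ∀ v ∈ Q, f u ≠ g v) :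
    ∑ v ∈ Q, w (f v) + ∑ v ∈ Q, w (g v) ≤ ∑ v ∈ Qp, w v := by
  classical
  have e1 : ∑ v ∈ Q, w (f v) = ∑ v ∈ Q.map f.toEmbedding, w v := by
    rw [Finset.sum_map]
    rfl
  have e2 : ∑ v ∈ Q, w (g v) = ∑ v ∈ Q.map g.toEmbedding, w v := by
    rw [Finset.sum_map]
    rfl
  have hd : Disjoint (Q.map f.toEmbedding) (Q.map g.toEmbedding) := by
    rw [Finset.disjoint_left]
    intro v hv hv'
    rw [Finset.mem_map] at hv hv'
    obtain ⟨u, hu, rfl⟩ := hv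
    obtain ⟨u', hu', h⟩ := hv'
    exact h3 u hu u' hu' h.symm
  rw [e1, e2, ← Finset.sum_union hd]
  refine Finset.sum_le_sum_of_subset_of_nonneg ?_ fun v _ _ => hw v
  intro v hv
  rw [Finset.mem_union, Finset.mem_map, Finset.mem_map] at hv
  rcases hv with ⟨u, hu, rfl⟩ | ⟨u, hu, rfl⟩
  · exact h1 u hu
  · exact h2 u hu

/-- the region `8 |a| < n`, `8 |b| < n` -/
def inB (v : ZMod n × ZMod n) : Prop :=
  8 * |v.1.valMinAbs| < (n : ℤ) ∧ 8 * |v.2.valMinAbs| < (n : ℤ)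

instance (v : ZMod n × ZMod n) : Decidable (inB v) := by
  unfold inB
  infer_instance

theorem vma_add (x y : ZMod n) (s : ℤ) (hs : s = 1 ∨ s = -1) (hx : 8 * |x.valMinAbs| < (n : ℤ))
    (hy : 8 * |y.valMinAbs| < (n : ℤ)) :
    (x + (s : ZMod n) * y).valMinAbs = x.valMinAbs + s * y.valMinAbs := by
  rw [ZMod.valMinAbs_spec]
  constructor
  · rw [Int.cast_add, Int.cast_mul, ZMod.coe_valMinAbs, ZMod.coe_valMinAbs]
  · have h1 := abs_lt.mp (show |x.valMinAbs * 8| < (n : ℤ) by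
      rw [abs_mul, abs_of_pos (by norm_num : (0 : ℤ) < 8)]; linarith)
    have h2 := abs_lt.mp (show |y.valMinAbs * 8| < (n : ℤ) by
      rw [abs_mul, abs_of_pos (by norm_num : (0 : ℤ) < 8)]; linarith)
    rcases hs with rfl | rfl
    · constructor <;> linarith [h1.1, h1.2, h2.1, h2.2]
    · constructor <;> linarith [h1.1, h1.2, h2.1, h2.2]

theorem quad (c : ZMod n × ZMod n → ℝ) (hc : ∀ v, 0 ≤ c v) (s : ℤ) (hs : s = 1 ∨ s = -1)
    (P : ℤ → ℤ → Prop) [∀ a b, Decidable (P a b)] (h1 : ∀ a b, P a b → P a (b + s * a))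
    (h2 : ∀ a b, P a b → P (a + s * b) b)
    (h3 : ∀ a b a' b', P a b → P a' b' → ¬ (a = a' + s * b' ∧ b + s * a = b')) :
    ∑ v ∈ univ.filter (fun v : ZMod n × ZMod n => inB v ∧ P v.1.valMinAbs v.2.valMinAbs), c v ^ 2 ≤
      ∑ v ∈ univ.filter (fun v : ZMod n × ZMod n => ¬ inB v), c v ^ 2 +
      2 * Real.sqrt ((∑ v, (c (e1 (s : ZMod n) v) - c v) ^ 2) * ∑ v, c v ^ 2) +
      2 * Real.sqrt ((∑ v, (c (e2 (s : ZMod n) v) - c v) ^ 2) * ∑ v, c v ^ 2) := by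
  set Q := univ.filter (fun v : ZMod n × ZMod n => inB v ∧ P v.1.valMinAbs v.2.valMinAbs) with hQ
  set Qp := univ.filter (fun v : ZMod n × ZMod n => P v.1.valMinAbs v.2.valMinAbs) with hQp
  have a1 := energy c hc (e1 (s : ZMod n)) Q
  have a2 := energy c hc (e2 (s : ZMod n)) Q
  have v1 : ∀ v ∈ Q, (e1 (s : ZMod n) v).1.valMinAbs = v.1.valMinAbs ∧
      (e1 (s : ZMod n) v).2.valMinAbs = v.2.valMinAbs + s * v.1.valMinAbs := by
    intro v hv
    rw [hQ, mem_filter] at hv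
    exact ⟨rfl, vma_add v.2 v.1 s hs hv.2.1.2 hv.2.1.1⟩
  have v2 : ∀ v ∈ Q, (e2 (s : ZMod n) v).1.valMinAbs = v.1.valMinAbs + s * v.2.valMinAbs ∧
      (e2 (s : ZMod n) v).2.valMinAbs = v.2.valMinAbs := by
    intro v hv
    rw [hQ, mem_filter] at hv
    exact ⟨vma_add v.1 v.2 s hs hv.2.1.1 hv.2.1.2, rfl⟩
  have a3 := two_shear (fun v => c v ^ 2) (fun v => sq_nonneg _) Q Qp (e1 (s : ZMod n))
    (e2 (s : ZMod n)) (by
      intro v hv
      obtain ⟨b1, b2⟩ := v1 v hv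
      rw [hQp, mem_filter, b1, b2]
      rw [hQ, mem_filter] at hv
      exact ⟨mem_univ _, h1 _ _ hv.2.2⟩) (by
      intro v hv
      obtain ⟨b1, b2⟩ := v2 v hv
      rw [hQp, mem_filter, b1, b2]
      rw [hQ, mem_filter] at hv
      exact ⟨mem_univ _, h2 _ _ hv.2.2⟩) (by
      intro u hu v hv heq
      obtain ⟨b1, b2⟩ := v1 u hu
      obtain ⟨b3, b4⟩ := v2 v hv
      rw [heq, b3] at b1
      rw [heq, b4] at b2
      rw [hQ, mem_filter] at hu hv
      exact h3 _ _ _ _ hu.2.2 hv.2.2 ⟨b1.symm, b2.symm⟩)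
  have a4 : ∑ v ∈ Qp, c v ^ 2 ≤ ∑ v ∈ Q, c v ^ 2 +
      ∑ v ∈ univ.filter (fun v : ZMod n × ZMod n => ¬ inB v), c v ^ 2 := by
    rw [← Finset.sum_union]
    · refine Finset.sum_le_sum_of_subset_of_nonneg ?_ fun v _ _ => sq_nonneg _
      intro v hv
      rw [hQp, mem_filter] at hv
      rw [mem_union, hQ, mem_filter, mem_filter]
      by_cases h : inB v
      · exact Or.inl ⟨mem_univ _, h, hv.2⟩
      · exact Or.inr ⟨mem_univ _, h⟩
    · rw [Finset.disjoint_left]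
      intro v hv hv'
      rw [hQ, mem_filter] at hv
      rw [mem_filter] at hv'
      exact hv'.2 hv.2.1
  linarith

theorem e1_neg_energy (c : ZMod n × ZMod n → ℝ) :
    ∑ v, (c (e1 ((-1 : ℤ) : ZMod n) v) - c v) ^ 2 = ∑ v, (c (e1 ((1 : ℤ) : ZMod n) v) - c v) ^ 2 := by
  rw [← Equiv.sum_comp (e1 ((1 : ℤ) : ZMod n))
    (fun v => (c (e1 ((-1 : ℤ) : ZMod n) v) - c v) ^ 2)]
  refine Finset.sum_congr rfl fun v _ => ?_
  have h : e1 ((-1 : ℤ) : ZMod n) (e1 ((1 : ℤ) : ZMod n) v) = v := by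
    show sh1 _ (sh1 _ v) = v
    unfold sh1
    ext <;> simp
  show (c (e1 ((-1 : ℤ) : ZMod n) (e1 ((1 : ℤ) : ZMod n) v)) - c (e1 ((1 : ℤ) : ZMod n) v)) ^ 2 = _
  rw [h]
  ring

theorem e2_neg_energy (c : ZMod n × ZMod n → ℝ) :
    ∑ v, (c (e2 ((-1 : ℤ) : ZMod n) v) - c v) ^ 2 = ∑ v, (c (e2 ((1 : ℤ) : ZMod n) v) - c v) ^ 2 := by
  rw [← Equiv.sum_comp (e2 ((1 : ℤ) : ZMod n))
    (fun v => (c (e2 ((-1 : ℤ) : ZMod n) v) - c v) ^ 2)]
  refine Finset.sum_congr rfl fun v _ => ?_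
  have h : e2 ((-1 : ℤ) : ZMod n) (e2 ((1 : ℤ) : ZMod n) v) = v := by
    show sh2 _ (sh2 _ v) = v
    unfold sh2
    ext <;> simp
  show (c (e2 ((-1 : ℤ) : ZMod n) (e2 ((1 : ℤ) : ZMod n) v)) - c (e2 ((1 : ℤ) : ZMod n) v)) ^ 2 = _
  rw [h]
  ring

theorem vma_zero (x : ZMod n) (h : x.valMinAbs = 0) : x = 0 := by
  rw [← ZMod.coe_valMinAbs x, h, Int.cast_zero]

end

end BURGx

open BURGx Finset in
theorem p_BURG : S_BURG := by
  intro n _ c hc c0
  set T := ∑ v, c v ^ 2 with hT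
  set E1 := ∑ v : ZMod n × ZMod n, ‖(ZMod.stdAddChar v.1 : ℂ) - 1‖ ^ 2 * c v ^ 2 with hE1
  set E2 := ∑ v : ZMod n × ZMod n, ‖(ZMod.stdAddChar v.2 : ℂ) - 1‖ ^ 2 * c v ^ 2 with hE2
  have e3 : ∑ v : ZMod n × ZMod n, (c (v.1, v.2 + v.1) - c v) ^ 2 =
      ∑ v, (c (e1 ((1 : ℤ) : ZMod n) v) - c v) ^ 2 := by
    refine Finset.sum_congr rfl fun v _ => ?_
    have : e1 ((1 : ℤ) : ZMod n) v = (v.1, v.2 + v.1) := by
      show sh1 _ v = _
      unfold sh1
      simp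
    rw [this]
  have e4 : ∑ v : ZMod n × ZMod n, (c (v.1 + v.2, v.2) - c v) ^ 2 =
      ∑ v, (c (e2 ((1 : ℤ) : ZMod n) v) - c v) ^ 2 := by
    refine Finset.sum_congr rfl fun v _ => ?_
    have : e2 ((1 : ℤ) : ZMod n) v = (v.1 + v.2, v.2) := by
      show sh2 _ v = _
      unfold sh2
      simp
    rw [this]
  rw [e3, e4]
  set E3 := ∑ v, (c (e1 ((1 : ℤ) : ZMod n) v) - c v) ^ 2 with hE3
  set E4 := ∑ v, (c (e2 ((1 : ℤ) : ZMod n) v) - c v) ^ 2 with hE4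
  have hT0 : 0 ≤ T := Finset.sum_nonneg fun v _ => sq_nonneg _
  have hE10 : 0 ≤ E1 := Finset.sum_nonneg fun v _ => mul_nonneg (sq_nonneg _) (sq_nonneg _)
  have hE20 : 0 ≤ E2 := Finset.sum_nonneg fun v _ => mul_nonneg (sq_nonneg _) (sq_nonneg _)
  have hE30 : 0 ≤ E3 := Finset.sum_nonneg fun v _ => sq_nonneg _
  have hE40 : 0 ≤ E4 := Finset.sum_nonneg fun v _ => sq_nonneg _
  -- the mass outside of B
  set m := ∑ v ∈ univ.filter (fun v : ZMod n × ZMod n => ¬ inB v), c v ^ 2 with hm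
  have hmE : 58 / 100 * m ≤ E1 + E2 := by
    rw [hm, Finset.mul_sum, hE1, hE2, ← Finset.sum_add_distrib]
    calc ∑ v ∈ univ.filter (fun v : ZMod n × ZMod n => ¬ inB v), 58 / 100 * c v ^ 2 ≤
        ∑ v ∈ univ.filter (fun v : ZMod n × ZMod n => ¬ inB v),
          (‖(ZMod.stdAddChar v.1 : ℂ) - 1‖ ^ 2 * c v ^ 2 +
            ‖(ZMod.stdAddChar v.2 : ℂ) - 1‖ ^ 2 * c v ^ 2) := by
          refine Finset.sum_le_sum fun v hv => ?_
          rw [mem_filter] at hv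
          have hv2 := hv.2
          unfold inB at hv2
          rw [not_and_or, not_lt, not_lt] at hv2
          have s0 := sq_nonneg (c v)
          have s1 := sq_nonneg (‖(ZMod.stdAddChar v.1 : ℂ) - 1‖)
          have s2 := sq_nonneg (‖(ZMod.stdAddChar v.2 : ℂ) - 1‖)
          rcases hv2 with h | h
          · have := char_ge n v.1 h
            nlinarith [mul_nonneg s2 s0]
          · have := char_ge n v.2 h
            nlinarith [mul_nonneg s1 s0]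
      _ ≤ _ := Finset.sum_le_sum_of_subset_of_nonneg (Finset.subset_univ _) fun v _ _ =>
          add_nonneg (mul_nonneg (sq_nonneg _) (sq_nonneg _))
            (mul_nonneg (sq_nonneg _) (sq_nonneg _))
  -- the quadrants
  have q1 := quad c hc 1 (Or.inl rfl) (fun a b => 0 < a ∧ 0 ≤ b) (by intro a b h; constructor <;> omega)
    (by intro a b h; constructor <;> omega) (by intro a b a' b' h h' hh; omega)
  have q2 := quad c hc (-1) (Or.inr rfl) (fun a b => a ≤ 0 ∧ 0 < b)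
    (by intro a b h; constructor <;> omega)
    (by intro a b h; constructor <;> omega) (by intro a b a' b' h h' hh; omega)
  have q3 := quad c hc 1 (Or.inl rfl) (fun a b => a < 0 ∧ b ≤ 0) (by intro a b h; constructor <;> omega)
    (by intro a b h; constructor <;> omega) (by intro a b a' b' h h' hh; omega)
  have q4 := quad c hc (-1) (Or.inr rfl) (fun a b => 0 ≤ a ∧ b < 0)
    (by intro a b h; constructor <;> omega)
    (by intro a b h; constructor <;> omega) (by intro a b a' b' h h' hh; omega)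
  rw [e1_neg_energy, e2_neg_energy] at q2 q4
  rw [← hE3, ← hE4, ← hT, ← hm] at q1 q2 q3 q4
  have htot : T ≤ m +
      ∑ v ∈ univ.filter (fun v : ZMod n × ZMod n => inB v ∧
        (0 < v.1.valMinAbs ∧ 0 ≤ v.2.valMinAbs)), c v ^ 2 +
      ∑ v ∈ univ.filter (fun v : ZMod n × ZMod n => inB v ∧
        (v.1.valMinAbs ≤ 0 ∧ 0 < v.2.valMinAbs)), c v ^ 2 +
      ∑ v ∈ univ.filter (fun v : ZMod n × ZMod n => inB v ∧
        (v.1.valMinAbs < 0 ∧ v.2.valMinAbs ≤ 0)), c v ^ 2 +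
      ∑ v ∈ univ.filter (fun v : ZMod n × ZMod n => inB v ∧
        (0 ≤ v.1.valMinAbs ∧ v.2.valMinAbs < 0)), c v ^ 2 := by
    rw [hT, hm, Finset.sum_filter, Finset.sum_filter, Finset.sum_filter, Finset.sum_filter,
      Finset.sum_filter, ← Finset.sum_add_distrib, ← Finset.sum_add_distrib,
      ← Finset.sum_add_distrib, ← Finset.sum_add_distrib]
    refine Finset.sum_le_sum fun v _ => ?_
    have s0 := sq_nonneg (c v)
    have hnn : ∀ (p : Prop) [Decidable p], 0 ≤ (if p then c v ^ 2 else 0) := by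
      intro p _
      split_ifs
      · exact s0
      · exact le_refl _
    by_cases hB : inB v
    · by_cases hv : v = 0
      · rw [hv, c0]
        simp
      · have hv' : ¬ (v.1.valMinAbs = 0 ∧ v.2.valMinAbs = 0) := by
          rintro ⟨h1, h2⟩
          exact hv (Prod.ext (vma_zero _ h1) (vma_zero _ h2))
        have hcase : (0 < v.1.valMinAbs ∧ 0 ≤ v.2.valMinAbs) ∨
            (v.1.valMinAbs ≤ 0 ∧ 0 < v.2.valMinAbs) ∨ (v.1.valMinAbs < 0 ∧ v.2.valMinAbs ≤ 0) ∨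
            (0 ≤ v.1.valMinAbs ∧ v.2.valMinAbs < 0) := by omega
        rcases hcase with h | h | h | h
        · rw [if_pos (show inB v ∧ _ from ⟨hB, h⟩)]
          linarith [hnn (¬ inB v), hnn (inB v ∧ (v.1.valMinAbs ≤ 0 ∧ 0 < v.2.valMinAbs)),
            hnn (inB v ∧ (v.1.valMinAbs < 0 ∧ v.2.valMinAbs ≤ 0)),
            hnn (inB v ∧ (0 ≤ v.1.valMinAbs ∧ v.2.valMinAbs < 0))]
        · rw [if_pos (show inB v ∧ (v.1.valMinAbs ≤ 0 ∧ 0 < v.2.valMinAbs) from ⟨hB, h⟩)]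
          linarith [hnn (¬ inB v), hnn (inB v ∧ (0 < v.1.valMinAbs ∧ 0 ≤ v.2.valMinAbs)),
            hnn (inB v ∧ (v.1.valMinAbs < 0 ∧ v.2.valMinAbs ≤ 0)),
            hnn (inB v ∧ (0 ≤ v.1.valMinAbs ∧ v.2.valMinAbs < 0))]
        · rw [if_pos (show inB v ∧ (v.1.valMinAbs < 0 ∧ v.2.valMinAbs ≤ 0) from ⟨hB, h⟩)]
          linarith [hnn (¬ inB v), hnn (inB v ∧ (0 < v.1.valMinAbs ∧ 0 ≤ v.2.valMinAbs)),
            hnn (inB v ∧ (v.1.valMinAbs ≤ 0 ∧ 0 < v.2.valMinAbs)),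
            hnn (inB v ∧ (0 ≤ v.1.valMinAbs ∧ v.2.valMinAbs < 0))]
        · rw [if_pos (show inB v ∧ (0 ≤ v.1.valMinAbs ∧ v.2.valMinAbs < 0) from ⟨hB, h⟩)]
          linarith [hnn (¬ inB v), hnn (inB v ∧ (0 < v.1.valMinAbs ∧ 0 ≤ v.2.valMinAbs)),
            hnn (inB v ∧ (v.1.valMinAbs ≤ 0 ∧ 0 < v.2.valMinAbs)),
            hnn (inB v ∧ (v.1.valMinAbs < 0 ∧ v.2.valMinAbs ≤ 0))]
    · rw [if_pos hB]
      linarith [hnn (inB v ∧ (0 < v.1.valMinAbs ∧ 0 ≤ v.2.valMinAbs)),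
            hnn (inB v ∧ (v.1.valMinAbs ≤ 0 ∧ 0 < v.2.valMinAbs)),
            hnn (inB v ∧ (v.1.valMinAbs < 0 ∧ v.2.valMinAbs ≤ 0)),
            hnn (inB v ∧ (0 ≤ v.1.valMinAbs ∧ v.2.valMinAbs < 0))]
  have hmain : T ≤ 5 * m + 8 * Real.sqrt (E3 * T) + 8 * Real.sqrt (E4 * T) := by linarith
  by_contra hcon
  push Not at hcon
  have hTpos : 0 < T := by nlinarith
  -- sqrt (E3 T) ≤ T/20 etc.
  have s3 : Real.sqrt (E3 * T) + Real.sqrt (E4 * T) ≤ 8 / 100 * T := by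
    have r3 := Real.sq_sqrt (mul_nonneg hE30 hT0)
    have r4 := Real.sq_sqrt (mul_nonneg hE40 hT0)
    have p3 := Real.sqrt_nonneg (E3 * T)
    have p4 := Real.sqrt_nonneg (E4 * T)
    refine le_of_sq_le_sq ?_ (by positivity)
    nlinarith [sq_nonneg (Real.sqrt (E3 * T) - Real.sqrt (E4 * T))]
  nlinarith

end Pool.Agent.H518R4.UG
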