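import Mathlib
import Pool.Agent.H518R4.UG.Stubs

/-! Task CEXP: the classical expander (Margulis, Gabber-Galil) by Fourier transform. -/

namespace Pool.Agent.H518R4.UG

open Finset
open scoped ComplexConjugate

section cexp

variable {E : Type} [NormedAddCommGroup E] [InnerProductSpace ℂ E] {m : ℕ} [NeZero m]

/-- the character -/
noncomputable def cexp_e (k v : ZMod m × ZMod m) : ℂ :=
  ZMod.stdAddChar (N := m) (-(k.1 * v.1 + k.2 * v.2))

/-- Fourier transform -/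
noncomputable def cexp_FT (F : ZMod m × ZMod m → E) (k : ZMod m × ZMod m) : E :=
  ∑ v, cexp_e k v • F v

theorem cexp_ee (k v w : ZMod m × ZMod m) : conj (cexp_e k v) * cexp_e k w =
    ZMod.stdAddChar (N := m) (k.1 * (v.1 - w.1)) *
      ZMod.stdAddChar (N := m) (k.2 * (v.2 - w.2)) := by
  unfold cexp_e
  rw [← AddChar.map_neg_eq_conj, ← AddChar.map_add_eq_mul, ← AddChar.map_add_eq_mul]
  congr 1
  ring

theorem cexp_orth (v w : ZMod m × ZMod m) :
    ∑ k, conj (cexp_e k v) * cexp_e k w = if v = w then (m : ℂ) ^ 2 else 0 := by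
  simp only [cexp_ee]
  rw [Fintype.sum_prod_type]
  simp only
  have h1 : ∀ x : ZMod m, ∑ y : ZMod m, (ZMod.stdAddChar (N := m) (x * (v.1 - w.1)) : ℂ) *
      ZMod.stdAddChar (N := m) (y * (v.2 - w.2)) =
      ZMod.stdAddChar (N := m) (x * (v.1 - w.1)) *
        (if v.2 - w.2 = 0 then (Fintype.card (ZMod m) : ℂ) else 0) := by
    intro x
    rw [← Finset.mul_sum]
    congr 1
    have := AddChar.sum_mulShift (R' := ℂ) (v.2 - w.2) (ZMod.isPrimitive_stdAddChar m)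
    rw [this]
    split_ifs <;> simp
  rw [Finset.sum_congr rfl (fun x _ => h1 x), ← Finset.sum_mul]
  have h2 := AddChar.sum_mulShift (R' := ℂ) (v.1 - w.1) (ZMod.isPrimitive_stdAddChar m)
  rw [h2, ZMod.card]
  by_cases hv1 : v.1 = w.1
  · by_cases hv2 : v.2 = w.2
    · have : v = w := Prod.ext hv1 hv2
      simp [this, sq]
    · have : v ≠ w := fun h => hv2 (by rw [h])
      simp [this, sub_eq_zero, hv2]
  · have : v ≠ w := fun h => hv1 (by rw [h])
    simp [this, sub_eq_zero, hv1]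

theorem cexp_parseval (F : ZMod m × ZMod m → E) :
    ∑ k, ‖cexp_FT F k‖ ^ 2 = (m : ℝ) ^ 2 * ∑ v, ‖F v‖ ^ 2 := by
  have h : ((∑ k, ‖cexp_FT F k‖ ^ 2 : ℝ) : ℂ) = (((m : ℝ) ^ 2 * ∑ v, ‖F v‖ ^ 2 : ℝ) : ℂ) := by
    have e1 : ∀ x : E, ((‖x‖ ^ 2 : ℝ) : ℂ) = inner ℂ x x := by
      intro x
      rw [inner_self_eq_norm_sq_to_K]
      push_cast
      rfl
    push_cast
    have e2 : ∀ x : E, ((‖x‖ : ℝ) : ℂ) ^ 2 = inner ℂ x x := by
      intro x
      rw [← e1]
      push_cast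
      rfl
    simp only [e2]
    have e3 : ∀ k, inner ℂ (cexp_FT F k) (cexp_FT F k) =
        ∑ v, ∑ w, (conj (cexp_e k v) * cexp_e k w) * inner ℂ (F v) (F w) := by
      intro k
      unfold cexp_FT
      rw [sum_inner]
      refine Finset.sum_congr rfl fun v _ => ?_
      rw [inner_sum]
      refine Finset.sum_congr rfl fun w _ => ?_
      rw [inner_smul_left, inner_smul_right]
      ring
    rw [Finset.sum_congr rfl (fun k _ => e3 k), Finset.sum_comm, Finset.mul_sum]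
    refine Finset.sum_congr rfl fun v _ => ?_
    rw [Finset.sum_comm]
    have e4 : ∀ w, ∑ k, (conj (cexp_e k v) * cexp_e k w) * inner ℂ (F v) (F w) =
        (if v = w then (m : ℂ) ^ 2 else 0) * inner ℂ (F v) (F w) := by
      intro w
      rw [← Finset.sum_mul, cexp_orth]
    rw [Finset.sum_congr rfl (fun w _ => e4 w)]
    simp
  exact_mod_cast h

theorem cexp_sub (F G : ZMod m × ZMod m → E) (k : ZMod m × ZMod m) :
    cexp_FT (fun v => F v - G v) k = cexp_FT F k - cexp_FT G k := by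
  unfold cexp_FT
  rw [← Finset.sum_sub_distrib]
  refine Finset.sum_congr rfl fun v _ => ?_
  rw [smul_sub]

/-- change of variables -/
theorem cexp_shift (F : ZMod m × ZMod m → E) (σ : Equiv.Perm (ZMod m × ZMod m))
    (k k' : ZMod m × ZMod m) (a : ℂ) (h : ∀ v, cexp_e k v = a * cexp_e k' (σ v)) :
    cexp_FT (fun v => F (σ v)) k = a • cexp_FT F k' := by
  unfold cexp_FT
  rw [Finset.smul_sum, ← Equiv.sum_comp σ (fun v => a • cexp_e k' v • F v)]
  refine Finset.sum_congr rfl fun v _ => ?_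
  rw [h v, mul_smul]

/-- the shift of the first coordinate -/
def cexp_s1 : Equiv.Perm (ZMod m × ZMod m) where
  toFun v := (v.1 + 1, v.2)
  invFun v := (v.1 - 1, v.2)
  left_inv v := by simp
  right_inv v := by simp

/-- the shift of the second coordinate -/
def cexp_s2 : Equiv.Perm (ZMod m × ZMod m) where
  toFun v := (v.1, v.2 + 1)
  invFun v := (v.1, v.2 - 1)
  left_inv v := by simp
  right_inv v := by simp

/-- a shear -/
def cexp_s3 : Equiv.Perm (ZMod m × ZMod m) where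
  toFun v := (v.1, v.2 + v.1)
  invFun v := (v.1, v.2 - v.1)
  left_inv v := by simp
  right_inv v := by simp

/-- the other shear -/
def cexp_s4 : Equiv.Perm (ZMod m × ZMod m) where
  toFun v := (v.1 + v.2, v.2)
  invFun v := (v.1 - v.2, v.2)
  left_inv v := by simp
  right_inv v := by simp

theorem p_CEXP (hB : S_BURG) : S_CEXP := by
  intro E _ _ m _ F hF
  set c : ZMod m × ZMod m → ℝ := fun k => ‖cexp_FT F k‖ with hc
  have hc0 : c 0 = 0 := by
    have : cexp_FT F 0 = ∑ v, F v := by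
      unfold cexp_FT
      refine Finset.sum_congr rfl fun v _ => ?_
      simp [cexp_e]
    simp only [hc, this, hF, norm_zero]
  have hb := hB m c (fun v => norm_nonneg _) hc0
  have hm : (0 : ℝ) < (m : ℝ) ^ 2 := by
    have : (0 : ℝ) < m := by exact_mod_cast Nat.pos_of_ne_zero (NeZero.ne m)
    positivity
  have p0 : ∑ v, c v ^ 2 = (m : ℝ) ^ 2 * ∑ v, ‖F v‖ ^ 2 := cexp_parseval F
  have t1 : ∀ k, cexp_FT (fun v => F (v.1 + 1, v.2)) k =
      (ZMod.stdAddChar k.1 : ℂ) • cexp_FT F k := by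
    intro k
    refine cexp_shift F cexp_s1 k k _ ?_
    intro v
    simp only [cexp_e, cexp_s1, Equiv.coe_fn_mk]
    rw [← AddChar.map_add_eq_mul]
    congr 1
    ring
  have t2 : ∀ k, cexp_FT (fun v => F (v.1, v.2 + 1)) k =
      (ZMod.stdAddChar k.2 : ℂ) • cexp_FT F k := by
    intro k
    refine cexp_shift F cexp_s2 k k _ ?_
    intro v
    simp only [cexp_e, cexp_s2, Equiv.coe_fn_mk]
    rw [← AddChar.map_add_eq_mul]
    congr 1
    ring
  have t3 : ∀ k, cexp_FT (fun v => F (v.1, v.2 + v.1)) k = cexp_FT F (k.1 - k.2, k.2) := by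
    intro k
    have := cexp_shift F cexp_s3 k (k.1 - k.2, k.2) 1 ?_
    · rw [one_smul] at this
      exact this
    intro v
    simp only [cexp_e, cexp_s3, Equiv.coe_fn_mk, one_mul]
    congr 1
    ring
  have t4 : ∀ k, cexp_FT (fun v => F (v.1 + v.2, v.2)) k = cexp_FT F (k.1, k.2 - k.1) := by
    intro k
    have := cexp_shift F cexp_s4 k (k.1, k.2 - k.1) 1 ?_
    · rw [one_smul] at this
      exact this
    intro v
    simp only [cexp_e, cexp_s4, Equiv.coe_fn_mk, one_mul]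
    congr 1
    ring
  have q1 : ∑ v, ‖(ZMod.stdAddChar v.1 : ℂ) - 1‖ ^ 2 * c v ^ 2 =
      (m : ℝ) ^ 2 * ∑ v, ‖F (v.1 + 1, v.2) - F v‖ ^ 2 := by
    rw [← cexp_parseval (fun v => F (v.1 + 1, v.2) - F v)]
    refine Finset.sum_congr rfl fun k _ => ?_
    rw [cexp_sub (fun v => F (v.1 + 1, v.2)) F k, t1]
    have : (ZMod.stdAddChar k.1 : ℂ) • cexp_FT F k - cexp_FT F k =
        ((ZMod.stdAddChar k.1 : ℂ) - 1) • cexp_FT F k := by
      rw [sub_smul, one_smul]
    rw [this, norm_smul, mul_pow]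
  have q2 : ∑ v, ‖(ZMod.stdAddChar v.2 : ℂ) - 1‖ ^ 2 * c v ^ 2 =
      (m : ℝ) ^ 2 * ∑ v, ‖F (v.1, v.2 + 1) - F v‖ ^ 2 := by
    rw [← cexp_parseval (fun v => F (v.1, v.2 + 1) - F v)]
    refine Finset.sum_congr rfl fun k _ => ?_
    rw [cexp_sub (fun v => F (v.1, v.2 + 1)) F k, t2]
    have : (ZMod.stdAddChar k.2 : ℂ) • cexp_FT F k - cexp_FT F k =
        ((ZMod.stdAddChar k.2 : ℂ) - 1) • cexp_FT F k := by
      rw [sub_smul, one_smul]
    rw [this, norm_smul, mul_pow]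
  have key : ∀ x y : E, (‖x‖ - ‖y‖) ^ 2 ≤ ‖x - y‖ ^ 2 := by
    intro x y
    apply sq_le_sq'
    · have := norm_sub_norm_le y x
      rw [norm_sub_rev] at this
      linarith
    · exact norm_sub_norm_le x y
  have q3 : ∑ v, (c (v.1, v.2 + v.1) - c v) ^ 2 ≤
      (m : ℝ) ^ 2 * ∑ v, ‖F (v.1 + v.2, v.2) - F v‖ ^ 2 := by
    rw [← cexp_parseval (fun v => F (v.1 + v.2, v.2) - F v)]
    have r : ∑ v, (c (v.1, v.2 + v.1) - c v) ^ 2 =
        ∑ k : ZMod m × ZMod m, (c k - c (k.1, k.2 - k.1)) ^ 2 := by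
      rw [← Equiv.sum_comp cexp_s3 (fun k : ZMod m × ZMod m => (c k - c (k.1, k.2 - k.1)) ^ 2)]
      refine Finset.sum_congr rfl fun v _ => ?_
      simp [cexp_s3]
    rw [r]
    refine Finset.sum_le_sum fun k _ => ?_
    rw [cexp_sub (fun v => F (v.1 + v.2, v.2)) F k, t4]
    have := key (cexp_FT F (k.1, k.2 - k.1)) (cexp_FT F k)
    have e : (c k - c (k.1, k.2 - k.1)) ^ 2 = (c (k.1, k.2 - k.1) - c k) ^ 2 := by ring
    rw [e]
    exact this
  have q4 : ∑ v, (c (v.1 + v.2, v.2) - c v) ^ 2 ≤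
      (m : ℝ) ^ 2 * ∑ v, ‖F (v.1, v.2 + v.1) - F v‖ ^ 2 := by
    rw [← cexp_parseval (fun v => F (v.1, v.2 + v.1) - F v)]
    have r : ∑ v, (c (v.1 + v.2, v.2) - c v) ^ 2 =
        ∑ k : ZMod m × ZMod m, (c k - c (k.1 - k.2, k.2)) ^ 2 := by
      rw [← Equiv.sum_comp cexp_s4 (fun k : ZMod m × ZMod m => (c k - c (k.1 - k.2, k.2)) ^ 2)]
      refine Finset.sum_congr rfl fun v _ => ?_
      simp [cexp_s4]
    rw [r]
    refine Finset.sum_le_sum fun k _ => ?_
    rw [cexp_sub (fun v => F (v.1, v.2 + v.1)) F k, t3]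
    have := key (cexp_FT F (k.1 - k.2, k.2)) (cexp_FT F k)
    have e : (c k - c (k.1 - k.2, k.2)) ^ 2 = (c (k.1 - k.2, k.2) - c k) ^ 2 := by ring
    rw [e]
    exact this
  rw [p0, q1, q2] at hb
  have hfin : (m : ℝ) ^ 2 * ∑ v, ‖F v‖ ^ 2 ≤ (m : ℝ) ^ 2 *
      (400 * (∑ v, ‖F (v.1 + 1, v.2) - F v‖ ^ 2 + ∑ v, ‖F (v.1, v.2 + 1) - F v‖ ^ 2 +
      ∑ v, ‖F (v.1, v.2 + v.1) - F v‖ ^ 2 + ∑ v, ‖F (v.1 + v.2, v.2) - F v‖ ^ 2)) := by
    nlinarith [hb, q3, q4]
  exact le_of_mul_le_mul_left hfin hm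

end cexp

end Pool.Agent.H518R4.UG
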