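import Mathlib
import Pool.Agent.H518R4.UG.Stubs

set_option autoImplicit false

open Filter

noncomputable section

namespace Pool.Agent.H518R4.UG

namespace COARh

/-- indicator of `s ≤ a` -/
def ph (a s : ℝ) : ℝ := if s ≤ a then 1 else 0

lemma ph_anti (a : ℝ) : Antitone (ph a) := by
  intro s s' h
  unfold ph
  split_ifs with h1 h2 h2
  · exact le_rfl
  · exact absurd (h.trans h1) h2
  · norm_num
  · exact le_rfl

lemma ph_int (a x y : ℝ) : IntervalIntegrable (ph a) MeasureTheory.volume x y :=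
  (ph_anti a).intervalIntegrable

lemma int_sum {ι : Type} (S : Finset ι) (f : ι → ℝ → ℝ) (a b : ℝ)
    (h : ∀ i ∈ S, IntervalIntegrable (f i) MeasureTheory.volume a b) :
    IntervalIntegrable (fun x => ∑ i ∈ S, f i x) MeasureTheory.volume a b := by
  have h1 := IntervalIntegrable.sum S h
  have e : (fun x => ∑ i ∈ S, f i x) = ∑ i ∈ S, f i := by
    ext x
    rw [Finset.sum_apply]
  rw [e]
  exact h1

lemma lay (a M : ℝ) (h0 : 0 ≤ a) (hM : a ≤ M) : ∫ s in (0:ℝ)..M, ph a s = a := by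
  rw [← intervalIntegral.integral_add_adjacent_intervals (ph_int a 0 a) (ph_int a a M)]
  have h1 : ∫ s in (0:ℝ)..a, ph a s = a := by
    have : ∫ s in (0:ℝ)..a, ph a s = ∫ s in (0:ℝ)..a, (1:ℝ) := by
      refine intervalIntegral.integral_congr ?_
      intro s hs
      rw [Set.uIcc_of_le h0] at hs
      show ph a s = 1
      unfold ph
      rw [if_pos hs.2]
    rw [this]
    simp
  have h2 : ∫ s in a..M, ph a s = 0 := by
    rw [intervalIntegral.integral_of_le hM]
    have : ∫ s in Set.Ioc a M, ph a s = ∫ s in Set.Ioc a M, (0:ℝ) := by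
      refine MeasureTheory.setIntegral_congr_fun measurableSet_Ioc ?_
      intro s hs
      show ph a s = 0
      unfold ph
      rw [if_neg (not_le.mpr hs.1)]
    rw [this]
    simp
  rw [h1, h2, add_zero]

lemma ph_mul (a b s : ℝ) : (ph a s - ph b s) ^ 2 = ph a s + ph b s - 2 * ph (min a b) s := by
  unfold ph
  by_cases h1 : s ≤ a <;> by_cases h2 : s ≤ b
  · rw [if_pos h1, if_pos h2, if_pos (le_min h1 h2)]; norm_num
  · rw [if_pos h1, if_neg h2, if_neg (fun h => h2 (h.trans (min_le_right _ _)))]; norm_num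
  · rw [if_neg h1, if_pos h2, if_neg (fun h => h1 (h.trans (min_le_left _ _)))]; norm_num
  · rw [if_neg h1, if_neg h2, if_neg (fun h => h1 (h.trans (min_le_left _ _)))]; norm_num

lemma abs_min (a b : ℝ) : a + b - 2 * min a b = |a - b| := by
  rcases le_total a b with h | h
  · rw [min_eq_left h, abs_of_nonpos (by linarith)]; ring
  · rw [min_eq_right h, abs_of_nonneg (by linarith)]; ring

lemma median (I : Type) [Fintype I] [Nonempty I] (t l : I → ℝ) (ht : ∀ i, 0 ≤ t i) :
    ∃ c : ℝ, 2 * ∑ i ∈ Finset.univ.filter (fun i => c < l i), t i ≤ ∑ i, t i ∧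
      2 * ∑ i ∈ Finset.univ.filter (fun i => l i < c), t i ≤ ∑ i, t i := by
  classical
  have hT : 0 ≤ ∑ i, t i := Finset.sum_nonneg (fun i _ => ht i)
  obtain ⟨A, hA⟩ : ∃ A : Finset I, A = Finset.univ.filter
    (fun i0 => 2 * ∑ i ∈ Finset.univ.filter (fun i => l i0 < l i), t i ≤ ∑ i, t i) := ⟨_, rfl⟩
  have hAne : A.Nonempty := by
    obtain ⟨i1, _, hi1⟩ := Finset.exists_max_image (Finset.univ : Finset I) l Finset.univ_nonempty
    refine ⟨i1, ?_⟩
    rw [hA, Finset.mem_filter]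
    refine ⟨Finset.mem_univ _, ?_⟩
    rw [Finset.filter_false_of_mem (fun i hi => not_lt.mpr (hi1 i hi))]
    simpa using hT
  obtain ⟨i0, hi0A, hi0⟩ := Finset.exists_min_image A l hAne
  have hi0' := hi0A
  rw [hA, Finset.mem_filter] at hi0'
  refine ⟨l i0, hi0'.2, ?_⟩
  by_contra h
  rw [not_le] at h
  have hBne : (Finset.univ.filter (fun i => l i < l i0)).Nonempty := by
    by_contra hne
    rw [Finset.not_nonempty_iff_eq_empty] at hne
    rw [hne] at h
    simp at h
    linarith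
  obtain ⟨i2, hi2B, hi2⟩ := Finset.exists_max_image _ l hBne
  have hlt : l i2 < l i0 := (Finset.mem_filter.mp hi2B).2
  have hi2A : i2 ∉ A := fun hmem => absurd (hi0 i2 hmem) (not_le.mpr hlt)
  rw [hA, Finset.mem_filter] at hi2A
  simp only [Finset.mem_univ, true_and, not_le] at hi2A
  have hdis : Disjoint (Finset.univ.filter (fun i => l i < l i0))
      (Finset.univ.filter (fun i => l i2 < l i)) := by
    rw [Finset.disjoint_left]
    intro i hi hi'
    exact absurd (Finset.mem_filter.mp hi').2 (not_lt.mpr (hi2 i hi))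
  have hsum := Finset.sum_le_univ_sum_of_nonneg (s := (Finset.univ.filter (fun i => l i < l i0)) ∪
      (Finset.univ.filter (fun i => l i2 < l i))) (f := t) ht
  rw [Finset.sum_union hdis] at hsum
  linarith

lemma half (I J : Type) [Fintype I] [Fintype J] (t : I → ℝ) (ht : ∀ i, 0 ≤ t i)
    (w : J → I → I → ℝ) (hw : ∀ j i k, 0 ≤ w j i k) (hw1 : ∀ j i, ∑ k, w j i k = t i)
    (hw2 : ∀ j k, ∑ i, w j i k = t k) (l : I → ℝ) (ε : ℝ) (hε : 0 ≤ ε) (c : ℝ)
    (hV : 0 < ∑ i, t i * (l i - c) ^ 2)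
    (hE : ∑ j, ∑ i, ∑ k, w j i k * (l i - l k) ^ 2 ≤ ε ^ 2 * ∑ i, t i * (l i - c) ^ 2)
    (hX : ∑ i, t i * (l i - c) ^ 2 ≤ 2 * ∑ i, t i * (max (l i - c) 0) ^ 2)
    (hmed : 2 * ∑ i ∈ Finset.univ.filter (fun i => c < l i), t i ≤ ∑ i, t i) :
    ∃ S : Finset I, 0 < ∑ i ∈ S, t i ∧ 2 * ∑ i ∈ S, t i ≤ ∑ i, t i ∧
      ∀ d : I → ℝ, (∀ i ∈ S, d i = 1) → (∀ i ∉ S, d i = 0) →
      ∑ j, ∑ i, ∑ k, w j i k * (d i - d k) ^ 2 ≤
        3 * Real.sqrt (Fintype.card J) * ε * ∑ i ∈ S, t i := by
  classical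
  obtain ⟨x, hx⟩ : ∃ x : I → ℝ, x = fun i => max (l i - c) 0 := ⟨_, rfl⟩
  have hx0 : ∀ i, 0 ≤ x i := fun i => by rw [hx]; exact le_max_right _ _
  obtain ⟨X, hXd⟩ : ∃ X : ℝ, X = ∑ i, t i * (max (l i - c) 0) ^ 2 := ⟨_, rfl⟩
  obtain ⟨V, hVd⟩ : ∃ V : ℝ, V = ∑ i, t i * (l i - c) ^ 2 := ⟨_, rfl⟩
  have hXx : X = ∑ i, t i * (x i) ^ 2 := by rw [hXd, hx]
  rw [← hXd, ← hVd] at hX
  rw [← hVd] at hV hE
  have hX0 : 0 < X := by linarith
  have hlip : ∀ i k, (x i - x k) ^ 2 ≤ (l i - l k) ^ 2 := by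
    intro i k
    rw [hx, sq_le_sq]
    show |max (l i - c) 0 - max (l k - c) 0| ≤ |l i - l k|
    have := abs_max_sub_max_le_abs (l i - c) (l k - c) 0
    have h2 : l i - c - (l k - c) = l i - l k := by ring
    rwa [h2] at this
  have hS : ∀ s : ℝ, 0 < s → 2 * ∑ i ∈ Finset.univ.filter (fun i => s ≤ (x i) ^ 2), t i ≤
      ∑ i, t i := by
    intro s hs
    have hsub : Finset.univ.filter (fun i => s ≤ (x i) ^ 2) ⊆
        Finset.univ.filter (fun i => c < l i) := by
      intro i hi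
      rw [Finset.mem_filter] at hi ⊢
      refine ⟨Finset.mem_univ _, ?_⟩
      by_contra h
      rw [not_lt] at h
      have : x i = 0 := by rw [hx]; exact max_eq_right (by linarith)
      rw [this] at hi
      have := hi.2
      norm_num at this
      linarith
    have := Finset.sum_le_sum_of_subset_of_nonneg hsub (fun i _ _ => ht i)
    linarith
  obtain ⟨n, hn⟩ : ∃ n : ℝ, n = Real.sqrt (Fintype.card J) := ⟨_, rfl⟩
  have hn0 : 0 ≤ n := by rw [hn]; exact Real.sqrt_nonneg _
  have hn2 : n ^ 2 = Fintype.card J := by rw [hn]; exact Real.sq_sqrt (Nat.cast_nonneg _)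
  rw [← hn]
  by_contra hcon
  push Not at hcon
  -- strict failure for all thresholds
  have hfail : ∀ s : ℝ, 0 < s → 0 < ∑ i ∈ Finset.univ.filter (fun i => s ≤ (x i) ^ 2), t i →
      3 * n * ε * ∑ i ∈ Finset.univ.filter (fun i => s ≤ (x i) ^ 2), t i <
      ∑ j, ∑ i, ∑ k, w j i k * (ph ((x i) ^ 2) s - ph ((x k) ^ 2) s) ^ 2 := by
    intro s hs hpos
    obtain ⟨d, hd1, hd0, hlt⟩ := hcon _ hpos (hS s hs)
    have hd : ∀ i, d i = ph ((x i) ^ 2) s := by
      intro i
      unfold ph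
      by_cases h : s ≤ (x i) ^ 2
      · rw [if_pos h]
        exact hd1 i (Finset.mem_filter.mpr ⟨Finset.mem_univ _, h⟩)
      · rw [if_neg h]
        exact hd0 i (fun h' => h (Finset.mem_filter.mp h').2)
    simpa only [hd] using hlt
  have hsumph : ∀ s : ℝ, ∑ i ∈ Finset.univ.filter (fun i => s ≤ (x i) ^ 2), t i =
      ∑ i, t i * ph ((x i) ^ 2) s := by
    intro s
    rw [Finset.sum_filter]
    refine Finset.sum_congr rfl ?_
    intro i _
    unfold ph
    split_ifs <;> simp
  have hwk : ∀ f : I → ℝ, ∑ j, ∑ i, ∑ k, w j i k * f k = n ^ 2 * ∑ k, t k * f k := by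
    intro f
    have h1 : ∀ j, ∑ i, ∑ k, w j i k * f k = ∑ k, t k * f k := by
      intro j
      rw [Finset.sum_comm]
      refine Finset.sum_congr rfl ?_
      intro k _
      rw [← Finset.sum_mul, hw2]
    simp only [h1]
    rw [Finset.sum_const, Finset.card_univ, nsmul_eq_mul, hn2]
  have hwi : ∀ f : I → ℝ, ∑ j, ∑ i, ∑ k, w j i k * f i = n ^ 2 * ∑ k, t k * f k := by
    intro f
    have h1 : ∀ j, ∑ i, ∑ k, w j i k * f i = ∑ k, t k * f k := by
      intro j
      refine Finset.sum_congr rfl ?_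
      intro k _
      rw [← Finset.sum_mul, hw1]
    simp only [h1]
    rw [Finset.sum_const, Finset.card_univ, nsmul_eq_mul, hn2]
  rcases (mul_nonneg hn0 hε).eq_or_lt with hz | hpos
  · -- degenerate case
    -- a small positive threshold
    obtain ⟨i1, hi1⟩ : ∃ i1, 0 < t i1 * (x i1) ^ 2 := by
      by_contra h
      push Not at h
      have : X ≤ 0 := by
        rw [hXx]
        exact Finset.sum_nonpos (fun i _ => h i)
      linarith
    have hx1 : 0 < (x i1) ^ 2 := by
      rcases (sq_nonneg (x i1)).eq_or_lt with h | h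
      · rw [← h] at hi1; simp at hi1
      · exact h
    have ht1 : 0 < t i1 := by
      by_contra h
      have := mul_nonpos_of_nonpos_of_nonneg (not_lt.mp h) hx1.le
      linarith
    have hp : 0 < ∑ i ∈ Finset.univ.filter (fun i => (x i1) ^ 2 ≤ (x i) ^ 2), t i := by
      refine lt_of_lt_of_le ht1 ?_
      exact Finset.single_le_sum (f := t) (fun i _ => ht i)
        (Finset.mem_filter.mpr ⟨Finset.mem_univ _, le_rfl⟩)
    have hf := hfail _ hx1 hp
    have hK : 3 * n * ε = 0 := by rw [mul_assoc, ← hz, mul_zero]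
    rw [hK, zero_mul] at hf
    have hall : ∀ j i k, w j i k * (ph ((x i) ^ 2) ((x i1) ^ 2) -
        ph ((x k) ^ 2) ((x i1) ^ 2)) ^ 2 = 0 := by
      intro j i k
      have hcard : 0 < (Fintype.card J : ℝ) := by
        have : 0 < Fintype.card J := Fintype.card_pos_iff.mpr ⟨j⟩
        exact_mod_cast this
      have hnpos : 0 < n := by
        rw [← hn2] at hcard
        rcases hn0.eq_or_lt with h | h
        · rw [← h] at hcard; norm_num at hcard
        · exact h
      have hε0 : ε = 0 := by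
        rcases mul_eq_zero.mp hz.symm with h | h
        · linarith
        · exact h
      rw [hε0] at hE
      have hE0 : ∑ j, ∑ i, ∑ k, w j i k * (l i - l k) ^ 2 = 0 := by
        refine le_antisymm (by simpa using hE) ?_
        exact Finset.sum_nonneg (fun j _ => Finset.sum_nonneg (fun i _ => Finset.sum_nonneg
          (fun k _ => mul_nonneg (hw j i k) (sq_nonneg _))))
      have h1 := (Finset.sum_eq_zero_iff_of_nonneg (fun j _ => Finset.sum_nonneg
        (fun i _ => Finset.sum_nonneg (fun k _ => mul_nonneg (hw j i k) (sq_nonneg _))))).mp hE0 j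
        (Finset.mem_univ _)
      have h2 := (Finset.sum_eq_zero_iff_of_nonneg (fun i _ => Finset.sum_nonneg
        (fun k _ => mul_nonneg (hw j i k) (sq_nonneg _)))).mp h1 i (Finset.mem_univ _)
      have h3 := (Finset.sum_eq_zero_iff_of_nonneg
        (fun k _ => mul_nonneg (hw j i k) (sq_nonneg _))).mp h2 k (Finset.mem_univ _)
      rcases mul_eq_zero.mp h3 with h | h
      · rw [h, zero_mul]
      · have h4 : (x i - x k) ^ 2 = 0 := le_antisymm (by rw [← h]; exact hlip i k) (sq_nonneg _)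
        have h5 : x i = x k := by
          have := pow_eq_zero_iff (n := 2) (by norm_num) |>.mp h4
          linarith
        rw [h5, sub_self]
        norm_num
    have : ∑ j, ∑ i, ∑ k, w j i k * (ph ((x i) ^ 2) ((x i1) ^ 2) -
        ph ((x k) ^ 2) ((x i1) ^ 2)) ^ 2 = 0 :=
      Finset.sum_eq_zero (fun j _ => Finset.sum_eq_zero (fun i _ => Finset.sum_eq_zero
        (fun k _ => hall j i k)))
    linarith
  · -- main case
    have hnp : 0 < n := by
      rcases hn0.eq_or_lt with h | h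
      · rw [← h, zero_mul] at hpos; exact absurd hpos (lt_irrefl _)
      · exact h
    have hεp : 0 < ε := by
      rcases hε.eq_or_lt with h | h
      · rw [← h, mul_zero] at hpos; exact absurd hpos (lt_irrefl _)
      · exact h
    obtain ⟨M, hM⟩ : ∃ M : ℝ, M = ∑ i, (x i) ^ 2 := ⟨_, rfl⟩
    have hM0 : 0 ≤ M := by rw [hM]; exact Finset.sum_nonneg (fun i _ => sq_nonneg _)
    have hxM : ∀ i, (x i) ^ 2 ≤ M := by
      intro i
      rw [hM]
      exact Finset.single_le_sum (f := fun i => (x i) ^ 2) (fun i _ => sq_nonneg _)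
        (Finset.mem_univ i)
    -- pointwise inequality
    have hpt : ∀ s ∈ Set.Ioc (0:ℝ) M, ∑ i, 3 * n * ε * (t i * ph ((x i) ^ 2) s) ≤
        ∑ j, ∑ i, ∑ k, w j i k * (ph ((x i) ^ 2) s + ph ((x k) ^ 2) s -
          2 * ph (min ((x i) ^ 2) ((x k) ^ 2)) s) := by
      intro s hs
      rw [← Finset.mul_sum, ← hsumph s]
      simp only [← ph_mul]
      have h0 : 0 ≤ ∑ i ∈ Finset.univ.filter (fun i => s ≤ (x i) ^ 2), t i :=
        Finset.sum_nonneg (fun i _ => ht i)
      rcases h0.eq_or_lt with h | h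
      · rw [← h, mul_zero]
        exact Finset.sum_nonneg (fun j _ => Finset.sum_nonneg (fun i _ => Finset.sum_nonneg
          (fun k _ => mul_nonneg (hw j i k) (sq_nonneg _))))
      · exact (hfail s hs.1 h).le
    have hik : ∀ j i k, IntervalIntegrable (fun s => w j i k * (ph ((x i) ^ 2) s +
        ph ((x k) ^ 2) s - 2 * ph (min ((x i) ^ 2) ((x k) ^ 2)) s)) MeasureTheory.volume 0 M :=
      fun j i k => (((ph_int _ _ _).add (ph_int _ _ _)).sub ((ph_int _ _ _).const_mul 2)).const_mul _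
    have hii : ∀ j i, IntervalIntegrable (fun s => ∑ k, w j i k * (ph ((x i) ^ 2) s +
        ph ((x k) ^ 2) s - 2 * ph (min ((x i) ^ 2) ((x k) ^ 2)) s)) MeasureTheory.volume 0 M := by
      intro j i
      exact int_sum Finset.univ _ _ _ (fun k _ => hik j i k)
    have hij : ∀ j, IntervalIntegrable (fun s => ∑ i, ∑ k, w j i k * (ph ((x i) ^ 2) s +
        ph ((x k) ^ 2) s - 2 * ph (min ((x i) ^ 2) ((x k) ^ 2)) s)) MeasureTheory.volume 0 M := by
      intro j
      exact int_sum Finset.univ _ _ _ (fun i _ => hii j i)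
    have hi0 : IntervalIntegrable (fun s => ∑ j, ∑ i, ∑ k, w j i k * (ph ((x i) ^ 2) s +
        ph ((x k) ^ 2) s - 2 * ph (min ((x i) ^ 2) ((x k) ^ 2)) s)) MeasureTheory.volume 0 M := by
      exact int_sum Finset.univ _ _ _ (fun j _ => hij j)
    have hl : ∀ i, IntervalIntegrable (fun s => 3 * n * ε * (t i * ph ((x i) ^ 2) s))
        MeasureTheory.volume 0 M := fun i => ((ph_int _ _ _).const_mul _).const_mul _
    have hl0 : IntervalIntegrable (fun s => ∑ i, 3 * n * ε * (t i * ph ((x i) ^ 2) s))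
        MeasureTheory.volume 0 M := by
      exact int_sum Finset.univ _ _ _ (fun i _ => hl i)
    have hint := intervalIntegral.integral_mono_on_of_le_Ioo hM0 hl0 hi0
      (fun s hs => hpt s ⟨hs.1, hs.2.le⟩)
    rw [intervalIntegral.integral_finsetSum (fun i _ => hl i),
      intervalIntegral.integral_finsetSum (fun j _ => hij j)] at hint
    have e1 : ∀ i, ∫ s in (0:ℝ)..M, 3 * n * ε * (t i * ph ((x i) ^ 2) s) =
        3 * n * ε * (t i * (x i) ^ 2) := by
      intro i
      rw [intervalIntegral.integral_const_mul, intervalIntegral.integral_const_mul,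
        lay _ _ (sq_nonneg _) (hxM i)]
    have e2 : ∀ j, ∫ s in (0:ℝ)..M, ∑ i, ∑ k, w j i k * (ph ((x i) ^ 2) s +
        ph ((x k) ^ 2) s - 2 * ph (min ((x i) ^ 2) ((x k) ^ 2)) s) =
        ∑ i, ∑ k, w j i k * |(x i) ^ 2 - (x k) ^ 2| := by
      intro j
      rw [intervalIntegral.integral_finsetSum (fun i _ => hii j i)]
      refine Finset.sum_congr rfl ?_
      intro i _
      rw [intervalIntegral.integral_finsetSum (fun k _ => hik j i k)]
      refine Finset.sum_congr rfl ?_
      intro k _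
      rw [intervalIntegral.integral_const_mul, intervalIntegral.integral_sub
        ((ph_int _ _ _).add (ph_int _ _ _)) ((ph_int _ _ _).const_mul 2),
        intervalIntegral.integral_add (ph_int _ _ _) (ph_int _ _ _),
        intervalIntegral.integral_const_mul, lay _ _ (sq_nonneg _) (hxM i),
        lay _ _ (sq_nonneg _) (hxM k),
        lay _ _ (le_min (sq_nonneg _) (sq_nonneg _)) ((min_le_left _ _).trans (hxM i)), abs_min]
    simp only [e1, e2] at hint
    rw [← Finset.mul_sum, ← hXx] at hint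
    -- upper bound
    have hub : ∀ j i k, w j i k * |(x i) ^ 2 - (x k) ^ 2| ≤
        3 * n / (4 * ε) * (w j i k * (l i - l k) ^ 2) +
          (2 * ε / (3 * n) * (w j i k * (x i) ^ 2) + 2 * ε / (3 * n) * (w j i k * (x k) ^ 2)) := by
      intro j i k
      have h1 : |(x i) ^ 2 - (x k) ^ 2| ≤ 3 * n / (4 * ε) * (x i - x k) ^ 2 +
          ε / (3 * n) * (x i + x k) ^ 2 := by
        have h2 : |(x i) ^ 2 - (x k) ^ 2| = |x i - x k| * |x i + x k| := by
          rw [← abs_mul]
          congr 1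
          ring
        rw [h2, ← sq_abs (x i - x k), ← sq_abs (x i + x k)]
        generalize |x i - x k| = a
        generalize |x i + x k| = b
        have h3 : 0 ≤ 1 / (12 * n * ε) * (3 * n * a - 2 * ε * b) ^ 2 := by positivity
        have h4 : 1 / (12 * n * ε) * (3 * n * a - 2 * ε * b) ^ 2 =
          3 * n / (4 * ε) * a ^ 2 + ε / (3 * n) * b ^ 2 - a * b := by
          field_simp
          ring
        linarith
      have h5 : (x i + x k) ^ 2 ≤ 2 * (x i) ^ 2 + 2 * (x k) ^ 2 := by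
        have := sq_nonneg (x i - x k)
        linarith [this, (by ring : (x i - x k) ^ 2 = (x i) ^ 2 - 2 * x i * x k + (x k) ^ 2),
          (by ring : (x i + x k) ^ 2 = (x i) ^ 2 + 2 * x i * x k + (x k) ^ 2)]
      have h6 : |(x i) ^ 2 - (x k) ^ 2| ≤ 3 * n / (4 * ε) * (l i - l k) ^ 2 +
          ε / (3 * n) * (2 * (x i) ^ 2 + 2 * (x k) ^ 2) := by
        refine h1.trans (add_le_add ?_ ?_)
        · exact mul_le_mul_of_nonneg_left (hlip i k) (by positivity)
        · exact mul_le_mul_of_nonneg_left h5 (by positivity)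
      calc w j i k * |(x i) ^ 2 - (x k) ^ 2| ≤ w j i k * (3 * n / (4 * ε) * (l i - l k) ^ 2 +
          ε / (3 * n) * (2 * (x i) ^ 2 + 2 * (x k) ^ 2)) :=
            mul_le_mul_of_nonneg_left h6 (hw j i k)
        _ = _ := by ring
    have hsum : ∑ j, ∑ i, ∑ k, w j i k * |(x i) ^ 2 - (x k) ^ 2| ≤
        3 * n / (4 * ε) * (∑ j, ∑ i, ∑ k, w j i k * (l i - l k) ^ 2) +
          (2 * ε / (3 * n) * (n ^ 2 * X) + 2 * ε / (3 * n) * (n ^ 2 * X)) := by
      have h1 : ∑ j, ∑ i, ∑ k, w j i k * |(x i) ^ 2 - (x k) ^ 2| ≤ ∑ j, ∑ i, ∑ k,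
          (3 * n / (4 * ε) * (w j i k * (l i - l k) ^ 2) +
          (2 * ε / (3 * n) * (w j i k * (x i) ^ 2) + 2 * ε / (3 * n) * (w j i k * (x k) ^ 2))) :=
        Finset.sum_le_sum (fun j _ => Finset.sum_le_sum (fun i _ => Finset.sum_le_sum
          (fun k _ => hub j i k)))
      refine h1.trans (le_of_eq ?_)
      simp only [Finset.sum_add_distrib, ← Finset.mul_sum]
      rw [hwi (fun i => (x i) ^ 2), hwk (fun i => (x i) ^ 2), ← hXx]
    have hfin : 3 * n / (4 * ε) * (∑ j, ∑ i, ∑ k, w j i k * (l i - l k) ^ 2) ≤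
        3 / 2 * (n * ε) * X := by
      calc 3 * n / (4 * ε) * (∑ j, ∑ i, ∑ k, w j i k * (l i - l k) ^ 2)
          ≤ 3 * n / (4 * ε) * (ε ^ 2 * V) := mul_le_mul_of_nonneg_left hE (by positivity)
        _ ≤ 3 * n / (4 * ε) * (ε ^ 2 * (2 * X)) := by
            refine mul_le_mul_of_nonneg_left ?_ (by positivity)
            exact mul_le_mul_of_nonneg_left hX (by positivity)
        _ = 3 / 2 * (n * ε) * X := by field_simp; ring
    have hfin2 : 2 * ε / (3 * n) * (n ^ 2 * X) + 2 * ε / (3 * n) * (n ^ 2 * X) =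
        4 / 3 * (n * ε) * X := by
      field_simp
      ring
    have hlast : 3 * n * ε * X ≤ 3 / 2 * (n * ε) * X + 4 / 3 * (n * ε) * X := by
      have := hint.trans hsum
      rw [hfin2] at this
      linarith
    have hpp : 0 < n * ε * X := by positivity
    have e : 3 * n * ε * X - (3 / 2 * (n * ε) * X + 4 / 3 * (n * ε) * X) = 1 / 6 * (n * ε * X) := by
      ring
    linarith

end COARh

open COARh in
theorem p_COAR : S_COAR := by
  intro I J _ _ _ t ht w hw hw1 hw2 l ε hε hV hE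
  have hne : Nonempty I := by
    by_contra h
    rw [not_nonempty_iff] at h
    have := hV 0
    simp at this
  obtain ⟨c, hc1, hc2⟩ := median I t l ht
  have hsplit : ∑ i, t i * (l i - c) ^ 2 = ∑ i, t i * (max (l i - c) 0) ^ 2 +
      ∑ i, t i * (max (-l i - -c) 0) ^ 2 := by
    rw [← Finset.sum_add_distrib]
    refine Finset.sum_congr rfl ?_
    intro i _
    rw [← mul_add]
    congr 1
    rcases le_total (l i) c with h | h
    · rw [max_eq_right (by linarith : l i - c ≤ 0), max_eq_left (by linarith : 0 ≤ -l i - -c)]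
      ring
    · rw [max_eq_left (by linarith : 0 ≤ l i - c), max_eq_right (by linarith : -l i - -c ≤ 0)]
      ring
  suffices hfinish : ∃ S : Finset I, 0 < ∑ i ∈ S, t i ∧ 2 * ∑ i ∈ S, t i ≤ ∑ i, t i ∧
      ∀ d : I → ℝ, (∀ i ∈ S, d i = 1) → (∀ i ∉ S, d i = 0) →
      ∑ j, ∑ i, ∑ k, w j i k * (d i - d k) ^ 2 ≤
        3 * Real.sqrt (Fintype.card J) * ε * ∑ i ∈ S, t i by
    obtain ⟨S, h1, h2, h3⟩ := hfinish
    exact ⟨S, h1, h2, h3 (fun i => if i ∈ S then 1 else 0) (fun i hi => if_pos hi)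
      (fun i hi => if_neg hi)⟩
  rcases le_total (∑ i, t i * (max (-l i - -c) 0) ^ 2) (∑ i, t i * (max (l i - c) 0) ^ 2) with h | h
  · exact half I J t ht w hw hw1 hw2 l ε hε c (hV c) (hE c) (by linarith) hc1
  · have e1 : ∑ i, t i * (-l i - -c) ^ 2 = ∑ i, t i * (l i - c) ^ 2 :=
      Finset.sum_congr rfl (fun i _ => by ring)
    have e2 : ∑ j, ∑ i, ∑ k, w j i k * (-l i - -l k) ^ 2 =
        ∑ j, ∑ i, ∑ k, w j i k * (l i - l k) ^ 2 :=
      Finset.sum_congr rfl (fun j _ => Finset.sum_congr rfl (fun i _ =>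
        Finset.sum_congr rfl (fun k _ => by ring)))
    refine half I J t ht w hw hw1 hw2 (fun i => -l i) ε hε (-c) ?_ ?_ ?_ ?_
    · rw [e1]; exact hV c
    · rw [e1, e2]; exact hE c
    · rw [e1]; linarith
    · simpa only [neg_lt_neg_iff] using hc2

end Pool.Agent.H518R4.UG
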