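import Mathlib
import Pool.Agent.H518R4.UG.Stubs
import Pool.Agent.Helper467.FP.P_n2_mul_le

set_option autoImplicit false

open scoped ComplexOrder Topology InnerProductSpace
open Filter

noncomputable section

namespace Pool.Agent.H518R4.UG

open Pool.Agent.H467F

theorem compr_sum {A : Type} [CStarAlgebra A] {τ : A →ₗ[ℂ] ℂ} (h : TW τ) {ι : Type}
    (s : Finset ι) (f : ι → A) : n2 τ (∑ i ∈ s, f i) ≤ ∑ i ∈ s, n2 τ (f i) := by
  classical
  induction s using Finset.induction_on with
  | empty => simp [n2_zero]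
  | insert a s ha ih =>
    rw [Finset.sum_insert ha, Finset.sum_insert ha]
    exact (h.n2_add_le _ _).trans (by linarith)

theorem p_COMPR : S_COMPR := by
  intro A _ τ h N v p y c hv hp hvp hsum hty hcm hc l
  obtain ⟨hp1, hp2⟩ := hp
  have hmul := fun a b : A => n2_mul_le (τ := τ) h a b
  set z : A := y - l • 1 with hz
  -- decomposition
  have hvs : ∀ i, p * star (v i) = star (v i) := by
    intro i
    have := congrArg star (hvp i)
    rwa [star_mul, hp1] at this
  have e1 : ∀ i, v i * z * star (v i) = v i * (p * y * p - l • p) * star (v i) := by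
    intro i
    have h1 : p * z * p = p * y * p - l • p := by
      rw [hz, mul_sub, sub_mul, mul_smul_comm, mul_one, smul_mul_assoc, hp2]
    calc v i * z * star (v i) = (v i * p) * z * (p * star (v i)) := by rw [hvp, hvs]
      _ = v i * (p * z * p) * star (v i) := by simp only [mul_assoc]
      _ = _ := by rw [h1]
  have e2 : ∀ i, cm (star (v i)) y = cm (star (v i)) z := by
    intro i
    unfold cm
    rw [hz, mul_sub, sub_mul, mul_smul_comm, smul_mul_assoc, mul_one, one_mul]
    abel
  clear_value z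
  have e3 : z = ∑ i, v i * (p * y * p - l • p) * star (v i) + ∑ i, v i * cm (star (v i)) y := by
    rw [← Finset.sum_add_distrib]
    calc z = (∑ i, v i * star (v i)) * z := by rw [hsum, one_mul]
      _ = ∑ i, v i * star (v i) * z := Finset.sum_mul _ _ _
      _ = _ := by
        apply Finset.sum_congr rfl
        intro i _
        rw [← e1, e2]
        unfold cm
        rw [mul_sub]
        simp only [mul_assoc]
        abel
  -- estimates
  have hvs1 : ∀ i, ‖star (v i)‖ ≤ 1 := fun i => by rw [norm_star]; exact hv i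
  have b1 : ∀ i, n2 τ (v i * (p * y * p - l • p) * star (v i)) ≤ n2 τ (p * y * p - l • p) := by
    intro i
    have h1 := (hmul (v i) (p * y * p - l • p)).1
    have h2 := (hmul (star (v i)) (v i * (p * y * p - l • p))).2
    have n0 := n2_nonneg τ (p * y * p - l • p)
    have n1 := n2_nonneg τ (v i * (p * y * p - l • p))
    nlinarith [hv i, hvs1 i, norm_nonneg (v i), norm_nonneg (star (v i))]
  have b2 : ∀ i, n2 τ (v i * cm (star (v i)) y) ≤ n2 τ (cm (star (v i)) y) := by
    intro i
    have h1 := (hmul (v i) (cm (star (v i)) y)).1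
    have n0 := n2_nonneg τ (cm (star (v i)) y)
    nlinarith [hv i, norm_nonneg (v i)]
  have b3 : n2 τ z ≤ N * n2 τ (p * y * p - l • p) + ∑ i, n2 τ (cm (star (v i)) y) := by
    have h1 := h.n2_add_le (∑ i, v i * (p * y * p - l • p) * star (v i))
      (∑ i, v i * cm (star (v i)) y)
    rw [← e3] at h1
    have h2 := compr_sum h Finset.univ fun i => v i * (p * y * p - l • p) * star (v i)
    have h3 := compr_sum h Finset.univ fun i => v i * cm (star (v i)) y
    have h4 : ∑ i, n2 τ (v i * (p * y * p - l • p) * star (v i)) ≤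
        N * n2 τ (p * y * p - l • p) := by
      calc _ ≤ ∑ _i : Fin N, n2 τ (p * y * p - l • p) := Finset.sum_le_sum fun i _ => b1 i
        _ = _ := by simp
    have h5 : ∑ i, n2 τ (v i * cm (star (v i)) y) ≤ ∑ i, n2 τ (cm (star (v i)) y) :=
      Finset.sum_le_sum fun i _ => b2 i
    linarith
  have b4 : ∑ i, n2 τ (cm (star (v i)) y) ≤ n2 τ y / 2 := by
    have h1 : (∑ i, n2 τ (cm (star (v i)) y)) ^ 2 ≤ N * ∑ i, n2 τ (cm (star (v i)) y) ^ 2 := by
      have := sq_sum_le_card_mul_sum_sq (s := (Finset.univ : Finset (Fin N)))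
        (f := fun i => n2 τ (cm (star (v i)) y))
      simpa using this
    have h2 : (N : ℝ) * ∑ i, n2 τ (cm (star (v i)) y) ^ 2 ≤ N * (c * n2 τ y ^ 2) :=
      mul_le_mul_of_nonneg_left hcm (Nat.cast_nonneg N)
    have h3 : (c * N) * n2 τ y ^ 2 ≤ 1 / 4 * n2 τ y ^ 2 :=
      mul_le_mul_of_nonneg_right hc (sq_nonneg _)
    have h4 : (∑ i, n2 τ (cm (star (v i)) y)) ^ 2 ≤ (n2 τ y / 2) ^ 2 := by
      nlinarith
    exact (sq_le_sq₀ (Finset.sum_nonneg fun i _ => n2_nonneg τ _)
      (by have := n2_nonneg τ y; positivity)).1 h4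
  have b5 : n2 τ y ≤ n2 τ z := by
    have h1 : n2 τ z ^ 2 = n2 τ y ^ 2 + ‖l‖ ^ 2 := by
      rw [h.n2_sq, h.n2_sq, hz]
      have e : star (y - l • (1 : A)) * (y - l • (1 : A)) =
          star y * y - l • star y - star l • y + (star l * l) • (1 : A) := by
        rw [star_sub, star_smul, star_one, sub_mul, mul_sub, mul_sub, mul_smul_comm, mul_one,
          smul_mul_assoc, one_mul, smul_mul_smul_comm, one_mul]
        abel
      rw [e, map_add, map_sub, map_sub, map_smul, map_smul, map_smul, h.conj, hty, h.one]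
      have : star l * l = ((‖l‖ ^ 2 : ℝ) : ℂ) := by
        rw [Complex.star_def, ← Complex.normSq_eq_conj_mul_self, Complex.normSq_eq_norm_sq]
      rw [this]
      simp [← Complex.ofReal_pow]
    have h2 : n2 τ y ^ 2 ≤ n2 τ z ^ 2 := by rw [h1]; nlinarith [sq_nonneg ‖l‖]
    exact (sq_le_sq₀ (n2_nonneg τ y) (n2_nonneg τ z)).1 h2
  linarith

end Pool.Agent.H518R4.UG
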