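import Pool.Agent.H518R4.UG.Stubs
import Pool.Agent.Helper467.FP.P_tau_bounds

set_option autoImplicit false

open scoped ComplexOrder Topology
open Filter

noncomputable section

namespace Pool.Agent.H518R4.UG

open Pool.Agent.H467F

namespace CONNh

variable {A : Type} [CStarAlgebra A] {τ : A →ₗ[ℂ] ℂ}

theorem n2_unit_mul (u : unitary A) (x : A) : n2 τ ((u : A) * x) = n2 τ x := by
  unfold n2
  rw [star_mul, mul_assoc, ← mul_assoc (star (u : A)), Unitary.coe_star_mul_self, one_mul]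

theorem n2_mul_unit (h : TW τ) (u : unitary A) (x : A) : n2 τ (x * (u : A)) = n2 τ x := by
  rw [← h.n2_star, star_mul]
  have := n2_unit_mul (τ := τ) (star u) (star x)
  rw [Unitary.coe_star] at this
  rw [this, h.n2_star]

theorem n2_cm_le (h : TW τ) (u : unitary A) (x : A) : n2 τ (cm (u : A) x) ≤ 2 * n2 τ x := by
  unfold cm
  have h1 := h.n2_sub_le ((u : A) * x) (x * u)
  rw [n2_unit_mul, n2_mul_unit h] at h1
  linarith

theorem cm_sub (u x y : A) : cm u x - cm u y = cm u (x - y) := by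
  unfold cm
  rw [mul_sub, sub_mul]
  abel

theorem part_mul {n : ℕ} {p : Fin n → A} {e : A} (hp : IsPart p e) (f g : Fin n → ℂ) :
    (∑ i, f i • p i) * (∑ i, g i • p i) = ∑ i, (f i * g i) • p i := by
  rw [Finset.sum_mul]
  apply Finset.sum_congr rfl
  intro i _
  rw [Finset.mul_sum, Finset.sum_eq_single i]
  · rw [smul_mul_smul_comm, (hp.prj i).2]
  · intro j _ hj
    rw [smul_mul_smul_comm, hp.ort i j hj.symm, smul_zero]
  · intro h
    exact absurd (Finset.mem_univ i) h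

theorem part_star {n : ℕ} {p : Fin n → A} {e : A} (hp : IsPart p e) (f : Fin n → ℝ) :
    star (∑ i, (f i : ℂ) • p i) = ∑ i, (f i : ℂ) • p i := by
  rw [star_sum]
  apply Finset.sum_congr rfl
  intro i _
  rw [star_smul, (hp.prj i).1, Complex.star_def, Complex.conj_ofReal]

theorem part_n2 (h : TW τ) {n : ℕ} {p : Fin n → A} {e : A} (hp : IsPart p e) (f : Fin n → ℝ) :
    n2 τ (∑ i, (f i : ℂ) • p i) ^ 2 = ∑ i, (τ (p i)).re * f i ^ 2 := by
  rw [h.n2_sq, part_star hp, part_mul hp, map_sum, Complex.re_sum]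
  apply Finset.sum_congr rfl
  intro i _
  rw [map_smul, smul_eq_mul, ← Complex.ofReal_mul, Complex.re_ofReal_mul]
  ring

theorem prj_nonneg (h : TW τ) {p : A} (hp : IsPrj p) : 0 ≤ (τ p).re := by
  have := h.re_nonneg p
  rwa [hp.1, hp.2] at this

end CONNh

open CONNh in
theorem p_CONN (hW : S_WEI) (hC : S_COAR) : S_CONN := by
  classical
  intro A _ τ hF J _ u e y ε he hue hy hey hτy hy0 hε hsum
  have h := hF.tw
  have hye : y * e = y := by
    have h1 := congrArg star hey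
    rw [star_mul, hy, he.1] at h1
    exact h1
  set N : ℝ := n2 τ y with hN
  have hN0 : 0 < N := by
    rcases (n2_nonneg τ y).lt_or_eq with h1 | h1
    · exact h1
    · exact absurd (h.eq_zero h1.symm) hy0
  set K : ℝ := (Fintype.card J : ℝ) with hK
  have hK0 : 0 ≤ K := Nat.cast_nonneg _
  -- the accuracy
  set δ : ℝ := N * min (1 / 20) (ε / (3 * (K + 1))) with hδ
  have hm0 : 0 < min (1 / 20) (ε / (3 * (K + 1))) := lt_min (by norm_num) (by positivity)
  have hδ0 : 0 < δ := mul_pos hN0 hm0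
  have hδ1 : δ ≤ N / 20 := by
    have := mul_le_mul_of_nonneg_left (min_le_left (1 / 20) (ε / (3 * (K + 1)))) hN0.le
    rw [← hδ] at this
    linarith
  have hδ2 : 8 * K * δ ^ 2 ≤ ε ^ 2 * N ^ 2 := by
    have h1 : δ ≤ N * (ε / (3 * (K + 1))) :=
      mul_le_mul_of_nonneg_left (min_le_right _ _) hN0.le
    have h2 : δ ^ 2 ≤ (N * (ε / (3 * (K + 1)))) ^ 2 := pow_le_pow_left₀ hδ0.le h1 2
    have h3 : 8 * K * (N * (ε / (3 * (K + 1)))) ^ 2 ≤ ε ^ 2 * N ^ 2 := by
      have h4 : (N * (ε / (3 * (K + 1)))) ^ 2 = (ε ^ 2 * N ^ 2) / (9 * (K + 1) ^ 2) := by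
        field_simp
        ring
      rw [h4, ← mul_div_assoc, div_le_iff₀ (by positivity)]
      have h5 : 0 ≤ ε ^ 2 * N ^ 2 := by positivity
      have h6 : 8 * K ≤ 9 * (K + 1) ^ 2 := by nlinarith
      nlinarith [mul_le_mul_of_nonneg_left h6 h5]
    exact (mul_le_mul_of_nonneg_left h2 (by positivity)).trans h3
  obtain ⟨n, p, l, hp, hyp⟩ := hF.fs e he y hy hey δ hδ0
  set y' : A := ∑ i, (l i : ℂ) • p i with hy'
  have hd : n2 τ (y - y') ≤ δ := ((tau_bounds h).2 _).trans hyp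
  -- distance to the multiples of e
  have hesum : ∀ c : ℝ, y' - (c : ℂ) • e = ∑ i, ((l i - c : ℝ) : ℂ) • p i := by
    intro c
    rw [hy', ← hp.sum, Finset.smul_sum, ← Finset.sum_sub_distrib]
    apply Finset.sum_congr rfl
    intro i _
    rw [← sub_smul]
    push_cast
    rfl
  have hdist : ∀ c : ℝ, N - δ ≤ n2 τ (y' - (c : ℂ) • e) := by
    intro c
    have h1 : N ^ 2 ≤ n2 τ (y - (c : ℂ) • e) ^ 2 := by
      have e1 : star (y - (c : ℂ) • e) * (y - (c : ℂ) • e) =
          star y * y - (2 * c : ℂ) • y + ((c ^ 2 : ℝ) : ℂ) • e := by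
        rw [star_sub, star_smul, he.1, hy, Complex.star_def, Complex.conj_ofReal, sub_mul, mul_sub,
          mul_sub, mul_smul_comm, hye, smul_mul_assoc, hey, smul_mul_smul_comm, he.2]
        push_cast
        module
      rw [h.n2_sq (y - (c : ℂ) • e), e1, map_add, map_sub, map_smul, map_smul, hτy, smul_zero,
        sub_zero, Complex.add_re, ← h.n2_sq y, smul_eq_mul, Complex.re_ofReal_mul]
      have := prj_nonneg h he
      have : 0 ≤ c ^ 2 * (τ e).re := mul_nonneg (sq_nonneg c) this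
      linarith
    have h2 : N ≤ n2 τ (y - (c : ℂ) • e) :=
      (pow_le_pow_iff_left₀ hN0.le (n2_nonneg _ _) two_ne_zero).1 h1
    have h3 := h.n2_tri y y' ((c : ℂ) • e)
    linarith
  have hdist2 : ∀ c : ℝ, (N - δ) ^ 2 ≤ ∑ i, (τ (p i)).re * (l i - c) ^ 2 := by
    intro c
    have h1 := hdist c
    have h2 : (N - δ) ^ 2 ≤ n2 τ (y' - (c : ℂ) • e) ^ 2 :=
      pow_le_pow_left₀ (by linarith) h1 2
    rw [hesum, part_n2 h hp] at h2
    exact h2
  have hNδ : 0 < N - δ := by linarith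
  -- weights
  have hw := fun j => hW A τ h (Fin n) p e he hp (u j) (hue j)
  choose w hw1 hw2 hw3 hw4 using hw
  have hcomm : ∑ j, n2 τ (cm (u j : A) y') ^ 2 ≤ (2 * ε) ^ 2 * (N - δ) ^ 2 := by
    have h1 : ∀ j, n2 τ (cm (u j : A) y') ^ 2 ≤ 2 * n2 τ (cm (u j : A) y) ^ 2 + 8 * δ ^ 2 := by
      intro j
      have h2 : n2 τ (cm (u j : A) y') ≤ n2 τ (cm (u j : A) y) + 2 * δ := by
        have h3 := h.n2_sub_le (cm (u j : A) y) (cm (u j : A) (y - y'))
        rw [← cm_sub] at h3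
        rw [sub_sub_cancel, cm_sub] at h3
        have h4 := n2_cm_le h (u j) (y - y')
        linarith
      have h3 := pow_le_pow_left₀ (n2_nonneg _ _) h2 2
      nlinarith [sq_nonneg (n2 τ (cm (u j : A) y) - 2 * δ)]
    have h2 : ∑ j, n2 τ (cm (u j : A) y') ^ 2 ≤
        2 * ∑ j, n2 τ (cm (u j : A) y) ^ 2 + K * (8 * δ ^ 2) := by
      refine (Finset.sum_le_sum fun j _ => h1 j).trans ?_
      rw [Finset.sum_add_distrib, ← Finset.mul_sum, Finset.sum_const, nsmul_eq_mul,
        Finset.card_univ]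
    have h3 : (19 / 20 * N) ^ 2 ≤ (N - δ) ^ 2 := pow_le_pow_left₀ (by positivity) (by linarith) 2
    have h4 := mul_le_mul_of_nonneg_left h3 (show 0 ≤ (2 * ε) ^ 2 by positivity)
    have h5 : 0 ≤ ε ^ 2 * N ^ 2 := by positivity
    nlinarith
  obtain ⟨S, hS1, hS2, hS3⟩ := hC (Fin n) J (fun i => (τ (p i)).re)
    (fun i => prj_nonneg h (hp.prj i)) w hw1 hw2 hw3 l (2 * ε) (by positivity)
    (fun c => lt_of_lt_of_le (by positivity) (hdist2 c))
    (fun c => by
      have h1 : ∑ j, ∑ i, ∑ k, w j i k * (l i - l k) ^ 2 = ∑ j, n2 τ (cm (u j : A) y') ^ 2 := by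
        apply Finset.sum_congr rfl
        intro j _
        rw [← hw4 j l]
      rw [h1]
      exact hcomm.trans (mul_le_mul_of_nonneg_left (hdist2 c) (by positivity)))
  set f : Fin n → ℝ := fun i => if i ∈ S then (1 : ℝ) else 0 with hf
  set q : A := ∑ i, (f i : ℂ) • p i with hq
  have hτq : (τ q).re = ∑ i ∈ S, (τ (p i)).re := by
    rw [hq, map_sum, Complex.re_sum]
    have h1 : ∀ i, (τ ((f i : ℂ) • p i)).re = if i ∈ S then (τ (p i)).re else 0 := by
      intro i
      rw [map_smul, smul_eq_mul, Complex.re_ofReal_mul]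
      simp only [hf]
      split_ifs <;> ring
    simp only [h1]
    rw [Finset.sum_ite_mem, Finset.univ_inter]
  have hτe : (τ e).re = ∑ i, (τ (p i)).re := by
    rw [← hp.sum, map_sum, Complex.re_sum]
  refine ⟨q, ⟨part_star hp f, ?_⟩, ?_, ?_, ?_, ?_⟩
  · rw [hq, part_mul hp]
    apply Finset.sum_congr rfl
    intro i _
    simp only [hf]
    split_ifs <;> simp
  · have he1 : e = ∑ i, (((1 : ℝ)) : ℂ) • p i := by
      rw [← hp.sum]
      simp
    have h1 := part_mul hp (fun _ => (((1 : ℝ)) : ℂ)) (fun i => (f i : ℂ))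
    rw [← he1] at h1
    rw [hq, h1]
    simp
  · rw [hτq]
    exact hS1
  · rw [hτq, hτe]
    linarith
  · have h1 : ∑ j, n2 τ (cm (u j : A) q) ^ 2 = ∑ j, ∑ i, ∑ k, w j i k *
        ((if i ∈ S then (1 : ℝ) else 0) - (if k ∈ S then 1 else 0)) ^ 2 := by
      apply Finset.sum_congr rfl
      intro j _
      rw [hw4 j f]
    rw [h1, hτq]
    refine hS3.trans (le_of_eq ?_)
    ring

end Pool.Agent.H518R4.UG
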