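import Pool.Agent.H518R4.UG.Stubs

/-!
COPIES: many orthogonal copies of a small projection.
-/

set_option autoImplicit false

open scoped ComplexOrder Topology InnerProductSpace
open Filter

noncomputable section

namespace Pool.Agent.H518R4.UG

open Pool.Agent.H467F

namespace COPIESx

variable {A : Type} [CStarAlgebra A]

theorem star_mul_self_zero {x : A} (h : star x * x = 0) : x = 0 :=
  (CStarRing.star_mul_self_eq_zero_iff x).1 h

theorem mul_ini {w z : A} (hz : IsPrj z) (h : star w * w = z) : w * z = w := by
  have h1 : star (w - w * z) * (w - w * z) = 0 := by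
    rw [star_sub, star_mul, hz.1]
    have e : (star w - z * star w) * (w - w * z) =
        star w * w - (star w * w) * z - z * (star w * w) + z * (star w * w) * z := by
      noncomm_ring
    rw [e, h, hz.2, hz.2]
    abel
  have h2 := star_mul_self_zero h1
  exact (sub_eq_zero.1 h2).symm

theorem ini_mul {w z : A} (hz : IsPrj z) (h : star w * w = z) : z * star w = star w := by
  have := congrArg star (mul_ini hz h)
  rwa [star_mul, hz.1] at this

theorem prj_re_nonneg {τ : A →ₗ[ℂ] ℂ} (h : TW τ) {p : A} (hp : IsPrj p) : 0 ≤ (τ p).re := by
  have := h.re_nonneg p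
  rwa [hp.1, hp.2] at this

theorem prj_zero {τ : A →ₗ[ℂ] ℂ} (h : TW τ) {p : A} (hp : IsPrj p) (h0 : (τ p).re ≤ 0) :
    p = 0 := by
  apply h.faithful
  have h1 := h.re_nonneg p
  have h2 := h.im_zero p
  have e : star p * p = p := by rw [hp.1, hp.2]
  rw [e] at h1 h2 ⊢
  exact Complex.ext (le_antisymm h0 h1) h2

theorem exists_copies {τ : A →ₗ[ℂ] ℂ} (h : Fct τ) (z : A) (hz : IsPrj z) : ∀ N : ℕ,
    N * (τ z).re ≤ 1 → ∃ w : Fin N → A, (∀ i, star (w i) * w i = z) ∧
      ∀ i j, i ≠ j → star (w i) * w j = 0 := by
  intro N
  induction N with
  | zero => intro _; exact ⟨fun i => i.elim0, fun i => i.elim0, fun i => i.elim0⟩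
  | succ N ih =>
    intro hN
    have ht := prj_re_nonneg h.tw hz
    have hN' : (N : ℝ) * (τ z).re ≤ 1 := by push_cast at hN; linarith
    obtain ⟨w, hw1, hw2⟩ := ih hN'
    -- the remainder
    set s : A := 1 - ∑ i, w i * star (w i) with hs
    have hsum : (∑ i, w i * star (w i)) * (∑ i, w i * star (w i)) = ∑ i, w i * star (w i) := by
      rw [Finset.sum_mul]
      apply Finset.sum_congr rfl
      intro i _
      rw [Finset.mul_sum, Finset.sum_eq_single i]
      · rw [mul_assoc, ← mul_assoc (star (w i)) (w i), hw1, ini_mul hz (hw1 i)]
      · intro j _ hj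
        rw [mul_assoc, ← mul_assoc (star (w i)) (w j), hw2 i j hj.symm, zero_mul, mul_zero]
      · intro hi; exact absurd (Finset.mem_univ i) hi
    have hstar : star (∑ i, w i * star (w i)) = ∑ i, w i * star (w i) := by
      rw [star_sum]
      apply Finset.sum_congr rfl
      intro i _
      rw [star_mul, star_star]
    have hsp : IsPrj s := by
      constructor
      · rw [hs, star_sub, star_one, hstar]
      · rw [hs, sub_mul, mul_sub, mul_sub, one_mul, one_mul, mul_one, hsum]
        abel
    have hws : ∀ i, star (w i) * s = 0 := by
      intro i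
      rw [hs, mul_sub, mul_one, Finset.mul_sum, Finset.sum_eq_single i]
      · rw [← mul_assoc, hw1, ini_mul hz (hw1 i), sub_self]
      · intro j _ hj
        rw [← mul_assoc, hw2 i j hj.symm, zero_mul]
      · intro hi; exact absurd (Finset.mem_univ i) hi
    have hτs : (τ s).re = 1 - N * (τ z).re := by
      rw [hs, map_sub, h.tw.one, map_sum]
      have e : ∀ i, τ (w i * star (w i)) = τ z := by
        intro i
        rw [h.tw.comm, hw1]
      simp only [e]
      rw [Finset.sum_const, Finset.card_univ, Fintype.card_fin, Complex.sub_re, Complex.one_re,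
        nsmul_eq_mul]
      simp
    have hle : (τ z).re ≤ (τ s).re := by
      rw [hτs]
      push_cast at hN
      linarith
    -- a new partial isometry
    have hnew : ∃ v : A, star v * v = z ∧ s * v = v := by
      rcases h.comp z s hz hsp with ⟨v, hv1, hv2⟩ | ⟨v, hv1, hv2⟩
      · exact ⟨v, hv1, hv2⟩
      · have e1 : v * s = v := mul_ini hsp hv1
        have e2 : star v * z = star v := by
          have := congrArg star hv2
          rwa [star_mul, hz.1] at this
        have hP : IsPrj (z - v * star v) := by
          constructor
          · rw [star_sub, star_mul, star_star, hz.1]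
          · have e3 : (z - v * star v) * (z - v * star v) =
                z * z - (z * v) * star v - v * (star v * z) + v * (star v * v) * star v := by
              noncomm_ring
            rw [e3, hz.2, hv2, e2, hv1, e1]
            abel
        have hP0 : z - v * star v = 0 := by
          apply prj_zero h.tw hP
          rw [map_sub, h.tw.comm, hv1, Complex.sub_re]
          linarith
        refine ⟨star v, ?_, ?_⟩
        · rw [star_star]
          exact (sub_eq_zero.1 hP0).symm
        · have := congrArg star e1
          rwa [star_mul, hsp.1] at this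
    obtain ⟨v, hv1, hv2⟩ := hnew
    have hwv : ∀ i, star (w i) * v = 0 := by
      intro i
      rw [← hv2, ← mul_assoc, hws, zero_mul]
    have hvw : ∀ i, star v * w i = 0 := by
      intro i
      have := congrArg star (hwv i)
      rwa [star_mul, star_star, star_zero] at this
    refine ⟨Fin.cons v w, ?_, ?_⟩
    · intro i
      refine Fin.cases ?_ (fun i => ?_) i
      · simpa using hv1
      · simpa using hw1 i
    · intro i j
      refine Fin.cases ?_ (fun i => ?_) i
      · refine Fin.cases ?_ (fun j => ?_) j
        · intro hij; exact absurd rfl hij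
        · intro _
          simpa using hvw j
      · refine Fin.cases ?_ (fun j => ?_) j
        · intro _
          simpa using hwv i
        · intro hij
          have : i ≠ j := fun e => hij (by rw [e])
          simpa using hw2 i j this

end COPIESx

theorem p_COPIES : S_COPIES := by
  intro A _ τ h N z hz hN
  exact COPIESx.exists_copies h z hz N hN

end Pool.Agent.H518R4.UG
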