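import Mathlib
import Pool.Agent.H518R4.UG.Stubs

/-! Task COVER (helper131): finitely many partial isometries from `p` cover the unit. -/

set_option autoImplicit false

open scoped ComplexOrder Topology InnerProductSpace
open Filter

noncomputable section

namespace Pool.Agent.H518R4.UG

open Pool.Agent.H467F

namespace COVERaux

variable {A : Type} [CStarAlgebra A]

theorem norm_prj_le {p : A} (hp : IsPrj p) : ‖p‖ ≤ 1 := by
  have h1 : ‖p‖ * ‖p‖ = ‖p‖ := by
    have := CStarRing.norm_star_mul_self (x := p)
    rw [hp.1, hp.2] at this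
    exact this.symm
  by_contra hc
  push Not at hc
  nlinarith

theorem norm_pi_le {w p : A} (hp : IsPrj p) (hw : star w * w = p) : ‖w‖ ≤ 1 := by
  have h1 := CStarRing.norm_star_mul_self (x := w)
  rw [hw] at h1
  have h2 := norm_prj_le hp
  by_contra hc
  push Not at hc
  nlinarith

theorem pi_mul {w p : A} (hp : IsPrj p) (hw : star w * w = p) : w * p = w := by
  have h1 : star (w * p - w) * (w * p - w) = 0 := by
    have e : star (w * p - w) * (w * p - w) = p * (star w * w) * p - p * (star w * w)
        - (star w * w) * p + star w * w := by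
      rw [star_sub, star_mul, hp.1]; noncomm_ring
    rw [e, hw, hp.2, hp.2]; simp
  exact sub_eq_zero.1 (CStarRing.star_mul_self_eq_zero_iff _ |>.1 h1)

end COVERaux

open COVERaux in
theorem p_COVER : S_COVER := by
  classical
  intro A _ τ h ρ hρ p hp hτp
  have key : ∀ m : ℕ, (∃ v : ℕ → A, (∀ i, ‖v i‖ ≤ 1) ∧ (∀ i, v i * p = v i) ∧
      ∑ i ∈ Finset.range m, v i * star (v i) = 1) ∨
      (∃ v : ℕ → A, (∀ i, ‖v i‖ ≤ 1) ∧ (∀ i, v i * p = v i) ∧
        IsPrj (1 - ∑ i ∈ Finset.range m, v i * star (v i)) ∧
        (τ (1 - ∑ i ∈ Finset.range m, v i * star (v i))).re = 1 - m * (τ p).re) := by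
    intro m
    induction m with
    | zero =>
      right
      refine ⟨fun _ => 0, fun i => by simp, fun i => by simp, ?_, ?_⟩
      · simp [IsPrj]
      · simp [h.tw.one]
    | succ m ih =>
      have hsum : ∀ (v : ℕ → A) (w : A),
          ∑ i ∈ Finset.range (m + 1), (Function.update v m w) i * star ((Function.update v m w) i)
            = ∑ i ∈ Finset.range m, v i * star (v i) + w * star w := by
        intro v w
        rw [Finset.sum_range_succ, Function.update_self]
        congr 1
        refine Finset.sum_congr rfl fun i hi => ?_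
        rw [Function.update_of_ne (Finset.mem_range.1 hi).ne]
      have hup : ∀ (v : ℕ → A) (w : A), (∀ i, ‖v i‖ ≤ 1) → (∀ i, v i * p = v i) → ‖w‖ ≤ 1 →
          w * p = w → (∀ i, ‖(Function.update v m w) i‖ ≤ 1) ∧
            (∀ i, (Function.update v m w) i * p = (Function.update v m w) i) := by
        intro v w h1 h2 h3 h4
        constructor
        · intro i
          by_cases hi : i = m
          · subst hi; simpa using h3
          · rw [Function.update_of_ne hi]; exact h1 i
        · intro i
          by_cases hi : i = m
          · subst hi; simpa using h4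
          · rw [Function.update_of_ne hi]; exact h2 i
      rcases ih with ⟨v, h1, h2, h3⟩ | ⟨v, h1, h2, h3, h4⟩
      · left
        obtain ⟨h5, h6⟩ := hup v 0 h1 h2 (by simp) (by simp)
        refine ⟨Function.update v m 0, h5, h6, ?_⟩
        rw [hsum, h3]; simp
      · set r : A := 1 - ∑ i ∈ Finset.range m, v i * star (v i) with hr
        rcases h.comp r p h3 hp with ⟨w, hw1, hw2⟩ | ⟨w, hw1, hw2⟩
        · left
          have hw3 : star w * p = star w := by
            have := congrArg star hw2
            rwa [star_mul, hp.1] at this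
          obtain ⟨h5, h6⟩ := hup v (star w) h1 h2 (by rw [norm_star]; exact norm_pi_le h3 hw1) hw3
          refine ⟨Function.update v m (star w), h5, h6, ?_⟩
          rw [hsum, star_star, hw1, hr]
          abel
        · right
          have hw3 : w * p = w := pi_mul hp hw1
          obtain ⟨h5, h6⟩ := hup v w h1 h2 (norm_pi_le hp hw1) hw3
          have hw4 : star w * r = star w := by
            have := congrArg star hw2
            rwa [star_mul, h3.1] at this
          have he : 1 - ∑ i ∈ Finset.range (m + 1), (Function.update v m w) i *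
              star ((Function.update v m w) i) = r - w * star w := by
            rw [hsum, hr]; abel
          refine ⟨Function.update v m w, h5, h6, ?_, ?_⟩
          · rw [he]
            constructor
            · rw [star_sub, h3.1, star_mul, star_star]
            · have e : (r - w * star w) * (r - w * star w) = r * r - r * w * star w
                  - w * (star w * r) + w * (star w * w) * star w := by noncomm_ring
              rw [e, h3.2, hw2, hw4, hw1, hw3]; abel
          · rw [he, map_sub, Complex.sub_re, h4, h.tw.comm w (star w), hw1]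
            push_cast; ring
  rcases key (⌈1 / ρ⌉₊ + 1) with ⟨v, h1, h2, h3⟩ | ⟨v, h1, h2, h3, h4⟩
  · refine ⟨fun i => v i, fun i => h1 i, fun i => h2 i, ?_⟩
    rw [← h3, Finset.sum_range]
  · exfalso
    have h5 := h.tw.re_nonneg (1 - ∑ i ∈ Finset.range (⌈1 / ρ⌉₊ + 1), v i * star (v i))
    rw [h3.1, h3.2, h4] at h5
    have h6 : (1 : ℝ) / ρ ≤ ⌈1 / ρ⌉₊ := Nat.le_ceil _
    have h7 : (1 : ℝ) ≤ ⌈1 / ρ⌉₊ * ρ := by
      rwa [div_le_iff₀ hρ] at h6
    push_cast at h5
    nlinarith [mul_le_mul_of_nonneg_left hτp (Nat.cast_nonneg (α := ℝ) ⌈1 / ρ⌉₊)]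

end Pool.Agent.H518R4.UG
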