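import Mathlib
import Pool.Agent.H518R4.UG.Stubs
import Pool.Agent.Helper467.FP.P_tw_elt
import Pool.Agent.Helper467.FP.P_dya_IIone
import Pool.Agent.Helper467.FP.P_unit_decomp
import Pool.Agent.H130R2.Kad5.C5
import Pool.Agent.H956R2.Kad4.Comp
import Pool.Agent.H720R2.Kad4.Join
import Pool.Agent.H85R2.Kad4.Polar
import Pool.Agent.H849R2.Kad4.F4
import Pool.Agent.H445R2.Kad4.Range

/-!
Task FCT: concrete II_1 factors have the properties used.
-/

set_option autoImplicit false

open scoped ComplexOrder Topology InnerProductSpace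
open Filter

noncomputable section

namespace Pool.Agent.H518R4.UG

open Pool.Agent.H467F

namespace FCT

section abstract

variable {A : Type} [CStarAlgebra A] [PartialOrder A] [StarOrderedRing A]

theorem nn_smul (r : ℝ) (hr : 0 ≤ r) (x : A) (hx : 0 ≤ x) : 0 ≤ (r : ℂ) • x := by
  obtain ⟨y, rfl⟩ := CStarAlgebra.nonneg_iff_eq_star_mul_self.1 hx
  have : (r : ℂ) • (star y * y) =
      star (((Real.sqrt r : ℝ) : ℂ) • y) * (((Real.sqrt r : ℝ) : ℂ) • y) := by
    rw [star_smul, smul_mul_smul_comm]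
    congr 1
    rw [Complex.star_def, Complex.conj_ofReal, ← Complex.ofReal_mul, Real.mul_self_sqrt hr]
  rw [this]
  exact star_mul_self_nonneg _

theorem nn_prj {s : A} (hs : IsPrj s) : 0 ≤ s := by
  have : s = star s * s := by rw [hs.1, hs.2]
  rw [this]
  exact star_mul_self_nonneg _

/-- the grid argument -/
theorem grid (hspec : ∀ (s a : A) (t : ℝ), IsPrj s → star a = a → s * a = a →
      ∃ e, IsPrj e ∧ s * e = e ∧ e * a = a * e ∧ 0 ≤ a * e - (t : ℂ) • e ∧
        0 ≤ (t : ℂ) • (s - e) - a * (s - e)) (δ : ℝ) (hδ : 0 < δ) :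
    ∀ (m : ℕ) (s a : A) (t : ℝ), IsPrj s → star a = a → s * a = a → 0 ≤ a - (t : ℂ) • s →
      0 ≤ ((t + m * δ : ℝ) : ℂ) • s - a →
      ∃ (n : ℕ) (p : Fin n → A) (l : Fin n → ℝ), IsPart p s ∧
        0 ≤ a - ∑ i, (l i : ℂ) • p i ∧ 0 ≤ (δ : ℂ) • s - (a - ∑ i, (l i : ℂ) • p i) := by
  intro m
  induction m with
  | zero =>
    intro s a t hs ha hsa h1 h2
    refine ⟨1, fun _ => s, fun _ => t, ⟨fun _ => hs, fun i j hij => absurd (Subsingleton.elim i j)
      hij, by simp⟩, ?_, ?_⟩
    · simpa using h1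
    · have h3 : (δ : ℂ) • s - (a - ∑ i : Fin 1, (t : ℂ) • s) =
          (δ : ℂ) • s + (((t + ((0 : ℕ) : ℝ) * δ : ℝ) : ℂ) • s - a) := by
        simp
        abel
      rw [h3]
      exact add_nonneg (nn_smul δ hδ.le s (nn_prj hs)) h2
  | succ m ih =>
    intro s a t hs ha hsa h1 h2
    have has : a * s = a := by
      have := congrArg star hsa
      rwa [star_mul, ha, hs.1] at this
    obtain ⟨e, he, hse, hea, he1, he2⟩ := hspec s a (t + δ) hs ha hsa
    have hes : e * s = e := by
      have := congrArg star hse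
      rwa [star_mul, he.1, hs.1] at this
    -- the complement
    have hf : IsPrj (s - e) := by
      refine ⟨by rw [star_sub, hs.1, he.1], ?_⟩
      rw [sub_mul, mul_sub, mul_sub, hs.2, hse, hes, he.2]
      abel
    have hfe : (s - e) * e = 0 := by rw [sub_mul, hse, he.2, sub_self]
    have hef : e * (s - e) = 0 := by rw [mul_sub, hes, he.2, sub_self]
    have haf : a * (s - e) = (s - e) * a := by
      rw [mul_sub, sub_mul, has, hsa, hea]
    have hsf : s * (s - e) = s - e := by rw [mul_sub, hs.2, hse]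
    have hfa1 : 0 ≤ a * (s - e) - (t : ℂ) • (s - e) := by
      have h3 := star_left_conjugate_nonneg h1 (s - e)
      have h4 : star (s - e) * (a - (t : ℂ) • s) * (s - e) =
          a * (s - e) - (t : ℂ) • (s - e) := by
        have h5 : ∀ f : A, f * f = f → a * f = f * a → s * f = f →
            f * (a - (t : ℂ) • s) * f = a * f - (t : ℂ) • f := by
          intro f h1 h2 h3
          rw [mul_sub, sub_mul, ← h2, mul_assoc, h1, mul_smul_comm, smul_mul_assoc,
            mul_assoc, h3, h1]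
        rw [hf.1]
        exact h5 (s - e) hf.2 haf hsf
      rwa [h4] at h3
    -- the part of `e`
    have hae1 : star (a * e) = a * e := by rw [star_mul, he.1, ha, hea]
    have hae2 : e * (a * e) = a * e := by rw [← mul_assoc, hea, mul_assoc, he.2]
    have hae3 : 0 ≤ ((t + δ + m * δ : ℝ) : ℂ) • e - a * e := by
      have h3 := star_left_conjugate_nonneg h2 e
      have h4 : star e * (((t + ((m + 1 : ℕ) : ℝ) * δ : ℝ) : ℂ) • s - a) * e =
          ((t + δ + m * δ : ℝ) : ℂ) • e - a * e := by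
        rw [he.1, mul_sub, sub_mul, mul_smul_comm, smul_mul_assoc, hes, he.2, hea, mul_assoc,
          he.2]
        congr 2
        push_cast
        ring
      rwa [h4] at h3
    obtain ⟨n, p, l, hp, hp1, hp2⟩ := ih e (a * e) (t + δ) he hae1 hae2 he1 hae3
    have hep : ∀ i, e * p i = p i := by
      intro i
      rw [← hp.sum, Finset.sum_mul, Finset.sum_eq_single i]
      · exact (hp.prj i).2
      · intro j _ hj
        exact hp.ort j i hj
      · intro hi
        exact absurd (Finset.mem_univ i) hi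
    have hpe : ∀ i, p i * e = p i := by
      intro i
      have := congrArg star (hep i)
      rwa [star_mul, he.1, (hp.prj i).1] at this
    have hfp : ∀ i, (s - e) * p i = 0 := by
      intro i
      rw [← hep i, ← mul_assoc, hfe, zero_mul]
    have hpf : ∀ i, p i * (s - e) = 0 := by
      intro i
      rw [← hpe i, mul_assoc, hef, mul_zero]
    refine ⟨n + 1, Fin.cons (s - e) p, Fin.cons t l, ⟨?_, ?_, ?_⟩, ?_, ?_⟩
    · intro i
      refine Fin.cases ?_ (fun i => ?_) i
      · exact hf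
      · exact hp.prj i
    · intro i j
      refine Fin.cases ?_ (fun i => ?_) i
      · refine Fin.cases ?_ (fun j => ?_) j
        · intro h
          exact absurd rfl h
        · intro _
          exact hfp j
      · refine Fin.cases ?_ (fun j => ?_) j
        · intro _
          exact hpf i
        · intro h
          exact hp.ort i j fun h' => h (by rw [h'])
    · rw [Fin.sum_univ_succ]
      simp only [Fin.cons_zero, Fin.cons_succ]
      rw [hp.sum, sub_add_cancel]
    · rw [Fin.sum_univ_succ]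
      simp only [Fin.cons_zero, Fin.cons_succ]
      have h3 : a - ((t : ℂ) • (s - e) + ∑ i, (l i : ℂ) • p i) =
          (a * e - ∑ i, (l i : ℂ) • p i) + (a * (s - e) - (t : ℂ) • (s - e)) := by
        rw [mul_sub, has]
        abel
      rw [h3]
      exact add_nonneg hp1 hfa1
    · rw [Fin.sum_univ_succ]
      simp only [Fin.cons_zero, Fin.cons_succ]
      have h3 : (δ : ℂ) • s - (a - ((t : ℂ) • (s - e) + ∑ i, (l i : ℂ) • p i)) =
          ((δ : ℂ) • e - (a * e - ∑ i, (l i : ℂ) • p i)) +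
            (((t + δ : ℝ) : ℂ) • (s - e) - a * (s - e)) := by
        rw [mul_sub a, has]
        push_cast
        rw [add_smul, smul_sub (δ : ℂ)]
        abel
      rw [h3]
      exact add_nonneg hp2 he2

/-- approximation by elements with finite spectrum -/
theorem fs (hspec : ∀ (s a : A) (t : ℝ), IsPrj s → star a = a → s * a = a →
      ∃ e, IsPrj e ∧ s * e = e ∧ e * a = a * e ∧ 0 ≤ a * e - (t : ℂ) • e ∧
        0 ≤ (t : ℂ) • (s - e) - a * (s - e)) (e : A) (he : IsPrj e) (a : A) (ha : star a = a)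
    (hea : e * a = a) (δ : ℝ) (hδ : 0 < δ) :
    ∃ (n : ℕ) (p : Fin n → A) (l : Fin n → ℝ), IsPart p e ∧ ‖a - ∑ i, (l i : ℂ) • p i‖ ≤ δ := by
  have hae : a * e = a := by
    have := congrArg star hea
    rwa [star_mul, ha, he.1] at this
  have hsa : IsSelfAdjoint a := ha
  have hr : ∀ r : ℝ, algebraMap ℝ A r = (r : ℂ) • (1 : A) := by
    intro r
    rw [Algebra.algebraMap_eq_smul_one]
    simp
  have h1 : a ≤ algebraMap ℝ A ‖a‖ := IsSelfAdjoint.le_algebraMap_norm_self hsa
  have h2 : -(algebraMap ℝ A ‖a‖) ≤ a := IsSelfAdjoint.neg_algebraMap_norm_le_self hsa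
  rw [hr] at h1 h2
  have h3 : 0 ≤ ((‖a‖ : ℝ) : ℂ) • e - a := by
    have h4 := star_left_conjugate_nonneg (sub_nonneg.2 h1) e
    have h5 : star e * (((‖a‖ : ℝ) : ℂ) • (1 : A) - a) * e = ((‖a‖ : ℝ) : ℂ) • e - a := by
      rw [he.1, mul_sub, sub_mul, mul_smul_comm, smul_mul_assoc, mul_one, he.2, hea, hae]
    rwa [h5] at h4
  have h4 : 0 ≤ a - ((-‖a‖ : ℝ) : ℂ) • e := by
    have h5 := star_left_conjugate_nonneg (sub_nonneg.2 h2) e
    have h6 : star e * (a - -(((‖a‖ : ℝ) : ℂ) • (1 : A))) * e = a - ((-‖a‖ : ℝ) : ℂ) • e := by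
      rw [he.1, mul_sub, sub_mul, mul_neg, neg_mul, mul_smul_comm, smul_mul_assoc, mul_one,
        he.2, hea, hae]
      push_cast
      rw [neg_smul]
    rwa [h6] at h5
  obtain ⟨m, hm⟩ := exists_nat_ge (2 * ‖a‖ / δ)
  have hm' : 2 * ‖a‖ ≤ m * δ := by
    rwa [div_le_iff₀ hδ] at hm
  obtain ⟨n, p, l, hp, hp1, hp2⟩ := grid hspec δ hδ m e a (-‖a‖) he ha hea h4 (by
    have h5 : ((-‖a‖ + m * δ : ℝ) : ℂ) • e - a =
        ((m * δ - 2 * ‖a‖ : ℝ) : ℂ) • e + (((‖a‖ : ℝ) : ℂ) • e - a) := by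
      rw [← add_sub_assoc, ← add_smul]
      congr 2
      push_cast
      ring
    rw [h5]
    exact add_nonneg (nn_smul _ (by linarith) e (nn_prj he)) h3)
  refine ⟨n, p, l, hp, ?_⟩
  rw [CStarAlgebra.norm_le_iff_le_algebraMap _ hδ.le hp1, hr]
  have h5 : (a - ∑ i, (l i : ℂ) • p i) ≤ (δ : ℂ) • e := sub_nonneg.1 hp2
  refine h5.trans ?_
  rw [← sub_nonneg, ← smul_sub]
  refine nn_smul δ hδ.le _ (nn_prj ⟨?_, ?_⟩)
  · rw [star_sub, star_one, he.1]
  · rw [sub_mul, mul_sub, mul_sub, one_mul, mul_one, one_mul, he.2, sub_self, sub_zero]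

end abstract

end FCT

open FCT in
theorem p_FCT : S_FCT := by
  intro H _ _ _ N t hN
  have htw : TW t := tw_elt N t hN.normal hN.trace
  have hrange : H759R2.Kad.F_range.{0} := H759R2.Kad.prove5_range
  have hcomp : H759R2.Kad.F_comp.{0} := H759R2.Kad.prove5_comp H759R2.Kad.prove5_join
    H759R2.Kad.prove5_polar H759R2.Kad.prove5_chain
  refine ⟨htw, ?_, ?_, ?_⟩
  · intro e he a ha hea δ hδ
    letI : PartialOrder (Elt N) := CStarAlgebra.spectralOrder (Elt N)
    letI : StarOrderedRing (Elt N) := CStarAlgebra.spectralOrderedRing (Elt N)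
    refine fs ?_ e he a ha hea δ hδ
    intro s b r hs hb hsb
    obtain ⟨e, he1, he2, he3, ⟨y, hy⟩, ⟨z, hz⟩⟩ :=
      H759R2.Kad.prove6_spec hrange H N s b r hs hb hsb
    refine ⟨e, he1, he2, he3, ?_, ?_⟩
    · rw [hy]
      exact star_mul_self_nonneg _
    · rw [hz]
      exact star_mul_self_nonneg _
  · intro p q hp hq
    obtain ⟨v, hv, h⟩ := hcomp H N hN.center (p : H →L[ℂ] H) p.2 (q : H →L[ℂ] H) q.2
      ⟨congrArg Subtype.val hp.1, congrArg Subtype.val hp.2⟩
      ⟨congrArg Subtype.val hq.1, congrArg Subtype.val hq.2⟩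
    rcases h with ⟨h1, h2⟩ | ⟨h1, h2⟩
    · exact Or.inl ⟨⟨v, hv⟩, Subtype.ext h1, Subtype.ext h2⟩
    · refine Or.inr ⟨star ⟨v, hv⟩, ?_, ?_⟩
      · rw [star_star]
        exact Subtype.ext h1
      · have h3 : (⟨v, hv⟩ : Elt N) * p = ⟨v, hv⟩ := Subtype.ext h2
        have h4 := congrArg star h3
        rwa [star_mul, hp.1] at h4
  · intro k
    obtain ⟨g, hh, hD⟩ := dya_IIone N (t : Elt N → ℂ) hN
    obtain ⟨n, v, hv1, hv2, hv3⟩ := unit_decomp ⊤ g hh hD k
    have htr : ∀ k, t (g k) = (1 / 2 : ℂ) ^ k := by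
      intro k
      induction k with
      | zero => rw [hD.g_zero, htw.one, pow_zero]
      | succ k ih =>
        have h1 : t (g (k + 1)) = t (g k) - t (g (k + 1)) := by
          conv_lhs => rw [← hD.h_left k, htw.comm, hD.h_right k]
          rw [map_sub]
        rw [ih] at h1
        have h2 : 2 * t (g (k + 1)) = (1 / 2 : ℂ) ^ k := by
          linear_combination h1
        rw [pow_succ]
        linear_combination (1 / 2 : ℂ) * h2
    have hn : (n : ℂ) * (1 / 2 : ℂ) ^ k = 1 := by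
      have h1 := congrArg t hv3
      rw [map_sum, htw.one] at h1
      have h2 : ∀ i, t (v i * star (v i)) = (1 / 2 : ℂ) ^ k := by
        intro i
        rw [htw.comm, (hv1 i).2, htr]
      rw [Finset.sum_congr rfl fun i _ => h2 i, Finset.sum_const, Finset.card_univ,
        Fintype.card_fin, nsmul_eq_mul] at h1
      exact h1
    have hn2 : n = 2 ^ k := by
      have h1 : (n : ℂ) = 2 ^ k := by
        have h2 : (1 / 2 : ℂ) ^ k * 2 ^ k = 1 := by
          rw [← mul_pow]
          norm_num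
        calc (n : ℂ) = (n : ℂ) * ((1 / 2 : ℂ) ^ k * 2 ^ k) := by rw [h2, mul_one]
          _ = ((n : ℂ) * (1 / 2 : ℂ) ^ k) * 2 ^ k := by ring
          _ = 2 ^ k := by rw [hn, one_mul]
      exact_mod_cast h1
    subst hn2
    exact ⟨v, g k, fun i => (hv1 i).2, hv2, hv3⟩

end Pool.Agent.H518R4.UG
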