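import Pool.Agent.H518R4.UG.FINALaux

/-!
FINAL: the frozen statement S03914 follows from UNIV, NGAM, FCT and NORM.
-/

set_option autoImplicit false

open scoped ComplexOrder Topology InnerProductSpace
open Filter

noncomputable section

namespace Pool.Agent.H518R4.UG

open Pool.Agent.H467F

open FINAL in
theorem p_FINAL (hUNIV : S_UNIV) (hNGAM : S_NGAM) (hFCT : S_FCT) (hNORM : S_NORM) : S_FINAL := by
  rintro ⟨N, τ, hN, U, -, hU⟩
  obtain ⟨k, c, hc, huniv⟩ := hUNIV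
  -- every `N i` has a family of contractions with gap
  have key : ∀ i : ℕ, ∃ t : Elt (N i) →ₗ[ℂ] ℂ, TW t ∧ (∀ x : Elt (N i), t x = τ i x) ∧
      ∃ x : Fin k → Elt (N i), (∀ j, ‖x j‖ ≤ 1) ∧
        ∀ y : Elt (N i), t y = 0 → c * n2 t y ^ 2 ≤ ∑ j, n2 t (cm (x j) y) ^ 2 := by
    intro i
    obtain ⟨h1, h2, h3, h4, h5, h6, h7⟩ := hN i
    obtain ⟨t, ht, hte⟩ := hNORM (N i) (τ i) h1 h2 h3 h4 h5 h6
    have hF := hFCT _ (N i) t ht
    exact ⟨t, hF.tw, hte, gap_of hNGAM (N i) t (τ i) hte hF k c (huniv (Elt (N i)) t hF) h7⟩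
  exact main_gen N τ k c hc key U hU

end Pool.Agent.H518R4.UG
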