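import Pool.Agent.H518R4.UG.Stubs

/-!
FINAL: auxiliary lemmas for the frozen statement S03914.
-/

set_option autoImplicit false

open scoped ComplexOrder Topology InnerProductSpace
open Filter

noncomputable section

namespace Pool.Agent.H518R4.UG

open Pool.Agent.H467F

namespace FINAL

/-- `‖u - τ(u)‖_2^2 = 1 - |τ(u)|^2` for a unitary `u` -/
theorem center_sq {A : Type} [CStarAlgebra A] {τ : A →ₗ[ℂ] ℂ} (h : TW τ) (u : A)
    (hu : star u * u = 1) : n2 τ (u - τ u • 1) ^ 2 = 1 - ‖τ u‖ ^ 2 := by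
  rw [h.n2_sq]
  have e : star (u - τ u • (1 : A)) * (u - τ u • 1) =
      star u * u - (star (τ u)) • u - (τ u) • star u + (star (τ u) * τ u) • (1 : A) := by
    rw [star_sub, star_smul, star_one, sub_mul, mul_sub, mul_sub, mul_smul_comm, mul_one,
      smul_mul_assoc, one_mul, smul_mul_smul_comm, mul_one]
    abel
  rw [e, hu, map_add, map_sub, map_sub, map_smul, map_smul, map_smul, h.one, h.conj]
  simp only [smul_eq_mul, mul_one]
  have e2 : (1 : ℂ) - star (τ u) * τ u - τ u * star (τ u) + star (τ u) * τ u =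
      1 - star (τ u) * τ u := by ring
  rw [e2]
  have e3 : star (τ u) * τ u = ((‖τ u‖ ^ 2 : ℝ) : ℂ) := by
    rw [Complex.star_def, ← Complex.normSq_eq_conj_mul_self, Complex.normSq_eq_norm_sq]
  rw [e3, Complex.sub_re, Complex.one_re, Complex.ofReal_re]

theorem cm_center {A : Type} [CStarAlgebra A] (x u : A) (c : ℂ) :
    cm x (u - c • 1) = -cm u x := by
  unfold cm
  rw [mul_sub, sub_mul, mul_smul_comm, smul_mul_assoc, mul_one, one_mul]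
  abel

/-- the abstract contradiction -/
theorem contra {A : Type} [CStarAlgebra A] {τ : A →ₗ[ℂ] ℂ} (h : TW τ) (k : ℕ) (c e : ℝ)
    (hc : 0 < c) (hke : k * e ≤ c / 4) (x : Fin k → A)
    (hgap : ∀ y : A, τ y = 0 → c * n2 τ y ^ 2 ≤ ∑ j, n2 τ (cm (x j) y) ^ 2)
    (u : A) (hu : star u * u = 1) (hsm : ‖τ u‖ < 1 / 2)
    (hcm : ∀ j, (τ (star (cm u (x j)) * cm u (x j))).re < e) : False := by
  have hy0 : τ (u - τ u • 1) = 0 := by
    rw [map_sub, map_smul, h.one, smul_eq_mul, mul_one, sub_self]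
  have h1 := hgap _ hy0
  rw [center_sq h u hu] at h1
  have h2 : ∑ j, n2 τ (cm (x j) (u - τ u • 1)) ^ 2 ≤ ∑ _j : Fin k, e := by
    refine Finset.sum_le_sum fun j _ => ?_
    rw [cm_center, n2_neg, h.n2_sq]
    exact (hcm j).le
  rw [Finset.sum_const, Finset.card_univ, Fintype.card_fin, nsmul_eq_mul] at h2
  have h4 : ‖τ u‖ ^ 2 ≤ 1 / 4 := by
    have h5 := norm_nonneg (τ u)
    nlinarith
  have h5 : c * (1 - ‖τ u‖ ^ 2) ≤ c / 4 := h1.trans (h2.trans hke)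
  have h6 : c * (3 / 4) ≤ c * (1 - ‖τ u‖ ^ 2) :=
    mul_le_mul_of_nonneg_left (by linarith) hc.le
  linarith

section

variable {H : Type} [NormedAddCommGroup H] [InnerProductSpace ℂ H] [CompleteSpace H]

theorem coe_mul' {N : VonNeumannAlgebra H} (x y : Elt N) :
    ((x * y : Elt N) : H →L[ℂ] H) = (x : H →L[ℂ] H) * (y : H →L[ℂ] H) := rfl

theorem coe_sub' {N : VonNeumannAlgebra H} (x y : Elt N) :
    ((x - y : Elt N) : H →L[ℂ] H) = (x : H →L[ℂ] H) - (y : H →L[ℂ] H) := rfl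

theorem coe_star' {N : VonNeumannAlgebra H} (x : Elt N) :
    ((star x : Elt N) : H →L[ℂ] H) = star (x : H →L[ℂ] H) := rfl

theorem coe_one' {N : VonNeumannAlgebra H} :
    ((1 : Elt N) : H →L[ℂ] H) = 1 := rfl

theorem norm_coe' {N : VonNeumannAlgebra H} (x : Elt N) :
    ‖(x : H →L[ℂ] H)‖ = ‖x‖ := rfl

theorem coe_cm (N : VonNeumannAlgebra H) (u x : Elt N) :
    ((star (cm u x) * cm u x : Elt N) : H →L[ℂ] H) =
      star ((u : H →L[ℂ] H) * (x : H →L[ℂ] H) - (x : H →L[ℂ] H) * (u : H →L[ℂ] H)) *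
        ((u : H →L[ℂ] H) * (x : H →L[ℂ] H) - (x : H →L[ℂ] H) * (u : H →L[ℂ] H)) := by
  unfold cm
  rw [coe_mul', coe_star', coe_sub', coe_mul', coe_mul']

theorem unitary_coe (N : VonNeumannAlgebra H) (u : unitary (Elt N)) :
    ((u : Elt N) : H →L[ℂ] H) ∈ unitary (H →L[ℂ] H) := by
  rw [Unitary.mem_iff]
  constructor
  · have h1 : star (u : Elt N) * (u : Elt N) = 1 := Unitary.coe_star_mul_self u
    rw [← coe_star', ← coe_mul', h1, coe_one']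
  · have h1 : (u : Elt N) * star (u : Elt N) = 1 := Unitary.coe_mul_star_self u
    rw [← coe_star', ← coe_mul', h1, coe_one']

/-- the concrete form of property Gamma -/
def Gam (N : VonNeumannAlgebra H) (τ : (H →L[ℂ] H) →ₗ[ℂ] ℂ) : Prop :=
  ∀ n : ℕ, ∀ x : Fin n → (H →L[ℂ] H), (∀ k, x k ∈ N) → ∀ ε : ℝ, 0 < ε →
    ∃ u ∈ N, u ∈ unitary (H →L[ℂ] H) ∧ τ u = 0 ∧
      ∀ k, (τ (star (u * x k - x k * u) * (u * x k - x k * u))).re < ε ^ 2

theorem gap_of (hNGAM : S_NGAM) (N : VonNeumannAlgebra H) (t : Elt N →ₗ[ℂ] ℂ)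
    (τ : (H →L[ℂ] H) →ₗ[ℂ] ℂ) (hte : ∀ x : Elt N, t x = τ (x : H →L[ℂ] H)) (hF : Fct t)
    (k : ℕ) (c : ℝ) (huniv : (∃ (k' : ℕ) (c' : ℝ), 0 < c' ∧ ¬ NG t k' c') → ¬ NG t k c)
    (h7 : ¬ Gam N τ) :
    ∃ x : Fin k → Elt N, (∀ j, ‖x j‖ ≤ 1) ∧
      ∀ y : Elt N, t y = 0 → c * n2 t y ^ 2 ≤ ∑ j, n2 t (cm (x j) y) ^ 2 := by
  have hng : ¬ NG t k c := by
    apply huniv
    by_contra hcon
    push Not at hcon
    apply h7
    intro n x hx ε hε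
    obtain ⟨u, hu0, hu⟩ := hNGAM (Elt N) t hF (fun k' c' hc' => hcon k' c' hc') n
      (fun j => ⟨x j, hx j⟩) ε hε
    refine ⟨((u : Elt N) : H →L[ℂ] H), (u : Elt N).2, unitary_coe N u, ?_, ?_⟩
    · rw [← hte]
      exact hu0
    · intro j
      have h8 := hu j
      have h9 : n2 t (cm (u : Elt N) ⟨x j, hx j⟩) ^ 2 < ε ^ 2 :=
        pow_lt_pow_left₀ h8 (n2_nonneg _ _) two_ne_zero
      rw [hF.tw.n2_sq, hte, coe_cm] at h9
      exact h9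
  unfold NG at hng
  push Not at hng
  obtain ⟨x, hx, hxy⟩ := hng
  exact ⟨x, hx, hxy⟩

theorem contra' (N : VonNeumannAlgebra H) (t : Elt N →ₗ[ℂ] ℂ) (ht : TW t)
    (τ : (H →L[ℂ] H) →ₗ[ℂ] ℂ) (hte : ∀ x : Elt N, t x = τ (x : H →L[ℂ] H))
    (k : ℕ) (c e : ℝ) (hc : 0 < c) (hke : k * e ≤ c / 4) (x : Fin k → Elt N)
    (hgap : ∀ y : Elt N, t y = 0 → c * n2 t y ^ 2 ≤ ∑ j, n2 t (cm (x j) y) ^ 2)
    (u : H →L[ℂ] H) (huN : u ∈ N) (hu : u ∈ unitary (H →L[ℂ] H)) (hsm : ‖τ u‖ < 1 / 2)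
    (hcm : ∀ j, (τ (star (u * (x j : H →L[ℂ] H) - (x j : H →L[ℂ] H) * u) *
      (u * (x j : H →L[ℂ] H) - (x j : H →L[ℂ] H) * u))).re < e) : False := by
  refine contra ht k c e hc hke x hgap ⟨u, huN⟩ ?_ ?_ ?_
  · apply Subtype.ext
    rw [coe_mul', coe_star', coe_one']
    exact (Unitary.mem_iff.mp hu).1
  · rw [hte]
    exact hsm
  · intro j
    rw [hte, coe_cm]
    exact hcm j

/-- the ultraproduct hypothesis -/
def UGam (N : ℕ → VonNeumannAlgebra H) (τ : ℕ → ((H →L[ℂ] H) →ₗ[ℂ] ℂ)) (U : Ultrafilter ℕ) :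
    Prop :=
  ∀ n : ℕ, ∀ x : Fin n → ℕ → (H →L[ℂ] H),
    (∀ k i, x k i ∈ N i) → (∃ C : ℝ, ∀ k i, ‖x k i‖ ≤ C) → ∀ ε : ℝ, 0 < ε →
    ∃ u : ℕ → (H →L[ℂ] H),
      (∀ i, u i ∈ N i ∧ u i ∈ unitary (H →L[ℂ] H)) ∧
      Filter.Tendsto (fun i => τ i (u i)) (U : Filter ℕ) (nhds 0) ∧
      ∀ k, ∀ᶠ i in (U : Filter ℕ),
        (τ i (star (u i * x k i - x k i * u i) * (u i * x k i - x k i * u i))).re < ε ^ 2

theorem main_gen (N : ℕ → VonNeumannAlgebra H) (τ : ℕ → ((H →L[ℂ] H) →ₗ[ℂ] ℂ))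
    (k : ℕ) (c : ℝ) (hc : 0 < c)
    (key : ∀ i : ℕ, ∃ t : Elt (N i) →ₗ[ℂ] ℂ, TW t ∧
      (∀ x : Elt (N i), t x = τ i (x : H →L[ℂ] H)) ∧
      ∃ x : Fin k → Elt (N i), (∀ j, ‖x j‖ ≤ 1) ∧
        ∀ y : Elt (N i), t y = 0 → c * n2 t y ^ 2 ≤ ∑ j, n2 t (cm (x j) y) ^ 2)
    (U : Ultrafilter ℕ) (hU : UGam N τ U) : False := by
  choose t ht hte x hx hgap using key
  have hpos : 0 < c / (4 * ((k : ℝ) + 1)) := by positivity
  have hε0 : 0 < Real.sqrt (c / (4 * ((k : ℝ) + 1))) := Real.sqrt_pos.mpr hpos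
  have hx' : ∀ (j : Fin k) (i : ℕ), ‖((x i j : Elt (N i)) : H →L[ℂ] H)‖ ≤ 1 := by
    intro j i
    rw [norm_coe']
    exact hx i j
  obtain ⟨u, hu, hu0, huc⟩ := hU k (fun j i => ((x i j : Elt (N i)) : H →L[ℂ] H))
    (fun j i => (x i j).2) ⟨1, hx'⟩ _ hε0
  rw [Real.sq_sqrt hpos.le] at huc
  have hsm : ∀ᶠ i in (U : Filter ℕ), ‖τ i (u i)‖ < 1 / 2 := by
    have := hu0.norm
    rw [norm_zero] at this
    exact this.eventually (gt_mem_nhds (by norm_num))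
  obtain ⟨i, hi1, hi2⟩ := ((Filter.eventually_all.mpr huc).and hsm).exists
  have h3 : (k : ℝ) * (c / (4 * ((k : ℝ) + 1))) ≤ c / 4 := by
    have hk : (0 : ℝ) ≤ k := Nat.cast_nonneg k
    rw [← mul_div_assoc, div_le_div_iff₀ (by positivity) (by norm_num)]
    nlinarith
  exact contra' (N i) (t i) (ht i) (τ i) (hte i) k c _ hc h3 (x i) (hgap i) (u i) (hu i).1
    (hu i).2 hi2 hi1

end

end FINAL

end Pool.Agent.H518R4.UG
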