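import Pool.Agent.H518R4.UG.Stubs

set_option autoImplicit false

noncomputable section

namespace Pool.Agent.H518R4.UG

open Pool.Agent.H467F

theorem p_FROMGAP (h : S_TWOU) : S_FROMGAP := by
  intro A _ τ hτ k c hc hng
  unfold NG at hng
  push Not at hng
  obtain ⟨x, hx, hgap⟩ := hng
  have h1 : ∀ i, ∃ u₁ u₂ : unitary A, ∀ y,
      n2 τ (cm (x i) y) ≤ n2 τ (cm (u₁ : A) y) + n2 τ (cm (u₂ : A) y) := by
    intro i
    obtain ⟨u₁, u₂, -, -, h2⟩ := h A τ hτ 1 (x i) ⟨star_one A, mul_one 1⟩ (by simp) (hx i)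
    exact ⟨u₁, u₂, fun y => (h2 y (one_mul y) (mul_one y)).1⟩
  choose u₁ u₂ hu using h1
  rcases Nat.eq_zero_or_pos k with hk0 | hk
  · subst hk0
    refine ⟨1, 1, fun _ => 1, one_pos, one_pos, ?_⟩
    intro y hy
    have h2 := hgap y hy
    rw [Finset.univ_eq_empty, Finset.sum_empty] at h2
    have h3 : n2 τ y ^ 2 = 0 := by
      have : 0 ≤ n2 τ y ^ 2 := sq_nonneg _
      nlinarith
    rw [h3, mul_zero]
    exact Finset.sum_nonneg fun i _ => sq_nonneg _
  · have hkr : (0 : ℝ) < k := by exact_mod_cast hk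
    refine ⟨k + k, c / (4 * k), Fin.append u₁ u₂, by omega, by positivity, ?_⟩
    intro y hy
    have h2 := hgap y hy
    rw [Fin.sum_univ_add]
    simp only [Fin.append_left, Fin.append_right, Fintype.card_fin]
    rw [← Finset.sum_add_distrib]
    have h4 : ∑ i, n2 τ (cm (x i) y) ^ 2 ≤
        ∑ i, 2 * (n2 τ (cm (u₁ i : A) y) ^ 2 + n2 τ (cm (u₂ i : A) y) ^ 2) := by
      apply Finset.sum_le_sum
      intro i _
      have h5 := hu i y
      have h6 : 0 ≤ n2 τ (cm (x i) y) := n2_nonneg _ _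
      nlinarith [sq_nonneg (n2 τ (cm (u₁ i : A) y) - n2 τ (cm (u₂ i : A) y))]
    rw [← Finset.mul_sum] at h4
    have h7 : c / (4 * k) * ((k + k : ℕ) : ℝ) * n2 τ y ^ 2 = c * n2 τ y ^ 2 / 2 := by
      push_cast
      field_simp
      ring
    rw [h7]
    linarith

end Pool.Agent.H518R4.UG
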