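import Pool.Agent.H518R4.UG.Stubs

/-! GRAPH: permutations with spectral gap on `ZMod m × ZMod m`. -/

namespace Pool.Agent.H518R4.UG

open Pool.Agent.H467F
open scoped InnerProductSpace

namespace GRAPHh

variable {V E : Type} [Fintype V] [NormedAddCommGroup E] [InnerProductSpace ℂ E]

/-- composition with a permutation -/
noncomputable def cmp (σ : Equiv.Perm V) :
    PiLp 2 (fun _ : V => E) →ₗ[ℂ] PiLp 2 (fun _ : V => E) where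
  toFun F := WithLp.toLp 2 (fun v => F (σ v))
  map_add' _ _ := rfl
  map_smul' _ _ := rfl

@[simp] lemma cmp_apply (σ : Equiv.Perm V) (F : PiLp 2 (fun _ : V => E)) (v : V) :
    cmp σ F v = F (σ v) := rfl

lemma inner_cmp (σ : Equiv.Perm V) (F G : PiLp 2 (fun _ : V => E)) :
    ⟪cmp σ F, G⟫_ℂ = ⟪F, cmp σ⁻¹ G⟫_ℂ := by
  rw [PiLp.inner_apply, PiLp.inner_apply, ← Equiv.sum_comp σ (fun v => ⟪F v, cmp σ⁻¹ G v⟫_ℂ)]
  apply Finset.sum_congr rfl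
  intro v _
  have h : σ⁻¹ (σ v) = v := σ.symm_apply_apply v
  rw [cmp_apply, cmp_apply, h]

lemma norm_cmp (σ : Equiv.Perm V) (F : PiLp 2 (fun _ : V => E)) : ‖cmp σ F‖ = ‖F‖ := by
  have h : ‖cmp σ F‖ ^ 2 = ‖F‖ ^ 2 := by
    rw [PiLp.norm_sq_eq_of_L2, PiLp.norm_sq_eq_of_L2, ← Equiv.sum_comp σ (fun v => ‖F v‖ ^ 2)]
    rfl
  have h1 := norm_nonneg (cmp σ F)
  have h2 := norm_nonneg F
  nlinarith [sq_nonneg (‖cmp σ F‖ - ‖F‖), sq_nonneg (‖cmp σ F‖ + ‖F‖)]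

lemma re_inner_cmp (σ : Equiv.Perm V) (F : PiLp 2 (fun _ : V => E)) :
    2 * (⟪cmp σ F, F⟫_ℂ).re = 2 * ‖F‖ ^ 2 - ‖cmp σ F - F‖ ^ 2 := by
  have h := @norm_sub_sq ℂ _ _ _ _ (cmp σ F) F
  rw [norm_cmp] at h
  have h1 : RCLike.re ⟪cmp σ F, F⟫_ℂ = (⟪cmp σ F, F⟫_ℂ).re := rfl
  rw [h1] at h
  linarith

lemma re_inner_cmp_inv (σ : Equiv.Perm V) (F : PiLp 2 (fun _ : V => E)) :
    (⟪cmp σ⁻¹ F, F⟫_ℂ).re = (⟪cmp σ F, F⟫_ℂ).re := by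
  rw [inner_cmp, inv_inv, ← inner_conj_symm, Complex.conj_re]

lemma re_inner_cmp_abs (σ : Equiv.Perm V) (F : PiLp 2 (fun _ : V => E)) :
    -‖F‖ ^ 2 ≤ (⟪cmp σ F, F⟫_ℂ).re := by
  have h := norm_inner_le_norm (𝕜 := ℂ) (cmp σ F) F
  rw [norm_cmp] at h
  have h1 := Complex.abs_re_le_norm ⟪cmp σ F, F⟫_ℂ
  have h2 := neg_abs_le (⟪cmp σ F, F⟫_ℂ).re
  nlinarith

/-- the averaging operator -/
noncomputable def PP (S : Fin 4 → Equiv.Perm V) :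
    PiLp 2 (fun _ : V => E) →ₗ[ℂ] PiLp 2 (fun _ : V => E) :=
  (16 : ℂ)⁻¹ • ((8 : ℂ) • LinearMap.id + ∑ j, (cmp (S j) + cmp (S j)⁻¹))

lemma PP_apply (S : Fin 4 → Equiv.Perm V) (F : PiLp 2 (fun _ : V => E)) :
    PP S F = (16 : ℂ)⁻¹ • ((8 : ℂ) • F + ∑ j, (cmp (S j) F + cmp (S j)⁻¹ F)) := by
  simp [PP]

lemma PP_symm (S : Fin 4 → Equiv.Perm V) (F G : PiLp 2 (fun _ : V => E)) :
    ⟪PP S F, G⟫_ℂ = ⟪F, PP S G⟫_ℂ := by
  rw [PP_apply, PP_apply, inner_smul_left, inner_smul_right, inner_add_left, inner_add_right,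
    inner_smul_left, inner_smul_right, sum_inner, inner_sum]
  have h16 : (starRingEnd ℂ) (16 : ℂ)⁻¹ = (16 : ℂ)⁻¹ := by
    rw [map_inv₀]; norm_num [Complex.ext_iff]
  have h8 : (starRingEnd ℂ) (8 : ℂ) = 8 := by norm_num [Complex.ext_iff]
  rw [h16, h8]
  congr 2
  apply Finset.sum_congr rfl
  intro j _
  rw [inner_add_left, inner_add_right, inner_cmp, inner_cmp, inv_inv, add_comm]

lemma PP_re (S : Fin 4 → Equiv.Perm V) (F : PiLp 2 (fun _ : V => E)) :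
    (⟪PP S F, F⟫_ℂ).re = 16⁻¹ * (8 * ‖F‖ ^ 2 + ∑ j, 2 * (⟪cmp (S j) F, F⟫_ℂ).re) := by
  have h16 : (starRingEnd ℂ) (16 : ℂ)⁻¹ = ((16⁻¹ : ℝ) : ℂ) := by
    rw [map_inv₀]; norm_num [Complex.ext_iff]
  have h8 : (starRingEnd ℂ) (8 : ℂ) = ((8 : ℝ) : ℂ) := by norm_num [Complex.ext_iff]
  rw [PP_apply, inner_smul_left, inner_add_left, inner_smul_left, sum_inner, h16, h8,
    Complex.re_ofReal_mul, Complex.add_re, Complex.re_ofReal_mul, Complex.re_sum]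
  have hF : (⟪F, F⟫_ℂ).re = ‖F‖ ^ 2 := by
    have := inner_self_eq_norm_sq (𝕜 := ℂ) F
    exact this
  rw [hF]
  congr 2
  apply Finset.sum_congr rfl
  intro j _
  rw [inner_add_left, Complex.add_re, re_inner_cmp_inv, two_mul]

/-- functions with sum zero -/
def Z0 (V E : Type) [Fintype V] [NormedAddCommGroup E] [InnerProductSpace ℂ E] :
    Submodule ℂ (PiLp 2 (fun _ : V => E)) where
  carrier := {F | ∑ v, F v = 0}
  add_mem' := by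
    intro F G hF hG
    have h1 : ∑ v, F v = 0 := hF
    have h2 : ∑ v, G v = 0 := hG
    show ∑ v, (F + G) v = 0
    have : ∑ v, (F + G) v = ∑ v, (F v + G v) := rfl
    rw [this, Finset.sum_add_distrib, h1, h2, add_zero]
  zero_mem' := by
    show ∑ v, (0 : PiLp 2 (fun _ : V => E)) v = 0
    simp
  smul_mem' := by
    intro c F hF
    have h1 : ∑ v, F v = 0 := hF
    show ∑ v, (c • F) v = 0
    have : ∑ v, (c • F) v = ∑ v, c • F v := rfl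
    rw [this, ← Finset.smul_sum, h1, smul_zero]

lemma mem_Z0 (F : PiLp 2 (fun _ : V => E)) : F ∈ Z0 V E ↔ ∑ v, F v = 0 := Iff.rfl

lemma cmp_mem (σ : Equiv.Perm V) {F : PiLp 2 (fun _ : V => E)} (hF : F ∈ Z0 V E) :
    cmp σ F ∈ Z0 V E := by
  rw [mem_Z0] at hF ⊢
  exact (Equiv.sum_comp σ (fun v => F v)).trans hF

lemma PP_mem (S : Fin 4 → Equiv.Perm V) {F : PiLp 2 (fun _ : V => E)} (hF : F ∈ Z0 V E) :
    PP S F ∈ Z0 V E := by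
  rw [PP_apply]
  exact Submodule.smul_mem _ _ (Submodule.add_mem _ (Submodule.smul_mem _ _ hF)
    (Submodule.sum_mem _ fun j _ => Submodule.add_mem _ (cmp_mem _ hF) (cmp_mem _ hF)))

/-- restriction to the functions with sum zero -/
noncomputable def TT (S : Fin 4 → Equiv.Perm V) : Z0 V E →ₗ[ℂ] Z0 V E :=
  (PP S).restrict fun _ hx => PP_mem S hx

lemma TT_coe (S : Fin 4 → Equiv.Perm V) (x : Z0 V E) :
    ((TT S x : Z0 V E) : PiLp 2 (fun _ : V => E)) = PP S (x : PiLp 2 (fun _ : V => E)) := rfl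

lemma TT_inner (S : Fin 4 → Equiv.Perm V) (x y : Z0 V E) :
    ⟪TT S x, y⟫_ℂ = ⟪PP S (x : PiLp 2 (fun _ : V => E)), (y : PiLp 2 (fun _ : V => E))⟫_ℂ := by
  rw [Submodule.coe_inner, TT_coe]

lemma TT_symm (S : Fin 4 → Equiv.Perm V) (x y : Z0 V E) : ⟪TT S x, y⟫_ℂ = ⟪x, TT S y⟫_ℂ := by
  rw [TT_inner, Submodule.coe_inner, TT_coe]
  exact PP_symm S _ _

lemma TT_nonneg (S : Fin 4 → Equiv.Perm V) (x : Z0 V E) : 0 ≤ (⟪TT S x, x⟫_ℂ).re := by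
  rw [TT_inner, PP_re, Fin.sum_univ_four]
  have h2 := fun j => re_inner_cmp_abs (S j) (x : PiLp 2 (fun _ : V => E))
  have h3 := h2 0
  have h4 := h2 1
  have h5 := h2 2
  have h6 := h2 3
  linarith

lemma TT_le (S : Fin 4 → Equiv.Perm V)
    (hgap : ∀ F : PiLp 2 (fun _ : V => E), ∑ v, F v = 0 →
      ‖F‖ ^ 2 ≤ 400 * ∑ j, ‖cmp (S j) F - F‖ ^ 2) (x : Z0 V E) :
    (⟪TT S x, x⟫_ℂ).re ≤ (1 - 1 / 6400) * ‖x‖ ^ 2 := by
  have h7 := hgap x x.2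
  rw [TT_inner, PP_re]
  simp only [re_inner_cmp]
  rw [Finset.sum_sub_distrib, Finset.sum_const, Finset.card_univ, Fintype.card_fin]
  have h8 : ‖x‖ = ‖(x : PiLp 2 (fun _ : V => E))‖ := rfl
  rw [h8, nsmul_eq_mul]
  push_cast
  linarith

lemma PP_norm (hPSD : S_PSD) (S : Fin 4 → Equiv.Perm V)
    (hgap : ∀ F : PiLp 2 (fun _ : V => E), ∑ v, F v = 0 →
      ‖F‖ ^ 2 ≤ 400 * ∑ j, ‖cmp (S j) F - F‖ ^ 2)
    (F : PiLp 2 (fun _ : V => E)) (hF : ∑ v, F v = 0) :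
    ‖PP S F‖ ≤ (1 - 1 / 6400) * ‖F‖ :=
  hPSD (Z0 V E) (TT S) (1 - 1 / 6400) (TT_symm S) (TT_nonneg S) (TT_le S hgap) ⟨F, hF⟩

end GRAPHh

open GRAPHh in
theorem p_GRAPH (hCEXP : S_CEXP) (hPSD : S_PSD) : S_GRAPH := by
  refine ⟨8 + (4 + 4), 1 - 1 / 6400, by norm_num, by norm_num, by norm_num, ?_⟩
  intro m _
  set S : Fin 4 → Equiv.Perm (ZMod m × ZMod m) :=
    ![⟨fun v => (v.1 + 1, v.2), fun v => (v.1 - 1, v.2), fun v => by simp, fun v => by simp⟩,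
      ⟨fun v => (v.1, v.2 + 1), fun v => (v.1, v.2 - 1), fun v => by simp, fun v => by simp⟩,
      ⟨fun v => (v.1, v.2 + v.1), fun v => (v.1, v.2 - v.1), fun v => by simp, fun v => by simp⟩,
      ⟨fun v => (v.1 + v.2, v.2), fun v => (v.1 - v.2, v.2), fun v => by simp, fun v => by simp⟩]
    with hS
  set τ : Fin 8 ⊕ (Fin 4 ⊕ Fin 4) → Equiv.Perm (ZMod m × ZMod m) :=
    Sum.elim (fun _ => 1) (Sum.elim S fun j => (S j)⁻¹) with hτ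
  set e : Fin 8 ⊕ (Fin 4 ⊕ Fin 4) ≃ Fin (8 + (4 + 4)) :=
    (Equiv.sumCongr (Equiv.refl _) finSumFinEquiv).trans finSumFinEquiv with he
  refine ⟨fun i => τ (e.symm i), ?_⟩
  intro E _ _ F hF
  set G : PiLp 2 (fun _ : ZMod m × ZMod m => E) := WithLp.toLp 2 F with hG
  have hgap : ∀ F : PiLp 2 (fun _ : ZMod m × ZMod m => E), ∑ v, F v = 0 →
      ‖F‖ ^ 2 ≤ 400 * ∑ j, ‖cmp (S j) F - F‖ ^ 2 := by
    intro F hF
    have h := hCEXP E m (fun v => F v) hF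
    rw [Fin.sum_univ_four, PiLp.norm_sq_eq_of_L2, PiLp.norm_sq_eq_of_L2, PiLp.norm_sq_eq_of_L2,
      PiLp.norm_sq_eq_of_L2, PiLp.norm_sq_eq_of_L2]
    exact h
  have h1 := PP_norm hPSD S hgap G hF
  have h2 : ∀ v, ((8 + (4 + 4) : ℕ) : ℂ)⁻¹ • ∑ i, F (τ (e.symm i) v) = PP S G v := by
    intro v
    rw [Equiv.sum_comp e.symm (fun s => F (τ s v)), Fintype.sum_sum_type, Fintype.sum_sum_type,
      PP_apply]
    have h3 : ((16 : ℂ)⁻¹ • ((8 : ℂ) • G + ∑ j, (cmp (S j) G + cmp (S j)⁻¹ G))) v =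
        (16 : ℂ)⁻¹ • ((8 : ℂ) • G v + (∑ j, (cmp (S j) G + cmp (S j)⁻¹ G)) v) := rfl
    have h4 : (∑ j, (cmp (S j) G + cmp (S j)⁻¹ G)) v =
        ∑ j, (F (S j v) + F ((S j)⁻¹ v)) := by
      rw [Fin.sum_univ_four, Fin.sum_univ_four]
      rfl
    rw [h3, h4, Finset.sum_add_distrib]
    have h5 : ∑ _a : Fin 8, F v = (8 : ℂ) • G v := by
      rw [Finset.sum_const, Finset.card_univ, Fintype.card_fin]
      have h6 : G v = F v := rfl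
      rw [h6, ← Nat.cast_smul_eq_nsmul ℂ]
      norm_num
    have h6 : ((8 + (4 + 4) : ℕ) : ℂ) = 16 := by norm_num
    rw [h6, ← h5]
    rfl
  have h3 : ∑ v, ‖((8 + (4 + 4) : ℕ) : ℂ)⁻¹ • ∑ i, F (τ (e.symm i) v)‖ ^ 2 = ‖PP S G‖ ^ 2 := by
    rw [PiLp.norm_sq_eq_of_L2]
    exact Finset.sum_congr rfl fun v _ => by rw [h2 v]
  have h4 : ∑ v, ‖F v‖ ^ 2 = ‖G‖ ^ 2 := by
    rw [PiLp.norm_sq_eq_of_L2]
  rw [h3, h4, ← mul_pow]
  exact pow_le_pow_left₀ (norm_nonneg _) h1 2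

end Pool.Agent.H518R4.UG
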