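import Pool.Agent.H518R4.UG.Stubs

set_option autoImplicit false

namespace Pool.Agent.H518R4.UG

open Pool.Agent.H467F

theorem GROUP_aux (t : ℕ → ℝ) (ρ θ : ℝ) (hρ : 0 ≤ ρ) (hθ : 0 ≤ θ) (ht : ∀ j, 0 ≤ t j)
    (htρ : ∀ j, t j ≤ ρ) (m : ℕ) :
    (∑ j ∈ Finset.range m, if ∑ i ∈ Finset.range j, t i < θ then t j else 0)
        ≤ ∑ i ∈ Finset.range m, t i ∧
    (∑ j ∈ Finset.range m, if ∑ i ∈ Finset.range j, t i < θ then t j else 0) ≤ θ + ρ ∧
    min (∑ i ∈ Finset.range m, t i) θ ≤
      (∑ j ∈ Finset.range m, if ∑ i ∈ Finset.range j, t i < θ then t j else 0) := by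
  induction m with
  | zero =>
    simp only [Finset.range_zero, Finset.sum_empty]
    exact ⟨le_refl _, by linarith, min_le_left _ _⟩
  | succ m ih =>
    obtain ⟨h1, h2, h3⟩ := ih
    rw [Finset.sum_range_succ, Finset.sum_range_succ]
    by_cases h : ∑ i ∈ Finset.range m, t i < θ
    · rw [if_pos h]
      rw [min_eq_left h.le] at h3
      refine ⟨by linarith, ?_, ?_⟩
      · have := htρ m
        linarith
      · exact (min_le_left _ _).trans (by linarith)
    · rw [if_neg h, add_zero]
      rw [min_eq_right (not_lt.mp h)] at h3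
      refine ⟨?_, h2, ?_⟩
      · have := ht m
        linarith
      · exact (min_le_right _ _).trans h3

theorem p_GROUP : S_GROUP := by
  intro M r t ρ hr hρ ht hsum htρ
  obtain ⟨t', ht'⟩ : ∃ t' : ℕ → ℝ, ∀ i, t' i = if h : i < M then t ⟨i, h⟩ else 0 := ⟨_, fun _ => rfl⟩
  have ht'f : ∀ j : Fin M, t' j = t j := by
    intro j
    rw [ht', dif_pos j.2]
  have ht'0 : ∀ i, 0 ≤ t' i := by
    intro i
    rw [ht']
    split_ifs
    · exact ht _
    · exact le_refl _
  have ht'ρ : ∀ i, t' i ≤ ρ := by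
    intro i
    rw [ht']
    split_ifs
    · exact htρ _
    · exact hρ
  have hCM : ∑ i ∈ Finset.range M, t' i = 1 := by
    rw [Finset.sum_range]
    simp only [ht'f]
    exact hsum
  have hr' : (0 : ℝ) < r := by exact_mod_cast hr
  set C : ℕ → ℝ := fun m => ∑ i ∈ Finset.range m, t' i with hC
  have hC0 : ∀ m, 0 ≤ C m := fun m => Finset.sum_nonneg fun i _ => ht'0 i
  set cn : ℕ → ℕ := fun j => min ⌊(r : ℝ) * C j⌋₊ (r - 1) with hcn
  have hcnr : ∀ j, cn j < r := fun j => lt_of_le_of_lt (min_le_right _ _) (by omega)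
  have hU : ∀ s : ℕ, s ≤ r →
      (s : ℝ) / r ≤ (∑ j ∈ Finset.range M, if cn j < s then t' j else 0) ∧
      (∑ j ∈ Finset.range M, if cn j < s then t' j else 0) ≤ (s : ℝ) / r + ρ := by
    intro s hs
    rcases Nat.lt_or_ge s r with hlt | hge
    · have heq : ∀ j ∈ Finset.range M, (if cn j < s then t' j else 0) =
          if ∑ i ∈ Finset.range j, t' i < (s : ℝ) / r then t' j else 0 := by
        intro j _
        have hiff : cn j < s ↔ ∑ i ∈ Finset.range j, t' i < (s : ℝ) / r := by
          rw [lt_div_iff₀ hr', mul_comm]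
          change min ⌊(r : ℝ) * C j⌋₊ (r - 1) < s ↔ (r : ℝ) * C j < s
          rw [min_lt_iff]
          constructor
          · rintro (h | h)
            · exact (Nat.floor_lt (mul_nonneg hr'.le (hC0 j))).mp h
            · omega
          · intro h
            exact Or.inl ((Nat.floor_lt (mul_nonneg hr'.le (hC0 j))).mpr h)
        by_cases h : cn j < s
        · rw [if_pos h, if_pos (hiff.mp h)]
        · rw [if_neg h, if_neg (fun h' => h (hiff.mpr h'))]
      rw [Finset.sum_congr rfl heq]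
      have hθ : (0 : ℝ) ≤ (s : ℝ) / r := by positivity
      have hθ1 : (s : ℝ) / r ≤ 1 := by
        rw [div_le_one hr']
        exact_mod_cast hs
      obtain ⟨_, h2, h3⟩ := GROUP_aux t' ρ ((s : ℝ) / r) hρ hθ ht'0 ht'ρ M
      rw [hCM, min_eq_right hθ1] at h3
      exact ⟨h3, h2⟩
    · have hsr : s = r := le_antisymm hs hge
      have heq : ∀ j ∈ Finset.range M, (if cn j < s then t' j else 0) = t' j := by
        intro j _
        rw [hsr, if_pos (hcnr j)]
      rw [Finset.sum_congr rfl heq, hCM, hsr, div_self hr'.ne']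
      exact ⟨le_refl _, by linarith⟩
  refine ⟨fun j => ⟨cn j, hcnr j⟩, ?_⟩
  intro s
  have h1 : (∑ j : Fin M, if (⟨cn j, hcnr j⟩ : Fin r) = s then t j else 0) =
      ∑ j ∈ Finset.range M, ((if cn j < s + 1 then t' j else 0) - if cn j < s then t' j else 0) := by
    rw [Finset.sum_range]
    refine Finset.sum_congr rfl fun j _ => ?_
    rw [ht'f]
    by_cases h : (⟨cn j, hcnr j⟩ : Fin r) = s
    · have h' : cn j = s := congrArg Fin.val h
      rw [if_pos h, if_pos (by omega), if_neg (by omega), sub_zero]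
    · have h' : cn j ≠ s := fun h'' => h (Fin.ext h'')
      rw [if_neg h]
      by_cases h2 : cn j < (s : ℕ)
      · rw [if_pos h2, if_pos (by omega), sub_self]
      · rw [if_neg h2, if_neg (by omega), sub_self]
  rw [h1, Finset.sum_sub_distrib]
  obtain ⟨a1, a2⟩ := hU (s + 1) s.2
  obtain ⟨b1, b2⟩ := hU s s.2.le
  have e : ((s + 1 : ℕ) : ℝ) / r = (s : ℕ) / r + 1 / r := by
    push_cast
    ring
  rw [e] at a1 a2
  rw [abs_le]
  constructor
  · linarith
  · linarith

end Pool.Agent.H518R4.UG
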