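import Pool.Agent.H518R4.UG.Stubs
import Pool.Agent.Helper467.FP.P_n2_mul_le
import Pool.Agent.Helper467.FP.P_tau_bounds

set_option autoImplicit false

open scoped ComplexOrder Topology
open Filter

noncomputable section

namespace Pool.Agent.H518R4.UG

open Pool.Agent.H467F

section halve

variable {A : Type} [CStarAlgebra A]

private lemma HV_norm {q : A} (hq : IsPrj q) : ‖q‖ ≤ 1 := by
  have h := CStarRing.norm_star_mul_self (x := q)
  rw [hq.1, hq.2] at h
  by_contra hc
  push Not at hc
  nlinarith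

private lemma HV_tau {τ : A →ₗ[ℂ] ℂ} (h : TW τ) {q : A} (hq : IsPrj q) :
    (τ q).re = n2 τ q ^ 2 := by
  rw [h.n2_sq, hq.1, hq.2]

private lemma HV_tau0 {τ : A →ₗ[ℂ] ℂ} (h : TW τ) {q : A} (hq : IsPrj q) : 0 ≤ (τ q).re := by
  rw [HV_tau h hq]; positivity

private lemma HV_flip {p q : A} (hp : IsPrj p) (hq : IsPrj q) (hpq : p * q = q) : q * p = q := by
  have := congrArg star hpq
  rwa [star_mul, hp.1, hq.1] at this

private lemma HV_sub {p q : A} (hp : IsPrj p) (hq : IsPrj q) (hpq : p * q = q) :
    IsPrj (p - q) := by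
  refine ⟨by rw [star_sub, hp.1, hq.1], ?_⟩
  rw [sub_mul, mul_sub, mul_sub, hp.2, hq.2, hpq, HV_flip hp hq hpq]
  abel

private lemma HV_one : IsPrj (1 : A) := ⟨star_one _, one_mul _⟩

private lemma HV_mono {τ : A →ₗ[ℂ] ℂ} (h : TW τ) {p q : A} (hp : IsPrj p) (hq : IsPrj q)
    (hpq : p * q = q) : (τ q).re ≤ (τ p).re := by
  have h1 := HV_tau0 h (HV_sub hp hq hpq)
  rw [map_sub, Complex.sub_re] at h1
  linarith

private lemma HV_le1 {τ : A →ₗ[ℂ] ℂ} (h : TW τ) {q : A} (hq : IsPrj q) : (τ q).re ≤ 1 := by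
  have h1 := HV_mono h HV_one hq (one_mul q)
  rwa [h.one, Complex.one_re] at h1

/-- orthogonality -/
private lemma HV_pyth {τ : A →ₗ[ℂ] ℂ} (h : TW τ) {p : A} (hp : IsPrj p) {X Y : A}
    (hX : p * X * p = 0) (hY : p * Y * p = Y) : n2 τ (X + Y) ^ 2 = n2 τ X ^ 2 + n2 τ Y ^ 2 := by
  have h1 : τ (star X * Y) = 0 := by
    have e1 : star X * Y = (star X * (p * Y)) * p := by
      conv_lhs => rw [← hY]
      simp only [mul_assoc]
    have e2 : p * (star X * (p * Y)) = star (p * X * p) * Y := by
      rw [star_mul, star_mul, hp.1]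
      simp only [mul_assoc]
    rw [e1, h.comm, e2, hX, star_zero, zero_mul, map_zero]
  have h2 : τ (star Y * X) = 0 := by
    have e1 : star Y * X = p * (star Y * (p * X)) := by
      conv_lhs => rw [← hY]
      rw [star_mul, star_mul, hp.1]
      simp only [mul_assoc]
    have e2 : (star Y * (p * X)) * p = star Y * (p * X * p) := by
      simp only [mul_assoc]
    rw [e1, h.comm, e2, hX, mul_zero, map_zero]
  rw [h.n2_sq, h.n2_sq, h.n2_sq]
  have e : star (X + Y) * (X + Y) = star X * X + star Y * Y + (star X * Y + star Y * X) := by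
    rw [star_add]; noncomm_ring
  rw [e, map_add, map_add, map_add, h1, h2, add_zero, add_zero, Complex.add_re]

section seq

variable {e q : ℕ → A} {n : ℕ} (h0 : IsPrj (e 0)) (hs : ∀ m, e (m + 1) = e m - q m)
  (hq : ∀ m < n, IsPrj (q m) ∧ e m * q m = q m)

include h0 hs hq

private lemma HV_prj : ∀ m ≤ n, IsPrj (e m) := by
  intro m
  induction m with
  | zero => intro _; exact h0
  | succ m ih =>
    intro hm
    rw [hs m]
    exact HV_sub (ih (by omega)) (hq m (by omega)).1 (hq m (by omega)).2

private lemma HV_le : ∀ m ≤ n, ∀ i ≤ m, e i * e m = e m := by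
  intro m
  induction m with
  | zero =>
    intro _ i hi
    obtain rfl : i = 0 := by omega
    exact h0.2
  | succ m ih =>
    intro hm i hi
    rcases Nat.lt_or_ge i (m + 1) with h1 | h1
    · have h2 := ih (by omega) i (by omega)
      have h3 := (hq m (by omega)).2
      rw [hs m, mul_sub, h2]
      congr 1
      rw [← h3, ← mul_assoc, h2]
    · obtain rfl : i = m + 1 := by omega
      exact (HV_prj h0 hs hq (m + 1) hm).2

private lemma HV_qe {i m : ℕ} (him : i < m) (hm : m ≤ n) : q i * e m = 0 := by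
  have h1 := HV_le h0 hs hq m hm (i + 1) (by omega)
  have h2 := hq i (by omega)
  have h3 := HV_flip (HV_prj h0 hs hq i (by omega)) h2.1 h2.2
  rw [← h1, ← mul_assoc, hs i, mul_sub, h3, h2.1.2, sub_self, zero_mul]

private lemma HV_eq {i m : ℕ} (him : i < m) (hm : m ≤ n) : e m * q i = 0 := by
  have h1 := congrArg star (HV_qe h0 hs hq him hm)
  rwa [star_mul, (HV_prj h0 hs hq m hm).1, (hq i (by omega)).1.1, star_zero] at h1

private lemma HV_qq {i j : ℕ} (hij : i < j) (hj : j < n) : q i * q j = 0 := by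
  rw [← (hq j hj).2, ← mul_assoc, HV_qe h0 hs hq hij (by omega), zero_mul]

private lemma HV_qq' {i j : ℕ} (hij : i < j) (hj : j < n) : q j * q i = 0 := by
  have h1 := congrArg star (HV_qq h0 hs hq hij hj)
  rwa [star_mul, (hq j hj).1.1, (hq i (by omega)).1.1, star_zero] at h1

omit h0 hq in
private lemma HV_sum (m : ℕ) : ∑ j ∈ Finset.range m, q j + e m = e 0 := by
  induction m with
  | zero => simp
  | succ m ih =>
    rw [Finset.sum_range_succ, hs m, ← ih]
    abel

private lemma HV_energy {τ : A →ₗ[ℂ] ℂ} (h : TW τ) (f : A) : ∀ m ≤ n,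
    n2 τ (e 0 * f * e 0 - (∑ j ∈ Finset.range m, q j * f * q j + e m * f * e m)) ^ 2 =
      ∑ j ∈ Finset.range m,
        n2 τ (e j * f * e j - (q j * f * q j + (e j - q j) * f * (e j - q j))) ^ 2 := by
  intro m
  induction m with
  | zero =>
    intro _
    simp [n2_zero]
  | succ m ih =>
    intro hm
    have hm' : m < n := by omega
    have hp := HV_prj h0 hs hq m (by omega)
    have hp1 := HV_prj h0 hs hq (m + 1) hm
    have a1 := (hq m hm').2
    have a2 := HV_flip hp (hq m hm').1 a1
    have b1 := HV_le h0 hs hq (m + 1) hm m (by omega)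
    have b2 := HV_flip hp hp1 b1
    have c1 := HV_le h0 hs hq m (by omega) 0 (by omega)
    have c2 := HV_flip h0 hp c1
    rw [Finset.sum_range_succ, Finset.sum_range_succ, ← ih (by omega), ← hs m]
    have e1 : e 0 * f * e 0 - (∑ j ∈ Finset.range m, q j * f * q j + q m * f * q m +
        e (m + 1) * f * e (m + 1)) =
        (e 0 * f * e 0 - (∑ j ∈ Finset.range m, q j * f * q j + e m * f * e m)) +
        (e m * f * e m - (q m * f * q m + e (m + 1) * f * e (m + 1))) := by abel
    rw [e1]
    apply HV_pyth h hp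
    · have e2 : e m * (∑ j ∈ Finset.range m, q j * f * q j) * e m = 0 := by
        rw [Finset.mul_sum, Finset.sum_mul]
        apply Finset.sum_eq_zero
        intro j hj
        rw [Finset.mem_range] at hj
        rw [← mul_assoc, ← mul_assoc, HV_eq h0 hs hq hj (by omega), zero_mul, zero_mul, zero_mul]
      have e3 : e m * (e 0 * f * e 0) * e m = e m * f * e m := by
        calc e m * (e 0 * f * e 0) * e m = (e m * e 0) * f * (e 0 * e m) := by
              simp only [mul_assoc]
          _ = _ := by rw [c1, c2]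
      have e4 : e m * (e m * f * e m) * e m = e m * f * e m := by
        calc e m * (e m * f * e m) * e m = (e m * e m) * f * (e m * e m) := by
              simp only [mul_assoc]
          _ = _ := by rw [hp.2]
      rw [mul_sub, mul_add, sub_mul, add_mul, e2, e3, e4, zero_add, sub_self]
    · have e2 : e m * (e m * f * e m) * e m = e m * f * e m := by
        calc e m * (e m * f * e m) * e m = (e m * e m) * f * (e m * e m) := by
              simp only [mul_assoc]
          _ = _ := by rw [hp.2]
      have e3 : e m * (q m * f * q m) * e m = q m * f * q m := by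
        calc e m * (q m * f * q m) * e m = (e m * q m) * f * (q m * e m) := by
              simp only [mul_assoc]
          _ = _ := by rw [a1, a2]
      have e4 : e m * (e (m + 1) * f * e (m + 1)) * e m = e (m + 1) * f * e (m + 1) := by
        calc e m * (e (m + 1) * f * e (m + 1)) * e m =
            (e m * e (m + 1)) * f * (e (m + 1) * e m) := by
              simp only [mul_assoc]
          _ = _ := by rw [b1, b2]
      rw [mul_sub, mul_add, sub_mul, add_mul, e2, e3, e4]

/-- the partition -/
private lemma HV_part : IsPart (fun j : Fin (n + 1) => if (j : ℕ) < n then q j else e n) (e 0) := by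
  refine ⟨?_, ?_, ?_⟩
  · intro j
    split_ifs with hj
    · exact (hq j hj).1
    · exact HV_prj h0 hs hq n le_rfl
  · intro i j hij
    have hne : (i : ℕ) ≠ j := fun hh => hij (Fin.ext hh)
    split_ifs with hi hj hj
    · rcases Nat.lt_or_ge i j with h1 | h1
      · exact HV_qq h0 hs hq h1 hj
      · exact HV_qq' h0 hs hq (by omega) hi
    · exact HV_qe h0 hs hq hi le_rfl
    · exact HV_eq h0 hs hq hj le_rfl
    · omega
  · rw [Fin.sum_univ_castSucc]
    simp only [Fin.val_castSucc, Fin.is_lt, if_true, Fin.val_last, lt_irrefl, if_false]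
    rw [← HV_sum hs n, Finset.sum_range]

omit h0 hs hq in
private lemma HV_pin (f : A) : pin (fun j : Fin (n + 1) => if (j : ℕ) < n then q j else e n) f =
    ∑ j ∈ Finset.range n, q j * f * q j + e n * f * e n := by
  unfold pin
  rw [Fin.sum_univ_castSucc]
  simp only [Fin.val_castSucc, Fin.is_lt, if_true, Fin.val_last, lt_irrefl, if_false]
  rw [Finset.sum_range]

end seq

/-- the energy of the cut of `p` by `q` -/
private def HV_E {n : ℕ} (τ : A →ₗ[ℂ] ℂ) (F : Fin n → A) (p q : A) : ℝ :=
  ∑ i, n2 τ (p * F i * p - (q * F i * q + (p - q) * F i * (p - q))) ^ 2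

/-- admissible cuts -/
private def HV_A {n : ℕ} (τ : A →ₗ[ℂ] ℂ) (F : Fin n → A) (ε : ℝ) (p q : A) : Prop :=
  IsPrj q ∧ p * q = q ∧ 0 < (τ q).re ∧ (τ q).re ≤ (τ p).re / 2 ∧ HV_E τ F p q ≤ ε * (τ q).re

private lemma HV_best {n : ℕ} {τ : A →ₗ[ℂ] ℂ} {F : Fin n → A} {ε : ℝ} {p : A}
    (h : ∃ q, HV_A τ F ε p q) : ∃ q, HV_A τ F ε p q ∧ ∀ q', HV_A τ F ε p q' →
      (τ q').re ≤ 2 * (τ q).re := by
  set S : Set ℝ := {x | ∃ q, HV_A τ F ε p q ∧ (τ q).re = x} with hS
  have hne : S.Nonempty := by
    obtain ⟨q, hq⟩ := h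
    exact ⟨_, q, hq, rfl⟩
  have hbd : BddAbove S := ⟨(τ p).re / 2, by
    rintro x ⟨q, hq, rfl⟩
    exact hq.2.2.2.1⟩
  have hpos : 0 < sSup S := by
    obtain ⟨q, hq⟩ := h
    exact lt_of_lt_of_le hq.2.2.1 (le_csSup hbd ⟨q, hq, rfl⟩)
  obtain ⟨x, ⟨q, hq, rfl⟩, hx⟩ := exists_lt_of_lt_csSup hne (show sSup S / 2 < sSup S by linarith)
  refine ⟨q, hq, fun q' hq' => ?_⟩
  have := le_csSup hbd (show (τ q').re ∈ S from ⟨q', hq', rfl⟩)
  linarith

private lemma HV_cont {n : ℕ} {τ : A →ₗ[ℂ] ℂ} (h : TW τ) {F : Fin n → A} (hF : ∀ i, ‖F i‖ ≤ 1)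
    {e : ℕ → A} {e' q : A} (hq : IsPrj q)
    (hlim : Tendsto (fun m => n2 τ (e m - e')) atTop (𝓝 0)) :
    Tendsto (fun m => HV_E τ F (e m) q) atTop (𝓝 (HV_E τ F e' q)) := by
  unfold HV_E
  apply tendsto_finsetSum
  intro i _
  apply Tendsto.pow
  have hZ : ∀ p : A, p * F i * p - (q * F i * q + (p - q) * F i * (p - q)) =
      p * F i * q + q * F i * p - (q * F i * q + q * F i * q) := by
    intro p; noncomm_ring
  simp only [hZ]
  have hbound : ∀ m, |n2 τ (e m * F i * q + q * F i * e m - (q * F i * q + q * F i * q)) -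
      n2 τ (e' * F i * q + q * F i * e' - (q * F i * q + q * F i * q))| ≤ 2 * n2 τ (e m - e') := by
    intro m
    have hFq : ‖F i * q‖ ≤ 1 := by
      calc ‖F i * q‖ ≤ ‖F i‖ * ‖q‖ := norm_mul_le _ _
        _ ≤ 1 * 1 := mul_le_mul (hF i) (HV_norm hq) (norm_nonneg _) zero_le_one
        _ = 1 := one_mul _
    have hqF : ‖q * F i‖ ≤ 1 := by
      calc ‖q * F i‖ ≤ ‖q‖ * ‖F i‖ := norm_mul_le _ _
        _ ≤ 1 * 1 := mul_le_mul (HV_norm hq) (hF i) (norm_nonneg _) zero_le_one
        _ = 1 := one_mul _
    have hd : n2 τ ((e m - e') * (F i * q) + (q * F i) * (e m - e')) ≤ 2 * n2 τ (e m - e') := by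
      refine (h.n2_add_le _ _).trans ?_
      have h1 := (n2_mul_le h (F i * q) (e m - e')).2
      have h2 := (n2_mul_le h (q * F i) (e m - e')).1
      have h3 := n2_nonneg τ (e m - e')
      nlinarith
    have e1 : e m * F i * q + q * F i * e m - (q * F i * q + q * F i * q) =
        (e' * F i * q + q * F i * e' - (q * F i * q + q * F i * q)) +
        ((e m - e') * (F i * q) + (q * F i) * (e m - e')) := by noncomm_ring
    have e2 : e' * F i * q + q * F i * e' - (q * F i * q + q * F i * q) =
        (e m * F i * q + q * F i * e m - (q * F i * q + q * F i * q)) -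
        ((e m - e') * (F i * q) + (q * F i) * (e m - e')) := by noncomm_ring
    rw [abs_le]
    constructor
    · have := h.n2_sub_le (e m * F i * q + q * F i * e m - (q * F i * q + q * F i * q))
        ((e m - e') * (F i * q) + (q * F i) * (e m - e'))
      rw [← e2] at this
      linarith
    · have := h.n2_add_le (e' * F i * q + q * F i * e' - (q * F i * q + q * F i * q))
        ((e m - e') * (F i * q) + (q * F i) * (e m - e'))
      rw [← e1] at this
      linarith
  rw [tendsto_iff_norm_sub_tendsto_zero]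
  refine squeeze_zero (fun _ => norm_nonneg _) (fun m => ?_) (by simpa using hlim.const_mul 2)
  rw [Real.norm_eq_abs]
  exact hbound m

end halve

theorem p_HALVE (hPH : S_PHASE) (hL : S_LIMP) : S_HALVE := by
  intro n ρ ε hρ hε
  obtain ⟨k, c, hc, H⟩ := hPH n (ρ / 2) (ε / 2) (by linarith) (by linarith)
  refine ⟨k, c, hc, ?_⟩
  intro A _ τ hf hng F hF e hep hτe
  have h := hf.tw
  -- admissible cuts exist
  have hadm : ∀ p : A, IsPrj p → ρ / 2 ≤ (τ p).re → ∃ q, HV_A τ F ε p q := by
    intro p hp hτp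
    obtain ⟨q, h1, h2, h3, h4, h5⟩ := H A τ hf hng F hF p hp hτp
    refine ⟨q, h1, h2, h3, h4, ?_⟩
    unfold HV_E
    nlinarith
  classical
  let st : A → A := fun p => if hh : ∃ q, HV_A τ F ε p q then (HV_best hh).choose else 0
  have hst : ∀ p : A, IsPrj p → ρ / 2 ≤ (τ p).re → HV_A τ F ε p (st p) ∧
      ∀ q', HV_A τ F ε p q' → (τ q').re ≤ 2 * (τ (st p)).re := by
    intro p hp hτp
    have hh := hadm p hp hτp
    have : st p = (HV_best hh).choose := by
      simp only [st]
      rw [dif_pos hh]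
    rw [this]
    exact (HV_best hh).choose_spec
  let E : ℕ → A := fun m => Nat.rec e (fun _ p => p - st p) m
  have hE0 : E 0 = e := rfl
  have hEs : ∀ m, E (m + 1) = E m - st (E m) := fun m => rfl
  have h0 : IsPrj (E 0) := hep
  have hkey : ∀ N : ℕ, (∀ m < N, (τ e).re / 2 < (τ (E m)).re) →
      ∀ m < N, IsPrj (st (E m)) ∧ E m * st (E m) = st (E m) := by
    intro N hN m
    induction m using Nat.strong_induction_on with
    | _ m ih =>
      intro hm
      have h1 : ∀ i < m, IsPrj (st (E i)) ∧ E i * st (E i) = st (E i) :=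
        fun i hi => ih i hi (by omega)
      have h2 := HV_prj (q := fun m => st (E m)) h0 hEs h1 m le_rfl
      have h3 := hst (E m) h2 (by have := hN m hm; linarith)
      exact ⟨h3.1.1, h3.1.2.1⟩
  -- the process stops
  have hstop : ∃ m, (τ (E m)).re ≤ (τ e).re / 2 := by
    by_contra hcon
    push Not at hcon
    have hall : ∀ m, IsPrj (st (E m)) ∧ E m * st (E m) = st (E m) := fun m =>
      hkey (m + 1) (fun i _ => hcon i) m (by omega)
    have hprj : ∀ m, IsPrj (E m) := fun m =>
      HV_prj (q := fun m => st (E m)) (n := m) h0 hEs (fun i _ => hall i) m le_rfl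
    have hdec : ∀ m, E m * E (m + 1) = E (m + 1) := fun m =>
      HV_le (q := fun m => st (E m)) (n := m + 1) h0 hEs (fun i _ => hall i) (m + 1) le_rfl m
        (by omega)
    obtain ⟨e', he', hee', hlim⟩ := hL A τ h E hprj hdec
    have htau : Tendsto (fun m => (τ (E m)).re) atTop (𝓝 (τ e').re) := by
      rw [tendsto_iff_norm_sub_tendsto_zero]
      refine squeeze_zero (fun _ => norm_nonneg _) (fun m => ?_) hlim
      have h1 := (tau_bounds h).1 (E m - e')
      rw [← Complex.sub_re, ← map_sub]
      exact (Complex.abs_re_le_norm _).trans h1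
    have hτe' : (τ e).re / 2 ≤ (τ e').re :=
      ge_of_tendsto htau (Eventually.of_forall fun m => (hcon m).le)
    obtain ⟨q, q1, q2, q3, q4, q5⟩ := H A τ hf hng F hF e' he' (by linarith)
    have hEe : HV_E τ F e' q < ε * (τ q).re := by
      unfold HV_E
      nlinarith
    have hev : ∀ᶠ m in atTop, HV_E τ F (E m) q < ε * (τ q).re :=
      (HV_cont h hF q1 hlim).eventually_lt_const hEe
    have hdiff : Tendsto (fun m => (τ (E m)).re - (τ (E (m + 1))).re) atTop (𝓝 0) := by
      have := htau.sub ((tendsto_add_atTop_iff_nat 1).2 htau)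
      rwa [sub_self] at this
    have hev2 : ∀ᶠ m in atTop, (τ (E m)).re - (τ (E (m + 1))).re < (τ q).re / 2 :=
      hdiff.eventually_lt_const (by linarith)
    obtain ⟨m, hm1, hm2⟩ := (hev.and hev2).exists
    have hadmq : HV_A τ F ε (E m) q := by
      refine ⟨q1, ?_, q3, ?_, hm1.le⟩
      · rw [← q2, ← mul_assoc, hee' m]
      · have := HV_mono h (hprj m) he' (hee' m)
        linarith
    have h3 := (hst (E m) (hprj m) (by have := hcon m; linarith)).2 q hadmq
    rw [hEs m, map_sub, Complex.sub_re] at hm2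
    linarith
  -- first such `m`
  let N := Nat.find hstop
  have hN : (τ (E N)).re ≤ (τ e).re / 2 := Nat.find_spec hstop
  have hlt : ∀ m < N, (τ e).re / 2 < (τ (E m)).re := fun m hm => by
    have := Nat.find_min hstop hm
    push Not at this
    exact this
  have hq := hkey N hlt
  refine ⟨N + 1, fun j : Fin (N + 1) => if (j : ℕ) < N then st (E j) else E N, ?_, ?_, ?_⟩
  · exact HV_part (q := fun m => st (E m)) h0 hEs hq
  · intro j
    dsimp only
    split_ifs with hj
    · have hp := HV_prj (q := fun m => st (E m)) h0 hEs hq j hj.le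
      have h1 := hst (E j) hp (by have := hlt j hj; linarith)
      have h2 := h1.1.2.2.2.1
      have h3 := HV_mono h h0 hp (HV_le (q := fun m => st (E m)) h0 hEs hq j hj.le 0 (by omega))
      rw [hE0] at h3
      linarith
    · exact hN
  · have h1 : ∀ i, n2 τ (e * F i * e - pin (fun j : Fin (N + 1) => if (j : ℕ) < N then st (E j)
        else E N) (F i)) ^ 2 = ∑ j ∈ Finset.range N,
        n2 τ (E j * F i * E j - (st (E j) * F i * st (E j) +
          (E j - st (E j)) * F i * (E j - st (E j)))) ^ 2 := by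
      intro i
      rw [HV_pin (q := fun m => st (E m)) (e := E) (n := N) (F i)]
      exact HV_energy (q := fun m => st (E m)) h0 hEs hq h (F i) N le_rfl
    rw [Finset.sum_congr rfl fun i _ => h1 i, Finset.sum_comm]
    have h2 : ∀ j ∈ Finset.range N, ∑ i, n2 τ (E j * F i * E j - (st (E j) * F i * st (E j) +
          (E j - st (E j)) * F i * (E j - st (E j)))) ^ 2 ≤ ε * (τ (st (E j))).re := by
      intro j hj
      rw [Finset.mem_range] at hj
      have hp := HV_prj (q := fun m => st (E m)) h0 hEs hq j hj.le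
      exact (hst (E j) hp (by have := hlt j hj; linarith)).1.2.2.2.2
    refine (Finset.sum_le_sum h2).trans ?_
    rw [← Finset.mul_sum]
    have h3 : ∑ j ∈ Finset.range N, (τ (st (E j))).re ≤ 1 := by
      have h4 := HV_sum (q := fun m => st (E m)) hEs N
      have h5 := congrArg (fun x => (τ x).re) h4
      simp only [map_add, map_sum, Complex.add_re, Complex.re_sum] at h5
      have h6 := HV_tau0 h (HV_prj (q := fun m => st (E m)) h0 hEs hq N le_rfl)
      have h7 := HV_le1 h h0
      linarith
    calc ε * ∑ j ∈ Finset.range N, (τ (st (E j))).re ≤ ε * 1 :=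
          mul_le_mul_of_nonneg_left h3 hε.le
      _ = ε := mul_one ε

end Pool.Agent.H518R4.UG
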