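import Pool.Agent.H518R4.UG.Stubs

/-!
Task LIFT: elementary properties of `lift`, `dn`, `EM`.
-/

set_option autoImplicit false

open scoped ComplexOrder Topology InnerProductSpace
open Filter

noncomputable section

namespace Pool.Agent.H518R4.UG

open Pool.Agent.H467F

namespace LIFTaux

variable {A : Type} [CStarAlgebra A] {I : Type} [Fintype I] {v : I → A} {g : A}

theorem vg (h : IsMU v g) (i : I) : v i * g = v i := by
  classical
  have h1 : (∑ j, v j * star (v j)) * v i = v i := by rw [h.sum, one_mul]
  rw [Finset.sum_mul, Finset.sum_eq_single i] at h1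
  · rwa [mul_assoc, h.ini] at h1
  · intro j _ hj
    rw [mul_assoc, h.ort j i hj, mul_zero]
  · intro hi
    exact absurd (Finset.mem_univ i) hi

theorem sg [Nonempty I] (h : IsMU v g) : star g = g := by
  obtain ⟨i⟩ := ‹Nonempty I›
  rw [← h.ini i, star_mul, star_star]

theorem gg [Nonempty I] (h : IsMU v g) : g * g = g := by
  obtain ⟨i⟩ := ‹Nonempty I›
  nth_rewrite 1 [← h.ini i]
  rw [mul_assoc, vg h, h.ini]

theorem gs [Nonempty I] (h : IsMU v g) (i : I) : g * star (v i) = star (v i) := by
  have h1 := congrArg star (vg h i)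
  rwa [star_mul, sg h] at h1

theorem ng [Nonempty I] (h : IsMU v g) : ‖g‖ ≤ 1 := by
  have h1 : ‖star g * g‖ = ‖g‖ * ‖g‖ := CStarRing.norm_star_mul_self
  rw [sg h, gg h] at h1
  by_contra hc
  rw [not_le] at hc
  nlinarith

theorem nv [Nonempty I] (h : IsMU v g) (i : I) : ‖v i‖ ≤ 1 := by
  have h1 : ‖star (v i) * v i‖ = ‖v i‖ * ‖v i‖ := CStarRing.norm_star_mul_self
  rw [h.ini] at h1
  have h2 := ng h
  by_contra hc
  rw [not_le] at hc
  nlinarith

theorem card_pos' [Nonempty I] : (0 : ℝ) < Fintype.card I := by
  exact_mod_cast Fintype.card_pos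

theorem card_ne [Nonempty I] : (Fintype.card I : ℂ) ≠ 0 := by
  exact_mod_cast Fintype.card_ne_zero

/-- products of lifts -/
theorem lift_mul (h : IsMU v g) (a b : A) : lift v a * lift v b = lift v (a * g * b) := by
  classical
  unfold lift
  rw [Finset.sum_mul]
  refine Finset.sum_congr rfl fun i _ => ?_
  rw [Finset.mul_sum, Finset.sum_eq_single i]
  · rw [← h.ini i]
    simp only [mul_assoc]
  · intro j _ hj
    have := h.ort i j (Ne.symm hj)
    calc v i * a * star (v i) * (v j * b * star (v j)) =
          v i * a * (star (v i) * v j) * b * star (v j) := by simp only [mul_assoc]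
      _ = 0 := by rw [this]; simp
  · intro hi
    exact absurd (Finset.mem_univ i) hi

theorem star_lift (x : A) : star (lift v x) = lift v (star x) := by
  unfold lift
  rw [star_sum]
  refine Finset.sum_congr rfl fun i _ => ?_
  rw [star_mul, star_mul, star_star, mul_assoc]

theorem tau_lift {τ : A →ₗ[ℂ] ℂ} (hτ : TW τ) (h : IsMU v g) (z : A) :
    τ (lift v z) = Fintype.card I * τ (g * z) := by
  unfold lift
  rw [map_sum]
  have : ∀ i ∈ Finset.univ, τ (v i * z * star (v i)) = τ (g * z) := by
    intro i _
    rw [hτ.comm, ← mul_assoc, h.ini]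
  rw [Finset.sum_congr rfl this, Finset.sum_const, Finset.card_univ, nsmul_eq_mul]

theorem g_dn [Nonempty I] (h : IsMU v g) (x : A) : g * dn v x = dn v x := by
  unfold dn
  rw [mul_smul_comm, Finset.mul_sum]
  congr 1
  refine Finset.sum_congr rfl fun i _ => ?_
  rw [← mul_assoc, ← mul_assoc, gs h]

theorem dn_g (h : IsMU v g) (x : A) : dn v x * g = dn v x := by
  unfold dn
  rw [smul_mul_assoc, Finset.sum_mul]
  congr 1
  refine Finset.sum_congr rfl fun i _ => ?_
  rw [mul_assoc, vg h]

theorem dn_lift [Nonempty I] (h : IsMU v g) (x : A) (h1 : g * x = x) (h2 : x * g = x) :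
    dn v (lift v x) = x := by
  classical
  unfold dn
  have h3 : ∀ j ∈ Finset.univ, star (v j) * lift v x * v j = x := by
    intro j _
    unfold lift
    rw [Finset.mul_sum, Finset.sum_mul, Finset.sum_eq_single j]
    · calc star (v j) * (v j * x * star (v j)) * v j =
            (star (v j) * v j) * x * (star (v j) * v j) := by simp only [mul_assoc]
        _ = x := by rw [h.ini, h1, h2]
    · intro i _ hi
      calc star (v j) * (v i * x * star (v i)) * v j =
            (star (v j) * v i) * x * (star (v i) * v j) := by simp only [mul_assoc]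
        _ = 0 := by rw [h.ort i j hi]; simp
    · intro hj
      exact absurd (Finset.mem_univ j) hj
  rw [Finset.sum_congr rfl h3, Finset.sum_const, Finset.card_univ, ← Nat.cast_smul_eq_nsmul ℂ,
    smul_smul, inv_mul_cancel₀ card_ne, one_smul]

theorem n2_lift [Nonempty I] {τ : A →ₗ[ℂ] ℂ} (hτ : TW τ) (h : IsMU v g) (x : A) :
    n2 τ (lift v x) ^ 2 = Fintype.card I * n2 τ (g * x * g) ^ 2 := by
  rw [hτ.n2_sq, hτ.n2_sq, star_lift, lift_mul h, tau_lift hτ h]
  have h1 : τ (star (g * x * g) * (g * x * g)) = τ (g * (star x * g * x)) := by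
    have e1 : star (g * x * g) * (g * x * g) = g * (star x * g * x) * g := by
      rw [star_mul, star_mul, sg h]
      calc g * (star x * g) * (g * x * g) = g * (star x * (g * g) * x) * g := by
            simp only [mul_assoc]
        _ = _ := by rw [gg h]
    rw [e1, hτ.comm, ← mul_assoc, gg h]
  rw [h1]
  simp

theorem tau_EM [Nonempty I] {τ : A →ₗ[ℂ] ℂ} (hτ : TW τ) (h : IsMU v g) (x : A) :
    τ (EM v x) = τ x := by
  unfold EM
  rw [tau_lift hτ h, g_dn h]
  unfold dn
  rw [map_smul, map_sum, smul_eq_mul, ← mul_assoc, mul_inv_cancel₀ card_ne, one_mul]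
  have h1 : ∀ j ∈ Finset.univ, τ (star (v j) * x * v j) = τ (x * (v j * star (v j))) := by
    intro j _
    rw [mul_assoc, hτ.comm, mul_assoc]
  rw [Finset.sum_congr rfl h1, ← map_sum, ← Finset.mul_sum, h.sum, mul_one]

theorem comm_lift [Nonempty I] (h : IsMU v g) (z : A) (i j : I) :
    v i * star (v j) * lift v z = lift v z * (v i * star (v j)) := by
  classical
  have h1 : v i * star (v j) * lift v z = v i * z * star (v j) := by
    unfold lift
    rw [Finset.mul_sum, Finset.sum_eq_single j]
    · calc v i * star (v j) * (v j * z * star (v j)) =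
            v i * (star (v j) * v j) * z * star (v j) := by simp only [mul_assoc]
        _ = _ := by rw [h.ini, vg h]
    · intro k _ hk
      calc v i * star (v j) * (v k * z * star (v k)) =
            v i * (star (v j) * v k) * z * star (v k) := by simp only [mul_assoc]
        _ = 0 := by rw [h.ort j k (Ne.symm hk)]; simp
    · intro hj
      exact absurd (Finset.mem_univ j) hj
  have h2 : lift v z * (v i * star (v j)) = v i * z * star (v j) := by
    unfold lift
    rw [Finset.sum_mul, Finset.sum_eq_single i]
    · calc v i * z * star (v i) * (v i * star (v j)) =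
            v i * z * ((star (v i) * v i) * star (v j)) := by simp only [mul_assoc]
        _ = _ := by rw [h.ini, gs h]
    · intro k _ hk
      calc v k * z * star (v k) * (v i * star (v j)) =
            v k * z * ((star (v k) * v i) * star (v j)) := by simp only [mul_assoc]
        _ = 0 := by rw [h.ort k i hk]; simp
    · intro hi
      exact absurd (Finset.mem_univ i) hi
  rw [h1, h2]

section comm

variable {y : A} (hy : ∀ i j, v i * star (v j) * y = y * (v i * star (v j)))

include hy

theorem y0 [Nonempty I] (h : IsMU v g) (i j : I) :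
    star (v j) * y * v j = star (v i) * y * v i := by
  calc star (v j) * y * v j = star (v j) * y * (v j * g) := by rw [vg h]
    _ = star (v j) * (y * (v j * star (v i))) * v i := by
        rw [← h.ini i]; simp only [mul_assoc]
    _ = star (v j) * (v j * star (v i) * y) * v i := by rw [hy]
    _ = (star (v j) * v j) * star (v i) * y * v i := by simp only [mul_assoc]
    _ = _ := by rw [h.ini, gs h]

theorem y_v [Nonempty I] (h : IsMU v g) (i j : I) : y * v j = v j * (star (v i) * y * v i) := by
  rw [← y0 hy h i j]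
  calc y * v j = y * (v j * g) := by rw [vg h]
    _ = y * (v j * star (v j)) * v j := by rw [← h.ini j]; simp only [mul_assoc]
    _ = v j * star (v j) * y * v j := by rw [hy]
    _ = _ := by simp only [mul_assoc]

theorem v_y [Nonempty I] (h : IsMU v g) (i j : I) :
    star (v j) * y = star (v i) * y * v i * star (v j) := by
  rw [← y0 hy h i j]
  calc star (v j) * y = g * star (v j) * y := by rw [gs h]
    _ = star (v j) * (v j * star (v j) * y) := by rw [← h.ini j]; simp only [mul_assoc]
    _ = star (v j) * (y * (v j * star (v j))) := by rw [hy]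
    _ = _ := by simp only [mul_assoc]

theorem EM_r [Nonempty I] (h : IsMU v g) (x : A) : EM v (x * y) = EM v x * y := by
  obtain ⟨i⟩ := ‹Nonempty I›
  have : Nonempty I := ⟨i⟩
  have h1 : dn v (x * y) = dn v x * (star (v i) * y * v i) := by
    unfold dn
    rw [smul_mul_assoc, Finset.sum_mul]
    congr 1
    refine Finset.sum_congr rfl fun j _ => ?_
    calc star (v j) * (x * y) * v j = star (v j) * x * (y * v j) := by simp only [mul_assoc]
      _ = star (v j) * x * (v j * (star (v i) * y * v i)) := by rw [y_v hy h i j]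
      _ = _ := by simp only [mul_assoc]
  unfold EM
  rw [h1]
  unfold lift
  rw [Finset.sum_mul]
  refine Finset.sum_congr rfl fun j _ => ?_
  calc v j * (dn v x * (star (v i) * y * v i)) * star (v j) =
        v j * dn v x * (star (v i) * y * v i * star (v j)) := by simp only [mul_assoc]
    _ = v j * dn v x * (star (v j) * y) := by rw [← v_y hy h i j]
    _ = _ := by simp only [mul_assoc]

theorem EM_l [Nonempty I] (h : IsMU v g) (x : A) : EM v (y * x) = y * EM v x := by
  obtain ⟨i⟩ := ‹Nonempty I›
  have : Nonempty I := ⟨i⟩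
  have h1 : dn v (y * x) = (star (v i) * y * v i) * dn v x := by
    unfold dn
    rw [mul_smul_comm, Finset.mul_sum]
    congr 1
    refine Finset.sum_congr rfl fun j _ => ?_
    calc star (v j) * (y * x) * v j = (star (v j) * y) * x * v j := by simp only [mul_assoc]
      _ = (star (v i) * y * v i * star (v j)) * x * v j := by rw [v_y hy h i j]
      _ = _ := by simp only [mul_assoc]
  unfold EM
  rw [h1]
  unfold lift
  rw [Finset.mul_sum]
  refine Finset.sum_congr rfl fun j _ => ?_
  calc v j * ((star (v i) * y * v i) * dn v x) * star (v j) =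
        (v j * (star (v i) * y * v i)) * dn v x * star (v j) := by simp only [mul_assoc]
    _ = (y * v j) * dn v x * star (v j) := by rw [← y_v hy h i j]
    _ = _ := by simp only [mul_assoc]

end comm

theorem EM_one [Nonempty I] (h : IsMU v g) : EM v (1 : A) = 1 := by
  have h1 : dn v (1 : A) = g := by
    unfold dn
    have : ∀ j ∈ Finset.univ, star (v j) * 1 * v j = g := by
      intro j _
      rw [mul_one, h.ini]
    rw [Finset.sum_congr rfl this, Finset.sum_const, Finset.card_univ,
      ← Nat.cast_smul_eq_nsmul ℂ, smul_smul, inv_mul_cancel₀ card_ne, one_smul]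
  unfold EM
  rw [h1]
  unfold lift
  rw [← h.sum]
  refine Finset.sum_congr rfl fun i _ => ?_
  rw [vg h]

theorem norm_dn [Nonempty I] (h : IsMU v g) (x : A) : ‖dn v x‖ ≤ ‖x‖ := by
  unfold dn
  rw [norm_smul, norm_inv, Complex.norm_natCast]
  have h1 : ‖∑ j, star (v j) * x * v j‖ ≤ Fintype.card I * ‖x‖ := by
    calc ‖∑ j, star (v j) * x * v j‖ ≤ ∑ j, ‖star (v j) * x * v j‖ := norm_sum_le _ _
      _ ≤ ∑ _j : I, ‖x‖ := by
          refine Finset.sum_le_sum fun j _ => ?_
          calc ‖star (v j) * x * v j‖ ≤ ‖star (v j)‖ * ‖x‖ * ‖v j‖ :=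
                (norm_mul_le _ _).trans (mul_le_mul_of_nonneg_right (norm_mul_le _ _)
                  (norm_nonneg _))
            _ ≤ 1 * ‖x‖ * 1 := by
                rw [norm_star]
                have := nv h j
                gcongr
            _ = ‖x‖ := by ring
      _ = _ := by rw [Finset.sum_const, Finset.card_univ, nsmul_eq_mul]
  have hc := card_pos' (I := I)
  rw [inv_mul_le_iff₀ hc]
  exact h1

theorem norm_lift [Nonempty I] (h : IsMU v g) (z : A) (hz : g * z = z) :
    ‖lift v z‖ ≤ ‖z‖ := by
  letI : PartialOrder A := CStarAlgebra.spectralOrder A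
  haveI : StarOrderedRing A := CStarAlgebra.spectralOrderedRing A
  have h1 : star (lift v z) * lift v z = lift v (star z * z) := by
    rw [star_lift, lift_mul h, mul_assoc, hz]
  have h2 : star z * z ≤ algebraMap ℝ A (‖z‖ ^ 2) := CStarAlgebra.star_mul_le_algebraMap_norm_sq
  have h3 : lift v (star z * z) ≤ algebraMap ℝ A (‖z‖ ^ 2) := by
    calc lift v (star z * z) ≤ ∑ i, v i * algebraMap ℝ A (‖z‖ ^ 2) * star (v i) := by
          unfold lift
          exact Finset.sum_le_sum fun i _ => star_right_conjugate_le_conjugate h2 (v i)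
      _ = algebraMap ℝ A (‖z‖ ^ 2) := by
          have : ∀ i ∈ Finset.univ, v i * algebraMap ℝ A (‖z‖ ^ 2) * star (v i) =
              algebraMap ℝ A (‖z‖ ^ 2) * (v i * star (v i)) := by
            intro i _
            rw [← Algebra.commutes, mul_assoc]
          rw [Finset.sum_congr rfl this, ← Finset.mul_sum, h.sum, mul_one]
  have h4 : ‖star (lift v z) * lift v z‖ ≤ ‖algebraMap ℝ A (‖z‖ ^ 2)‖ := by
    apply CStarAlgebra.norm_le_norm_of_nonneg_of_le (star_mul_self_nonneg _)
    rw [h1]
    exact h3
  rw [CStarRing.norm_star_mul_self] at h4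
  have h5 : ‖algebraMap ℝ A (‖z‖ ^ 2)‖ ≤ ‖z‖ ^ 2 := by
    by_cases hA : Nontrivial A
    · rw [norm_algebraMap']
      simp
    · rw [not_nontrivial_iff_subsingleton] at hA
      rw [Subsingleton.elim (algebraMap ℝ A (‖z‖ ^ 2)) 0, norm_zero]
      positivity
  nlinarith [norm_nonneg (lift v z), norm_nonneg z]

end LIFTaux

open LIFTaux in
theorem p_LIFT : S_LIFT := by
  intro A _ τ hτ I _ _ v g h
  have hcom : ∀ x i j, v i * star (v j) * EM v x = EM v x * (v i * star (v j)) :=
    fun x i j => comm_lift h (dn v x) i j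
  have hEM : ∀ x y, (∀ i j, v i * star (v j) * y = y * (v i * star (v j))) →
      EM v y = y ∧ EM v (x * y) = EM v x * y ∧ EM v (y * x) = y * EM v x ∧
      τ (x * y) = τ (EM v x * y) := by
    intro x y hy
    have h1 := EM_r hy h x
    refine ⟨?_, h1, EM_l hy h x, ?_⟩
    · have := EM_l hy h 1
      rwa [mul_one, EM_one h, mul_one] at this
    · rw [← h1, tau_EM hτ h]
  refine ⟨⟨sg h, gg h⟩, vg h, nv h, ?_, fun x => ⟨g_dn h x, dn_g h x⟩,
    fun x h1 h2 => dn_lift h x h1 h2, n2_lift hτ h, ?_, star_lift, tau_EM hτ h, ?_, ?_, hcom, hEM⟩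
  · intro i
    have h1 : τ (dg v i) = τ g := by
      unfold dg
      rw [hτ.comm, h.ini]
    have h2 : (Fintype.card I : ℂ) * τ g = 1 := by
      have h3 : τ (∑ j, v j * star (v j)) = 1 := by rw [h.sum, hτ.one]
      rw [map_sum] at h3
      have : ∀ j ∈ Finset.univ, τ (v j * star (v j)) = τ g := by
        intro j _
        rw [hτ.comm, h.ini]
      rw [Finset.sum_congr rfl this, Finset.sum_const, Finset.card_univ, nsmul_eq_mul] at h3
      exact h3
    have h3 : (Fintype.card I : ℝ) * (τ g).re = 1 := by
      have := congrArg Complex.re h2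
      simpa using this
    rw [h1, eq_div_iff (card_pos' (I := I)).ne', mul_comm]
    exact h3
  · intro x y
    rw [lift_mul h]
    congr 1
    calc g * x * g * g * (g * y * g) = g * x * (g * g) * (g * y * g) := by simp only [mul_assoc]
      _ = _ := by rw [gg h]
  · intro x
    have h1 : ∀ i j, v i * star (v j) * star (EM v x) = star (EM v x) * (v i * star (v j)) := by
      intro i j
      have e : star (v j * star (v i)) = v i * star (v j) := by rw [star_mul, star_star]
      have := congrArg star (hcom x j i)
      rw [star_mul (v j * star (v i)) (EM v x), star_mul (EM v x) (v j * star (v i)), e] at this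
      exact this.symm
    have h2 := (hEM x _ h1).2.2.2
    have h3 : ((n2 τ (EM v x) ^ 2 : ℝ) : ℂ) = τ (star (EM v x) * x) := by
      rw [← hτ.n2_sq', hτ.comm, ← h2, hτ.comm]
    have h4 := hτ.cauchy (EM v x) x
    rw [← h3, Complex.norm_real, Real.norm_of_nonneg (sq_nonneg _)] at h4
    by_contra hc
    rw [not_le] at hc
    have h5 : 0 < n2 τ (EM v x) := lt_of_le_of_lt (n2_nonneg τ x) hc
    nlinarith
  · intro x
    exact (norm_lift h _ (g_dn h x)).trans (norm_dn h x)

end Pool.Agent.H518R4.UG
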