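import Pool.Agent.H518R4.UG.Stubs
import Pool.Agent.Helper467.FP.P_n2_mul_le
import Pool.Agent.Helper467.FP.P_exists_lim

/-! LIMP: decreasing sequences of projections converge (helper708). -/

set_option autoImplicit false

open scoped ComplexOrder Topology InnerProductSpace
open Filter

namespace Pool.Agent.H518R4.UG

open Pool.Agent.H467F

theorem limp_norm {A : Type} [CStarAlgebra A] {p : A} (hp : IsPrj p) : ‖p‖ ≤ 1 := by
  have h1 : ‖star p * p‖ = ‖p‖ * ‖p‖ := CStarRing.norm_star_mul_self
  rw [hp.1, hp.2] at h1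
  by_contra h
  push Not at h
  nlinarith

theorem limp_zero {A : Type} [CStarAlgebra A] {τ : A →ₗ[ℂ] ℂ} (h : TW τ) (x : A) (C : ℝ)
    (a : ℕ → ℝ) (ha : Tendsto a atTop (𝓝 0)) (N : ℕ) (hx : ∀ n ≥ N, n2 τ x ≤ C * a n) : x = 0 := by
  apply h.eq_zero
  refine le_antisymm ?_ (n2_nonneg _ _)
  have h1 : Tendsto (fun n => C * a n) atTop (𝓝 (C * 0)) := ha.const_mul C
  rw [mul_zero] at h1
  exact ge_of_tendsto h1 (eventually_atTop.2 ⟨N, hx⟩)

theorem p_LIMP : S_LIMP := by
  intro A _ τ h e he hdec
  have hmn : ∀ m k, e m * e (m + k) = e (m + k) := by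
    intro m k
    induction k with
    | zero => exact (he m).2
    | succ k ih =>
      have h1 := hdec (m + k)
      calc e m * e (m + (k + 1)) = e m * (e (m + k) * e (m + k + 1)) := by rw [h1]; rfl
        _ = (e m * e (m + k)) * e (m + k + 1) := by rw [mul_assoc]
        _ = e (m + k) * e (m + k + 1) := by rw [ih]
        _ = e (m + (k + 1)) := h1
  have hmn' : ∀ m n, m ≤ n → e m * e n = e n := by
    intro m n hle
    obtain ⟨k, rfl⟩ := Nat.exists_eq_add_of_le hle
    exact hmn m k
  have hnm : ∀ m n, m ≤ n → e n * e m = e n := by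
    intro m n hle
    have h1 := congrArg star (hmn' m n hle)
    rwa [star_mul, (he m).1, (he n).1] at h1
  have hn2 : ∀ m n, m ≤ n → n2 τ (e m - e n) ^ 2 = (τ (e m)).re - (τ (e n)).re := by
    intro m n hle
    rw [h.n2_sq]
    have e1 : star (e m - e n) * (e m - e n) = e m - e n := by
      rw [star_sub, (he m).1, (he n).1, sub_mul, mul_sub, mul_sub, (he m).2, (he n).2,
        hmn' m n hle, hnm m n hle]
      abel
    rw [e1, map_sub, Complex.sub_re]
  have hanti : Antitone (fun n => (τ (e n)).re) := by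
    intro m n hle
    have h1 := hn2 m n hle
    have h2 : 0 ≤ n2 τ (e m - e n) ^ 2 := by positivity
    simp only
    linarith
  have hbdd : BddBelow (Set.range fun n => (τ (e n)).re) := by
    refine ⟨0, ?_⟩
    rintro _ ⟨n, rfl⟩
    have h1 := h.re_nonneg (e n)
    rwa [(he n).1, (he n).2] at h1
  have hlim := tendsto_atTop_ciInf hanti hbdd
  have hcau := hlim.cauchySeq
  have hcauchy : ∀ ε : ℝ, 0 < ε → ∃ N, ∀ m ≥ N, ∀ n ≥ N, n2 τ (e m - e n) < ε := by
    intro ε hε
    obtain ⟨N, hN⟩ := Metric.cauchySeq_iff.1 hcau (ε ^ 2) (by positivity)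
    refine ⟨N, fun m hm n hn => ?_⟩
    have hd := hN m hm n hn
    rw [Real.dist_eq] at hd
    have hsq : n2 τ (e m - e n) ^ 2 < ε ^ 2 := by
      rcases le_total m n with hle | hle
      · rw [hn2 m n hle]
        exact (le_abs_self _).trans_lt hd
      · rw [n2_sub_comm, hn2 n m hle]
        have := neg_abs_le ((τ (e m)).re - (τ (e n)).re)
        linarith
    exact lt_of_pow_lt_pow_left₀ 2 hε.le hsq
  obtain ⟨e', he'n, ht⟩ := exists_lim h e 1 (fun n => limp_norm (he n)) hcauchy
  have hmulL : ∀ a b : A, ‖a‖ ≤ 1 → n2 τ (a * b) ≤ n2 τ b := by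
    intro a b ha
    refine (n2_mul_le_left h a b).trans ?_
    have := n2_nonneg τ b
    nlinarith
  have hmulR : ∀ a b : A, ‖b‖ ≤ 1 → n2 τ (a * b) ≤ n2 τ a := by
    intro a b hb
    rw [← h.n2_star, star_mul]
    refine (hmulL _ _ (by rwa [norm_star])).trans ?_
    rw [h.n2_star]
  refine ⟨e', ⟨?_, ?_⟩, ?_, ht⟩
  · have h0 : star e' - e' = 0 := by
      refine limp_zero h _ 2 _ ht 0 fun n _ => ?_
      have h1 := h.n2_tri (star e') (e n) e'
      have h2 : n2 τ (star e' - e n) = n2 τ (e n - e') := by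
        have : star e' - e n = star (e' - e n) := by rw [star_sub, (he n).1]
        rw [this, h.n2_star, n2_sub_comm]
      rw [h2] at h1
      linarith
    exact sub_eq_zero.1 h0
  · have h0 : e' * e' - e' = 0 := by
      refine limp_zero h _ 3 _ ht 0 fun n _ => ?_
      have e1 : e' * e' - e' = e' * (e' - e n) + ((e' - e n) * e n + (e n - e')) := by
        rw [mul_sub, sub_mul, (he n).2]
        abel
      rw [e1]
      have h1 := h.n2_add_le (e' * (e' - e n)) ((e' - e n) * e n + (e n - e'))
      have h2 := h.n2_add_le ((e' - e n) * e n) (e n - e')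
      have h3 := hmulL e' (e' - e n) he'n
      have h4 := hmulR (e' - e n) (e n) (limp_norm (he n))
      rw [n2_sub_comm] at h3 h4
      have h5 := n2_sub_comm τ e' (e n)
      have h3' : n2 τ (e' * (e' - e n)) ≤ n2 τ (e n - e') :=
        (hmulL e' (e' - e n) he'n).trans (le_of_eq h5)
      have h4' : n2 τ ((e' - e n) * e n) ≤ n2 τ (e n - e') :=
        (hmulR (e' - e n) (e n) (limp_norm (he n))).trans (le_of_eq h5)
      linarith
    exact sub_eq_zero.1 h0
  · intro m
    have h0 : e m * e' - e' = 0 := by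
      refine limp_zero h _ 2 _ ht m fun n hn => ?_
      have e1 : e m * e' - e' = e m * (e' - e n) + (e n - e') := by
        rw [mul_sub, hmn' m n hn]
        abel
      rw [e1]
      have h1 := h.n2_add_le (e m * (e' - e n)) (e n - e')
      have h5 := n2_sub_comm τ e' (e n)
      have h3' : n2 τ (e m * (e' - e n)) ≤ n2 τ (e n - e') :=
        (hmulL (e m) (e' - e n) (limp_norm (he m))).trans (le_of_eq h5)
      linarith
    exact sub_eq_zero.1 h0

end Pool.Agent.H518R4.UG
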