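import Pool.Agent.H518R4.UG.Stubs

/-! Task MASS -/

set_option autoImplicit false

open scoped ComplexOrder Topology
open Filter

namespace Pool.Agent.H518R4.UG

open Pool.Agent.H467F

section

variable {A : Type} [CStarAlgebra A]

theorem MASS_prj_norm {z : A} (hz : IsPrj z) : ‖z‖ ≤ 1 := by
  have h1 : ‖z‖ * ‖z‖ = ‖z‖ := by
    rw [← CStarRing.norm_star_mul_self, hz.1, hz.2]
  by_contra hcon
  nlinarith

theorem MASS_wz {w z : A} (hz : IsPrj z) (h : star w * w = z) : w * z = w := by
  have h1 : star (w * z - w) * (w * z - w) = 0 := by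
    rw [star_sub, star_mul, hz.1]
    have : (z * star w - star w) * (w * z - w) =
        z * (star w * w) * z - z * (star w * w) - (star w * w) * z + star w * w := by
      noncomm_ring
    rw [this, h, hz.2, hz.2]
    noncomm_ring
  have h2 := (CStarRing.star_mul_self_eq_zero_iff _).1 h1
  exact sub_eq_zero.1 h2

theorem MASS_sum {τ : A →ₗ[ℂ] ℂ} (hτ : TW τ) {N : ℕ} {z : A} {w : Fin N → A} (hz : IsPrj z)
    (h1 : ∀ i, star (w i) * w i = z) (h2 : ∀ i j, i ≠ j → star (w i) * w j = 0) (y : A) :
    ∑ i, n2 τ (star (w i) * y) ^ 2 ≤ n2 τ y ^ 2 := by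
  set e : A := ∑ i, w i * star (w i) with he
  have hes : star e = e := by
    rw [he, star_sum]
    refine Finset.sum_congr rfl fun i _ => ?_
    rw [star_mul, star_star]
  have hee : e * e = e := by
    rw [he, Finset.sum_mul]
    refine Finset.sum_congr rfl fun i _ => ?_
    rw [Finset.mul_sum, Finset.sum_eq_single i]
    · have : w i * star (w i) * (w i * star (w i)) = w i * (star (w i) * w i) * star (w i) := by
        noncomm_ring
      rw [this, h1 i, MASS_wz hz (h1 i)]
    · intro j _ hj
      have : w i * star (w i) * (w j * star (w j)) = w i * (star (w i) * w j) * star (w j) := by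
        noncomm_ring
      rw [this, h2 i j (Ne.symm hj), mul_zero, zero_mul]
    · intro h
      exact absurd (Finset.mem_univ i) h
  have e1 : ∑ i, n2 τ (star (w i) * y) ^ 2 = (τ (star y * e * y)).re := by
    rw [he, Finset.mul_sum, Finset.sum_mul, map_sum, Complex.re_sum]
    refine Finset.sum_congr rfl fun i _ => ?_
    rw [hτ.n2_sq, star_mul, star_star]
    congr 2
    noncomm_ring
  rw [e1, hτ.n2_sq]
  have h3 := hτ.re_nonneg ((1 - e) * y)
  have e2 : star ((1 - e) * y) * ((1 - e) * y) = star y * y - star y * e * y := by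
    rw [star_mul, star_sub, star_one, hes]
    have : star y * (1 - e) * ((1 - e) * y) = star y * y - star y * e * y - star y * e * y +
        star y * (e * e) * y := by noncomm_ring
    rw [this, hee]
    noncomm_ring
  rw [e2, map_sub, Complex.sub_re] at h3
  linarith

theorem MASS_two {τ : A →ₗ[ℂ] ℂ} (hτ : TW τ) (a b : A) :
    n2 τ (a + b) ^ 2 ≤ 2 * n2 τ a ^ 2 + 2 * n2 τ b ^ 2 := by
  have h1 := hτ.n2_add_le a b
  have h2 := n2_nonneg (A := A) τ (a + b)
  have h3 : n2 τ (a + b) ^ 2 ≤ (n2 τ a + n2 τ b) ^ 2 := pow_le_pow_left₀ h2 h1 2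
  nlinarith [sq_nonneg (n2 τ a - n2 τ b)]

end

theorem p_MASS : S_MASS := by
  intro A _ τ hτ N z w hz h1 h2
  refine ⟨fun i => ?_, fun y => ⟨?_, ?_⟩⟩
  · have h3 : ‖w i‖ * ‖w i‖ ≤ 1 := by
      rw [← CStarRing.norm_star_mul_self, h1 i]
      exact MASS_prj_norm hz
    nlinarith [norm_nonneg (w i)]
  · have h3 : ∀ i, n2 τ (z * y) ^ 2 ≤ 2 * n2 τ (star (w i) * star y) ^ 2 +
        2 * n2 τ (cm (w i) y) ^ 2 := by
      intro i
      have e1 : n2 τ (z * y) ^ 2 = n2 τ (y * w i + cm (w i) y) ^ 2 := by
        have : y * w i + cm (w i) y = w i * y := by unfold cm; abel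
        rw [this, hτ.n2_sq, hτ.n2_sq, star_mul, star_mul, hz.1]
        congr 2
        have e2 : star y * z * (z * y) = star y * (z * z) * y := by noncomm_ring
        have e3 : star y * star (w i) * (w i * y) = star y * (star (w i) * w i) * y := by
          noncomm_ring
        rw [e2, e3, hz.2, h1 i]
      have e4 : n2 τ (star (w i) * star y) = n2 τ (y * w i) := by
        rw [← star_mul, hτ.n2_star]
      rw [e1, e4]
      exact MASS_two hτ _ _
    have h4 := MASS_sum hτ hz h1 h2 (star y)
    rw [hτ.n2_star] at h4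
    have h5 : ∑ _i : Fin N, n2 τ (z * y) ^ 2 ≤ ∑ i, (2 * n2 τ (star (w i) * star y) ^ 2 +
        2 * n2 τ (cm (w i) y) ^ 2) := Finset.sum_le_sum fun i _ => h3 i
    rw [Finset.sum_const, Finset.card_univ, Fintype.card_fin, nsmul_eq_mul,
      Finset.sum_add_distrib, ← Finset.mul_sum, ← Finset.mul_sum] at h5
    linarith
  · have h3 : ∀ i, n2 τ (y * z) ^ 2 ≤ 2 * n2 τ (star (w i) * y) ^ 2 +
        2 * n2 τ (cm (star (w i)) y) ^ 2 := by
      intro i
      have e1 : n2 τ (y * z) ^ 2 = n2 τ (star (w i) * y + -cm (star (w i)) y) ^ 2 := by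
        have : star (w i) * y + -cm (star (w i)) y = y * star (w i) := by unfold cm; abel
        rw [this, ← hτ.n2_star (y * z), ← hτ.n2_star (y * star (w i)), hτ.n2_sq, hτ.n2_sq,
          star_mul, star_mul, star_mul, star_mul]
        simp only [star_star, hz.1]
        congr 2
        have e2 : y * z * (z * star y) = y * (z * z) * star y := by noncomm_ring
        have e3 : y * star (w i) * (w i * star y) = y * (star (w i) * w i) * star y := by
          noncomm_ring
        rw [e2, e3, hz.2, h1 i]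
      rw [e1]
      have h6 := MASS_two hτ (star (w i) * y) (-cm (star (w i)) y)
      rw [n2_neg] at h6
      exact h6
    have h4 := MASS_sum hτ hz h1 h2 y
    have h5 : ∑ _i : Fin N, n2 τ (y * z) ^ 2 ≤ ∑ i, (2 * n2 τ (star (w i) * y) ^ 2 +
        2 * n2 τ (cm (star (w i)) y) ^ 2) := Finset.sum_le_sum fun i _ => h3 i
    rw [Finset.sum_const, Finset.card_univ, Fintype.card_fin, nsmul_eq_mul,
      Finset.sum_add_distrib, ← Finset.mul_sum, ← Finset.mul_sum] at h5
    linarith

end Pool.Agent.H518R4.UG
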