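import Mathlib
import Pool.Agent.H518R4.UG.Stubs

/-! Task MERGE: merging a partition. -/

set_option autoImplicit false

open scoped ComplexOrder Topology InnerProductSpace
open Filter

noncomputable section

namespace Pool.Agent.H518R4.UG

open Pool.Agent.H467F

namespace MERGEh

variable {A : Type} [CStarAlgebra A] {τ : A →ₗ[ℂ] ℂ}

theorem ortho (h : TW τ) (x y : A) (hxy : τ (star x * y) = 0) : n2 τ x ≤ n2 τ (x + y) := by
  have h1 : n2 τ (x + y) ^ 2 = n2 τ x ^ 2 + n2 τ y ^ 2 := by
    rw [h.n2_sq, h.n2_sq, h.n2_sq]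
    have e : star (x + y) * (x + y) = star x * x + star y * y + (star x * y + star y * x) := by
      rw [star_add]; noncomm_ring
    have hyx : τ (star y * x) = 0 := by
      have h2 := h.conj (star x * y)
      rw [star_mul, star_star, hxy, star_zero] at h2
      exact h2
    rw [e, map_add, map_add, map_add, hxy, hyx]
    simp
  have h2 : n2 τ x ^ 2 ≤ n2 τ (x + y) ^ 2 := by
    rw [h1]
    nlinarith [sq_nonneg (n2 τ y)]
  exact (pow_le_pow_iff_left₀ (n2_nonneg _ _) (n2_nonneg _ _) two_ne_zero).1 h2

theorem part_mul {J : Type} [Fintype J] [DecidableEq J] {q : J → A} {e : A} (hq : IsPart q e)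
    (i j : J) : q i * q j = if i = j then q j else 0 := by
  split_ifs with h
  · subst h
    exact (hq.prj i).2
  · exact hq.ort i j h

/-- the merged partition -/
def mg {M r : ℕ} (q : Fin M → A) (c : Fin M → Fin r) (s : Fin r) : A :=
  ∑ j, if c j = s then q j else 0

theorem mg_mul {M r : ℕ} {q : Fin M → A} (c : Fin M → Fin r) {e : A} (hq : IsPart q e)
    (s : Fin r) (j : Fin M) : mg q c s * q j = if c j = s then q j else 0 := by
  unfold mg
  rw [Finset.sum_mul, Finset.sum_eq_single j]
  · rw [ite_mul, zero_mul, (hq.prj j).2]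
  · intro i _ hij
    rw [ite_mul, zero_mul, hq.ort i j hij, ite_self]
  · intro h
    exact absurd (Finset.mem_univ j) h

theorem mul_mg {M r : ℕ} {q : Fin M → A} (c : Fin M → Fin r) {e : A} (hq : IsPart q e)
    (s : Fin r) (j : Fin M) : q j * mg q c s = if c j = s then q j else 0 := by
  unfold mg
  rw [Finset.mul_sum, Finset.sum_eq_single j]
  · rw [mul_ite, mul_zero, (hq.prj j).2]
  · intro i _ hij
    rw [mul_ite, mul_zero, hq.ort j i hij.symm, ite_self]
  · intro h
    exact absurd (Finset.mem_univ j) h

theorem mg_part {M r : ℕ} {q : Fin M → A} (c : Fin M → Fin r) {e : A} (hq : IsPart q e) :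
    IsPart (mg q c) e := by
  refine ⟨fun s => ⟨?_, ?_⟩, fun s t hst => ?_, ?_⟩
  · unfold mg
    rw [star_sum]
    refine Finset.sum_congr rfl fun j _ => ?_
    split_ifs
    · exact (hq.prj j).1
    · exact star_zero A
  · conv_lhs => rw [show mg q c s * mg q c s = mg q c s * ∑ j, (if c j = s then q j else 0)
      from rfl]
    rw [Finset.mul_sum]
    unfold mg
    refine Finset.sum_congr rfl fun j _ => ?_
    have h := mg_mul c hq s j
    unfold mg at h
    rw [mul_ite, mul_zero, h]
    split_ifs <;> rfl
  · rw [show mg q c s * mg q c t = mg q c s * ∑ j, (if c j = t then q j else 0) from rfl,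
      Finset.mul_sum]
    refine Finset.sum_eq_zero fun j _ => ?_
    rw [mul_ite, mul_zero, mg_mul c hq s j]
    split_ifs with h1 h2
    · exact absurd (h2.symm.trans h1) hst
    · rfl
    · rfl
  · unfold mg
    rw [Finset.sum_comm, ← hq.sum]
    refine Finset.sum_congr rfl fun j _ => ?_
    rw [Finset.sum_ite_eq]
    simp

theorem pin_corner {J : Type} [Fintype J] [DecidableEq J] {q : J → A} {e : A} (hq : IsPart q e)
    (f : A) (i : J) : q i * pin q f * q i = q i * f * q i := by
  unfold pin
  rw [Finset.mul_sum, Finset.sum_mul, Finset.sum_eq_single i]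
  · calc q i * (q i * f * q i) * q i = (q i * q i) * f * (q i * q i) := by noncomm_ring
      _ = q i * f * q i := by rw [(hq.prj i).2]
  · intro j _ hj
    calc q i * (q j * f * q j) * q i = (q i * q j) * f * (q j * q i) := by noncomm_ring
      _ = 0 := by rw [hq.ort i j hj.symm, zero_mul, zero_mul]
  · intro h
    exact absurd (Finset.mem_univ i) h

theorem pin_mg_pin {M r : ℕ} {q : Fin M → A} (c : Fin M → Fin r) {e : A} (hq : IsPart q e)
    (f : A) : pin (mg q c) (pin q f) = pin q f := by
  have h1 : ∀ s, mg q c s * pin q f * mg q c s = ∑ j, if c j = s then q j * f * q j else 0 := by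
    intro s
    unfold pin
    rw [Finset.mul_sum, Finset.sum_mul]
    refine Finset.sum_congr rfl fun j _ => ?_
    calc mg q c s * (q j * f * q j) * mg q c s
        = (mg q c s * q j) * f * (q j * mg q c s) := by noncomm_ring
      _ = if c j = s then q j * f * q j else 0 := by
          rw [mg_mul c hq, mul_mg c hq]
          split_ifs
          · rfl
          · rw [zero_mul, zero_mul]
  rw [show pin (mg q c) (pin q f) = ∑ s, mg q c s * pin q f * mg q c s from rfl]
  rw [Finset.sum_congr rfl fun s _ => h1 s, Finset.sum_comm]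
  unfold pin
  refine Finset.sum_congr rfl fun j _ => ?_
  rw [Finset.sum_ite_eq]
  simp

theorem pin_pin {J : Type} [Fintype J] [DecidableEq J] {q : J → A} {e : A} (hq : IsPart q e)
    (f : A) : pin q (pin q f) = pin q f := by
  rw [show pin q (pin q f) = ∑ j, q j * pin q f * q j from rfl]
  rw [Finset.sum_congr rfl fun j _ => pin_corner hq f j]
  rfl

theorem pin_sub {J : Type} [Fintype J] (q : J → A) (x y : A) :
    pin q (x - y) = pin q x - pin q y := by
  unfold pin
  rw [← Finset.sum_sub_distrib]
  refine Finset.sum_congr rfl fun j _ => ?_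
  noncomm_ring

theorem orth_pin (h : TW τ) {J : Type} [Fintype J] [DecidableEq J] {g : J → A} {e : A}
    (hg : IsPart g e) (f y : A) (hy : pin g y = y) : τ (star (f - pin g f) * y) = 0 := by
  have hx : ∀ s, g s * (f - pin g f) * g s = 0 := fun s => by
    rw [mul_sub, sub_mul, pin_corner hg, sub_self]
  set x := f - pin g f with hxd
  rw [← hy]
  unfold pin
  rw [Finset.mul_sum, map_sum]
  refine Finset.sum_eq_zero fun s _ => ?_
  have hs : star (g s) = g s := (hg.prj s).1
  have h1 : star x * (g s * y * g s) = (star x * (g s * y)) * g s := by noncomm_ring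
  rw [h1, h.comm]
  have h2 : g s * (star x * (g s * y)) = star (g s * x * g s) * y := by
    rw [star_mul, star_mul, hs]
    noncomm_ring
  rw [h2, hx s, star_zero, zero_mul, map_zero]

theorem pin_le (h : TW τ) {M r : ℕ} {q : Fin M → A} (c : Fin M → Fin r) {e : A}
    (hq : IsPart q e) (f : A) : n2 τ (f - pin (mg q c) f) ≤ n2 τ (f - pin q f) := by
  have h1 : pin (mg q c) (pin (mg q c) f - pin q f) = pin (mg q c) f - pin q f := by
    rw [pin_sub, pin_pin (mg_part c hq), pin_mg_pin c hq]
  have h2 := orth_pin h (mg_part c hq) f _ h1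
  have h3 := ortho h _ _ h2
  rwa [sub_add_sub_cancel] at h3

end MERGEh

theorem p_MERGE : S_MERGE := by
  intro A _ τ h M r q c hq
  exact ⟨MERGEh.mg_part c hq, fun f => MERGEh.pin_le h c hq f⟩

end Pool.Agent.H518R4.UG
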