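import Pool.Agent.H518R4.UG.Stubs
import Pool.Agent.Helper467.FP.P_n2_mul_le

/-!
Universal spectral gap for non-Gamma II_1 factors (MP_ab5fa7_an, S03914): task MUL
(matrix units whose diagonal almost commutes with a finite family), by helper804.
-/

set_option autoImplicit false

open scoped ComplexOrder Topology InnerProductSpace
open Filter

noncomputable section

namespace Pool.Agent.H518R4.UG

open Pool.Agent.H467F

section MUL

variable {A : Type} [CStarAlgebra A]

theorem MUL_prj_norm {p : A} (hp : IsPrj p) : ‖p‖ ≤ 1 := by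
  have h1 : ‖star p * p‖ = ‖p‖ * ‖p‖ := CStarRing.norm_star_mul_self
  rw [hp.1, hp.2] at h1
  nlinarith [norm_nonneg p]

theorem MUL_v_mul_g {I : Type} [Fintype I] {v : I → A} {g : A} (h : IsMU v g) (j : I) :
    v j * g = v j := by
  classical
  have h1 : (∑ i, v i * star (v i)) * v j = v j := by rw [h.sum, one_mul]
  rw [Finset.sum_mul, Finset.sum_eq_single j] at h1
  · rw [mul_assoc, h.ini] at h1
    exact h1
  · intro i _ hij
    rw [mul_assoc, h.ort i j hij, mul_zero]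
  · intro hj
    exact absurd (Finset.mem_univ j) hj

theorem MUL_dg_prj {I : Type} [Fintype I] {v : I → A} {g : A} (h : IsMU v g) (j : I) :
    IsPrj (dg v j) := by
  unfold dg
  refine ⟨by rw [star_mul, star_star], ?_⟩
  calc v j * star (v j) * (v j * star (v j)) = v j * (star (v j) * v j) * star (v j) := by
        simp only [mul_assoc]
    _ = v j * star (v j) := by rw [h.ini, MUL_v_mul_g h]

theorem MUL_n2_sum_le {τ : A →ₗ[ℂ] ℂ} (hT : TW τ) {I : Type} (s : Finset I) (x : I → A) :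
    n2 τ (∑ i ∈ s, x i) ≤ ∑ i ∈ s, n2 τ (x i) := by
  classical
  induction s using Finset.induction_on with
  | empty => simp [n2_zero]
  | insert i s hi ih =>
    rw [Finset.sum_insert hi, Finset.sum_insert hi]
    exact (hT.n2_add_le _ _).trans (add_le_add le_rfl ih)

theorem MUL_pin_diff {τ : A →ₗ[ℂ] ℂ} (hT : TW τ) {I : Type} [Fintype I] (g q : I → A)
    (hg : ∀ s, ‖g s‖ ≤ 1) (hq : ∀ s, ‖q s‖ ≤ 1) (F : A) (hF : ‖F‖ ≤ 1) (δ : ℝ)
    (hδ : ∀ s, n2 τ (q s - g s) ≤ δ) :
    n2 τ (pin g F - pin q F) ≤ Fintype.card I * (2 * δ) := by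
  have e1 : pin g F - pin q F = ∑ s, (g s * F * g s - q s * F * q s) := by
    unfold pin
    rw [Finset.sum_sub_distrib]
  rw [e1]
  refine (MUL_n2_sum_le hT _ _).trans ?_
  have e2 : ∀ s, n2 τ (g s * F * g s - q s * F * q s) ≤ 2 * δ := by
    intro s
    have e3 : g s * F * g s - q s * F * q s = (g s - q s) * (F * g s) + (q s * F) * (g s - q s) := by
      noncomm_ring
    have hd : n2 τ (g s - q s) ≤ δ := by rw [n2_sub_comm]; exact hδ s
    have hd0 := n2_nonneg τ (g s - q s)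
    have n1 : ‖F * g s‖ ≤ 1 := (norm_mul_le _ _).trans (by nlinarith [norm_nonneg F, norm_nonneg (g s), hg s])
    have n2' : ‖q s * F‖ ≤ 1 := (norm_mul_le _ _).trans (by nlinarith [norm_nonneg F, norm_nonneg (q s), hq s])
    rw [e3]
    refine (hT.n2_add_le _ _).trans ?_
    have m1 := (n2_mul_le hT (F * g s) (g s - q s)).2
    have m2 := (n2_mul_le hT (q s * F) (g s - q s)).1
    nlinarith [norm_nonneg (F * g s), norm_nonneg (q s * F)]
  calc ∑ s, n2 τ (g s * F * g s - q s * F * q s) ≤ ∑ _s : I, 2 * δ :=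
        Finset.sum_le_sum fun s _ => e2 s
    _ = Fintype.card I * (2 * δ) := by
        rw [Finset.sum_const, Finset.card_univ, nsmul_eq_mul]

end MUL

theorem p_MUL (hPART : S_PART) (hGROUP : S_GROUP) (hMERGE : S_MERGE) (hALIGN : S_ALIGN) :
    S_MUL := by
  intro n a η hη
  have hr0 : 0 < 2 ^ a := by positivity
  obtain ⟨m, hm⟩ := exists_pow_lt_of_lt_one
    (show (0 : ℝ) < (η / (4 * (2 ^ a : ℕ))) ^ 2 by positivity) (show (1 / 2 : ℝ) < 1 by norm_num)
  obtain ⟨k, c, hc, H⟩ := hPART n m (η ^ 2 / 4) (by positivity)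
  refine ⟨k, c, hc, fun A _ τ hF hNG F hFn => ?_⟩
  obtain ⟨M, q, hq, hqm, hqF⟩ := H A τ hF hNG F hFn
  have hT := hF.tw
  have hρ0 : (0 : ℝ) ≤ (1 / 2) ^ m := by positivity
  have hqn : ∀ j, 0 ≤ (τ (q j)).re := by
    intro j
    have h1 := hT.re_nonneg (q j)
    rwa [(hq.prj j).1, (hq.prj j).2] at h1
  have hqs : ∑ j, (τ (q j)).re = 1 := by
    rw [← Complex.re_sum, ← map_sum, hq.sum, hT.one, Complex.one_re]
  obtain ⟨cc, hcc⟩ := hGROUP M (2 ^ a) (fun j => (τ (q j)).re) ((1 / 2) ^ m) hr0 hρ0 hqn hqs hqm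
  obtain ⟨hg, hgf⟩ := hMERGE A τ hT M (2 ^ a) q cc hq
  set g : Fin (2 ^ a) → A := fun s => ∑ j, if cc j = s then q j else 0 with hgdef
  have hgτ : ∀ s, (τ (g s)).re = ∑ j, if cc j = s then (τ (q j)).re else 0 := by
    intro s
    rw [hgdef]
    simp only
    rw [map_sum, Complex.re_sum]
    refine Finset.sum_congr rfl fun j _ => ?_
    split_ifs
    · rfl
    · rw [map_zero, Complex.zero_re]
  obtain ⟨v₀, g₀, hv₀⟩ := hF.mu a
  obtain ⟨w, hw⟩ := hALIGN A τ hF (2 ^ a) g ((1 / 2) ^ m) v₀ g₀ hρ0 hg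
    (fun s => by rw [hgτ]; exact hcc s) hv₀
  have hww : star (w : A) * w = 1 := Unitary.coe_star_mul_self w
  have hww' : (w : A) * star (w : A) = 1 := Unitary.coe_mul_star_self w
  have hv : IsMU (fun s => (w : A) * v₀ s) g₀ := by
    have e1 : ∀ i j, star ((w : A) * v₀ i) * ((w : A) * v₀ j) = star (v₀ i) * v₀ j := by
      intro i j
      calc star ((w : A) * v₀ i) * ((w : A) * v₀ j)
          = star (v₀ i) * (star (w : A) * w) * v₀ j := by
            rw [star_mul]; simp only [mul_assoc]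
        _ = star (v₀ i) * v₀ j := by rw [hww, mul_one]
    refine ⟨fun i => ?_, fun i j hij => ?_, ?_⟩
    · rw [e1, hv₀.ini]
    · rw [e1, hv₀.ort i j hij]
    · have e2 : ∀ i, (w : A) * v₀ i * star ((w : A) * v₀ i)
          = (w : A) * (v₀ i * star (v₀ i)) * star (w : A) := by
        intro i
        rw [star_mul]; simp only [mul_assoc]
      simp only [e2]
      rw [← Finset.sum_mul, ← Finset.mul_sum, hv₀.sum, mul_one, hww']
  refine ⟨fun s => (w : A) * v₀ s, g₀, hv, fun i => ?_⟩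
  have hdg : ∀ s, dg (fun s => (w : A) * v₀ s) s = (w : A) * dg v₀ s * star (w : A) := by
    intro s
    unfold dg
    rw [star_mul]; simp only [mul_assoc]
  have hsq : Real.sqrt ((1 / 2) ^ m) ≤ η / (4 * (2 ^ a : ℕ)) := by
    rw [Real.sqrt_le_left (by positivity)]
    exact hm.le
  have h1 : n2 τ (F i - pin g (F i)) ≤ η / 2 := by
    refine (hgf (F i)).trans ?_
    have h2 : n2 τ (F i - pin q (F i)) ^ 2 ≤ η ^ 2 / 4 := by
      refine le_trans ?_ hqF
      exact Finset.single_le_sum (f := fun i => n2 τ (F i - pin q (F i)) ^ 2)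
        (fun i _ => sq_nonneg _) (Finset.mem_univ i)
    have h3 : n2 τ (F i - pin q (F i)) ^ 2 ≤ (η / 2) ^ 2 := by
      calc _ ≤ η ^ 2 / 4 := h2
        _ = _ := by ring
    exact abs_le_of_sq_le_sq' h3 (by positivity) |>.2
  have h4 : n2 τ (pin g (F i) - pin (dg fun s => (w : A) * v₀ s) (F i)) ≤
      Fintype.card (Fin (2 ^ a)) * (2 * Real.sqrt ((1 / 2) ^ m)) := by
    refine MUL_pin_diff hT g _ (fun s => MUL_prj_norm (hg.prj s))
      (fun s => MUL_prj_norm (MUL_dg_prj hv s)) (F i) (hFn i) _ fun s => ?_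
    rw [hdg]
    exact hw s
  have h5 : (Fintype.card (Fin (2 ^ a)) : ℝ) * (2 * Real.sqrt ((1 / 2) ^ m)) ≤ η / 2 := by
    rw [Fintype.card_fin]
    have h6 : (0 : ℝ) < ((2 ^ a : ℕ) : ℝ) := by positivity
    calc ((2 ^ a : ℕ) : ℝ) * (2 * Real.sqrt ((1 / 2) ^ m))
        ≤ ((2 ^ a : ℕ) : ℝ) * (2 * (η / (4 * (2 ^ a : ℕ)))) := by
          apply mul_le_mul_of_nonneg_left _ h6.le
          linarith
      _ = η / 2 := by field_simp; ring
  calc n2 τ (F i - pin (dg fun s => (w : A) * v₀ s) (F i))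
      ≤ n2 τ (F i - pin g (F i)) +
        n2 τ (pin g (F i) - pin (dg fun s => (w : A) * v₀ s) (F i)) := hT.n2_tri _ _ _
    _ ≤ η := by linarith

end Pool.Agent.H518R4.UG
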