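import Mathlib
import Pool.Agent.H518R4.UG.Stubs
import Pool.Agent.Helper467.FP.P_n2_mul_le

/-!
Task NGAM: without any spectral gap the factor has property Gamma.
-/

set_option autoImplicit false

open scoped ComplexOrder Topology InnerProductSpace
open Filter

noncomputable section

namespace Pool.Agent.H518R4.UG

open Pool.Agent.H467F

namespace NGAM

variable {A : Type} [CStarAlgebra A]

theorem dg_v {I : Type} [Fintype I] {v : I → A} {g : A} (h : IsMU v g) (i : I) :
    dg v i * v i = v i := by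
  classical
  have h1 : (∑ j, v j * star (v j)) * v i = v i := by rw [h.sum, one_mul]
  rw [Finset.sum_mul, Finset.sum_eq_single i] at h1
  · exact h1
  · intro j _ hj
    rw [mul_assoc, h.ort j i hj, mul_zero]
  · intro hi
    exact absurd (Finset.mem_univ i) hi

theorem dg_idem {I : Type} [Fintype I] {v : I → A} {g : A} (h : IsMU v g) (i : I) :
    dg v i * dg v i = dg v i := by
  have h1 := dg_v h i
  calc dg v i * dg v i = dg v i * v i * star (v i) := by
        conv_lhs => rw [show dg v i * dg v i = dg v i * (v i * star (v i)) from rfl]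
        rw [mul_assoc]
    _ = dg v i := by rw [h1]; rfl

theorem dg_ort {I : Type} [Fintype I] {v : I → A} {g : A} (h : IsMU v g) (i j : I) (hij : i ≠ j) :
    dg v i * dg v j = 0 := by
  show v i * star (v i) * (v j * star (v j)) = 0
  rw [mul_assoc, ← mul_assoc (star (v i)), h.ort i j hij, zero_mul, mul_zero]

theorem dg_star {I : Type} (v : I → A) (i : I) : star (dg v i) = dg v i := by
  show star (v i * star (v i)) = v i * star (v i)
  rw [star_mul, star_star]

/-- The unitary with the signs `s`. -/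
def su {I : Type} [Fintype I] (v : I → A) (s : I → ℂ) : A := ∑ j, s j • dg v j

theorem su_mul {I : Type} [Fintype I] {v : I → A} {g : A} (h : IsMU v g) (s : I → ℂ) (i : I) :
    su v s * dg v i = s i • dg v i := by
  classical
  unfold su
  rw [Finset.sum_mul, Finset.sum_eq_single i]
  · rw [smul_mul_assoc, dg_idem h]
  · intro j _ hj
    rw [smul_mul_assoc, dg_ort h j i hj, smul_zero]
  · intro hi
    exact absurd (Finset.mem_univ i) hi

theorem mul_su {I : Type} [Fintype I] {v : I → A} {g : A} (h : IsMU v g) (s : I → ℂ) (i : I) :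
    dg v i * su v s = s i • dg v i := by
  classical
  unfold su
  rw [Finset.mul_sum, Finset.sum_eq_single i]
  · rw [mul_smul_comm, dg_idem h]
  · intro j _ hj
    rw [mul_smul_comm, dg_ort h i j (Ne.symm hj), smul_zero]
  · intro hi
    exact absurd (Finset.mem_univ i) hi

theorem su_star {I : Type} [Fintype I] (v : I → A) (s : I → ℂ) (hs : ∀ i, star (s i) = s i) :
    star (su v s) = su v s := by
  unfold su
  rw [star_sum]
  refine Finset.sum_congr rfl fun i _ => ?_
  rw [star_smul, hs, dg_star]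

theorem su_sq {I : Type} [Fintype I] {v : I → A} {g : A} (h : IsMU v g) (s : I → ℂ)
    (hs : ∀ i, s i * s i = 1) : su v s * su v s = 1 := by
  have h1 : su v s * su v s = ∑ j, s j • (su v s * dg v j) := by
    conv_lhs => rw [show su v s * su v s = su v s * ∑ j, s j • dg v j from rfl]
    rw [Finset.mul_sum]
    exact Finset.sum_congr rfl fun j _ => mul_smul_comm _ _ _
  rw [h1, ← h.sum]
  refine Finset.sum_congr rfl fun i _ => ?_
  rw [su_mul h, smul_smul, hs, one_smul]
  rfl

theorem su_trace {τ : A →ₗ[ℂ] ℂ} (hτ : TW τ) {I : Type} [Fintype I] {v : I → A} {g : A}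
    (h : IsMU v g) (s : I → ℂ) (hs : ∑ i, s i = 0) : τ (su v s) = 0 := by
  unfold su
  rw [map_sum]
  have h1 : ∀ i, τ (s i • dg v i) = s i * τ g := by
    intro i
    rw [map_smul, smul_eq_mul, ← h.ini i, hτ.comm]
    rfl
  rw [Finset.sum_congr rfl fun i _ => h1 i, ← Finset.sum_mul, hs, zero_mul]

theorem su_pin {I : Type} [Fintype I] {v : I → A} {g : A} (h : IsMU v g) (s : I → ℂ) (f : A) :
    su v s * pin (dg v) f = pin (dg v) f * su v s := by
  unfold pin
  rw [Finset.mul_sum, Finset.sum_mul]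
  refine Finset.sum_congr rfl fun i _ => ?_
  rw [← mul_assoc, ← mul_assoc, su_mul h, mul_assoc _ (dg v i) (su v s), mul_su h,
    smul_mul_assoc, smul_mul_assoc, mul_smul_comm]

theorem nontriv {τ : A →ₗ[ℂ] ℂ} (h : TW τ) : Nontrivial A := by
  refine ⟨⟨1, 0, fun h0 => ?_⟩⟩
  have := h.one
  rw [h0, map_zero] at this
  exact zero_ne_one this

end NGAM

open NGAM in
theorem p_NGAM (hMUL : S_MUL) : S_NGAM := by
  intro A _ τ hF hNG n x ε hε
  have hτ := hF.tw
  have := nontriv hτ
  set R : ℝ := 1 + ∑ i, ‖x i‖ with hR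
  have hsum0 : 0 ≤ ∑ i, ‖x i‖ := Finset.sum_nonneg fun i _ => norm_nonneg _
  have hRpos : 0 < R := by linarith
  have hxR : ∀ i, ‖x i‖ ≤ R := by
    intro i
    have := Finset.single_le_sum (f := fun i => ‖x i‖) (fun i _ => norm_nonneg _)
      (Finset.mem_univ i)
    linarith
  obtain ⟨k, c, hc, hM⟩ := hMUL n 1 (ε / (4 * R)) (by positivity)
  obtain ⟨v, g, hv, hvF⟩ := hM A τ hF (hNG k c hc) (fun i => ((R : ℂ)⁻¹) • x i) (by
    intro i
    rw [norm_smul, norm_inv, Complex.norm_real, Real.norm_eq_abs, abs_of_pos hRpos,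
      inv_mul_le_iff₀ hRpos, mul_one]
    exact hxR i)
  let s : Fin (2 ^ 1) → ℂ := fun j => if j.val = 0 then 1 else -1
  have hs1 : ∀ i, star (s i) = s i := by
    intro i
    simp only [s]
    split_ifs <;> simp
  have hs2 : ∀ i, s i * s i = 1 := by
    intro i
    simp only [s]
    split_ifs <;> simp
  have hs3 : ∑ i, s i = 0 := by
    show ∑ i : Fin 2, s i = 0
    rw [Fin.sum_univ_two]
    show (1 : ℂ) + (-1) = 0
    ring
  have hu : su v s ∈ unitary A := by
    rw [Unitary.mem_iff, su_star v s hs1]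
    exact ⟨su_sq hv s hs2, su_sq hv s hs2⟩
  refine ⟨⟨su v s, hu⟩, su_trace hτ hv s hs3, fun i => ?_⟩
  have hun : ‖su v s‖ ≤ 1 := (CStarRing.norm_of_mem_unitary hu).le
  set F : A := ((R : ℂ)⁻¹) • x i with hFdef
  have hx : x i = (R : ℂ) • F := by
    rw [hFdef, smul_smul, mul_inv_cancel₀ (by exact_mod_cast hRpos.ne'), one_smul]
  set D : A := F - pin (dg v) F with hD
  have hcm : cm (su v s) F = su v s * D - D * su v s := by
    unfold cm
    rw [hD, mul_sub, sub_mul, su_pin hv]
    abel
  have h1 : n2 τ (cm (su v s) F) ≤ 2 * (ε / (4 * R)) := by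
    rw [hcm]
    refine (hτ.n2_sub_le _ _).trans ?_
    have h2 := (n2_mul_le hτ (su v s) D).1
    have h3 := (n2_mul_le hτ (su v s) D).2
    have h4 : n2 τ D ≤ ε / (4 * R) := hvF i
    have h5 := n2_nonneg (τ : A → ℂ) D
    have h6 : ‖su v s‖ * n2 τ D ≤ n2 τ D := by nlinarith
    have h7 : n2 τ D * ‖su v s‖ ≤ n2 τ D := by nlinarith
    linarith
  have h2 : cm (su v s) (x i) = (R : ℂ) • cm (su v s) F := by
    rw [hx]
    unfold cm
    rw [mul_smul_comm, smul_mul_assoc, smul_sub]
  show n2 τ (cm (su v s) (x i)) < ε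
  rw [h2, n2_smul, Complex.norm_real, Real.norm_eq_abs, abs_of_pos hRpos]
  calc R * n2 τ (cm (su v s) F) ≤ R * (2 * (ε / (4 * R))) :=
        mul_le_mul_of_nonneg_left h1 hRpos.le
    _ = ε / 2 := by field_simp; ring
    _ < ε := by linarith

end Pool.Agent.H518R4.UG
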