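import Mathlib
import Pool.Agent.H711R2.KG.P.V1
import Pool.Agent.H711R2.KG.P.V2
import Pool.Agent.H711R2.KG.P.V3
import Pool.Agent.H711R2.KG.P.V4
import Pool.Agent.H711R2.KG.P.V5
import Pool.Agent.H711R2.KG.P.Q1
import Pool.Agent.H711R2.KG.P.Q2
import Pool.Agent.H711R2.KG.P.B1
import Pool.Agent.H711R2.KG.P.B2
import Pool.Agent.H445R2.Kad4.Range
import Pool.Agent.H85R2.Kad4.Polar
import Pool.Agent.H849R2.Kad4.F4

/-!
Two tracial states on a factor coincide (positive functionals given on all operators).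
-/

set_option autoImplicit false

open scoped ComplexOrder InnerProductSpace ComplexConjugate
open Finset

noncomputable section

namespace Pool.Agent.H518R4.UG.NORMa

open H759R2.Kad H711R2.KG

/-- Concrete von Neumann algebras. -/
theorem vmain : V_main.{0} :=
  p_V_main (p_V_spec prove5_range) (p_V_comp prove5_polar prove5_chain p_V_cent)
    (p_V_half prove5_chain (p_V_comp prove5_polar prove5_chain p_V_cent))

/-- Two tracial states on a fibre algebra coincide on self-adjoint elements. -/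
theorem uniq_sa {A : Type} [CStarAlgebra A] [PartialOrder A] [StarOrderedRing A] (hF : IsFib A)
    {τ τ' : A →ₗ[ℂ] ℂ} (hτ : IsTracialState τ) (hτ' : IsTracialState τ') (a : A)
    (ha : IsSelfAdjoint a) : τ' a = τ a := by
  have hD : HasDixmier τ := p_B_dix p_B_step A hF τ hτ
  -- `τ a` is real
  have hreal : (τ a).im = 0 := by
    have h1 : 0 ≤ a + algebraMap ℝ A ‖a‖ := by
      have := ha.neg_algebraMap_norm_le_self
      have h2 := add_le_add_left this (algebraMap ℝ A ‖a‖)
      simpa [add_comm] using h2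
    have h3 := H759R2.Kad.F06.tau_nonneg hτ h1
    rw [map_add] at h3
    have h4 : τ (algebraMap ℝ A ‖a‖) = (‖a‖ : ℂ) := by
      rw [Algebra.algebraMap_eq_smul_one]
      have : ‖a‖ • (1 : A) = (‖a‖ : ℂ) • (1 : A) := (Complex.coe_smul ‖a‖ (1 : A)).symm
      rw [this, map_smul, hτ.one, smul_eq_mul, mul_one]
    rw [h4, Complex.nonneg_iff] at h3
    have := h3.2
    simp at this
    exact this.symm
  have key : ∀ ε : ℝ, 0 < ε → ‖τ' a - τ a‖ ≤ ε := by
    intro ε hε
    obtain ⟨n, g, hg⟩ := hD a ha ε hε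
    set y : A := ((n + 1 : ℂ))⁻¹ • ∑ k, (g k : A) * a * star (g k : A) - algebraMap ℂ A (τ a)
      with hy
    have hn : ((n : ℂ) + 1) ≠ 0 := by exact_mod_cast Nat.succ_ne_zero n
    have hτy : τ' y = τ' a - τ a := by
      rw [hy, map_sub, map_smul, map_sum]
      have e1 : ∀ k, τ' ((g k : A) * a * star (g k : A)) = τ' a := by
        intro k
        rw [hτ'.comm, ← mul_assoc, Unitary.coe_star_mul_self, one_mul]
      rw [Finset.sum_congr rfl fun k _ => e1 k, Finset.sum_const, Finset.card_univ,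
        Fintype.card_fin, Algebra.algebraMap_eq_smul_one, map_smul, hτ'.one]
      simp only [nsmul_eq_mul, smul_eq_mul, mul_one]
      push_cast
      field_simp
    have hys : IsSelfAdjoint y := by
      rw [hy]
      refine IsSelfAdjoint.sub ?_ ?_
      · refine IsSelfAdjoint.smul ?_ ?_
        · rw [IsSelfAdjoint, star_inv₀, star_add, star_one, star_natCast]
        · rw [IsSelfAdjoint, star_sum]
          refine Finset.sum_congr rfl fun k _ => ?_
          rw [star_mul, star_mul, star_star, ha.star_eq, mul_assoc]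
      · rw [IsSelfAdjoint, ← algebraMap_star_comm]
        congr 1
        apply Complex.ext
        · simp
        · simp [hreal]
    have h1 : -(‖y‖ • (1 : A)) ≤ y := by
      rw [← Algebra.algebraMap_eq_smul_one]
      exact hys.neg_algebraMap_norm_le_self
    have h2 : y ≤ ‖y‖ • (1 : A) := by
      rw [← Algebra.algebraMap_eq_smul_one]
      exact hys.le_algebraMap_norm_self
    have h3 := H759R2.Kad.F06.tau_bound hτ' h1 h2
    rw [hτy] at h3
    exact h3.trans hg
  have h0 : ‖τ' a - τ a‖ ≤ 0 := le_of_forall_pos_le_add fun ε hε => by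
    have := key ε hε
    linarith
  exact sub_eq_zero.1 (norm_le_zero_iff.1 h0)

theorem uniq {A : Type} [CStarAlgebra A] [PartialOrder A] [StarOrderedRing A] (hF : IsFib A)
    {τ τ' : A →ₗ[ℂ] ℂ} (hτ : IsTracialState τ) (hτ' : IsTracialState τ') (a : A) :
    τ' a = τ a := by
  have h1 := uniq_sa hF hτ hτ' (realPart a : A) (realPart a).2
  have h2 := uniq_sa hF hτ hτ' (imaginaryPart a : A) (imaginaryPart a).2
  have h3 : a = (realPart a : A) + Complex.I • (imaginaryPart a : A) :=
    (realPart_add_I_smul_imaginaryPart a).symm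
  rw [h3, map_add, map_add, map_smul, map_smul, h1, h2]

/-- Two tracial states on a factor coincide. -/
theorem uniq_vn {H : Type} [NormedAddCommGroup H] [InnerProductSpace ℂ H] [CompleteSpace H]
    (M : VonNeumannAlgebra H) (hne : (1 : H →L[ℂ] H) ≠ 0)
    (hz : ∀ z ∈ M, (∀ x ∈ M, z * x = x * z) → ∃ c : ℂ, z = algebraMap ℂ (H →L[ℂ] H) c)
    (θ θ' : (H →L[ℂ] H) →ₗ[ℂ] ℂ) (h1 : θ 1 = 1) (hp : ∀ x ∈ M, 0 ≤ θ (star x * x))
    (ht : ∀ x ∈ M, ∀ y ∈ M, θ (x * y) = θ (y * x))
    (h1' : θ' 1 = 1) (hp' : ∀ x ∈ M, 0 ≤ θ' (star x * x))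
    (ht' : ∀ x ∈ M, ∀ y ∈ M, θ' (x * y) = θ' (y * x)) : ∀ x ∈ M, θ' x = θ x := by
  letI P : PartialOrder M.toStarSubalgebra := CStarAlgebra.spectralOrder M.toStarSubalgebra
  haveI S : StarOrderedRing M.toStarSubalgebra :=
    CStarAlgebra.spectralOrderedRing M.toStarSubalgebra
  have hM : IsVN M.toStarSubalgebra := vmain H M
  have hB : IsFib M.toStarSubalgebra := by
    refine p_Q_fib p_Q_lift M.toStarSubalgebra M.toStarSubalgebra
      (StarAlgHom.id ℂ M.toStarSubalgebra) hM Function.surjective_id ?_ ?_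
    · intro h
      exact hne (congrArg Subtype.val h)
    · intro z hz'
      obtain ⟨c, hc⟩ := hz (z : H →L[ℂ] H) z.2 (fun x hx => congrArg Subtype.val (hz' ⟨x, hx⟩))
      refine ⟨c, ?_⟩
      apply Subtype.ext
      exact hc
  have hτ : IsTracialState (θ ∘ₗ M.toStarSubalgebra.subtype.toAlgHom.toLinearMap :
      M.toStarSubalgebra →ₗ[ℂ] ℂ) :=
    ⟨h1, fun a => hp a a.2, fun a b => ht a a.2 b b.2⟩
  have hτ' : IsTracialState (θ' ∘ₗ M.toStarSubalgebra.subtype.toAlgHom.toLinearMap :
      M.toStarSubalgebra →ₗ[ℂ] ℂ) :=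
    ⟨h1', fun a => hp' a a.2, fun a b => ht' a a.2 b b.2⟩
  intro x hx
  exact uniq hB hτ hτ' ⟨x, hx⟩

end Pool.Agent.H518R4.UG.NORMa
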