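import Mathlib
import Pool.Agent.H518R4.UG.Stubs
import Pool.Agent.H518R4.UG.NORMa
import Pool.Agent.H917R2.Tr.All

/-!
NORM: a faithful tracial state on an infinite dimensional factor on `ℓ²` is normal.
-/

set_option autoImplicit false

open scoped ComplexOrder Topology InnerProductSpace
open Filter

noncomputable section

namespace Pool.Agent.H518R4.UG

open Pool.Agent.H467F

namespace NORMx

open TopologicalSpace in
theorem sep : SeparableSpace (lp (fun _ : ℕ => ℂ) 2) := by
  rw [← isSeparable_univ_iff]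
  have h1 : IsSeparable ((Submodule.span ℂ (Set.range fun n : ℕ =>
      (lp.single 2 n (1 : ℂ) : lp (fun _ : ℕ => ℂ) 2)) :
      Submodule ℂ (lp (fun _ : ℕ => ℂ) 2)) : Set (lp (fun _ : ℕ => ℂ) 2)) :=
    (Set.countable_range _).isSeparable.span
  refine h1.closure.mono ?_
  intro f _
  have h2 := lp.hasSum_single (E := fun _ : ℕ => ℂ) (p := 2) (by norm_num) f
  refine mem_closure_of_tendsto h2.tendsto_sum_nat (Eventually.of_forall fun n => ?_)
  refine Submodule.sum_mem _ (fun i _ => ?_)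
  have h3 : (lp.single 2 i (f i) : lp (fun _ : ℕ => ℂ) 2) =
      (f i) • (lp.single 2 i (1 : ℂ) : lp (fun _ : ℕ => ℂ) 2) := by
    rw [← lp.single_smul]
    simp
  rw [h3]
  exact Submodule.smul_mem _ _ (Submodule.subset_span ⟨i, rfl⟩)

theorem nontriv : Nontrivial (lp (fun _ : ℕ => ℂ) 2) := by
  refine ⟨lp.single 2 0 (1 : ℂ), 0, fun h => ?_⟩
  have := congrArg (fun f : lp (fun _ : ℕ => ℂ) 2 => (f : ℕ → ℂ) 0) h
  simp at this

end NORMx

theorem p_NORM : S_NORM := by
  intro N τ hc hinf h1 hpos htr hfa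
  haveI := NORMx.sep
  haveI := NORMx.nontriv
  have hone : (1 : lp (fun _ : ℕ => ℂ) 2 →L[ℂ] lp (fun _ : ℕ => ℂ) 2) ≠ 0 := one_ne_zero
  have hpos' : ∀ x ∈ N, 0 ≤ τ (star x * x) := by
    intro x hx
    rw [Complex.nonneg_iff]
    exact ⟨(hpos x hx).2, (hpos x hx).1.symm⟩
  -- `N` is finite
  have hfin : ∀ v ∈ N, star v * v = 1 → v * star v = 1 := by
    intro v hv hvv
    have hsv : star v ∈ N := N.star_mem' hv
    have hy : (1 - v * star v) ∈ N := N.toStarSubalgebra.sub_mem (one_mem _)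
      (N.toStarSubalgebra.mul_mem hv hsv)
    have e1 : star (1 - v * star v) * (1 - v * star v) = 1 - v * star v := by
      rw [star_sub, star_one, star_mul, star_star, sub_mul, mul_sub, mul_sub, one_mul, one_mul,
        mul_one]
      have : v * star v * (v * star v) = v * star v := by
        calc v * star v * (v * star v) = v * (star v * v) * star v := by noncomm_ring
          _ = v * star v := by rw [hvv, mul_one]
      rw [this]
      abel
    have e2 : τ (star (1 - v * star v) * (1 - v * star v)) = 0 := by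
      rw [e1, map_sub, htr v hv (star v) hsv, hvv, sub_self]
    exact (sub_eq_zero.1 (hfa _ hy e2)).symm
  obtain ⟨ξ, hξ, hv1, hvtr, hvfa⟩ := H917R2.Tr.tr_main (lp (fun _ : ℕ => ℂ) 2) N hfin
  obtain ⟨-, hadd, hsmul, -, hmu⟩ := H677R2.Tr.p_R_vf (lp (fun _ : ℕ => ℂ) 2) ξ hξ
  have hvpos : ∀ x ∈ N, 0 ≤ H917R2.Tr.vf ξ (star x * x) := by
    intro x _
    rw [hmu x]
    have h0 : 0 ≤ H917R2.Tr.mu ξ x := tsum_nonneg fun k => by positivity
    exact_mod_cast h0
  let θ' : (lp (fun _ : ℕ => ℂ) 2 →L[ℂ] lp (fun _ : ℕ => ℂ) 2) →ₗ[ℂ] ℂ :=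
    { toFun := H917R2.Tr.vf ξ
      map_add' := hadd
      map_smul' := fun a x => by rw [hsmul, RingHom.id_apply, smul_eq_mul] }
  have huniq : ∀ x ∈ N, θ' x = τ x :=
    NORMa.uniq_vn N hone hc τ θ' h1 hpos' htr hv1 hvpos hvtr
  refine ⟨{ toFun := fun x => τ (x : lp (fun _ : ℕ => ℂ) 2 →L[ℂ] lp (fun _ : ℕ => ℂ) 2)
            map_add' := fun x y => map_add τ _ _
            map_smul' := fun c x => map_smul τ c _ }, ⟨?_, ?_, ⟨?_, ?_, ?_⟩, ?_⟩, fun x => rfl⟩
  · intro z hz hzc
    obtain ⟨c, hcz⟩ := hc z hz hzc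
    exact ⟨c, by rw [hcz, Algebra.algebraMap_eq_smul_one]⟩
  · intro hfd
    obtain ⟨f, hfN, hfl⟩ := hinf (Module.finrank ℂ (Elt N) + 1)
    let g : Fin (Module.finrank ℂ (Elt N) + 1) → Elt N := fun k => ⟨f k, hfN k⟩
    have hg : LinearIndependent ℂ g := by
      refine LinearIndependent.of_comp N.toStarSubalgebra.subtype.toAlgHom.toLinearMap ?_
      exact hfl
    have := hg.fintype_card_le_finrank
    rw [Fintype.card_fin] at this
    omega
  · exact h1
  · intro x y
    exact htr x x.2 y y.2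
  · intro x hx
    exact Subtype.ext (hfa x x.2 hx)
  · exact ⟨ξ, hξ, fun x => (huniq x x.2).symm⟩

end Pool.Agent.H518R4.UG
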