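import Mathlib
import Pool.Agent.H518R4.UG.Stubs

/-!
Task PACK: without universal spectral gap a long tuple with gap can be shortened.
-/

set_option autoImplicit false

open scoped ComplexOrder Topology InnerProductSpace
open Filter

noncomputable section

namespace Pool.Agent.H518R4.UG

open Pool.Agent.H467F

namespace PACK

variable {A : Type} [CStarAlgebra A]

theorem nontriv {τ : A →ₗ[ℂ] ℂ} (h : TW τ) : Nontrivial A := by
  refine ⟨⟨1, 0, fun h0 => ?_⟩⟩
  have := h.one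
  rw [h0, map_zero] at this
  exact zero_ne_one this

/-- the padded family -/
def pad {K : ℕ} (u : Fin K → unitary A) (m : ℕ) (i : Fin m) : unitary A :=
  if h : i.val < K then u ⟨i.val, h⟩ else 1

theorem sum_pad {K m : ℕ} (hKm : K ≤ m) (u : Fin K → unitary A) (φ : unitary A → ℝ)
    (hφ : ∀ x, 0 ≤ φ x) : ∑ i, φ (u i) ≤ ∑ i, φ (pad u m i) := by
  have h1 : ∑ i, φ (u i) = ∑ i ∈ Finset.univ.map (Fin.castLEEmb hKm), φ (pad u m i) := by
    rw [Finset.sum_map]
    refine Finset.sum_congr rfl fun i _ => ?_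
    congr 1
    have h2 : (Fin.castLEEmb hKm i).val < K := i.2
    unfold pad
    rw [dif_pos h2]
    rfl
  rw [h1]
  exact Finset.sum_le_sum_of_subset_of_nonneg (Finset.subset_univ _) fun i _ _ => hφ _

end PACK

open PACK in
theorem p_PACK (hMUL : S_MUL) (hBLOCK : S_BLOCK) : S_PACK := by
  obtain ⟨L, C, η, hL, hC, hη, hB⟩ := hBLOCK
  have hLr : (0 : ℝ) < L := by exact_mod_cast hL
  refine ⟨L, 1 / (4 * C * L), hL, by positivity, fun a => ?_⟩
  have hr0 : (0 : ℝ) < 2 ^ a := by positivity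
  obtain ⟨k, c, hc, hM⟩ := hMUL (2 ^ a) a (Real.sqrt (η / 2 ^ a)) (Real.sqrt_pos.2 (by positivity))
  refine ⟨k, c, hc, fun A _ τ hF hNG K u hK hAG => ?_⟩
  have hτ := hF.tw
  have := nontriv hτ
  -- number of blocks
  set r : ℕ := 2 ^ a with hr
  have hrpos : 0 < r := by rw [hr]; positivity
  set Bn : ℕ := (K + r - 1) / r with hBn
  have hB1 : K ≤ Bn * r := by
    have h1 := Nat.lt_div_mul_add (a := K + r - 1) hrpos
    have h2 : (K + r - 1) / r * r + r ≥ K + r := by omega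
    rw [hBn]
    omega
  have hB2 : Bn * r ≤ 2 * K := by
    have h1 := Nat.div_mul_le_self (K + r - 1) r
    rw [hBn]
    omega
  have hBpos : 0 < Bn := by
    rcases Nat.eq_zero_or_pos Bn with h0 | h0
    · rw [h0, zero_mul] at hB1
      omega
    · exact h0
  -- the blocks
  let U : Fin Bn → Fin r → unitary A := fun b s => pad u (Bn * r) (finProdFinEquiv (b, s))
  have hblock : ∀ b : Fin Bn, ∃ w : Fin L → unitary A, ∀ y : A,
      ∑ s, n2 τ (cm (U b s : A) y) ^ 2 ≤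
        (2 : ℝ) ^ a * ((1 / 20) * n2 τ y ^ 2 + C * ∑ i, n2 τ (cm (w i : A) y) ^ 2) := by
    intro b
    have hU1 : ∀ s, ‖(U b s : A)‖ ≤ 1 := fun s => (CStarRing.norm_coe_unitary (U b s)).le
    obtain ⟨v, g, hv, hvF⟩ := hM A τ hF hNG (fun s => (U b s : A)) hU1
    refine hB a A τ hF v g hv (fun s => (U b s : A)) hU1 fun s => ?_
    have h1 := hvF s
    have h2 : n2 τ ((U b s : A) - pin (dg v) (U b s : A)) ^ 2 ≤ η / 2 ^ a := by
      have h3 := pow_le_pow_left₀ (n2_nonneg (τ : A → ℂ) _) h1 2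
      rwa [Real.sq_sqrt (by positivity)] at h3
    calc (2 : ℝ) ^ a * n2 τ ((U b s : A) - pin (dg v) (U b s : A)) ^ 2
        ≤ (2 : ℝ) ^ a * (η / 2 ^ a) := mul_le_mul_of_nonneg_left h2 hr0.le
      _ = η := by field_simp
  choose w hw using hblock
  refine ⟨Bn * L, Nat.mul_pos hBpos hL, ?_, fun i => w (finProdFinEquiv.symm i).1
    (finProdFinEquiv.symm i).2, ?_⟩
  · calc r * (Bn * L) = Bn * r * L := by ring
      _ ≤ 2 * K * L := Nat.mul_le_mul_right L hB2
  · intro y hy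
    have h1 := hAG y hy
    rw [Fintype.card_fin, one_mul] at h1
    rw [Fintype.card_fin]
    have h2 : ∑ i : Fin (Bn * L), n2 τ (cm ((w (finProdFinEquiv.symm i).1
        (finProdFinEquiv.symm i).2 : unitary A) : A) y) ^ 2 =
        ∑ b, ∑ i, n2 τ (cm (w b i : A) y) ^ 2 := by
      rw [← Fintype.sum_prod_type']
      exact Equiv.sum_comp finProdFinEquiv.symm
        (fun p : Fin Bn × Fin L => n2 τ (cm ((w p.1 p.2 : unitary A) : A) y) ^ 2)
    rw [h2]
    have h3 : ∑ i, n2 τ (cm (u i : A) y) ^ 2 ≤ ∑ b, ∑ s, n2 τ (cm (U b s : A) y) ^ 2 := by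
      refine (sum_pad hB1 u (fun x => n2 τ (cm (x : A) y) ^ 2) fun x => by positivity).trans
        (le_of_eq ?_)
      rw [← Fintype.sum_prod_type']
      exact (Equiv.sum_comp finProdFinEquiv
        (fun i => n2 τ (cm ((pad u (Bn * r) i : unitary A) : A) y) ^ 2)).symm
    have h4 : ∑ b, ∑ s, n2 τ (cm (U b s : A) y) ^ 2 ≤
        ∑ b, (2 : ℝ) ^ a * ((1 / 20) * n2 τ y ^ 2 + C * ∑ i, n2 τ (cm (w b i : A) y) ^ 2) :=
      Finset.sum_le_sum fun b _ => hw b y
    have h5 : ∑ b : Fin Bn, (2 : ℝ) ^ a *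
        ((1 / 20) * n2 τ y ^ 2 + C * ∑ i, n2 τ (cm (w b i : A) y) ^ 2) =
        (Bn : ℝ) * (2 : ℝ) ^ a * ((1 / 20) * n2 τ y ^ 2) +
          (2 : ℝ) ^ a * C * ∑ b, ∑ i, n2 τ (cm (w b i : A) y) ^ 2 := by
      rw [← Finset.mul_sum, Finset.sum_add_distrib, Finset.sum_const, Finset.card_univ,
        Fintype.card_fin, nsmul_eq_mul, ← Finset.mul_sum]
      ring
    rw [h5] at h4
    set S : ℝ := ∑ b, ∑ i, n2 τ (cm (w b i : A) y) ^ 2 with hS
    set Y : ℝ := n2 τ y ^ 2 with hY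
    have hY0 : 0 ≤ Y := by positivity
    have hB2r : (Bn : ℝ) * 2 ^ a ≤ 2 * K := by
      have : ((Bn * r : ℕ) : ℝ) ≤ ((2 * K : ℕ) : ℝ) := by exact_mod_cast hB2
      rw [hr] at this
      push_cast at this
      exact this
    have h6 : (K : ℝ) * Y ≤ 2 * K * (1 / 20 * Y) + 2 ^ a * C * S := by
      have h7 : (Bn : ℝ) * 2 ^ a * (1 / 20 * Y) ≤ 2 * K * (1 / 20 * Y) :=
        mul_le_mul_of_nonneg_right hB2r (by positivity)
      linarith
    -- (9/10) K Y ≤ r C S
    have h8 : (9 / 10 : ℝ) * K * Y ≤ 2 ^ a * C * S := by linarith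
    -- the claim
    have h9 : (Bn : ℝ) * Y * 2 ^ a ≤ 2 * K * Y := by
      have := mul_le_mul_of_nonneg_right hB2r hY0
      linarith
    have h10 : (Bn : ℝ) * Y * 2 ^ a ≤ 4 * C * S * 2 ^ a := by
      have h11 : 2 * (K : ℝ) * Y ≤ 4 * (2 ^ a * C * S) := by nlinarith
      linarith
    have h12 : (Bn : ℝ) * Y ≤ 4 * C * S := le_of_mul_le_mul_right h10 hr0
    calc 1 / (4 * C * L) * ((Bn * L : ℕ) : ℝ) * Y = (Bn * Y) / (4 * C) := by
          push_cast
          field_simp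
      _ ≤ (4 * C * S) / (4 * C) := div_le_div_of_nonneg_right h12 (by positivity)
      _ = S := by field_simp

end Pool.Agent.H518R4.UG
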