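import Pool.Agent.H518R4.UG.Stubs

set_option autoImplicit false

open scoped ComplexOrder Topology InnerProductSpace
open Filter

noncomputable section

namespace Pool.Agent.H518R4.UG

open Pool.Agent.H467F

theorem PARS_char (n : ℕ) [NeZero n] (c : ZMod n) :
    ∑ b : ZMod n, (ZMod.stdAddChar (b * c) : ℂ) = if c = 0 then (n : ℂ) else 0 := by
  have h := AddChar.sum_mulShift (R := ZMod n) (R' := ℂ) (ψ := ZMod.stdAddChar) c
    (ZMod.isPrimitive_stdAddChar n)
  rw [h, ZMod.card]
  split_ifs <;> simp

theorem PARS_conj (n : ℕ) [NeZero n] (x y : ZMod n) :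
    (ZMod.stdAddChar x : ℂ) * (starRingEnd ℂ) (ZMod.stdAddChar y) = ZMod.stdAddChar (x - y) := by
  rw [sub_eq_add_neg, AddChar.map_add_eq_mul, AddChar.map_neg_eq_conj]

theorem p_PARS : S_PARS := by
  intro A _ τ hτ n _ v g hv y
  have hn : (n : ℂ) ≠ 0 := by exact_mod_cast NeZero.ne n
  have hvg : ∀ j, v j * g = v j := by
    intro j
    have h : (∑ i, v i * star (v i)) * v j = v j := by rw [hv.sum, one_mul]
    rw [Finset.sum_mul, Finset.sum_eq_single j] at h
    · rwa [mul_assoc, hv.ini j] at h
    · intro i _ hij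
      rw [mul_assoc, hv.ort i j hij, mul_zero]
    · intro h; exact absurd (Finset.mem_univ _) h
  have hgs : star g = g := by
    rw [← hv.ini 0, star_mul, star_star]
  have hgv : ∀ j, g * star (v j) = star (v j) := by
    intro j
    have := congrArg star (hvg j)
    rwa [star_mul, hgs] at this
  set Y : ZMod n → ZMod n → A := fun a j => star (v (j + a)) * y * v j with hY
  have h1 : ∀ a b j, star (v j) * star (Wy v a b) =
      ((starRingEnd ℂ) (ZMod.stdAddChar (b * j) : ℂ)) • star (v (j + a)) := by
    intro a b j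
    have e : star (Wy v a b) = ∑ i, ((starRingEnd ℂ) (ZMod.stdAddChar (b * i) : ℂ)) •
        (v i * star (v (i + a))) := by
      unfold Wy
      rw [star_sum]
      refine Finset.sum_congr rfl fun i _ => ?_
      rw [star_smul, star_mul, star_star]
      rfl
    rw [e, Finset.mul_sum, Finset.sum_eq_single j]
    · rw [mul_smul_comm, ← mul_assoc, hv.ini j, hgv]
    · intro i _ hij
      rw [mul_smul_comm, ← mul_assoc, hv.ort j i (Ne.symm hij), zero_mul, smul_zero]
    · intro h; exact absurd (Finset.mem_univ _) h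
  have h2 : ∀ a b, dn v (star (Wy v a b) * y) =
      (n : ℂ)⁻¹ • ∑ j, ((starRingEnd ℂ) (ZMod.stdAddChar (b * j) : ℂ)) • Y a j := by
    intro a b
    unfold dn
    rw [ZMod.card]
    congr 1
    refine Finset.sum_congr rfl fun j _ => ?_
    rw [← mul_assoc, h1, smul_mul_assoc, smul_mul_assoc]
  have hgY : ∀ a j, g * Y a j = Y a j := by
    intro a j
    rw [hY]
    simp only [← mul_assoc, hgv]
  have hYg : ∀ a j, Y a j * g = Y a j := by
    intro a j
    rw [hY]
    simp only [mul_assoc, hvg]
  have h3 : ∀ x : A, g * x = x → x * g = x →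
      τ (star (lift v x) * lift v x) = n * τ (star x * x) := by
    intro x hx hx'
    have e : star (lift v x) * lift v x = ∑ i, v i * (star x * x) * star (v i) := by
      unfold lift
      rw [star_sum, Finset.sum_mul]
      refine Finset.sum_congr rfl fun i _ => ?_
      rw [Finset.mul_sum, Finset.sum_eq_single i]
      · rw [star_mul, star_mul, star_star]
        calc v i * (star x * star (v i)) * (v i * x * star (v i))
            = v i * star x * (star (v i) * v i) * x * star (v i) := by noncomm_ring
          _ = v i * star x * (g * x) * star (v i) := by rw [hv.ini i]; noncomm_ring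
          _ = _ := by rw [hx]; noncomm_ring
      · intro j _ hij
        rw [star_mul, star_mul, star_star]
        calc v i * (star x * star (v i)) * (v j * x * star (v j))
            = v i * star x * (star (v i) * v j) * x * star (v j) := by noncomm_ring
          _ = 0 := by rw [hv.ort i j (Ne.symm hij)]; simp
      · intro h; exact absurd (Finset.mem_univ _) h
    rw [e, map_sum]
    have e2 : ∀ i, τ (v i * (star x * x) * star (v i)) = τ (star x * x) := by
      intro i
      rw [mul_assoc, hτ.comm, mul_assoc, hv.ini i, mul_assoc, hx']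
    rw [Finset.sum_congr rfl fun i _ => e2 i]
    simp [ZMod.card]
  have h4 : ∀ a b, τ (star (EM v (star (Wy v a b) * y)) * EM v (star (Wy v a b) * y)) =
      (n : ℂ)⁻¹ * ∑ j, ∑ k, (ZMod.stdAddChar (b * (j - k)) : ℂ) * τ (star (Y a j) * Y a k) := by
    intro a b
    unfold EM
    rw [h3, h2]
    · rw [star_smul, smul_mul_smul_comm, map_smul, star_sum, Finset.sum_mul, map_sum, smul_eq_mul]
      have e3 : ∀ j, τ (star (((starRingEnd ℂ) (ZMod.stdAddChar (b * j) : ℂ)) • Y a j) *
          ∑ k, ((starRingEnd ℂ) (ZMod.stdAddChar (b * k) : ℂ)) • Y a k) =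
          ∑ k, (ZMod.stdAddChar (b * (j - k)) : ℂ) * τ (star (Y a j) * Y a k) := by
        intro j
        rw [Finset.mul_sum, map_sum]
        refine Finset.sum_congr rfl fun k _ => ?_
        rw [star_smul, smul_mul_smul_comm, map_smul, smul_eq_mul, mul_sub, ← PARS_conj]
        simp
      rw [Finset.sum_congr rfl fun j _ => e3 j]
      have e4 : star ((n : ℂ)⁻¹) = (n : ℂ)⁻¹ := by simp
      rw [e4, ← mul_assoc]
      congr 1
      field_simp
    · rw [h2, mul_smul_comm, Finset.mul_sum]
      congr 1
      refine Finset.sum_congr rfl fun j _ => ?_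
      rw [mul_smul_comm, hgY]
    · rw [h2, smul_mul_assoc, Finset.sum_mul]
      congr 1
      refine Finset.sum_congr rfl fun j _ => ?_
      rw [smul_mul_assoc, hYg]
  have h5 : ∀ a, ∑ b, τ (star (EM v (star (Wy v a b) * y)) * EM v (star (Wy v a b) * y)) =
      ∑ j, τ (star (Y a j) * Y a j) := by
    intro a
    rw [Finset.sum_congr rfl fun b _ => h4 a b, ← Finset.mul_sum, Finset.sum_comm,
      Finset.mul_sum]
    refine Finset.sum_congr rfl fun j _ => ?_
    rw [Finset.sum_comm]
    have e5 : ∀ k, ∑ b, (ZMod.stdAddChar (b * (j - k)) : ℂ) * τ (star (Y a j) * Y a k) =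
        if k = j then (n : ℂ) * τ (star (Y a j) * Y a k) else 0 := by
      intro k
      rw [← Finset.sum_mul, PARS_char]
      by_cases hk : k = j
      · subst hk; simp
      · have : j - k ≠ 0 := sub_ne_zero.2 (Ne.symm hk)
        simp [this, hk]
    rw [Finset.sum_congr rfl fun k _ => e5 k, Finset.sum_ite_eq' Finset.univ j]
    simp only [Finset.mem_univ, if_true]
    rw [← mul_assoc, inv_mul_cancel₀ hn, one_mul]
  have h6 : ∑ a, ∑ j, τ (star (Y a j) * Y a j) = τ (star y * y) := by
    rw [Finset.sum_comm]
    have e6 : ∀ j, ∑ a, τ (star (Y a j) * Y a j) = τ (star y * y * (v j * star (v j))) := by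
      intro j
      have e7 : ∀ a, star (Y a j) * Y a j =
          star (v j) * star y * (v (j + a) * star (v (j + a))) * y * v j := by
        intro a
        rw [hY]
        simp only [star_mul, star_star]
        noncomm_ring
      rw [Finset.sum_congr rfl fun a _ => congrArg τ (e7 a), ← map_sum]
      rw [← Finset.sum_mul, ← Finset.sum_mul, ← Finset.mul_sum]
      have e8 : ∑ a, v (j + a) * star (v (j + a)) = 1 := by
        rw [← hv.sum]
        exact Fintype.sum_equiv (Equiv.addLeft j) _ _ fun a => rfl
      rw [e8, mul_one, hτ.comm]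
      rw [show v j * (star (v j) * star y * y) = (v j * star (v j)) * (star y * y) by noncomm_ring]
      rw [hτ.comm]
    rw [Finset.sum_congr rfl fun j _ => e6 j, ← map_sum, ← Finset.mul_sum, hv.sum, mul_one]
  have h7 : ((∑ w : ZMod n × ZMod n, n2 τ (EM v (star (Wy v w.1 w.2) * y)) ^ 2 : ℝ) : ℂ) =
      ((n2 τ y ^ 2 : ℝ) : ℂ) := by
    rw [← hτ.n2_sq', ← h6, Complex.ofReal_sum, Fintype.sum_prod_type]
    refine Finset.sum_congr rfl fun a _ => ?_
    rw [← h5]
    refine Finset.sum_congr rfl fun b _ => ?_
    rw [hτ.n2_sq']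
  exact_mod_cast h7

end Pool.Agent.H518R4.UG
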