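import Pool.Agent.H518R4.UG.Stubs

/-! PART: almost commuting partitions of the unit in small pieces (helper747). -/

set_option autoImplicit false

open scoped ComplexOrder Topology
open Filter

noncomputable section

namespace Pool.Agent.H518R4.UG

open Pool.Agent.H467F

section partaux

variable {A : Type} [CStarAlgebra A]

theorem PART_NG_mono {τ : A →ₗ[ℂ] ℂ} {k k' : ℕ} {c c' : ℝ} (h : NG τ k c) (hk : k' ≤ k)
    (hc : c ≤ c') : NG τ k' c' := by
  classical
  intro x hx
  obtain ⟨y, hy, hlt⟩ := h (fun i => if hi : (i : ℕ) < k' then x ⟨i, hi⟩ else 0) (fun i => by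
    split_ifs with hi
    · exact hx _
    · rw [norm_zero]; exact zero_le_one)
  refine ⟨y, hy, ?_⟩
  have h1 : ∑ i : Fin k', n2 τ (cm (x i) y) ^ 2 ≤
      ∑ i : Fin k, n2 τ (cm (if hi : (i : ℕ) < k' then x ⟨i, hi⟩ else 0) y) ^ 2 := by
    have e1 : ∑ i : Fin k', n2 τ (cm (x i) y) ^ 2 = ∑ i ∈ Finset.univ.map (Fin.castLEEmb hk),
        n2 τ (cm (if hi : (i : ℕ) < k' then x ⟨i, hi⟩ else 0) y) ^ 2 := by
      rw [Finset.sum_map]
      refine Finset.sum_congr rfl fun i _ => ?_
      have hi : ((Fin.castLEEmb hk i : Fin k) : ℕ) < k' := i.2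
      rw [dif_pos hi]
      rfl
    rw [e1]
    exact Finset.sum_le_sum_of_subset_of_nonneg (Finset.subset_univ _) fun i _ _ => sq_nonneg _
  have h2 : c * n2 τ y ^ 2 ≤ c' * n2 τ y ^ 2 := mul_le_mul_of_nonneg_right hc (sq_nonneg _)
  linarith

theorem PART_single {e : A} (he : IsPrj e) : IsPart (fun _ : Fin 1 => e) e where
  prj _ := he
  ort i j h := absurd (Subsingleton.elim i j) h
  sum := by simp

theorem PART_pin_single (e f : A) : pin (fun _ : Fin 1 => e) f = e * f * e := by
  simp [pin]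

theorem PART_reindex {J J' : Type} [Fintype J] [Fintype J'] (g : J' ≃ J) {q : J → A} {e : A}
    (h : IsPart q e) : IsPart (fun a => q (g a)) e where
  prj a := h.prj (g a)
  ort a b hab := h.ort _ _ (fun h' => hab (g.injective h'))
  sum := by
    rw [← h.sum]
    exact Equiv.sum_comp g q

theorem PART_pin_reindex {J J' : Type} [Fintype J] [Fintype J'] (g : J' ≃ J) (q : J → A) (f : A) :
    pin (fun a => q (g a)) f = pin q f :=
  Equiv.sum_comp g (fun j => q j * f * q j)

theorem PART_tr_nonneg {τ : A →ₗ[ℂ] ℂ} (h : TW τ) {p : A} (hp : IsPrj p) : 0 ≤ (τ p).re := by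
  have h1 := h.re_nonneg p
  rwa [hp.1, hp.2] at h1

end partaux

theorem p_PART (hH : S_HALVE) (hP : S_PYTH) : S_PART := by
  classical
  intro n m
  induction m with
  | zero =>
    intro ε hε
    refine ⟨0, 1, one_pos, fun A _ τ hF _ F _ => ⟨1, fun _ => 1, ?_, ?_, ?_⟩⟩
    · exact PART_single ⟨star_one _, one_mul _⟩
    · intro _
      rw [hF.tw.one]
      simp
    · simp only [PART_pin_single, one_mul, mul_one, sub_self, n2_zero]
      simp [hε.le]
  | succ m ih =>
    intro ε hε
    obtain ⟨ρ, hρ⟩ : ∃ ρ : ℝ, ρ = (1 / 2) ^ (m + 1) := ⟨_, rfl⟩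
    have hρ0 : 0 < ρ := by rw [hρ]; positivity
    obtain ⟨k1, c1, hc1, h1⟩ := ih (ε / 2) (by positivity)
    obtain ⟨k2, c2, hc2, h2⟩ := hH n ρ (ρ * ε / 2) hρ0 (by positivity)
    refine ⟨max k1 k2, min c1 c2, lt_min hc1 hc2, fun A _ τ hF hNG F hFn => ?_⟩
    obtain ⟨M, q, hq, htr, hen⟩ := h1 A τ hF
      (PART_NG_mono hNG (le_max_left _ _) (min_le_left _ _)) F hFn
    have hNG2 := PART_NG_mono hNG (le_max_right k1 k2) (min_le_right c1 c2)
    have hex : ∀ j : Fin M, ∃ (L : ℕ) (s : Fin L → A), IsPart s (q j) ∧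
        (∀ l, (τ (s l)).re ≤ (1 / 2) ^ (m + 1)) ∧
        ∑ i, n2 τ (q j * F i * q j - pin s (F i)) ^ 2 ≤ (τ (q j)).re * (ε / 2) := by
      intro j
      have h0 := PART_tr_nonneg hF.tw (hq.prj j)
      by_cases hj : ρ ≤ (τ (q j)).re
      · obtain ⟨L, s, hs, hs2, hs3⟩ := h2 A τ hF hNG2 F hFn (q j) (hq.prj j) hj
        refine ⟨L, s, hs, fun l => ?_, ?_⟩
        · have h3 := hs2 l
          have h4 := htr j
          rw [pow_succ]
          linarith
        · refine hs3.trans ?_
          have : ρ * (ε / 2) ≤ (τ (q j)).re * (ε / 2) :=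
            mul_le_mul_of_nonneg_right hj (by positivity)
          linarith
      · push Not at hj
        refine ⟨1, fun _ => q j, PART_single (hq.prj j), fun _ => by rw [← hρ]; exact hj.le, ?_⟩
        simp only [PART_pin_single, sub_self, n2_zero]
        have : 0 ≤ (τ (q j)).re * (ε / 2) := by positivity
        simpa using this
    choose L s hs hs2 hs3 using hex
    have hone : IsPrj (1 : A) := ⟨star_one _, one_mul _⟩
    have hpy := fun f => hP A τ hF.tw (Fin M) (fun j => Fin (L j)) 1 q s f hone hq hs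
    let g : Fin (Fintype.card (Σ j : Fin M, Fin (L j))) ≃ (Σ j : Fin M, Fin (L j)) :=
      (Fintype.equivFin _).symm
    refine ⟨Fintype.card (Σ j : Fin M, Fin (L j)), fun a => s (g a).1 (g a).2, ?_, ?_, ?_⟩
    · exact PART_reindex g (hpy 0).1
    · intro a
      exact hs2 _ _
    · have e1 : ∀ i, n2 τ (F i - pin (fun a => s (g a).1 (g a).2) (F i)) ^ 2 =
          n2 τ (F i - pin q (F i)) ^ 2 +
            ∑ j, n2 τ (q j * F i * q j - pin (s j) (F i)) ^ 2 := by
        intro i
        have h3 := (hpy (F i)).2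
        rw [one_mul, mul_one] at h3
        rw [← h3, PART_pin_reindex g (fun a : Σ j : Fin M, Fin (L j) => s a.1 a.2)]
      rw [Finset.sum_congr rfl fun i _ => e1 i, Finset.sum_add_distrib, Finset.sum_comm]
      have h4 : ∑ j, ∑ i, n2 τ (q j * F i * q j - pin (s j) (F i)) ^ 2 ≤ ε / 2 := by
        refine (Finset.sum_le_sum fun j _ => hs3 j).trans ?_
        rw [← Finset.sum_mul]
        have h5 : ∑ j, (τ (q j)).re = 1 := by
          rw [← Complex.re_sum, ← map_sum, hq.sum, hF.tw.one, Complex.one_re]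
        rw [h5, one_mul]
      linarith

end Pool.Agent.H518R4.UG
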