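import Pool.Agent.H518R4.UG.Stubs
import Pool.Agent.Helper467.FP.P_n2_mul_le

/-!
PHASE: an almost commuting small subprojection in every corner which is not too small.
-/

set_option autoImplicit false

open scoped ComplexOrder Topology InnerProductSpace
open Filter

noncomputable section

namespace Pool.Agent.H518R4.UG

open Pool.Agent.H467F

namespace PHASEaux

variable {A : Type} [CStarAlgebra A]

theorem prj_norm_le {p : A} (h : IsPrj p) : ‖p‖ ≤ 1 := by
  have h1 : ‖p‖ * ‖p‖ = ‖p‖ := by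
    rw [← CStarRing.norm_star_mul_self, h.1, h.2]
  by_contra hc
  push Not at hc
  nlinarith

theorem n2_comp_le {τ : A →ₗ[ℂ] ℂ} (ht : TW τ) {p : A} (h : IsPrj p) (z : A) :
    n2 τ (p * z * p) ≤ n2 τ z := by
  have h1 := (n2_mul_le ht p (p * z)).2
  have h2 := (n2_mul_le ht p z).1
  have h3 := prj_norm_le h
  have h4 := n2_nonneg (τ : A → ℂ) z
  have h5 := n2_nonneg (τ : A → ℂ) (p * z)
  have h6 : n2 τ (p * z) * ‖p‖ ≤ n2 τ (p * z) := mul_le_of_le_one_right h5 h3
  have h7 : ‖p‖ * n2 τ z ≤ n2 τ z := mul_le_of_le_one_left h4 h3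
  linarith

/-- the trace of a projection is real -/
theorem tau_prj {τ : A →ₗ[ℂ] ℂ} (ht : TW τ) {p : A} (h : IsPrj p) :
    τ p = (((τ p).re : ℝ) : ℂ) := by
  have h1 := ht.n2_sq' p
  rw [h.1, h.2] at h1
  rw [h1, Complex.ofReal_re]

theorem tau_sa {τ : A →ₗ[ℂ] ℂ} (ht : TW τ) {y : A} (h : star y = y) :
    star (τ y) = τ y := by
  rw [← ht.conj, h]

/-- the off diagonal parts -/
theorem offdiag {τ : A →ₗ[ℂ] ℂ} (ht : TW τ) {p q f : A} (hp : IsPrj p) (hq : IsPrj q)
    (hpq : p * q = q) :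
    n2 τ (p * f * p - (q * f * q + (p - q) * f * (p - q))) ^ 2 =
      n2 τ (cm (p * f * p) q) ^ 2 := by
  have hqp : q * p = q := by
    have := congrArg star hpq
    rwa [star_mul, hp.1, hq.1] at this
  have e1 : p * f * p - (q * f * q + (p - q) * f * (p - q)) =
      (p - q) * f * q + q * f * (p - q) := by
    noncomm_ring
  have e2 : cm (p * f * p) q = (p - q) * f * q - q * f * (p - q) := by
    unfold cm
    have a1 : p * f * p * q = p * f * q := by rw [mul_assoc, hpq]
    have a2 : q * (p * f * p) = q * f * p := by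
      rw [← mul_assoc, ← mul_assoc, hqp]
    rw [a1, a2]
    noncomm_ring
  have h0 : (p - q) * q = 0 := by rw [sub_mul, hpq, hq.2, sub_self]
  have h0' : q * (p - q) = 0 := by rw [mul_sub, hqp, hq.2, sub_self]
  have hs : star (p - q) = p - q := by rw [star_sub, hp.1, hq.1]
  have c1 : star ((p - q) * f * q) * (q * f * (p - q)) = 0 := by
    rw [star_mul, star_mul, hs, hq.1]
    have : q * (star f * (p - q)) * (q * f * (p - q)) =
        q * star f * ((p - q) * q) * f * (p - q) := by noncomm_ring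
    rw [this, h0]
    simp
  have c2 : star (q * f * (p - q)) * ((p - q) * f * q) = 0 := by
    rw [star_mul, star_mul, hs, hq.1]
    have : (p - q) * (star f * q) * ((p - q) * f * q) =
        (p - q) * star f * (q * (p - q)) * f * q := by noncomm_ring
    rw [this, h0']
    simp
  rw [e1, e2, ht.n2_sq, ht.n2_sq]
  congr 2
  rw [star_add, star_sub]
  set a := (p - q) * f * q
  set b := q * f * (p - q)
  have d1 : (star a + star b) * (a + b) = star a * a + star b * b + (star a * b + star b * a) := by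
    noncomm_ring
  have d2 : (star a - star b) * (a - b) = star a * a + star b * b - (star a * b + star b * a) := by
    noncomm_ring
  rw [d1, d2, c1, c2]
  simp

end PHASEaux

open PHASEaux in
theorem p_PHASE (hSELF : S_SELF) (hTWOU : S_TWOU) (hCONN : S_CONN) (hCOVER : S_COVER)
    (hCOMPR : S_COMPR) : S_PHASE := by
  intro n ρ ε hρ hε
  set N : ℕ := ⌈1 / ρ⌉₊ + 1 with hN
  have hNpos : (0 : ℝ) < N := by
    rw [hN]
    positivity
  set B : ℝ := 24 * Real.sqrt (2 * n) * N + 1 with hB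
  have hBpos : 0 < B := by
    rw [hB]
    positivity
  set c : ℝ := min (1 / (4 * N)) ((ε / B) ^ 2) with hc
  have hcpos : 0 < c := by
    rw [hc]
    apply lt_min
    · positivity
    · positivity
  have hc1 : c * N ≤ 1 / 4 := by
    have h1 : c ≤ 1 / (4 * N) := min_le_left _ _
    calc c * N ≤ 1 / (4 * N) * N := mul_le_mul_of_nonneg_right h1 hNpos.le
      _ = 1 / 4 := by field_simp
  have hc2 : 24 * Real.sqrt (2 * n) * N * Real.sqrt c ≤ ε := by
    have h1 : Real.sqrt c ≤ ε / B := by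
      rw [Real.sqrt_le_left (by positivity)]
      exact min_le_right _ _
    have h2 : 24 * Real.sqrt (2 * n) * N ≤ B := by
      rw [hB]
      linarith
    calc 24 * Real.sqrt (2 * n) * N * Real.sqrt c ≤ B * (ε / B) :=
          mul_le_mul h2 h1 (Real.sqrt_nonneg _) hBpos.le
      _ = ε := by field_simp
  refine ⟨2 * (n * 2 + N), c, hcpos, ?_⟩
  intro A _ τ hF hNG F hFn p hp hpρ
  have ht := hF.tw
  have hpn : ‖p‖ ≤ 1 := prj_norm_le hp
  have hnt : Nontrivial A := ⟨1, 0, fun h => by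
    have h1 := ht.one
    rw [h, map_zero] at h1
    exact zero_ne_one h1⟩
  -- unitaries
  have hU : ∀ i, ∃ u₁ u₂ : unitary A, (u₁ : A) * p = p * u₁ ∧ (u₂ : A) * p = p * u₂ ∧
      ∀ y : A, p * y = y → y * p = y →
        n2 τ (cm (p * F i * p) y) ≤ n2 τ (cm (u₁ : A) y) + n2 τ (cm (u₂ : A) y) ∧
        n2 τ (cm (star (p * F i * p)) y) ≤ n2 τ (cm (u₁ : A) y) + n2 τ (cm (u₂ : A) y) := by
    intro i
    apply hTWOU A τ ht p (p * F i * p) hp
    · have : p * (p * F i * p) * p = (p * p) * F i * (p * p) := by noncomm_ring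
      rw [this, hp.2]
    · calc ‖p * F i * p‖ ≤ ‖p * F i‖ * ‖p‖ := norm_mul_le _ _
        _ ≤ (‖p‖ * ‖F i‖) * ‖p‖ := mul_le_mul_of_nonneg_right (norm_mul_le _ _) (norm_nonneg _)
        _ ≤ (1 * 1) * 1 := by
            apply mul_le_mul _ hpn (norm_nonneg _) (by norm_num)
            exact mul_le_mul hpn (hFn i) (norm_nonneg _) (by norm_num)
        _ = 1 := by norm_num
  choose u₁ u₂ hu₁ hu₂ hu using hU
  set u : Fin n × Fin 2 → unitary A := fun a => if a.2 = 0 then u₁ a.1 else u₂ a.1 with hudef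
  have hup : ∀ a, (u a : A) * p = p * u a := by
    intro a
    rw [hudef]
    by_cases h : a.2 = 0
    · simp only [h, if_true]; exact hu₁ _
    · simp only [h, if_false]; exact hu₂ _
  obtain ⟨v, hv1, hv2, hv3⟩ := hCOVER A τ hF ρ hρ p hp hpρ
  -- the almost central vector
  obtain ⟨y, hys, hy0, hyc⟩ := hSELF A τ ht _ c hNG ((Fin n × Fin 2) ⊕ Fin N)
    (Sum.elim (fun a => (u a : A)) v) (by
      rintro (a | i)
      · exact (CStarRing.norm_coe_unitary (u a)).le
      · exact hv1 i) (by simp)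
  rw [Fintype.sum_sum_type] at hyc
  simp only [Sum.elim_inl, Sum.elim_inr] at hyc
  have hS1 : ∑ a, n2 τ (cm (u a : A) y) ^ 2 ≤ c * n2 τ y ^ 2 := by
    refine le_trans ?_ hyc.le
    refine le_add_of_le_of_nonneg ?_ (Finset.sum_nonneg fun i _ => by positivity)
    exact Finset.sum_le_sum fun a _ => le_add_of_nonneg_right (by positivity)
  have hS2 : ∑ i, n2 τ (cm (star (v i)) y) ^ 2 ≤ c * n2 τ y ^ 2 := by
    refine le_trans ?_ hyc.le
    refine le_add_of_nonneg_of_le (Finset.sum_nonneg fun i _ => by positivity) ?_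
    exact Finset.sum_le_sum fun a _ => le_add_of_nonneg_left (by positivity)
  have hyn : 0 < n2 τ y := by
    have h1 : 0 < c * n2 τ y ^ 2 := by
      refine lt_of_le_of_lt ?_ hyc
      refine add_nonneg (Finset.sum_nonneg fun i _ => by positivity)
        (Finset.sum_nonneg fun i _ => by positivity)
    rcases (n2_nonneg (τ : A → ℂ) y).lt_or_eq with h | h
    · exact h
    · rw [← h] at h1
      simp at h1
  -- its compression
  have htp : τ p = (((τ p).re : ℝ) : ℂ) := tau_prj ht hp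
  have htp0 : 0 < (τ p).re := lt_of_lt_of_le hρ hpρ
  have htpne : τ p ≠ 0 := by
    rw [htp]
    exact_mod_cast htp0.ne'
  set l : ℂ := τ (p * y * p) / τ p with hl
  have hpyp : star (p * y * p) = p * y * p := by
    rw [star_mul, star_mul, hp.1, hys, mul_assoc]
  have hlr : star l = l := by
    rw [hl, star_div₀, tau_sa ht hpyp, tau_sa ht hp.1]
  set z : A := p * y * p - l • p with hz
  have hzs : star z = z := by
    rw [hz, star_sub, hpyp, star_smul, hlr, hp.1]
  have hpz : p * z = z := by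
    rw [hz, mul_sub, mul_smul_comm, hp.2, ← mul_assoc, ← mul_assoc, hp.2]
  have hz0 : τ z = 0 := by
    rw [hz, map_sub, map_smul, hl, smul_eq_mul, div_mul_cancel₀ _ htpne, sub_self]
  have hcomp : n2 τ y ≤ 2 * N * n2 τ z :=
    hCOMPR A τ ht N v p y c hv1 hp hv2 hv3 hy0 hS2 hc1 l
  have hzn : 0 < n2 τ z := by
    rcases (n2_nonneg (τ : A → ℂ) z).lt_or_eq with h | h
    · exact h
    · rw [← h, mul_zero] at hcomp
      linarith
  have hzne : z ≠ 0 := by
    intro h
    rw [h, n2_zero] at hzn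
    exact lt_irrefl _ hzn
  have hcmz : ∀ a, n2 τ (cm (u a : A) z) ≤ n2 τ (cm (u a : A) y) := by
    intro a
    have e : cm (u a : A) z = p * cm (u a : A) y * p := by
      unfold cm
      rw [hz]
      have h1 := hup a
      have e1 : (u a : A) * (p * y * p - l • p) = p * ((u a : A) * y) * p -
          l • ((u a : A) * p) := by
        rw [mul_sub, mul_smul_comm, ← mul_assoc, ← mul_assoc, h1, mul_assoc p]
      have e2 : (p * y * p - l • p) * (u a : A) = p * (y * (u a : A)) * p -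
          l • ((u a : A) * p) := by
        rw [sub_mul, smul_mul_assoc, ← h1, mul_assoc (p * y) p, ← h1]
        simp only [mul_assoc]
      rw [e1, e2]
      noncomm_ring
    rw [e]
    exact n2_comp_le ht hp _
  have hsq : ∑ a, n2 τ (cm (u a : A) z) ^ 2 ≤ (2 * N * Real.sqrt c) ^ 2 * n2 τ z ^ 2 := by
    calc ∑ a, n2 τ (cm (u a : A) z) ^ 2 ≤ ∑ a, n2 τ (cm (u a : A) y) ^ 2 :=
          Finset.sum_le_sum fun a _ => pow_le_pow_left₀ (n2_nonneg _ _) (hcmz a) 2
      _ ≤ c * n2 τ y ^ 2 := hS1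
      _ ≤ c * (2 * N * n2 τ z) ^ 2 :=
          mul_le_mul_of_nonneg_left (pow_le_pow_left₀ hyn.le hcomp 2) hcpos.le
      _ = (2 * N * Real.sqrt c) ^ 2 * n2 τ z ^ 2 := by
          rw [mul_pow (2 * (N : ℝ)) (Real.sqrt c), Real.sq_sqrt hcpos.le]
          ring
  obtain ⟨q, hq, hpq, hq0, hq2, hqs⟩ := hCONN A τ hF (Fin n × Fin 2) u p z
    (2 * N * Real.sqrt c) hp hup hzs hpz hz0 hzne (by positivity) hsq
  refine ⟨q, hq, hpq, hq0, hq2, ?_⟩
  have hqp : q * p = q := by
    have := congrArg star hpq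
    rwa [star_mul, hp.1, hq.1] at this
  have hcard : (Fintype.card (Fin n × Fin 2) : ℝ) = 2 * n := by
    rw [Fintype.card_prod, Fintype.card_fin, Fintype.card_fin]
    push_cast
    ring
  have hterm : ∀ i, n2 τ (p * F i * p - (q * F i * q + (p - q) * F i * (p - q))) ^ 2 ≤
      2 * ∑ j : Fin 2, n2 τ (cm (u (i, j) : A) q) ^ 2 := by
    intro i
    rw [offdiag ht hp hq hpq, Fin.sum_univ_two]
    have h1 := (hu i q hpq hqp).1
    have h2 : (u (i, 0) : A) = u₁ i := by rw [hudef]; simp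
    have h3 : (u (i, 1) : A) = u₂ i := by rw [hudef]; simp
    rw [h2, h3]
    have h4 := n2_nonneg (τ : A → ℂ) (cm (p * F i * p) q)
    have h5 := pow_le_pow_left₀ h4 h1 2
    nlinarith [sq_nonneg (n2 τ (cm (u₁ i : A) q) - n2 τ (cm (u₂ i : A) q))]
  calc ∑ i, n2 τ (p * F i * p - (q * F i * q + (p - q) * F i * (p - q))) ^ 2 ≤
      ∑ i, 2 * ∑ j : Fin 2, n2 τ (cm (u (i, j) : A) q) ^ 2 :=
        Finset.sum_le_sum fun i _ => hterm i
    _ = 2 * ∑ a, n2 τ (cm (u a : A) q) ^ 2 := by
        rw [← Finset.mul_sum, Fintype.sum_prod_type]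
    _ ≤ 2 * (6 * Real.sqrt (Fintype.card (Fin n × Fin 2)) * (2 * N * Real.sqrt c) * (τ q).re) :=
        mul_le_mul_of_nonneg_left hqs (by norm_num)
    _ = (24 * Real.sqrt (2 * n) * N * Real.sqrt c) * (τ q).re := by
        rw [hcard]
        ring
    _ ≤ ε * (τ q).re := mul_le_mul_of_nonneg_right hc2 hq0.le

end Pool.Agent.H518R4.UG
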