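import Pool.Agent.H518R4.UG.Stubs

set_option autoImplicit false

open scoped ComplexOrder Topology InnerProductSpace
open Filter

noncomputable section

namespace Pool.Agent.H518R4.UG

open Pool.Agent.H467F

theorem p_PSD : S_PSD := by
  intro E _ _ T t hsym hpos hle x
  rcases eq_or_ne x 0 with rfl | hx
  · simp
  have hxn : 0 < ‖x‖ ^ 2 := by positivity
  have ht : 0 ≤ t := by
    by_contra h
    push Not at h
    have h1 := (hpos x).trans (hle x)
    nlinarith
  have hNr : (⟪T x, T x⟫_ℂ).re = ‖T x‖ ^ 2 := by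
    have := inner_self_eq_norm_sq (𝕜 := ℂ) (T x)
    simpa using this
  have key : ∀ s : ℝ, 0 ≤ t * ‖x‖ ^ 2 - 2 * s * ‖T x‖ ^ 2 + s ^ 2 * (t * ‖T x‖ ^ 2) := by
    intro s
    have h0 := hpos (x - (s : ℂ) • T x)
    have h1 : (⟪T (x - (s : ℂ) • T x), x - (s : ℂ) • T x⟫_ℂ).re =
        (⟪T x, x⟫_ℂ).re - 2 * s * ‖T x‖ ^ 2 + s ^ 2 * (⟪T (T x), T x⟫_ℂ).re := by
      rw [map_sub, map_smul, inner_sub_left, inner_sub_right, inner_sub_right, inner_smul_left,
        inner_smul_right, inner_smul_left, inner_smul_right, hsym (T x) x]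
      simp only [Complex.conj_ofReal, Complex.sub_re, Complex.re_ofReal_mul]
      rw [hNr]
      ring
    rw [h1] at h0
    have h2 := hle x
    have h3 := hle (T x)
    have h4 : s ^ 2 * (⟪T (T x), T x⟫_ℂ).re ≤ s ^ 2 * (t * ‖T x‖ ^ 2) :=
      mul_le_mul_of_nonneg_left h3 (sq_nonneg s)
    linarith
  rcases ht.eq_or_lt with h | h
  · subst h
    have h5 := key 1
    have h6 : ‖T x‖ = 0 := by
      have : ‖T x‖ ^ 2 ≤ 0 := by linarith
      have h7 := norm_nonneg (T x)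
      nlinarith
    rw [h6]; simp
  · have h5 := key (1 / t)
    have h6 : ‖T x‖ ^ 2 ≤ (t * ‖x‖) ^ 2 := by
      have h7 : t * ‖x‖ ^ 2 - 2 * (1 / t) * ‖T x‖ ^ 2 + (1 / t) ^ 2 * (t * ‖T x‖ ^ 2)
          = (t ^ 2 * ‖x‖ ^ 2 - ‖T x‖ ^ 2) / t := by
        field_simp
        ring
      rw [h7] at h5
      have h8 : 0 ≤ t ^ 2 * ‖x‖ ^ 2 - ‖T x‖ ^ 2 := by
        by_contra h9
        push Not at h9
        have := div_neg_of_neg_of_pos h9 h
        linarith
      nlinarith
    exact le_of_sq_le_sq h6 (by positivity) |> fun h => h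

end Pool.Agent.H518R4.UG
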