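import Mathlib
import Pool.Agent.H518R4.UG.Stubs

/-!
Universal spectral gap for non-Gamma II_1 factors (MP_ab5fa7_an, S03914): task PYTH.
-/

set_option autoImplicit false

open scoped ComplexOrder Topology InnerProductSpace
open Filter

noncomputable section

namespace Pool.Agent.H518R4.UG

open Pool.Agent.H467F

/-- Pythagoras for a finite orthogonal family. -/
theorem PYTH_sum {A : Type} [CStarAlgebra A] (τ : A →ₗ[ℂ] ℂ) (hτ : TW τ) {J : Type} [Fintype J]
    (X : A) (Y : J → A) (h1 : ∀ j, τ (star X * Y j) = 0)
    (h2 : ∀ i j, i ≠ j → τ (star (Y i) * Y j) = 0) :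
    n2 τ (X + ∑ j, Y j) ^ 2 = n2 τ X ^ 2 + ∑ j, n2 τ (Y j) ^ 2 := by
  classical
  have h1' : ∀ j, τ (star (Y j) * X) = 0 := by
    intro j
    have := hτ.conj (star X * Y j)
    rwa [star_mul, star_star, h1 j, star_zero] at this
  have e : star (X + ∑ j, Y j) * (X + ∑ j, Y j) = star X * X + ∑ j, star X * Y j
      + (∑ j, star (Y j) * X + ∑ i, ∑ j, star (Y i) * Y j) := by
    rw [star_add, star_sum, add_mul, mul_add, mul_add, Finset.mul_sum, Finset.sum_mul,
      Finset.sum_mul]
    simp only [Finset.mul_sum]
  have e3 : ∑ i, ∑ j, τ (star (Y i) * Y j) = ∑ j, τ (star (Y j) * Y j) := by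
    refine Finset.sum_congr rfl fun i _ => ?_
    rw [Finset.sum_eq_single i]
    · intro j _ hj
      exact h2 i j (Ne.symm hj)
    · intro h; exact absurd (Finset.mem_univ i) h
  rw [hτ.n2_sq, e, map_add, map_add, map_add, map_sum, map_sum, map_sum]
  simp only [map_sum]
  rw [e3, Finset.sum_eq_zero (fun j _ => h1 j), Finset.sum_eq_zero (fun j _ => h1' j), add_zero,
    zero_add, Complex.add_re, Complex.re_sum, ← hτ.n2_sq]
  congr 1
  exact Finset.sum_congr rfl fun j _ => (hτ.n2_sq _).symm

theorem part_mul {A : Type} [CStarAlgebra A] {J : Type} [Fintype J] {q : J → A} {e : A}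
    (h : IsPart q e) (j : J) : q j * e = q j ∧ e * q j = q j := by
  classical
  constructor
  · rw [← h.sum, Finset.mul_sum, Finset.sum_eq_single j]
    · exact (h.prj j).2
    · intro i _ hi
      exact h.ort j i (Ne.symm hi)
    · intro h'; exact absurd (Finset.mem_univ j) h'
  · rw [← h.sum, Finset.sum_mul, Finset.sum_eq_single j]
    · exact (h.prj j).2
    · intro i _ hi
      exact h.ort i j hi
    · intro h'; exact absurd (Finset.mem_univ j) h'

theorem p_PYTH : S_PYTH := by
  intro A _ τ hτ J _ K _ e q s f he hq hs
  classical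
  have hqs : ∀ j k, q j * s j k = s j k := fun j k => (part_mul (hs j) k).2
  have hsq : ∀ j k, s j k * q j = s j k := fun j k => (part_mul (hs j) k).1
  have hsum : ∀ g : (Σ j, K j) → A, ∑ a, g a = ∑ j, ∑ k, g ⟨j, k⟩ := fun g => Fintype.sum_sigma g
  refine ⟨⟨fun a => (hs a.1).prj a.2, ?_, ?_⟩, ?_⟩
  · rintro ⟨i, k⟩ ⟨j, l⟩ hne
    show s i k * s j l = 0
    by_cases hij : i = j
    · subst hij
      refine (hs i).ort k l fun h => hne ?_
      rw [h]
    · rw [← hsq i k, ← hqs j l, mul_assoc, ← mul_assoc (q i) (q j), hq.ort i j hij, zero_mul,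
        mul_zero]
  · rw [hsum]
    show ∑ j, ∑ k, s j k = e
    rw [← hq.sum]
    exact Finset.sum_congr rfl fun j _ => (hs j).sum
  · set X : A := e * f * e - pin q f with hX
    set Y : J → A := fun j => q j * f * q j - pin (s j) f with hY
    have hqq : ∀ j, q j * q j = q j := fun j => (hq.prj j).2
    have hqst : ∀ j, star (q j) = q j := fun j => (hq.prj j).1
    have hp1 : ∀ j, q j * pin (s j) f = pin (s j) f := by
      intro j
      unfold pin
      rw [Finset.mul_sum]
      refine Finset.sum_congr rfl fun k _ => ?_
      rw [← mul_assoc, ← mul_assoc, hqs]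
    have hp2 : ∀ j, pin (s j) f * q j = pin (s j) f := by
      intro j
      unfold pin
      rw [Finset.sum_mul]
      refine Finset.sum_congr rfl fun k _ => ?_
      rw [mul_assoc, hsq]
    have hY1 : ∀ j, q j * Y j = Y j := by
      intro j
      show q j * (q j * f * q j - pin (s j) f) = q j * f * q j - pin (s j) f
      rw [mul_sub, hp1, ← mul_assoc, ← mul_assoc, hqq]
    have hY2 : ∀ j, Y j * q j = Y j := by
      intro j
      show (q j * f * q j - pin (s j) f) * q j = q j * f * q j - pin (s j) f
      rw [sub_mul, hp2, mul_assoc, hqq]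
    have hXq : ∀ j, q j * X * q j = 0 := by
      intro j
      have e1 : q j * (e * f * e) * q j = q j * f * q j := by
        calc q j * (e * f * e) * q j = (q j * e) * f * (e * q j) := by simp only [mul_assoc]
          _ = q j * f * q j := by rw [(part_mul hq j).1, (part_mul hq j).2]
      have e2 : q j * pin q f * q j = q j * f * q j := by
        unfold pin
        rw [Finset.mul_sum, Finset.sum_mul, Finset.sum_eq_single j]
        · calc q j * (q j * f * q j) * q j = (q j * q j) * f * (q j * q j) := by
                simp only [mul_assoc]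
            _ = q j * f * q j := by rw [hqq]
        · intro i _ hi
          calc q j * (q i * f * q i) * q j = (q j * q i) * (f * q i * q j) := by
                simp only [mul_assoc]
            _ = 0 := by rw [hq.ort j i (Ne.symm hi), zero_mul]
        · intro h'; exact absurd (Finset.mem_univ j) h'
      rw [hX, mul_sub, sub_mul, e1, e2, sub_self]
    have hdec : e * f * e - pin (fun a : Σ j, K j => s a.1 a.2) f = X + ∑ j, Y j := by
      have e1 : pin (fun a : Σ j, K j => s a.1 a.2) f = ∑ j, pin (s j) f := by
        unfold pin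
        rw [hsum]
      have e2 : ∑ j, Y j = pin q f - ∑ j, pin (s j) f := by
        rw [hY, Finset.sum_sub_distrib]
        rfl
      rw [e1, e2, hX]
      abel
    rw [hdec]
    refine PYTH_sum τ hτ X Y (fun j => ?_) (fun i j hij => ?_)
    · have e1 : star X * Y j = star X * (q j * Y j * q j) := by rw [hY1, hY2]
      have e2 : q j * star X * q j = 0 := by
        have := congrArg star (hXq j)
        rwa [star_mul, star_mul, hqst, star_zero, ← mul_assoc] at this
      rw [e1]
      have e3 : star X * (q j * Y j * q j) = (star X * q j * Y j) * q j := by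
        simp only [mul_assoc]
      rw [e3, hτ.comm]
      have e4 : q j * (star X * q j * Y j) = (q j * star X * q j) * Y j := by
        simp only [mul_assoc]
      rw [e4, e2, zero_mul, map_zero]
    · have e1 : star (Y i) * Y j = star (q i * Y i) * (q j * Y j) := by rw [hY1, hY1]
      rw [e1, star_mul, hqst, mul_assoc, ← mul_assoc (q i), hq.ort i j hij, zero_mul, mul_zero,
        map_zero]

end Pool.Agent.H518R4.UG
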