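import Pool.Agent.H518R4.UG.Stubs

/-!
# QE: quantum expanders
-/

set_option autoImplicit false

open scoped ComplexOrder Topology InnerProductSpace
open Filter

noncomputable section

namespace Pool.Agent.H518R4.UG

open Pool.Agent.H467F

namespace QE971

variable {A : Type} [CStarAlgebra A] {τ : A →ₗ[ℂ] ℂ} {I : Type} [Fintype I]

theorem lift_smul (v : I → A) (c : ℂ) (x : A) : lift v (c • x) = c • lift v x := by
  unfold lift
  rw [Finset.smul_sum]
  refine Finset.sum_congr rfl fun i _ => ?_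
  rw [mul_smul_comm, smul_mul_assoc]

theorem lift_sub (v : I → A) (x y : A) : lift v (x - y) = lift v x - lift v y := by
  unfold lift
  rw [← Finset.sum_sub_distrib]
  refine Finset.sum_congr rfl fun i _ => ?_
  rw [mul_sub, sub_mul]

theorem lift_sum (v : I → A) {J : Type} (s : Finset J) (x : J → A) :
    lift v (∑ j ∈ s, x j) = ∑ j ∈ s, lift v (x j) := by
  unfold lift
  rw [Finset.sum_comm]
  refine Finset.sum_congr rfl fun i _ => ?_
  rw [Finset.mul_sum, Finset.sum_mul]

theorem dn_smul (v : I → A) (c : ℂ) (x : A) : dn v (c • x) = c • dn v x := by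
  unfold dn
  have h : ∑ j, star (v j) * (c • x) * v j = c • ∑ j, star (v j) * x * v j := by
    rw [Finset.smul_sum]
    refine Finset.sum_congr rfl fun i _ => ?_
    rw [mul_smul_comm, smul_mul_assoc]
  rw [h, smul_smul, smul_smul, mul_comm]

theorem dn_sub (v : I → A) (x y : A) : dn v (x - y) = dn v x - dn v y := by
  unfold dn
  rw [← smul_sub, ← Finset.sum_sub_distrib]
  congr 1
  refine Finset.sum_congr rfl fun i _ => ?_
  rw [mul_sub, sub_mul]

theorem dn_sum (v : I → A) {J : Type} (s : Finset J) (x : J → A) :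
    dn v (∑ j ∈ s, x j) = ∑ j ∈ s, dn v (x j) := by
  unfold dn
  rw [← Finset.smul_sum, Finset.sum_comm]
  congr 1
  refine Finset.sum_congr rfl fun i _ => ?_
  rw [Finset.mul_sum, Finset.sum_mul]

theorem EM_smul (v : I → A) (c : ℂ) (x : A) : EM v (c • x) = c • EM v x := by
  unfold EM
  rw [dn_smul, lift_smul]

theorem EM_sub (v : I → A) (x y : A) : EM v (x - y) = EM v x - EM v y := by
  unfold EM
  rw [dn_sub, lift_sub]

/-- orthogonality relations -/
theorem ini_ort [DecidableEq I] {v : I → A} {g : A} (h : IsMU v g) (i j : I) :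
    star (v i) * v j = if i = j then g else 0 := by
  split_ifs with hij
  · rw [hij, h.ini]
  · exact h.ort i j hij

theorem dn_unit [DecidableEq I] {v : I → A} {g : A} (h : IsMU v g) (hg : ∀ i, v i * g = v i)
    (hs : star g = g) (s t : I) (x : A) :
    dn v (v s * star (v t) * x) = dn v (x * (v s * star (v t))) := by
  have hg' : ∀ i, g * star (v i) = star (v i) := by
    intro i
    have := congrArg star (hg i)
    rwa [star_mul, hs] at this
  unfold dn
  congr 1
  have h1 : ∀ j, star (v j) * (v s * star (v t) * x) * v j =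
      if j = s then star (v t) * x * v s else 0 := by
    intro j
    have e : star (v j) * (v s * star (v t) * x) * v j =
        (star (v j) * v s) * star (v t) * x * v j := by noncomm_ring
    rw [e, ini_ort h]
    split_ifs with hj
    · rw [hg', hj]
    · rw [zero_mul, zero_mul, zero_mul]
  have h2 : ∀ j, star (v j) * (x * (v s * star (v t))) * v j =
      if j = t then star (v t) * x * v s else 0 := by
    intro j
    have e : star (v j) * (x * (v s * star (v t))) * v j =
        star (v j) * x * (v s * (star (v t) * v j)) := by noncomm_ring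
    rw [e, ini_ort h]
    by_cases hj : j = t
    · rw [if_pos hj.symm, if_pos hj, hg, hj]
    · rw [if_neg (fun h => hj h.symm), if_neg hj, mul_zero, mul_zero]
  simp only [h1, h2]
  rw [Finset.sum_ite_eq', Finset.sum_ite_eq', if_pos (Finset.mem_univ _),
    if_pos (Finset.mem_univ _)]

theorem EM_comm [DecidableEq I] {v : I → A} {g : A} (h : IsMU v g) (hg : ∀ i, v i * g = v i)
    (hs : star g = g) (κ : I → I → ℂ) (x : A) :
    EM v ((∑ s, ∑ t, κ s t • (v s * star (v t))) * x) =
      EM v (x * (∑ s, ∑ t, κ s t • (v s * star (v t)))) := by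
  unfold EM
  congr 1
  rw [Finset.sum_mul, Finset.mul_sum, dn_sum, dn_sum]
  refine Finset.sum_congr rfl fun s _ => ?_
  rw [Finset.sum_mul, Finset.mul_sum, dn_sum, dn_sum]
  refine Finset.sum_congr rfl fun t _ => ?_
  rw [smul_mul_assoc, mul_smul_comm, dn_smul, dn_smul, dn_unit h hg hs]

theorem EM_conj [DecidableEq I] {v : I → A} {g : A} (h : IsMU v g) (hg : ∀ i, v i * g = v i)
    (hs : star g = g) (κ : I → I → ℂ) (u : unitary A)
    (hu : (u : A) = ∑ s, ∑ t, κ s t • (v s * star (v t))) (x : A) :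
    EM v ((u : A) * x * star (u : A)) = EM v x := by
  rw [mul_assoc]
  conv_lhs => rw [hu]
  have h1 := EM_comm h hg hs κ (x * star (u : A))
  rw [← hu] at h1 ⊢
  rw [h1, mul_assoc, Unitary.coe_star_mul_self, mul_one]

theorem n2_mul_unitary (hτ : TW τ) (x : A) (u : unitary A) : n2 τ (x * u) = n2 τ x := by
  unfold n2
  congr 2
  have e : star (x * (u : A)) * (x * (u : A)) = star (u : A) * (star x * x * (u : A)) := by
    rw [star_mul]
    noncomm_ring
  rw [e, hτ.comm, mul_assoc, Unitary.mul_star_self_of_mem u.2, mul_one]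

theorem n2_cm (hτ : TW τ) (y : A) (u : unitary A) :
    n2 τ (cm (u : A) y) = n2 τ ((u : A) * y * star (u : A) - y) := by
  rw [← n2_mul_unitary hτ ((u : A) * y * star (u : A) - y) u]
  unfold cm
  rw [sub_mul, mul_assoc _ (star (u : A)), Unitary.coe_star_mul_self, mul_one]

theorem n2_rev (hτ : TW τ) (x y : A) : (n2 τ x - n2 τ y) ^ 2 ≤ n2 τ (x - y) ^ 2 := by
  have h1 : n2 τ x ≤ n2 τ (x - y) + n2 τ y := by
    have := hτ.n2_add_le (x - y) y
    rwa [sub_add_cancel] at this
  have h2 : n2 τ y ≤ n2 τ (x - y) + n2 τ x := by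
    have := hτ.n2_add_le (y - x) x
    rw [sub_add_cancel, n2_sub_comm] at this
    exact this
  apply sq_le_sq'
  · linarith
  · linarith

/-- conjugation of Weyl operators, inverse form -/
theorem weyl_inv (u : unitary A) (W W' : A) (z : ℂ) (hz : ‖z‖ = 1)
    (h : (u : A) * W * star (u : A) = z • W') (y : A) :
    star W' * ((u : A) * y * star (u : A)) = z • ((u : A) * (star W * y) * star (u : A)) := by
  have hzz : z * star z = 1 := by
    rw [Complex.star_def, Complex.mul_conj, Complex.normSq_eq_norm_sq, hz]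
    norm_num
  have h1 : (u : A) * star W * star (u : A) = star z • star W' := by
    have := congrArg star h
    rw [star_mul, star_mul, star_star, star_smul, ← mul_assoc] at this
    exact this
  have h2 : star W' = z • ((u : A) * star W * star (u : A)) := by
    rw [h1, smul_smul, hzz, one_smul]
  rw [h2, smul_mul_assoc]
  congr 1
  have e : (u : A) * star W * star (u : A) * ((u : A) * y * star (u : A)) =
      (u : A) * star W * (star (u : A) * (u : A)) * y * star (u : A) := by noncomm_ring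
  rw [e, Unitary.coe_star_mul_self, mul_one]
  noncomm_ring

theorem main (hB : S_BURG) (hL : S_LIFT) (hP : S_PARS) (hW : S_WEYL) (hτ : TW τ) (n : ℕ)
    [NeZero n] (hn : Even n) (v : ZMod n → A) (g : A) (hv : IsMU v g) :
    ∃ u : Fin 4 → unitary A, ∀ y : A,
      n2 τ (y - EM v y) ^ 2 ≤ 400 * ∑ i, n2 τ (cm (u i : A) y) ^ 2 := by
  classical
  obtain ⟨u, hu, hz⟩ := hW A τ hτ n hn v g hv
  obtain ⟨hg, hvg, -, -, -, -, -, -, -, -, -, -, hEc, hE⟩ := hL A τ hτ (ZMod n) v g hv
  refine ⟨u, fun y => ?_⟩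
  set y' := y - EM v y with hy'
  have hEE : EM v (EM v y) = EM v y := (hE 0 (EM v y) (fun i j => hEc y i j)).1
  have hEy' : EM v y' = 0 := by rw [hy', EM_sub, hEE, sub_self]
  -- commutators
  have hcm : ∀ i, cm (u i : A) y = cm (u i : A) y' := by
    intro i
    obtain ⟨κ, hκ⟩ := hu i
    have h1 : (u i : A) * EM v y = EM v y * (u i : A) := by
      rw [hκ, Finset.sum_mul, Finset.mul_sum]
      refine Finset.sum_congr rfl fun s _ => ?_
      rw [Finset.sum_mul, Finset.mul_sum]
      refine Finset.sum_congr rfl fun t _ => ?_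
      rw [smul_mul_assoc, mul_smul_comm, hEc]
    unfold cm
    rw [hy', mul_sub, sub_mul, h1]
    abel
  simp only [hcm]
  have hconj : ∀ i x, EM v ((u i : A) * x * star (u i : A)) = EM v x := by
    intro i x
    obtain ⟨κ, hκ⟩ := hu i
    exact EM_conj hv hvg hg.1 κ (u i) hκ x
  -- the coefficients
  set c : ZMod n × ZMod n → ℝ := fun w => n2 τ (EM v (star (Wy v w.1 w.2) * y')) with hc
  have hc0 : c 0 = 0 := by
    have h1 : Wy v (0 : ZMod n) 0 = 1 := by
      unfold Wy
      rw [← hv.sum]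
      refine Finset.sum_congr rfl fun i _ => ?_
      rw [zero_mul, AddChar.map_zero_eq_one, one_smul, add_zero]
    show n2 τ (EM v (star (Wy v (0 : ZMod n) 0) * y')) = 0
    rw [h1, star_one, one_mul, hEy', n2_zero]
  have hsum : ∑ w, c w ^ 2 = n2 τ y' ^ 2 := hP A τ hτ n v g hv y'
  have hburg := hB n c (fun w => n2_nonneg _ _) hc0
  -- PARS for the commutators
  have hpc : ∀ i, n2 τ (cm (u i : A) y') ^ 2 = ∑ w : ZMod n × ZMod n,
      n2 τ (EM v (star (Wy v w.1 w.2) * ((u i : A) * y' * star (u i : A) - y'))) ^ 2 := by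
    intro i
    rw [n2_cm hτ, hP A τ hτ n v g hv]
  have hsplit : ∀ i (w w' : ZMod n × ZMod n) (z : ℂ), ‖z‖ = 1 →
      (u i : A) * Wy v w.1 w.2 * star (u i : A) = z • Wy v w'.1 w'.2 →
      EM v (star (Wy v w'.1 w'.2) * ((u i : A) * y' * star (u i : A) - y')) =
        z • EM v (star (Wy v w.1 w.2) * y') - EM v (star (Wy v w'.1 w'.2) * y') := by
    intro i w w' z hz1 hzw
    rw [mul_sub, EM_sub, weyl_inv (u i) _ _ z hz1 hzw, EM_smul, hconj]
  have hnc : ∀ x : ZMod n, ‖(ZMod.stdAddChar x : ℂ)‖ = 1 := by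
    intro x
    exact AddChar.norm_apply _ _
  -- first
  have h0 : ∑ w : ZMod n × ZMod n, ‖(ZMod.stdAddChar w.1 : ℂ) - 1‖ ^ 2 * c w ^ 2 =
      n2 τ (cm (u 0 : A) y') ^ 2 := by
    rw [hpc 0]
    refine Finset.sum_congr rfl fun w _ => ?_
    obtain ⟨z, hz1, hz0, -, -, -⟩ := hz w.1 w.2
    rw [hsplit 0 w w _ (hnc w.1) hz0]
    have e : (ZMod.stdAddChar w.1 : ℂ) • EM v (star (Wy v w.1 w.2) * y') -
        EM v (star (Wy v w.1 w.2) * y') =
        ((ZMod.stdAddChar w.1 : ℂ) - 1) • EM v (star (Wy v w.1 w.2) * y') := by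
      rw [sub_smul, one_smul]
    rw [e, n2_smul, mul_pow]
  have h1 : ∑ w : ZMod n × ZMod n, ‖(ZMod.stdAddChar w.2 : ℂ) - 1‖ ^ 2 * c w ^ 2 =
      n2 τ (cm (u 1 : A) y') ^ 2 := by
    rw [hpc 1]
    refine Finset.sum_congr rfl fun w _ => ?_
    obtain ⟨z, hz1, -, hz0, -, -⟩ := hz w.1 w.2
    rw [hsplit 1 w w _ (hnc (-w.2)) hz0]
    have e : (ZMod.stdAddChar (-w.2) : ℂ) • EM v (star (Wy v w.1 w.2) * y') -
        EM v (star (Wy v w.1 w.2) * y') =
        ((ZMod.stdAddChar (-w.2) : ℂ) - 1) • EM v (star (Wy v w.1 w.2) * y') := by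
      rw [sub_smul, one_smul]
    have e2 : ‖(ZMod.stdAddChar (-w.2) : ℂ) - 1‖ = ‖(ZMod.stdAddChar w.2 : ℂ) - 1‖ := by
      have e3 : (ZMod.stdAddChar (-w.2) : ℂ) - 1 =
          -((ZMod.stdAddChar (-w.2) : ℂ) * ((ZMod.stdAddChar w.2 : ℂ) - 1)) := by
        have e4 : (ZMod.stdAddChar (-w.2) : ℂ) * (ZMod.stdAddChar w.2 : ℂ) = 1 := by
          rw [← AddChar.map_add_eq_mul, neg_add_cancel, AddChar.map_zero_eq_one]
        rw [mul_sub, e4]
        ring
      rw [e3, norm_neg, norm_mul, hnc, one_mul]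
    rw [e, n2_smul, mul_pow, e2]
  have h2 : ∑ w : ZMod n × ZMod n, (c (w.1, w.2 + w.1) - c w) ^ 2 ≤
      n2 τ (cm (u 2 : A) y') ^ 2 := by
    rw [hpc 2]
    have hbij : Function.Bijective (fun w : ZMod n × ZMod n => (w.1, w.2 + w.1)) := by
      refine Function.bijective_iff_has_inverse.2 ⟨fun w => (w.1, w.2 - w.1), fun w => ?_,
        fun w => ?_⟩
      · simp
      · simp
    rw [← hbij.sum_comp (fun w : ZMod n × ZMod n =>
      n2 τ (EM v (star (Wy v w.1 w.2) * ((u 2 : A) * y' * star (u 2 : A) - y'))) ^ 2)]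
    refine Finset.sum_le_sum fun w _ => ?_
    obtain ⟨z, hz1, -, -, hz2, -⟩ := hz w.1 w.2
    rw [hsplit 2 w (w.1, w.2 + w.1) _ (hz1 2) hz2]
    have h3 := n2_rev hτ (z 2 • EM v (star (Wy v w.1 w.2) * y'))
      (EM v (star (Wy v (w.1, w.2 + w.1).1 (w.1, w.2 + w.1).2) * y'))
    rw [n2_smul, hz1 2, one_mul] at h3
    refine le_trans (le_of_eq ?_) h3
    rw [hc]
    ring
  have h3 : ∑ w : ZMod n × ZMod n, (c (w.1 + w.2, w.2) - c w) ^ 2 ≤
      n2 τ (cm (u 3 : A) y') ^ 2 := by
    rw [hpc 3]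
    refine Finset.sum_le_sum fun w _ => ?_
    obtain ⟨z, hz1, -, -, -, hz3⟩ := hz (w.1 + w.2) w.2
    rw [add_sub_cancel_right] at hz3
    rw [hsplit 3 (w.1 + w.2, w.2) w _ (hz1 3) hz3]
    have h4 := n2_rev hτ (z 3 • EM v (star (Wy v (w.1 + w.2, w.2).1 (w.1 + w.2, w.2).2) * y'))
      (EM v (star (Wy v w.1 w.2) * y'))
    rw [n2_smul, hz1 3, one_mul] at h4
    exact h4
  rw [← hsum, Fin.sum_univ_four]
  refine hburg.trans ?_
  rw [h0, h1]
  linarith

end QE971

open QE971 in
theorem p_QE (hB : S_BURG) (hL : S_LIFT) (hP : S_PARS) (hW : S_WEYL) : S_QE := by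
  classical
  intro A _ τ hτ a v g hv
  rcases Nat.eq_zero_or_pos a with rfl | ha
  · refine ⟨fun _ => 1, fun y => ?_⟩
    have h1 : v 0 * star (v 0) = 1 := by
      have := hv.sum
      rwa [Finset.sum_eq_single (0 : Fin (2 ^ 0)) (by intro b _ hb; exact absurd (Subsingleton.elim (α := Fin 1) b 0) hb) (by intro h; exact absurd (Finset.mem_univ _) h)] at this
    have h2 : EM v y = y := by
      have h3 : dn v y = star (v 0) * y * v 0 := by
        unfold dn
        rw [Finset.sum_eq_single (0 : Fin (2 ^ 0)) (by intro b _ hb; exact absurd (Subsingleton.elim (α := Fin 1) b 0) hb) (by intro h; exact absurd (Finset.mem_univ _) h)]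
        simp
      unfold EM
      rw [h3]
      unfold lift
      rw [Finset.sum_eq_single (0 : Fin (2 ^ 0)) (by intro b _ hb; exact absurd (Subsingleton.elim (α := Fin 1) b 0) hb) (by intro h; exact absurd (Finset.mem_univ _) h)]
      have e : v 0 * (star (v 0) * y * v 0) * star (v 0) =
          (v 0 * star (v 0)) * y * (v 0 * star (v 0)) := by noncomm_ring
      rw [e, h1, one_mul, mul_one]
    rw [h2, sub_self, n2_zero]
    have := Finset.sum_nonneg (s := (Finset.univ : Finset (Fin 4)))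
      (f := fun i => n2 τ (cm (((fun _ => 1) : Fin 4 → unitary A) i : A) y) ^ 2)
      (fun i _ => sq_nonneg _)
    nlinarith
  · have hn : Even (2 ^ a) := (Nat.even_pow.2 ⟨even_two, ha.ne'⟩)
    haveI : NeZero (2 ^ a) := ⟨by positivity⟩
    set e : ZMod (2 ^ a) ≃ Fin (2 ^ a) := (ZMod.finEquiv (2 ^ a)).symm.toEquiv with he
    have hv' : IsMU (fun i => v (e i)) g := by
      refine ⟨fun i => hv.ini _, fun i j hij => hv.ort _ _ (fun h => hij (e.injective h)), ?_⟩
      rw [← hv.sum]
      exact Equiv.sum_comp e (fun i => v i * star (v i))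
    have hEM : ∀ x, EM (fun i => v (e i)) x = EM v x := by
      intro x
      have h1 : dn (fun i => v (e i)) x = dn v x := by
        unfold dn
        rw [Fintype.card_congr e]
        congr 1
        exact Equiv.sum_comp e (fun i => star (v i) * x * v i)
      unfold EM
      rw [h1]
      exact Equiv.sum_comp e (fun i => v i * dn v x * star (v i))
    obtain ⟨u, hu⟩ := main hB hL hP hW hτ (2 ^ a) hn (fun i => v (e i)) g hv'
    refine ⟨u, fun y => ?_⟩
    have := hu y
    rwa [hEM] at this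

end Pool.Agent.H518R4.UG
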