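import Mathlib
import Pool.Agent.H518R4.UG.Stubs

/-! Task SELF (helper666): a self-adjoint almost central vector. -/

set_option autoImplicit false

open scoped ComplexOrder Topology InnerProductSpace
open Filter

noncomputable section

namespace Pool.Agent.H518R4.UG

open Pool.Agent.H467F

namespace SELFaux

variable {A : Type} [CStarAlgebra A] {τ : A →ₗ[ℂ] ℂ}

theorem n2_add_I (h : TW τ) (u v : A) :
    n2 τ (u + Complex.I • v) ^ 2 = n2 τ u ^ 2 + n2 τ v ^ 2 - 2 * (τ (star u * v)).im := by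
  have e : star (u + Complex.I • v) * (u + Complex.I • v) =
      star u * u + star v * v + Complex.I • (star u * v) - Complex.I • (star v * u) := by
    rw [star_add, star_smul, Complex.star_def, Complex.conj_I]
    rw [add_mul, mul_add, mul_add, mul_smul_comm, smul_mul_assoc, smul_mul_assoc, mul_smul_comm,
      smul_smul]
    have : -Complex.I * Complex.I = 1 := by rw [neg_mul, Complex.I_mul_I, neg_neg]
    rw [this, one_smul, neg_smul]
    abel
  have h1 : τ (star v * u) = star (τ (star u * v)) := by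
    rw [← h.conj, star_mul, star_star]
  rw [h.n2_sq, h.n2_sq, h.n2_sq, e, map_sub, map_add, map_add, map_smul, map_smul, h1]
  simp only [Complex.sub_re, Complex.add_re, smul_eq_mul, Complex.I_mul_re, Complex.star_def,
    Complex.conj_im]
  ring

theorem cm_add_I (x a b : A) : cm x (a + Complex.I • b) = cm x a + Complex.I • cm x b := by
  unfold cm
  rw [mul_add, add_mul, mul_smul_comm, smul_mul_assoc, smul_sub]
  abel

theorem star_cm (x a : A) (ha : star a = a) : cm (star x) a = -star (cm x a) := by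
  unfold cm
  rw [star_sub, star_mul, star_mul, ha]
  abel

theorem Q_add (h : TW τ) (x a b : A) (ha : star a = a) (hb : star b = b) :
    n2 τ (cm x (a + Complex.I • b)) ^ 2 + n2 τ (cm (star x) (a + Complex.I • b)) ^ 2 =
      (n2 τ (cm x a) ^ 2 + n2 τ (cm (star x) a) ^ 2) +
      (n2 τ (cm x b) ^ 2 + n2 τ (cm (star x) b) ^ 2) := by
  rw [cm_add_I, cm_add_I, n2_add_I h, n2_add_I h]
  have h1 : τ (star (cm (star x) a) * cm (star x) b) = star (τ (star (cm x a) * cm x b)) := by
    rw [star_cm x a ha, star_cm x b hb, star_neg, star_star, neg_mul_neg, ← h.conj, star_mul,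
      star_star, h.comm]
  rw [h1, Complex.star_def, Complex.conj_im]
  ring

theorem n2_dec (h : TW τ) (a b : A) (ha : star a = a) (hb : star b = b) :
    n2 τ (a + Complex.I • b) ^ 2 = n2 τ a ^ 2 + n2 τ b ^ 2 := by
  rw [n2_add_I h]
  have h1 : (τ (star a * b)).im = 0 := by
    have h2 : τ (star a * b) = star (τ (star a * b)) := by
      rw [← h.conj, star_mul, star_star, ha, hb, h.comm]
    have h3 := congrArg Complex.im h2
    rw [Complex.star_def, Complex.conj_im] at h3
    linarith
  rw [h1]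
  ring

end SELFaux

open SELFaux in
theorem p_SELF : S_SELF := by
  classical
  intro A _ τ h k c hNG ι _ x hx hk
  have hcard : Fintype.card (ι ⊕ ι) ≤ Fintype.card (Fin k) := by
    rw [Fintype.card_sum, Fintype.card_fin]; omega
  obtain ⟨e⟩ := Function.Embedding.nonempty_of_card_le hcard
  let f : ι ⊕ ι → A := Sum.elim x (fun i => star (x i))
  have hf : ∀ s, ‖f s‖ ≤ 1 := by
    rintro (i | i)
    · exact hx i
    · change ‖star (x i)‖ ≤ 1
      rw [norm_star]; exact hx i
  let X : Fin k → A := Function.extend e f (fun _ => (0 : A))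
  have hXe : ∀ s, X (e s) = f s := fun s => e.injective.extend_apply f (fun _ => (0 : A)) s
  have hX : ∀ i, ‖X i‖ ≤ 1 := by
    intro i
    by_cases hi : ∃ s, e s = i
    · obtain ⟨s, rfl⟩ := hi
      rw [hXe]; exact hf s
    · have : X i = 0 := Function.extend_apply' f (fun _ => (0 : A)) i hi
      rw [this, norm_zero]; exact zero_le_one
  obtain ⟨y, hy0, hy⟩ := hNG X hX
  have hle : ∑ s, n2 τ (cm (f s) y) ^ 2 ≤ ∑ i, n2 τ (cm (X i) y) ^ 2 := by
    calc ∑ s, n2 τ (cm (f s) y) ^ 2 = ∑ i ∈ Finset.univ.map e, n2 τ (cm (X i) y) ^ 2 := by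
          rw [Finset.sum_map]
          exact Finset.sum_congr rfl fun s _ => by rw [hXe]
      _ ≤ ∑ i, n2 τ (cm (X i) y) ^ 2 :=
          Finset.sum_le_sum_of_subset_of_nonneg (Finset.subset_univ _) fun _ _ _ => sq_nonneg _
  have hsum : ∑ s, n2 τ (cm (f s) y) ^ 2 =
      ∑ i, (n2 τ (cm (x i) y) ^ 2 + n2 τ (cm (star (x i)) y) ^ 2) := by
    rw [Fintype.sum_sum_type, Finset.sum_add_distrib]
    rfl
  rw [hsum] at hle
  have hlt := hle.trans_lt hy
  -- real and imaginary parts
  obtain ⟨a, b, ha, hb, hab, hτa, hτb⟩ : ∃ a b : A, star a = a ∧ star b = b ∧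
      a + Complex.I • b = y ∧ τ a = 0 ∧ τ b = 0 := by
    have hys : τ (star y) = 0 := by rw [h.conj, hy0, star_zero]
    have h2 : (starRingEnd ℂ) 2 = 2 := map_ofNat _ 2
    refine ⟨(1 / 2 : ℂ) • (y + star y), (-(Complex.I / 2)) • (y - star y), ?_, ?_, ?_, ?_, ?_⟩
    · rw [star_smul, star_add, star_star, add_comm (star y)]
      congr 1
      rw [Complex.star_def, map_div₀, map_one, h2]
    · rw [star_smul, star_sub, star_star, Complex.star_def]
      have : (starRingEnd ℂ) (-(Complex.I / 2)) = Complex.I / 2 := by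
        rw [map_neg, map_div₀, Complex.conj_I, h2, neg_div, neg_neg]
      rw [this, neg_smul, ← smul_neg, neg_sub]
    · rw [smul_smul]
      have : Complex.I * -(Complex.I / 2) = 1 / 2 := by
        rw [mul_neg, ← mul_div_assoc, Complex.I_mul_I]; norm_num
      rw [this, ← smul_add, add_add_sub_cancel, ← two_smul ℂ y, smul_smul]
      norm_num
    · rw [map_smul, map_add, hy0, hys]; simp
    · rw [map_smul, map_sub, hy0, hys]; simp
  have hQ : ∑ i, (n2 τ (cm (x i) y) ^ 2 + n2 τ (cm (star (x i)) y) ^ 2) =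
      ∑ i, (n2 τ (cm (x i) a) ^ 2 + n2 τ (cm (star (x i)) a) ^ 2) +
      ∑ i, (n2 τ (cm (x i) b) ^ 2 + n2 τ (cm (star (x i)) b) ^ 2) := by
    rw [← Finset.sum_add_distrib]
    refine Finset.sum_congr rfl fun i _ => ?_
    rw [← hab]
    exact Q_add h (x i) a b ha hb
  have hN : n2 τ y ^ 2 = n2 τ a ^ 2 + n2 τ b ^ 2 := by rw [← hab]; exact n2_dec h a b ha hb
  rw [hQ, hN, mul_add] at hlt
  rcases lt_or_ge (∑ i, (n2 τ (cm (x i) a) ^ 2 + n2 τ (cm (star (x i)) a) ^ 2))
    (c * n2 τ a ^ 2) with h1 | h1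
  · exact ⟨a, ha, hτa, h1⟩
  · exact ⟨b, hb, hτb, by linarith⟩

end Pool.Agent.H518R4.UG
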