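import Mathlib
import Pool.Agent.H518R4.UG.Stubs
import Pool.Agent.Helper467.FP.P_n2_mul_le

/-! SIGNS: the packed operator `G` (helper896). -/

set_option autoImplicit false

open scoped ComplexOrder Topology InnerProductSpace
open Filter

noncomputable section

namespace Pool.Agent.H518R4.UG

open Pool.Agent.H467F

namespace SG

variable {A : Type} [CStarAlgebra A] {τ : A →ₗ[ℂ] ℂ} {I : Type} [Fintype I]

theorem star_g [Nonempty I] {v : I → A} {g : A} (h : IsMU v g) : star g = g := by
  obtain ⟨i⟩ := ‹Nonempty I›
  rw [← h.ini i, star_mul, star_star]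

theorem vg {v : I → A} {g : A} (h : IsMU v g) (i : I) : v i * g = v i := by
  classical
  have h1 : (∑ j, v j * star (v j)) * v i = v i := by rw [h.sum, one_mul]
  rw [Finset.sum_mul, Finset.sum_eq_single i] at h1
  · rw [mul_assoc, h.ini i] at h1; exact h1
  · intro j _ hj; rw [mul_assoc, h.ort j i hj, mul_zero]
  · intro hi; exact absurd (Finset.mem_univ i) hi

theorem gsv [Nonempty I] {v : I → A} {g : A} (h : IsMU v g) (i : I) :
    g * star (v i) = star (v i) := by
  have := congrArg star (vg h i)
  rwa [star_mul, star_g h] at this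

theorem gg [Nonempty I] {v : I → A} {g : A} (h : IsMU v g) : g * g = g := by
  obtain ⟨i⟩ := id ‹Nonempty I›
  calc g * g = star (v i) * v i * g := by rw [h.ini i]
    _ = star (v i) * (v i * g) := by rw [mul_assoc]
    _ = g := by rw [vg h i, h.ini i]

theorem norm_g [Nonempty I] {v : I → A} {g : A} (h : IsMU v g) : ‖g‖ ≤ 1 := by
  have h1 : ‖g‖ * ‖g‖ = ‖g‖ := by
    rw [← CStarRing.norm_star_mul_self, star_g h, gg h]
  by_contra hc
  push Not at hc
  nlinarith

theorem norm_v [Nonempty I] {v : I → A} {g : A} (h : IsMU v g) (i : I) : ‖v i‖ ≤ 1 := by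
  have h1 : ‖v i‖ * ‖v i‖ = ‖g‖ := by
    rw [← CStarRing.norm_star_mul_self, h.ini i]
  have h2 := norm_g h
  by_contra hc
  push Not at hc
  nlinarith

theorem card_tau_g {v : I → A} {g : A} (hτ : TW τ) (h : IsMU v g) :
    (Fintype.card I : ℝ) * (τ g).re = 1 := by
  have h1 : τ (∑ i, v i * star (v i)) = 1 := by rw [h.sum, hτ.one]
  rw [map_sum] at h1
  have h2 : ∀ i, τ (v i * star (v i)) = τ g := fun i => by rw [hτ.comm, h.ini i]
  simp only [h2, Finset.sum_const, Finset.card_univ, nsmul_eq_mul] at h1
  have h3 := congrArg Complex.re h1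
  simpa using h3

theorem n2_g_sq [Nonempty I] {v : I → A} {g : A} (hτ : TW τ) (h : IsMU v g) :
    n2 τ g ^ 2 = 1 / (Fintype.card I : ℝ) := by
  rw [hτ.n2_sq, star_g h, gg h]
  have h1 := card_tau_g hτ h
  have h2 : (0 : ℝ) < Fintype.card I := by exact_mod_cast Fintype.card_pos
  field_simp
  linarith

/-- contractions of the corner have small 2-norm -/
theorem n2_sq_le [Nonempty I] {v : I → A} {g : A} (hτ : TW τ) (h : IsMU v g) (x : A)
    (hx : x * g = x) (hn : ‖x‖ ≤ 1) : n2 τ x ^ 2 ≤ 1 / (Fintype.card I : ℝ) := by
  rw [← n2_g_sq hτ h]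
  have h1 := (n2_mul_le hτ x g).1
  rw [hx] at h1
  have h2 := n2_nonneg τ x
  have h3 := n2_nonneg τ g
  have h4 : n2 τ x ≤ n2 τ g := by nlinarith
  exact pow_le_pow_left₀ h2 h4 2

/-- `∑ v_s b_{st} v_t^*` -/
def MM (v : I → A) (b : I → I → A) : A := ∑ s, ∑ t, v s * b s t * star (v t)

theorem mm_star (v : I → A) (b : I → I → A) :
    star (MM v b) = MM v (fun s t => star (b t s)) := by
  unfold MM
  rw [star_sum, Finset.sum_congr rfl (fun s _ => star_sum _ _), Finset.sum_comm]
  refine Finset.sum_congr rfl fun s _ => Finset.sum_congr rfl fun t _ => ?_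
  rw [star_mul, star_mul, star_star, mul_assoc]

theorem mm_mul {v : I → A} {g : A} (h : IsMU v g) (b b' : I → I → A)
    (hb : ∀ s t, b s t * g = b s t) :
    MM v b * MM v b' = MM v (fun s t => ∑ u, b s u * b' u t) := by
  classical
  unfold MM
  rw [Finset.sum_mul]
  refine Finset.sum_congr rfl fun s _ => ?_
  rw [Finset.sum_mul]
  have h1 : ∀ u, v s * b s u * star (v u) * (∑ s', ∑ t', v s' * b' s' t' * star (v t')) =
      ∑ t', v s * (b s u * b' u t') * star (v t') := by
    intro u
    rw [Finset.mul_sum, Finset.sum_eq_single u]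
    · rw [Finset.mul_sum]
      refine Finset.sum_congr rfl fun t' _ => ?_
      calc v s * b s u * star (v u) * (v u * b' u t' * star (v t'))
          = v s * (b s u * (star (v u) * v u) * b' u t') * star (v t') := by noncomm_ring
        _ = v s * (b s u * b' u t') * star (v t') := by rw [h.ini u, hb]
    · intro s' _ hs'
      rw [Finset.mul_sum]
      refine Finset.sum_eq_zero fun t' _ => ?_
      calc v s * b s u * star (v u) * (v s' * b' s' t' * star (v t'))
          = v s * b s u * (star (v u) * v s') * (b' s' t' * star (v t')) := by noncomm_ring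
        _ = 0 := by rw [h.ort u s' (Ne.symm hs'), mul_zero, zero_mul]
    · intro hi; exact absurd (Finset.mem_univ u) hi
  rw [Finset.sum_congr rfl (fun u _ => h1 u), Finset.sum_comm]
  refine Finset.sum_congr rfl fun t _ => ?_
  rw [Finset.mul_sum, Finset.sum_mul]

theorem mm_tau {v : I → A} {g : A} (hτ : TW τ) (h : IsMU v g) (b : I → I → A)
    (hb : ∀ s t, g * b s t = b s t) : τ (MM v b) = ∑ s, τ (b s s) := by
  classical
  unfold MM
  rw [map_sum]
  refine Finset.sum_congr rfl fun s _ => ?_
  rw [map_sum, Finset.sum_eq_single s]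
  · rw [hτ.comm, ← mul_assoc, h.ini s, hb]
  · intro t _ ht
    rw [hτ.comm, ← mul_assoc, h.ort t s ht, zero_mul, map_zero]
  · intro hi; exact absurd (Finset.mem_univ s) hi

theorem mm_n2 [Nonempty I] {v : I → A} {g : A} (hτ : TW τ) (h : IsMU v g) (b : I → I → A)
    (hb : ∀ s t, b s t * g = b s t) (hb' : ∀ s t, g * b s t = b s t) :
    n2 τ (MM v b) ^ 2 = ∑ s, ∑ t, n2 τ (b s t) ^ 2 := by
  rw [hτ.n2_sq, mm_star, mm_mul h, mm_tau hτ h]
  · rw [Complex.re_sum]
    rw [Finset.sum_comm]
    refine Finset.sum_congr rfl fun s _ => ?_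
    rw [map_sum, Complex.re_sum]
    exact Finset.sum_congr rfl fun t _ => (hτ.n2_sq _).symm
  · intro s t
    rw [Finset.mul_sum]
    refine Finset.sum_congr rfl fun u _ => ?_
    have := congrArg star (hb u s)
    rw [star_mul, star_g h] at this
    rw [← mul_assoc, this]
  · intro s t
    have := congrArg star (hb' t s)
    rw [star_mul, star_g h] at this
    exact this

/-- signs -/
def sg (b : Bool) : ℝ := if b then 1 else -1

theorem sg_sq (b : Bool) : sg b * sg b = 1 := by
  cases b <;> simp [sg]

theorem sg_not (b : Bool) : sg (!b) = - sg b := by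
  cases b <;> simp [sg]

theorem sign_sum [DecidableEq I] (s s' t t' : I) (hs : s ≠ s') (ht : t ≠ t') :
    ∑ c : I × I → Bool, (sg (c (s, t)) * sg (c (s, t'))) * (sg (c (s', t)) * sg (c (s', t'))) = 0 := by
  set F : (I × I → Bool) → ℝ := fun c =>
    (sg (c (s, t)) * sg (c (s, t'))) * (sg (c (s', t)) * sg (c (s', t'))) with hF
  set U : (I × I → Bool) → (I × I → Bool) :=
    fun c => Function.update c (s, t) (!c (s, t)) with hU
  have hinv : Function.Involutive U := by
    intro c
    simp [hU]
  have h1 := Equiv.sum_comp (Function.Involutive.toPerm U hinv) F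
  have h2 : ∀ c : I × I → Bool, F ((Function.Involutive.toPerm U hinv) c) = - F c := by
    intro c
    have e1 : U c (s, t) = !c (s, t) := by simp [hU]
    have e2 : U c (s, t') = c (s, t') := by
      simp only [hU]
      rw [Function.update_of_ne]
      simp [ht.symm]
    have e3 : U c (s', t) = c (s', t) := by
      simp only [hU]
      rw [Function.update_of_ne]
      simp [hs.symm]
    have e4 : U c (s', t') = c (s', t') := by
      simp only [hU]
      rw [Function.update_of_ne]
      simp [hs.symm]
    rw [Function.Involutive.coe_toPerm]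
    simp only [hF]
    rw [e1, e2, e3, e4, sg_not]
    ring
  rw [Finset.sum_congr rfl (fun c _ => h2 c), Finset.sum_neg_distrib] at h1
  linarith

theorem n2_sum_real {J : Type} [Fintype J] (hτ : TW τ) (α : J → ℝ) (x : J → A) :
    n2 τ (∑ s, (α s : ℂ) • x s) ^ 2 = ∑ s, ∑ s', α s * α s' * (τ (star (x s) * x s')).re := by
  rw [hτ.n2_sq, star_sum, Finset.sum_mul, map_sum, Complex.re_sum]
  refine Finset.sum_congr rfl fun s _ => ?_
  rw [Finset.mul_sum, map_sum, Complex.re_sum]
  refine Finset.sum_congr rfl fun s' _ => ?_
  rw [star_smul, smul_mul_smul_comm, map_smul, smul_eq_mul]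
  have : star (α s : ℂ) * (α s' : ℂ) = ((α s * α s' : ℝ) : ℂ) := by
    rw [Complex.star_def, Complex.conj_ofReal]; push_cast; ring
  rw [this, Complex.re_ofReal_mul]

end SG

open SG in
theorem p_SIGNS (_hL : S_LIFT) : S_SIGNS := by
  classical
  intro A _ τ hτ I _ _ v g h f hf
  set r : ℝ := (Fintype.card I : ℝ) with hr
  have hr0 : 0 < r := by rw [hr]; exact_mod_cast Fintype.card_pos
  set κ : ℝ := (Real.sqrt r)⁻¹ with hκ
  have hκ2 : κ * κ = 1 / r := by
    rw [hκ, ← mul_inv, Real.mul_self_sqrt hr0.le, one_div]
  set a : I → I → A := fun s t => star (v t) * f s * v t with ha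
  have hag : ∀ s t, a s t * g = a s t := fun s t => by
    simp only [ha]; rw [mul_assoc, vg h]
  have hga : ∀ s t, g * a s t = a s t := fun s t => by
    simp only [ha]; rw [← mul_assoc, ← mul_assoc, gsv h]
  have hna : ∀ s t, ‖a s t‖ ≤ 1 := fun s t => by
    simp only [ha]
    calc ‖star (v t) * f s * v t‖ ≤ ‖star (v t) * f s‖ * ‖v t‖ := norm_mul_le _ _
      _ ≤ (‖star (v t)‖ * ‖f s‖) * ‖v t‖ := by
        gcongr; exact norm_mul_le _ _
      _ ≤ (1 * 1) * 1 := by
        gcongr
        · rw [norm_star]; exact norm_v h t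
        · exact hf s
        · exact norm_v h t
      _ = 1 := by norm_num
  clear_value a
  -- the operator attached to a sign matrix
  set b : (I × I → Bool) → I → I → A := fun c s t => ((κ * sg (c (s, t)) : ℝ) : ℂ) • a s t with hb
  have hbg : ∀ c s t, b c s t * g = b c s t := fun c s t => by
    simp only [hb]; rw [smul_mul_assoc, hag]
  have hgb : ∀ c s t, g * b c s t = b c s t := fun c s t => by
    simp only [hb]; rw [mul_smul_comm, hga]
  -- the choice of signs
  have hsel : ∃ c : I × I → Bool, n2 τ (star (MM v (b c)) * MM v (b c)) ^ 2 ≤ 2 := by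
    have e1 : ∀ c, n2 τ (star (MM v (b c)) * MM v (b c)) ^ 2 =
        ∑ t, ∑ t', n2 τ (∑ s, (((1 / r) * (sg (c (s, t)) * sg (c (s, t'))) : ℝ) : ℂ) •
          (star (a s t) * a s t')) ^ 2 := by
      intro c
      rw [mm_star, mm_mul h, mm_n2 hτ h]
      · refine Finset.sum_congr rfl fun t _ => Finset.sum_congr rfl fun t' _ => ?_
        congr 2
        refine Finset.sum_congr rfl fun s _ => ?_
        simp only [hb]
        rw [star_smul, smul_mul_smul_comm]
        congr 1
        rw [Complex.star_def, Complex.conj_ofReal, ← Complex.ofReal_mul]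
        congr 1
        rw [← hκ2]; ring
      · intro s t
        rw [Finset.sum_mul]
        refine Finset.sum_congr rfl fun u _ => ?_
        rw [mul_assoc, hbg]
      · intro s t
        rw [Finset.mul_sum]
        refine Finset.sum_congr rfl fun u _ => ?_
        have := congrArg star (hbg c u s)
        rw [star_mul, star_g h] at this
        rw [← mul_assoc, this]
      · intro s t
        have := congrArg star (hgb c t s)
        rw [star_mul, star_g h] at this
        exact this
    have e2 : ∀ t t', ∑ c : I × I → Bool,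
        n2 τ (∑ s, (((1 / r) * (sg (c (s, t)) * sg (c (s, t'))) : ℝ) : ℂ) •
          (star (a s t) * a s t')) ^ 2 ≤
        ∑ c : I × I → Bool, ((if t = t' then 1 / r else 0) + 1 / r ^ 2) := by
      intro t t'
      by_cases htt : t = t'
      · subst htt
        refine Finset.sum_le_sum fun c _ => ?_
        rw [if_pos rfl]
        have h1 : n2 τ (∑ s, (((1 / r) * (sg (c (s, t)) * sg (c (s, t))) : ℝ) : ℂ) •
            (star (a s t) * a s t)) ^ 2 ≤ 1 / r := by
          apply n2_sq_le hτ h
          · rw [Finset.sum_mul]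
            refine Finset.sum_congr rfl fun s _ => ?_
            rw [smul_mul_assoc, mul_assoc, hag]
          · calc ‖∑ s, (((1 / r) * (sg (c (s, t)) * sg (c (s, t))) : ℝ) : ℂ) •
                  (star (a s t) * a s t)‖ ≤ ∑ s, ‖(((1 / r) * (sg (c (s, t)) * sg (c (s, t))) : ℝ) : ℂ) •
                  (star (a s t) * a s t)‖ := norm_sum_le _ _
              _ ≤ ∑ _s : I, (1 / r) := by
                refine Finset.sum_le_sum fun s _ => ?_
                rw [sg_sq, mul_one, norm_smul, Complex.norm_real, Real.norm_of_nonneg (by positivity)]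
                have : ‖star (a s t) * a s t‖ ≤ 1 := by
                  calc ‖star (a s t) * a s t‖ ≤ ‖star (a s t)‖ * ‖a s t‖ := norm_mul_le _ _
                    _ ≤ 1 * 1 := by
                      gcongr
                      · rw [norm_star]; exact hna s t
                      · exact hna s t
                    _ = 1 := by norm_num
                calc 1 / r * ‖star (a s t) * a s t‖ ≤ 1 / r * 1 := by gcongr
                  _ = 1 / r := by ring
              _ = 1 := by
                rw [Finset.sum_const, Finset.card_univ, nsmul_eq_mul, ← hr]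
                field_simp
        have h2 : 0 ≤ 1 / r ^ 2 := by positivity
        linarith
      · rw [if_neg htt, zero_add]
        have h1 : ∀ c : I × I → Bool,
            n2 τ (∑ s, (((1 / r) * (sg (c (s, t)) * sg (c (s, t'))) : ℝ) : ℂ) •
              (star (a s t) * a s t')) ^ 2 = ∑ s, ∑ s',
              (1 / r ^ 2 * (τ (star (star (a s t) * a s t') * (star (a s' t) * a s' t'))).re) *
              ((sg (c (s, t)) * sg (c (s, t'))) * (sg (c (s', t)) * sg (c (s', t')))) := by
          intro c
          rw [n2_sum_real hτ]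
          refine Finset.sum_congr rfl fun s _ => Finset.sum_congr rfl fun s' _ => ?_
          field_simp
        rw [Finset.sum_congr rfl (fun c _ => h1 c), Finset.sum_comm]
        have h2 : ∀ s, ∑ c : I × I → Bool, ∑ s',
              (1 / r ^ 2 * (τ (star (star (a s t) * a s t') * (star (a s' t) * a s' t'))).re) *
              ((sg (c (s, t)) * sg (c (s, t'))) * (sg (c (s', t)) * sg (c (s', t')))) ≤
              ∑ c : I × I → Bool, (1 / r ^ 2 * (1 / r)) := by
          intro s
          rw [Finset.sum_comm, Finset.sum_eq_single s]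
          · refine Finset.sum_le_sum fun c _ => ?_
            have e3 : (sg (c (s, t)) * sg (c (s, t'))) * (sg (c (s, t)) * sg (c (s, t'))) = 1 := by
              calc (sg (c (s, t)) * sg (c (s, t'))) * (sg (c (s, t)) * sg (c (s, t'))) =
                (sg (c (s, t)) * sg (c (s, t))) * (sg (c (s, t')) * sg (c (s, t'))) := by ring
                _ = 1 := by rw [sg_sq, sg_sq]; norm_num
            rw [e3, mul_one, ← hτ.n2_sq]
            refine mul_le_mul_of_nonneg_left ?_ (by positivity)
            apply n2_sq_le hτ h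
            · rw [mul_assoc, hag]
            · calc ‖star (a s t) * a s t'‖ ≤ ‖star (a s t)‖ * ‖a s t'‖ := norm_mul_le _ _
                _ ≤ 1 * 1 := by
                  gcongr
                  · rw [norm_star]; exact hna s t
                  · exact hna s t'
                _ = 1 := by norm_num
          · intro s' _ hs'
            rw [← Finset.mul_sum, sign_sum s s' t t' hs'.symm htt, mul_zero]
          · intro hi; exact absurd (Finset.mem_univ s) hi
        calc ∑ s, ∑ c : I × I → Bool, ∑ s',
              (1 / r ^ 2 * (τ (star (star (a s t) * a s t') * (star (a s' t) * a s' t'))).re) *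
              ((sg (c (s, t)) * sg (c (s, t'))) * (sg (c (s', t)) * sg (c (s', t')))) ≤
              ∑ _s : I, ∑ c : I × I → Bool, (1 / r ^ 2 * (1 / r)) :=
                Finset.sum_le_sum fun s _ => h2 s
          _ = ∑ c : I × I → Bool, (1 / r ^ 2) := by
            rw [Finset.sum_comm]
            refine Finset.sum_congr rfl fun c _ => ?_
            rw [Finset.sum_const, Finset.card_univ, nsmul_eq_mul, ← hr]
            field_simp
    have e3 : ∑ c : I × I → Bool, n2 τ (star (MM v (b c)) * MM v (b c)) ^ 2 ≤
        ∑ c : I × I → Bool, (2 : ℝ) := by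
      calc ∑ c : I × I → Bool, n2 τ (star (MM v (b c)) * MM v (b c)) ^ 2
          = ∑ t, ∑ t', ∑ c : I × I → Bool,
            n2 τ (∑ s, (((1 / r) * (sg (c (s, t)) * sg (c (s, t'))) : ℝ) : ℂ) •
            (star (a s t) * a s t')) ^ 2 := by
            rw [Finset.sum_congr rfl (fun c _ => e1 c), Finset.sum_comm]
            refine Finset.sum_congr rfl fun t _ => ?_
            rw [Finset.sum_comm]
        _ ≤ ∑ t, ∑ t', ∑ c : I × I → Bool, ((if t = t' then 1 / r else 0) + 1 / r ^ 2) :=
          Finset.sum_le_sum fun t _ => Finset.sum_le_sum fun t' _ => e2 t t'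
        _ = ∑ c : I × I → Bool, ∑ t : I, ∑ t' : I, ((if t = t' then 1 / r else 0) + 1 / r ^ 2) := by
          rw [Finset.sum_congr rfl (fun t _ => Finset.sum_comm), Finset.sum_comm]
        _ = ∑ c : I × I → Bool, (2 : ℝ) := by
          refine Finset.sum_congr rfl fun c _ => ?_
          simp only [Finset.sum_add_distrib, Finset.sum_ite_eq, Finset.mem_univ, if_true,
            Finset.sum_const, Finset.card_univ, nsmul_eq_mul, ← hr]
          field_simp
          norm_num
    obtain ⟨c, -, hc⟩ := Finset.exists_le_of_sum_le (Finset.univ_nonempty) e3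
    exact ⟨c, hc⟩
  obtain ⟨c, hc⟩ := hsel
  have hlift : ∀ y : A, lift v y = MM v (fun s t => if s = t then y else 0) := by
    intro y
    unfold lift MM
    refine Finset.sum_congr rfl fun s _ => ?_
    rw [Finset.sum_eq_single s]
    · simp
    · intro t _ ht
      simp [ht.symm]
    · intro hi; exact absurd (Finset.mem_univ s) hi
  have hpin : ∀ s, pin (dg v) (f s) = MM v (fun t t' => if t = t' then a s t else 0) := by
    intro s
    unfold pin dg MM
    refine Finset.sum_congr rfl fun t _ => ?_
    rw [Finset.sum_eq_single t]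
    · simp only [if_true, ha]
      noncomm_ring
    · intro t' _ ht
      simp [ht.symm]
    · intro hi; exact absurd (Finset.mem_univ t) hi
  have hsub : ∀ x x' : I → I → A, MM v x - MM v x' = MM v (fun s t => x s t - x' s t) := by
    intro x x'
    unfold MM
    rw [← Finset.sum_sub_distrib]
    refine Finset.sum_congr rfl fun s _ => ?_
    rw [← Finset.sum_sub_distrib]
    refine Finset.sum_congr rfl fun t _ => ?_
    noncomm_ring
  have hGl : ∀ x : I → I → A, (∀ s t, x s t * g = x s t) → ∀ y : A,
      MM v x * lift v y = MM v (fun s t => x s t * y) := by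
    intro x hx y
    rw [hlift, mm_mul h _ _ hx]
    congr 1
    funext s t
    rw [Finset.sum_eq_single t]
    · simp
    · intro u _ hu
      simp [hu]
    · intro hi; exact absurd (Finset.mem_univ t) hi
  have hlG : ∀ x : I → I → A, ∀ y : A, y * g = y →
      lift v y * MM v x = MM v (fun s t => y * x s t) := by
    intro x y hy
    rw [hlift, mm_mul h]
    · congr 1
      funext s t
      rw [Finset.sum_eq_single s]
      · simp
      · intro u _ hu
        simp [hu.symm]
      · intro hi; exact absurd (Finset.mem_univ s) hi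
    · intro s t
      split_ifs
      · exact hy
      · simp
  have hnl : ∀ y : A, g * y = y → y * g = y → n2 τ (lift v y) ^ 2 = r * n2 τ y ^ 2 := by
    intro y hy1 hy2
    rw [hlift, mm_n2 hτ h]
    · have : ∀ s : I, ∑ t : I, n2 τ (if s = t then y else 0) ^ 2 = n2 τ y ^ 2 := by
        intro s
        rw [Finset.sum_eq_single s]
        · simp
        · intro t _ ht
          rw [if_neg ht.symm, n2_zero]
          norm_num
        · intro hi; exact absurd (Finset.mem_univ s) hi
      rw [Finset.sum_congr rfl (fun s _ => this s), Finset.sum_const, Finset.card_univ,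
        nsmul_eq_mul]
    · intro s t
      split_ifs
      · exact hy2
      · simp
    · intro s t
      split_ifs
      · exact hy1
      · simp
  have hbn : ∀ (s t : I) (x : A), n2 τ (((κ * sg (c (s, t)) : ℝ) : ℂ) • x) ^ 2 =
      1 / r * n2 τ x ^ 2 := by
    intro s t x
    rw [n2_smul, Complex.norm_real, mul_pow, Real.norm_eq_abs, sq_abs]
    congr 1
    calc (κ * sg (c (s, t))) ^ 2 = (κ * κ) * (sg (c (s, t)) * sg (c (s, t))) := by ring
      _ = 1 / r := by rw [sg_sq, hκ2, mul_one]
  refine ⟨MM v (b c), hc, ?_, ?_⟩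
  · intro y hy1 hy2
    unfold cm
    rw [hGl _ (hbg c), hlG _ y hy2, hsub, mm_n2 hτ h]
    · rw [Finset.mul_sum]
      refine Finset.sum_congr rfl fun s _ => ?_
      rw [hpin, hGl, hlG _ y hy2, hsub, mm_n2 hτ h]
      · rw [Finset.mul_sum]
        refine Finset.sum_congr rfl fun t _ => ?_
        rw [Finset.sum_eq_single t]
        · simp only [if_true, hb]
          rw [smul_mul_assoc, mul_smul_comm, ← smul_sub, hbn]
          field_simp
        · intro t' _ ht
          rw [if_neg ht.symm, zero_mul, mul_zero, sub_zero, n2_zero]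
          norm_num
        · intro hi; exact absurd (Finset.mem_univ t) hi
      · intro t t'
        split_ifs
        · rw [sub_mul, mul_assoc, mul_assoc, hy2, hag]
        · simp
      · intro t t'
        split_ifs
        · rw [mul_sub, ← mul_assoc, ← mul_assoc, hy1, hga]
        · simp
      · intro t t'
        split_ifs
        · exact hag _ _
        · simp
    · intro s t
      rw [sub_mul, mul_assoc, mul_assoc, hy2, hbg]
    · intro s t
      rw [mul_sub, ← mul_assoc, ← mul_assoc, hy1, hgb]
  · intro y hy1 hy2
    have key : ∀ x : I → I → A, (∀ s t, n2 τ (x s t) ^ 2 ≤ 1 / r * n2 τ y ^ 2) →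
        ∑ s, ∑ t, n2 τ (x s t) ^ 2 ≤ r * n2 τ y ^ 2 := by
      intro x hx
      calc ∑ s, ∑ t, n2 τ (x s t) ^ 2 ≤ ∑ _s : I, ∑ _t : I, 1 / r * n2 τ y ^ 2 :=
            Finset.sum_le_sum fun s _ => Finset.sum_le_sum fun t _ => hx s t
        _ = r * n2 τ y ^ 2 := by
          simp only [Finset.sum_const, Finset.card_univ, nsmul_eq_mul, ← hr]
          field_simp
    constructor
    · refine (pow_le_pow_iff_left₀ (n2_nonneg _ _) (n2_nonneg _ _) two_ne_zero).1 ?_
      rw [hnl y hy1 hy2, hGl _ (hbg c), mm_n2 hτ h]
      · apply key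
        intro s t
        simp only [hb]
        rw [smul_mul_assoc, hbn]
        refine mul_le_mul_of_nonneg_left ?_ (by positivity)
        have h1 := (n2_mul_le hτ (a s t) y).1
        have h2 := n2_nonneg τ y
        have h3 := n2_nonneg τ (a s t * y)
        have h4 : n2 τ (a s t * y) ≤ n2 τ y := by nlinarith [hna s t]
        exact pow_le_pow_left₀ h3 h4 2
      · intro s t
        rw [mul_assoc, hy2]
      · intro s t
        rw [← mul_assoc, hgb]
    · refine (pow_le_pow_iff_left₀ (n2_nonneg _ _) (n2_nonneg _ _) two_ne_zero).1 ?_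
      rw [hnl y hy1 hy2, hlG _ y hy2, mm_n2 hτ h]
      · apply key
        intro s t
        simp only [hb]
        rw [mul_smul_comm, hbn]
        refine mul_le_mul_of_nonneg_left ?_ (by positivity)
        have h1 := (n2_mul_le hτ (a s t) y).2
        have h2 := n2_nonneg τ y
        have h3 := n2_nonneg τ (y * a s t)
        have h4 : n2 τ (y * a s t) ≤ n2 τ y := by nlinarith [hna s t]
        exact pow_le_pow_left₀ h3 h4 2
      · intro s t
        rw [mul_assoc, hbg]
      · intro s t
        rw [← mul_assoc, hy1]

end Pool.Agent.H518R4.UG
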