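import Pool.Agent.H518R4.UG.Stubs

/-! Task SPACE (helper355): the trace zero part as an inner product space. -/

set_option autoImplicit false

open scoped ComplexOrder Topology InnerProductSpace
open Filter

noncomputable section

namespace Pool.Agent.H518R4.UG

open Pool.Agent.H467F

theorem space_aux (F : Type) [AddCommGroup F] [Module ℂ F] (c : InnerProductSpace.Core ℂ F)
    (A : Type) [CStarAlgebra A] (τ : A →ₗ[ℂ] ℂ) (ι : F →ₗ[ℂ] A) (hι : Function.Injective ι)
    (hr : ∀ y : A, (∃ x, ι x = y) ↔ τ y = 0)
    (hc : ∀ x y : F, c.inner x y = τ (star (ι x) * ι y))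
    (hU : ∀ u : unitary A, ∃ U : F →ₗ[ℂ] F, ∀ x, ι (U x) = (u : A) * ι x * star (u : A)) :
    ∃ (E : Type) (_ : NormedAddCommGroup E) (_ : InnerProductSpace ℂ E)
      (ι : E →ₗ[ℂ] A), Function.Injective ι ∧ (∀ y : A, (∃ x, ι x = y) ↔ τ y = 0) ∧
      (∀ x y : E, ⟪x, y⟫_ℂ = τ (star (ι x) * ι y)) ∧ (∀ x : E, ‖x‖ = n2 τ (ι x)) ∧
      ∀ u : unitary A, ∃ U : E →ₗ[ℂ] E, ∀ x, ι (U x) = (u : A) * ι x * star (u : A) := by
  let _ : NormedAddCommGroup F := @InnerProductSpace.Core.toNormedAddCommGroup ℂ F _ _ _ c
  let _ : InnerProductSpace ℂ F := InnerProductSpace.ofCore c.toCore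
  refine ⟨F, inferInstance, inferInstance, ι, hι, hr, hc, ?_, hU⟩
  intro x
  have h1 : ‖x‖ = Real.sqrt (c.inner x x).re := rfl
  rw [h1, hc]
  rfl

theorem p_SPACE : S_SPACE := by
  intro A _ τ h
  let c : InnerProductSpace.Core ℂ (LinearMap.ker τ) :=
    { inner := fun x y => τ (star (x : A) * (y : A))
      conj_inner_symm := fun x y => by
        have h1 : τ (star (star (y : A) * (x : A))) = star (τ (star (y : A) * (x : A))) := h.conj _
        rw [star_mul, star_star] at h1
        exact h1.symm
      re_inner_nonneg := fun x => (Complex.nonneg_iff.1 (h.nonneg (x : A))).1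
      add_left := fun x y z => by
        simp only [Submodule.coe_add, star_add, add_mul, map_add]
      smul_left := fun x y r => by
        simp only [Submodule.coe_smul, star_smul, smul_mul_assoc, map_smul]
        rfl
      definite := fun x hx => Subtype.ext (h.faithful _ hx) }
  refine space_aux (LinearMap.ker τ) c A τ (LinearMap.ker τ).subtype
    (Submodule.subtype_injective _) ?_ (fun x y => rfl) ?_
  · intro y
    constructor
    · rintro ⟨x, rfl⟩
      exact x.2
    · intro hy
      exact ⟨⟨y, hy⟩, rfl⟩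
  · intro u
    have hmem : ∀ x : A, τ ((u : A) * x * star (u : A)) = τ x := by
      intro x
      rw [h.comm, ← mul_assoc]
      have : star (u : A) * (u : A) = 1 := Unitary.star_mul_self_of_mem u.2
      rw [this, one_mul]
    refine ⟨{ toFun := fun x => ⟨(u : A) * (x : A) * star (u : A), ?_⟩
              map_add' := ?_
              map_smul' := ?_ }, fun x => rfl⟩
    · rw [LinearMap.mem_ker, hmem]
      exact x.2
    · intro x y
      apply Subtype.ext
      simp only [Submodule.coe_add, mul_add, add_mul]
    · intro r x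
      apply Subtype.ext
      simp only [Submodule.coe_smul, RingHom.id_apply, mul_smul_comm, smul_mul_assoc]

end Pool.Agent.H518R4.UG
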