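import Pool.Agent.H518R4.UG.Stubs
import Pool.Agent.Helper467.FP.P_n2_mul_le

/-!
Universal spectral gap, task TRUNC: truncation.
-/

set_option autoImplicit false

open scoped ComplexOrder Topology
open Filter

noncomputable section

namespace Pool.Agent.H518R4.UG

open Pool.Agent.H467F

section

variable {A : Type} [CStarAlgebra A] {τ : A →ₗ[ℂ] ℂ}

/-- Positivity of the trace on positive functions. -/
theorem TRUNC_pos (h : TW τ) {a : A} (_ha : IsSelfAdjoint a) {m : ℝ → ℝ}
    (hm : ContinuousOn m (spectrum ℝ a)) (h0 : ∀ t ∈ spectrum ℝ a, 0 ≤ m t) (x : A) :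
    0 ≤ (τ (star x * (cfc m a * x))).re := by
  have hc : ContinuousOn (fun t => √(m t)) (spectrum ℝ a) := hm.sqrt
  have hb : cfc m a = cfc (fun t => √(m t)) a * cfc (fun t => √(m t)) a := by
    rw [← cfc_mul (fun t => √(m t)) (fun t => √(m t)) a hc hc]
    exact cfc_congr fun t ht => (Real.mul_self_sqrt (h0 t ht)).symm
  have hs : star (cfc (fun t => √(m t)) a) = cfc (fun t => √(m t)) a :=
    (cfc_predicate (fun t => √(m t)) a : IsSelfAdjoint _)
  have he : star x * (cfc m a * x) =
      star (cfc (fun t => √(m t)) a * x) * (cfc (fun t => √(m t)) a * x) := by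
    rw [hb, star_mul, hs]
    simp only [mul_assoc]
  rw [he]
  exact h.re_nonneg _

/-- Comparison of two functions. -/
theorem TRUNC_mono (h : TW τ) {a : A} (ha : IsSelfAdjoint a) {m m' : ℝ → ℝ}
    (hm : ContinuousOn m (spectrum ℝ a)) (hm' : ContinuousOn m' (spectrum ℝ a))
    (h0 : ∀ t ∈ spectrum ℝ a, m t ≤ m' t) (x : A) :
    (τ (star x * (cfc m a * x))).re ≤ (τ (star x * (cfc m' a * x))).re := by
  have h1 := TRUNC_pos h ha (hm'.sub hm) (fun t ht => sub_nonneg.2 (h0 t ht)) x
  have h2 : cfc (fun t => m' t - m t) a = cfc m' a - cfc m a := cfc_sub m' m a hm' hm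
  have h3 : cfc (m' - m) a = cfc m' a - cfc m a := h2
  rw [h3, sub_mul, mul_sub, map_sub, Complex.sub_re] at h1
  linarith

theorem p_TRUNC : S_TRUNC := by
  intro A _ τ h G C hC hG
  obtain ⟨a, haG⟩ : ∃ a, a = star G * G := ⟨_, rfl⟩
  have ha : IsSelfAdjoint a := by
    rw [haG]
    exact IsSelfAdjoint.star_mul_self G
  have hsp : ∀ t ∈ spectrum ℝ a, 0 ≤ t := by
    rw [haG]
    exact spectrum_star_mul_self_nonneg
  have hC2 : 0 < C ^ 2 := by positivity
  -- the functions
  have hg : ContinuousOn (fun t : ℝ => t / (C ^ 2 + t)) (spectrum ℝ a) := by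
    refine ContinuousOn.div continuousOn_id (continuousOn_const.add continuousOn_id) ?_
    intro t ht
    have := hsp t ht
    show C ^ 2 + t ≠ 0
    positivity
  have hid : ContinuousOn (fun t : ℝ => t) (spectrum ℝ a) := continuousOn_id
  have hg1 : ContinuousOn (fun t : ℝ => 1 - t / (C ^ 2 + t)) (spectrum ℝ a) :=
    continuousOn_const.sub hg
  obtain ⟨b, hb⟩ : ∃ b, b = cfc (fun t : ℝ => t / (C ^ 2 + t)) a := ⟨_, rfl⟩
  have hbs : star b = b := by
    rw [hb]
    exact (cfc_predicate (fun t : ℝ => t / (C ^ 2 + t)) a : IsSelfAdjoint _)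
  have hid' : cfc (fun t : ℝ => t) a = a := cfc_id' ℝ a
  have h1b : cfc (fun t : ℝ => 1 - t / (C ^ 2 + t)) a = 1 - b := by
    rw [cfc_sub (fun _ : ℝ => (1 : ℝ)) (fun t : ℝ => t / (C ^ 2 + t)) a continuousOn_const hg,
      cfc_const_one ℝ a, hb]
  have hbab : cfc (fun t : ℝ => t / (C ^ 2 + t) * (t * (t / (C ^ 2 + t)))) a = b * (a * b) := by
    rw [cfc_mul (fun t : ℝ => t / (C ^ 2 + t)) (fun t : ℝ => t * (t / (C ^ 2 + t))) a hg
      (hid.mul hg), cfc_mul (fun t : ℝ => t) (fun t : ℝ => t / (C ^ 2 + t)) a hid hg, hid', ← hb]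
  have h1bab : cfc (fun t : ℝ => (1 - t / (C ^ 2 + t)) * (t * (1 - t / (C ^ 2 + t)))) a =
      (1 - b) * (a * (1 - b)) := by
    rw [cfc_mul (fun t : ℝ => 1 - t / (C ^ 2 + t)) (fun t : ℝ => t * (1 - t / (C ^ 2 + t))) a hg1
      (hid.mul hg1), cfc_mul (fun t : ℝ => t) (fun t : ℝ => 1 - t / (C ^ 2 + t)) a hid hg1, hid',
      h1b]
  have hk : ContinuousOn (fun t : ℝ => t / (C ^ 2 + t) * (t * (t / (C ^ 2 + t))))
      (spectrum ℝ a) := hg.mul (hid.mul hg)
  have hG2 : star (G * b) * (G * b) = b * (a * b) := by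
    rw [star_mul, hbs, haG]
    simp only [mul_assoc]
  have hG1 : star (G * (1 - b)) * (G * (1 - b)) = (1 - b) * (a * (1 - b)) := by
    rw [star_mul, star_sub, star_one, hbs, haG]
    simp only [mul_assoc]
  refine ⟨G * (1 - b), G * b, by rw [← mul_add, sub_add_cancel, mul_one], ?_, ?_, ?_⟩
  · -- the norm
    have h1 : ‖G * (1 - b)‖ * ‖G * (1 - b)‖ ≤ C / 2 * (C / 2) := by
      rw [← CStarRing.norm_star_mul_self, hG1, ← h1bab]
      refine norm_cfc_le (by positivity) fun t ht => ?_
      have ht0 := hsp t ht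
      have hpos : 0 < C ^ 2 + t := by positivity
      have he : 1 - t / (C ^ 2 + t) = C ^ 2 / (C ^ 2 + t) := by
        field_simp
        ring
      rw [he, Real.norm_of_nonneg (by positivity)]
      have he2 : C ^ 2 / (C ^ 2 + t) * (t * (C ^ 2 / (C ^ 2 + t))) =
          (C ^ 2 * C ^ 2 * t) / (C ^ 2 + t) ^ 2 := by
        field_simp
      rw [he2, div_le_iff₀ (by positivity)]
      have h2 : 0 ≤ C ^ 2 * (C ^ 2 - t) ^ 2 := by positivity
      nlinarith
    exact (mul_self_le_mul_self_iff (norm_nonneg _) (by positivity)).2 h1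
  · rw [h.n2_sq, hG2, ← hbab]
    have h1 := TRUNC_mono h ha hk
      (m' := fun t => (1 / (4 * C ^ 2)) * (t * t)) (continuousOn_const.mul (hid.mul hid))
      (fun t ht => by
        have ht0 := hsp t ht
        have hpos : 0 < C ^ 2 + t := by positivity
        have he2 : t / (C ^ 2 + t) * (t * (t / (C ^ 2 + t))) = (t * t * t) / (C ^ 2 + t) ^ 2 := by
          field_simp
        have he3 : (1 / (4 * C ^ 2)) * (t * t) = (t * t) / (4 * C ^ 2) := by ring
        show t / (C ^ 2 + t) * (t * (t / (C ^ 2 + t))) ≤ (1 / (4 * C ^ 2)) * (t * t)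
        rw [he2, he3, div_le_div_iff₀ (by positivity) (by positivity)]
        have h2 : 0 ≤ t * t * (C ^ 2 - t) ^ 2 := by positivity
        nlinarith) 1
    rw [star_one, one_mul, mul_one, one_mul, mul_one] at h1
    refine h1.trans ?_
    have h2 : cfc (fun t : ℝ => (1 / (4 * C ^ 2)) * (t * t)) a =
        ((1 / (4 * C ^ 2) : ℝ) : ℂ) • (a * a) := by
      rw [cfc_const_mul _ (fun t : ℝ => t * t) a (hid.mul hid), 
        cfc_mul (fun t : ℝ => t) (fun t : ℝ => t) a hid hid, hid']
      rw [← Complex.coe_smul]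
    rw [h2, map_smul, smul_eq_mul, Complex.re_ofReal_mul]
    have h3 : (τ (a * a)).re ≤ 2 := by
      have h4 := hG
      rw [← haG, h.n2_sq, ha.star_eq] at h4
      exact h4
    calc 1 / (4 * C ^ 2) * (τ (a * a)).re ≤ 1 / (4 * C ^ 2) * 2 := by gcongr
      _ = 1 / (2 * C ^ 2) := by
        field_simp
        norm_num
  · intro x
    constructor
    · have h1 := TRUNC_mono h ha hk hid
        (fun t ht => by
          have ht0 := hsp t ht
          have hpos : 0 < C ^ 2 + t := by positivity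
          have he2 : t / (C ^ 2 + t) * (t * (t / (C ^ 2 + t))) =
              (t * t * t) / (C ^ 2 + t) ^ 2 := by
            field_simp
          show t / (C ^ 2 + t) * (t * (t / (C ^ 2 + t))) ≤ t
          rw [he2, div_le_iff₀ (by positivity)]
          have h2 : 0 ≤ t * (C ^ 2 * C ^ 2 + 2 * (C ^ 2 * t)) := by positivity
          nlinarith) x
      rw [hbab, hid'] at h1
      have h2 : n2 τ (G * b * x) ^ 2 = (τ (star x * (b * (a * b) * x))).re := by
        rw [h.n2_sq, ← hG2, star_mul (G * b) x]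
        simp only [mul_assoc]
      have h3 : n2 τ (G * x) ^ 2 = (τ (star x * (a * x))).re := by
        rw [h.n2_sq, haG, star_mul]
        simp only [mul_assoc]
      rw [← h2, ← h3] at h1
      exact (pow_le_pow_iff_left₀ (n2_nonneg _ _) (n2_nonneg _ _) two_ne_zero).1 h1
    · rw [← mul_assoc]
      have h1 := (n2_mul_le h b (x * G)).2
      have h2 : ‖b‖ ≤ 1 := by
        rw [hb]
        refine norm_cfc_le zero_le_one fun t ht => ?_
        have ht0 := hsp t ht
        have hpos : 0 < C ^ 2 + t := by positivity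
        rw [Real.norm_of_nonneg (by positivity), div_le_one hpos]
        linarith
      calc n2 τ (x * G * b) ≤ n2 τ (x * G) * ‖b‖ := h1
        _ ≤ n2 τ (x * G) * 1 := mul_le_mul_of_nonneg_left h2 (n2_nonneg _ _)
        _ = n2 τ (x * G) := mul_one _

end

end Pool.Agent.H518R4.UG
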