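import Mathlib
import Pool.Agent.H518R4.UG.Stubs

/-!
Universal spectral gap for non-Gamma II_1 factors (MP_ab5fa7_an, S03914): task TWOU.
-/

set_option autoImplicit false

open scoped ComplexOrder Topology InnerProductSpace
open Filter

noncomputable section

namespace Pool.Agent.H518R4.UG

open Pool.Agent.H467F

theorem TWOU_sa {A : Type} [CStarAlgebra A] (τ : A →ₗ[ℂ] ℂ) (hτ : TW τ) (p a : A)
    (ha1 : p * a = a) (ha2 : a * p = a) (hsa : IsSelfAdjoint a) (hn : ‖a‖ ≤ 1) :
    ∃ u : unitary A, (u : A) * p = p * u ∧ ∀ y : A, p * y = y → y * p = y →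
      n2 τ (cm a y) ≤ n2 τ (cm (u : A) y) := by
  rcases subsingleton_or_nontrivial A with hsub | hnt
  · refine ⟨1, Subsingleton.elim _ _, fun y _ _ => ?_⟩
    rw [Subsingleton.elim (cm a y) (cm ((1 : unitary A) : A) y)]
  have hspec : ∀ t ∈ spectrum ℝ a, t ^ 2 ≤ 1 := by
    intro t ht
    have h1 : ‖t‖ ≤ ‖a‖ := spectrum.norm_le_norm_of_mem ht
    have h2 : |t| ≤ 1 := h1.trans hn
    rw [← sq_abs]
    nlinarith [abs_nonneg t]
  let f : ℝ → ℝ := fun t => √(1 - t ^ 2)
  have hfc : ContinuousOn f (spectrum ℝ a) := by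
    apply Continuous.continuousOn
    fun_prop
  let c : A := cfc f a
  have hcsa : star c = c := (cfc_predicate f a).star_eq
  have hcc : c * c = 1 - a * a := by
    have h1 : c * c = cfc (fun t => f t * f t) a := (cfc_mul f f a hfc hfc).symm
    have h2 : cfc (fun t => f t * f t) a = cfc (fun t : ℝ => 1 - t ^ 2) a := by
      apply cfc_congr
      intro t ht
      exact Real.mul_self_sqrt (by linarith [hspec t ht])
    rw [h1, h2, cfc_sub (fun _ : ℝ => (1 : ℝ)) (fun t : ℝ => t ^ 2) a, cfc_const_one ℝ a,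
      cfc_pow_id a 2, pow_two]
  have hac : c * a = a * c := (Commute.cfc_real (Commute.refl a) f).eq
  have hpc : c * p = p * c := (Commute.cfc_real (show Commute a p from ha2.trans ha1.symm) f).eq
  have hI : Complex.I * Complex.I = -1 := Complex.I_mul_I
  have hIs : star Complex.I = -Complex.I := Complex.conj_I
  set w : A := a + Complex.I • c with hw
  have hws : star w = a + (-Complex.I) • c := by
    rw [hw, star_add, star_smul, hcsa, hsa.star_eq, hIs]
  have h1 : star w * w = 1 := by
    rw [hws, hw, add_mul, mul_add, mul_add, mul_smul_comm, smul_mul_assoc, smul_mul_smul_comm,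
      hcc, hac, neg_mul, hI, neg_neg, one_smul, neg_smul]
    abel
  have h2 : w * star w = 1 := by
    rw [hws, hw, add_mul, mul_add, mul_add, mul_smul_comm, smul_mul_assoc, smul_mul_smul_comm,
      hcc, hac, mul_neg, hI, neg_neg, one_smul, neg_smul]
    abel
  have hwp : w * p = p * w := by
    rw [hw, add_mul, mul_add, ha1, ha2, smul_mul_assoc, mul_smul_comm, hpc]
  refine ⟨⟨w, Unitary.mem_iff.2 ⟨h1, h2⟩⟩, hwp, fun y hy1 hy2 => ?_⟩
  show n2 τ (cm a y) ≤ n2 τ (cm w y)
  have e0 : a = (1 / 2 : ℂ) • w + (1 / 2 : ℂ) • star w := by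
    rw [hws, hw]
    module
  have e1 : cm a y = (1 / 2 : ℂ) • (cm w y) + (1 / 2 : ℂ) • (cm (star w) y) := by
    unfold cm
    conv_lhs => rw [e0]
    simp only [add_mul, mul_add, smul_mul_assoc, mul_smul_comm, smul_sub]
    abel
  have e2 : cm (star w) y = -(star w * cm w y * star w) := by
    unfold cm
    calc star w * y - y * star w = star w * y * (w * star w) - (star w * w) * y * star w := by
          rw [h1, h2, mul_one, one_mul]
      _ = -(star w * (w * y - y * w) * star w) := by noncomm_ring
  have e3 : n2 τ (star w * cm w y * star w) = n2 τ (cm w y) := by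
    have : n2 τ (star w * cm w y * star w) ^ 2 = n2 τ (cm w y) ^ 2 := by
      rw [hτ.n2_sq, hτ.n2_sq]
      congr 1
      have e : star (star w * cm w y * star w) * (star w * cm w y * star w) =
          w * (star (cm w y) * (w * star w) * (cm w y) * star w) := by
        simp only [star_mul, star_star, mul_assoc]
      rw [e, hτ.comm, h2, mul_one, mul_assoc, h1, mul_one]
    exact (pow_left_inj₀ (n2_nonneg _ _) (n2_nonneg _ _) two_ne_zero).1 this
  have e4 : n2 τ (cm (star w) y) = n2 τ (cm w y) := by
    rw [e2, n2_neg, e3]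
  rw [e1]
  refine (hτ.n2_add_le _ _).trans ?_
  rw [n2_smul, n2_smul, e4]
  have : ‖(1 / 2 : ℂ)‖ = 1 / 2 := by norm_num
  rw [this]
  linarith

theorem p_TWOU : S_TWOU := by
  intro A _ τ hτ p x hp hx hn
  obtain ⟨hps, hpp⟩ := hp
  have hx1 : p * x = x := by
    rw [← hx, ← mul_assoc, ← mul_assoc, hpp]
  have hx2 : x * p = x := by
    rw [← hx, mul_assoc, hpp]
  have hs1 : p * star x = star x := by
    have := congrArg star hx2
    rwa [star_mul, hps] at this
  have hs2 : star x * p = star x := by
    have := congrArg star hx1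
    rwa [star_mul, hps] at this
  have hIs : star Complex.I = -Complex.I := Complex.conj_I
  have hI : Complex.I * Complex.I = -1 := Complex.I_mul_I
  have h12 : ‖(1 / 2 : ℂ)‖ = 1 / 2 := by norm_num
  have hsn : ‖star x‖ ≤ 1 := by rwa [norm_star]
  obtain ⟨u₁, hu₁, h₁⟩ := TWOU_sa τ hτ p ((1 / 2 : ℂ) • (x + star x))
    (by rw [mul_smul_comm, mul_add, hx1, hs1]) (by rw [smul_mul_assoc, add_mul, hx2, hs2])
    (by
      rw [isSelfAdjoint_iff, star_smul, star_add, star_star, add_comm]
      congr 1
      simp)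
    (by
      rw [norm_smul, h12]
      have := norm_add_le x (star x)
      linarith)
  obtain ⟨u₂, hu₂, h₂⟩ := TWOU_sa τ hτ p ((-(1 / 2 : ℂ) * Complex.I) • (x - star x))
    (by rw [mul_smul_comm, mul_sub, hx1, hs1]) (by rw [smul_mul_assoc, sub_mul, hx2, hs2])
    (by
      rw [isSelfAdjoint_iff, star_smul, star_sub, star_star]
      have : star (-(1 / 2 : ℂ) * Complex.I) = (1 / 2 : ℂ) * Complex.I := by
        simp [mul_comm]
      rw [this]
      module)
    (by
      rw [norm_smul, norm_mul, norm_neg, h12, Complex.norm_I, mul_one]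
      have := norm_sub_le x (star x)
      linarith)
  refine ⟨u₁, u₂, hu₁, hu₂, fun y hy1 hy2 => ?_⟩
  have k₁ := h₁ y hy1 hy2
  have k₂ := h₂ y hy1 hy2
  set a : A := (1 / 2 : ℂ) • (x + star x) with ha
  set b : A := (-(1 / 2 : ℂ) * Complex.I) • (x - star x) with hb
  have hbI : Complex.I • b = (1 / 2 : ℂ) • (x - star x) := by
    rw [hb, smul_smul]
    congr 1
    rw [mul_comm, mul_assoc, hI]
    ring
  have ex : x = a + Complex.I • b := by
    rw [hbI, ha]
    module
  have exs : star x = a + (-Complex.I) • b := by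
    rw [neg_smul, hbI, ha]
    module
  constructor
  · have e1 : cm x y = cm a y + Complex.I • cm b y := by
      unfold cm
      conv_lhs => rw [ex]
      simp only [add_mul, mul_add, smul_mul_assoc, mul_smul_comm, smul_sub]
      abel
    rw [e1]
    refine (hτ.n2_add_le _ _).trans ?_
    rw [n2_smul, Complex.norm_I, one_mul]
    linarith
  · have e1 : cm (star x) y = cm a y + (-Complex.I) • cm b y := by
      unfold cm
      conv_lhs => rw [exs]
      simp only [add_mul, mul_add, smul_mul_assoc, mul_smul_comm, smul_sub]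
      abel
    rw [e1]
    refine (hτ.n2_add_le _ _).trans ?_
    rw [n2_smul, norm_neg, Complex.norm_I, one_mul]
    linarith

end Pool.Agent.H518R4.UG
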