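import Pool.Agent.H518R4.UG.Stubs

/-! Task UNIV of helper518's project: the universal spectral gap. -/

set_option autoImplicit false

open scoped ComplexOrder Topology InnerProductSpace
open Filter

noncomputable section

namespace Pool.Agent.H518R4.UG

open Pool.Agent.H467F

private theorem univ_pad {A : Type} [CStarAlgebra A] {τ : A →ₗ[ℂ] ℂ} {k m : ℕ} {c : ℝ}
    (h : NG τ k c) (hm : m ≤ k) : NG τ m c := by
  intro x hx
  obtain ⟨y, hy0, hy⟩ := h (fun i => if hi : (i : ℕ) < m then x ⟨i, hi⟩ else 0) (by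
    intro i
    by_cases hi : (i : ℕ) < m
    · simp only [hi, dif_pos]
      exact hx _
    · simp only [hi, dif_neg, not_false_iff]
      simp)
  refine ⟨y, hy0, lt_of_le_of_lt ?_ hy⟩
  have h1 : ∑ i : Fin m, n2 τ (cm (x i) y) ^ 2 =
      ∑ i ∈ Finset.univ.map (Fin.castLEEmb hm),
        n2 τ (cm ((fun i : Fin k => if hi : (i : ℕ) < m then x ⟨i, hi⟩ else 0) i) y) ^ 2 := by
    rw [Finset.sum_map]
    refine Finset.sum_congr rfl fun i _ => ?_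
    simp
  rw [h1]
  exact Finset.sum_le_sum_of_subset_of_nonneg (Finset.subset_univ _)
    fun _ _ _ => sq_nonneg _

private theorem univ_mono {A : Type} [CStarAlgebra A] {τ : A →ₗ[ℂ] ℂ} {k : ℕ} {c c' : ℝ}
    (h : NG τ k c) (hc : c ≤ c') : NG τ k c' := by
  intro x hx
  obtain ⟨y, hy0, hy⟩ := h x hx
  exact ⟨y, hy0, hy.trans_le (mul_le_mul_of_nonneg_right hc (sq_nonneg _))⟩

theorem p_UNIV (hPACK : S_PACK) (hBOOST : S_BOOST) (hFROM : S_FROMGAP) : S_UNIV := by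
  classical
  obtain ⟨L, Λ, hL, hΛ, hP⟩ := hPACK
  obtain ⟨B, hB⟩ := hBOOST Λ hΛ
  obtain ⟨a, ha⟩ : ∃ a : ℕ, 2 * L * B < 2 ^ a := ⟨2 * L * B, Nat.lt_two_pow_self⟩
  obtain ⟨k₁, c₁, hc₁, hP⟩ := hP a
  refine ⟨max k₁ (2 ^ a), min c₁ (1 / 2), lt_min hc₁ (by norm_num), ?_⟩
  intro A _ τ hF ⟨k', c', hc', hgap⟩ hNG
  obtain ⟨K₀, Λ', u₀, hK₀, hΛ', hu₀⟩ := hFROM A τ hF.tw k' c' hc' hgap
  obtain ⟨B', hB'⟩ := hBOOST Λ' hΛ'
  obtain ⟨K₂, hK₂, -, u₂, hu₂⟩ := hB' A τ hF.tw K₀ u₀ hK₀ hu₀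
  have hex : ∃ K : ℕ, 0 < K ∧ ∃ u : Fin K → unitary A, AG τ 1 u := ⟨K₂, hK₂, u₂, hu₂⟩
  obtain ⟨K, ⟨hKpos, u, hu⟩, hmin⟩ : ∃ K : ℕ, (0 < K ∧ ∃ u : Fin K → unitary A, AG τ 1 u) ∧
      ∀ K' : ℕ, (0 < K' ∧ ∃ u : Fin K' → unitary A, AG τ 1 u) → K ≤ K' :=
    ⟨Nat.find hex, Nat.find_spec hex, fun K' h => Nat.find_min' hex h⟩
  have hNG₁ : NG τ k₁ c₁ := univ_mono (univ_pad hNG (le_max_left _ _)) (min_le_left _ _)
  rcases le_or_gt (2 ^ a) K with hle | hlt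
  · obtain ⟨K₁, hK₁, hK₁L, u', hu'⟩ := hP A τ hF hNG₁ K u hle hu
    obtain ⟨K', hK', hK'B, u'', hu''⟩ := hB A τ hF.tw K₁ u' hK₁ hu'
    have h1 : 2 ^ a * K' < 2 ^ a * K := by
      calc 2 ^ a * K' ≤ 2 ^ a * (B * K₁) := Nat.mul_le_mul_left _ hK'B
        _ = B * (2 ^ a * K₁) := by ring
        _ ≤ B * (2 * K * L) := Nat.mul_le_mul_left _ hK₁L
        _ = (2 * L * B) * K := by ring
        _ < 2 ^ a * K := Nat.mul_lt_mul_of_pos_right ha hKpos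
    have h2 : K' < K := lt_of_mul_lt_mul_left h1 (Nat.zero_le _)
    exact absurd (hmin K' ⟨hK', u'', hu''⟩) (not_le.2 h2)
  · have hNG₂ : NG τ K (1 / 2) :=
      univ_mono (univ_pad hNG (hlt.le.trans (le_max_right _ _))) (min_le_right _ _)
    have hnt : Nontrivial A := by
      refine ⟨⟨1, 0, fun h => ?_⟩⟩
      have := hF.tw.one
      rw [h, map_zero] at this
      exact zero_ne_one this
    obtain ⟨y, hy0, hy⟩ := hNG₂ (fun i => (u i : A)) (fun i => by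
      rw [CStarRing.norm_coe_unitary])
    have h3 := hu y hy0
    rw [Fintype.card_fin] at h3
    have h4 : (1 : ℝ) ≤ K := by exact_mod_cast hKpos
    have h5 : 0 ≤ n2 τ y ^ 2 := sq_nonneg _
    nlinarith

end Pool.Agent.H518R4.UG
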