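import Pool.Agent.H518R4.UG.Stubs

/-! Task WALK: products of unitaries along walks. -/

namespace Pool.Agent.H518R4.UG

namespace Walk

variable {V : Type} [Fintype V] {E : Type} [NormedAddCommGroup E] [InnerProductSpace ℂ E]

/-- the 2-norm -/
noncomputable def nn (F : V → E) : ℝ := ‖(WithLp.toLp 2 F : PiLp 2 (fun _ : V => E))‖

theorem nn_sq (F : V → E) : nn F ^ 2 = ∑ v, ‖F v‖ ^ 2 := by
  rw [nn, PiLp.norm_sq_eq_of_L2]

theorem nn_nonneg (F : V → E) : 0 ≤ nn F := norm_nonneg _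

theorem nn_add (F G : V → E) : nn (F + G) ≤ nn F + nn G := by
  rw [nn, nn, nn, WithLp.toLp_add]
  exact norm_add_le _ _

theorem nn_smul (c : ℝ) (hc : 0 ≤ c) (F : V → E) : nn ((c : ℂ) • F) = c * nn F := by
  rw [nn, nn, WithLp.toLp_smul, norm_smul]
  simp [abs_of_nonneg hc]

theorem nn_le_of_sq {F : V → E} {c : ℝ} (hc : 0 ≤ c) (h : nn F ^ 2 ≤ c ^ 2) : nn F ≤ c :=
  abs_le_of_sq_le_sq' h hc |>.2

theorem nn_const (x : E) : nn (fun _ : V => x) ^ 2 = Fintype.card V * ‖x‖ ^ 2 := by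
  rw [nn_sq]; simp [Finset.card_univ]

/-- orthogonality of constants and mean zero functions -/
theorem pyth (x : E) (G : V → E) (hG : ∑ v, G v = 0) :
    nn ((fun _ => x) + G) ^ 2 = nn (fun _ : V => x) ^ 2 + nn G ^ 2 := by
  rw [nn_sq, nn_sq, nn_sq]
  have h : ∀ v, ‖((fun _ : V => x) + G) v‖ ^ 2 =
      ‖x‖ ^ 2 + 2 * RCLike.re (inner ℂ x (G v)) + ‖G v‖ ^ 2 := by
    intro v
    simp only [Pi.add_apply]
    exact norm_add_sq x (G v)
  have h0 : ∑ v, ‖((fun _ : V => x) + G) v‖ ^ 2 =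
      ∑ v, (‖x‖ ^ 2 + 2 * RCLike.re (inner ℂ x (G v)) + ‖G v‖ ^ 2) :=
    Finset.sum_congr rfl fun v _ => h v
  have h1 : ∑ v, 2 * RCLike.re (inner ℂ x (G v)) = 0 := by
    rw [← Finset.mul_sum, ← map_sum, ← inner_sum, hG, inner_zero_right]
    simp
  rw [h0, Finset.sum_add_distrib, Finset.sum_add_distrib, h1, add_zero]

section ops

variable (d : ℕ) (σ : Fin d → Equiv.Perm V) (U : V → (E →ₗ[ℂ] E))

/-- averaging -/
noncomputable def PP (F : V → E) : V → E := fun v => ((d : ℂ))⁻¹ • ∑ i, F (σ i v)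

/-- the mean -/
noncomputable def mean (F : V → E) : E := ((Fintype.card V : ℂ))⁻¹ • ∑ v, F v

/-- constant part -/
noncomputable def JJ (F : V → E) : V → E := fun _ => mean F

/-- the diagonal operator -/
def UU (F : V → E) : V → E := fun v => U v (F v)

theorem PP_add (F G : V → E) : PP d σ (F + G) = PP d σ F + PP d σ G := by
  funext v
  simp [PP, Finset.sum_add_distrib]

theorem PP_const (hd : 0 < d) (x : E) : PP d σ (fun _ => x) = fun _ => x := by
  funext v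
  have hd' : (d : ℂ) ≠ 0 := by exact_mod_cast hd.ne'
  simp only [PP, Finset.sum_const, Finset.card_univ, Fintype.card_fin]
  rw [← Nat.cast_smul_eq_nsmul ℂ, smul_smul, inv_mul_cancel₀ hd', one_smul]

theorem sum_PP (hd : 0 < d) (F : V → E) : ∑ v, PP d σ F v = ∑ v, F v := by
  have hd' : (d : ℂ) ≠ 0 := by exact_mod_cast hd.ne'
  simp only [PP]
  rw [← Finset.smul_sum, Finset.sum_comm]
  have h : ∀ i : Fin d, ∑ v, F (σ i v) = ∑ v, F v := fun i => Equiv.sum_comp (σ i) F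
  rw [Finset.sum_congr rfl fun i _ => h i]
  simp only [Finset.sum_const, Finset.card_univ, Fintype.card_fin]
  rw [← Nat.cast_smul_eq_nsmul ℂ, smul_smul, inv_mul_cancel₀ hd', one_smul]

variable [Nonempty V]

theorem sum_sub_JJ (F : V → E) : ∑ v, (F - JJ F) v = 0 := by
  have hN : (Fintype.card V : ℂ) ≠ 0 := by exact_mod_cast Fintype.card_ne_zero
  simp only [Pi.sub_apply, JJ, mean, Finset.sum_sub_distrib, Finset.sum_const, Finset.card_univ]
  rw [← Nat.cast_smul_eq_nsmul ℂ, smul_smul, mul_inv_cancel₀ hN, one_smul, sub_self]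

theorem decomp (F : V → E) : nn F ^ 2 = nn (JJ F) ^ 2 + nn (F - JJ F) ^ 2 := by
  have h := pyth (mean F) (F - JJ F) (sum_sub_JJ F)
  have h2 : ((fun _ => mean F) + (F - JJ F)) = F := by
    funext v; simp [JJ]
  rw [h2] at h
  exact h

theorem nn_JJ_le (F : V → E) : nn (JJ F) ≤ nn F := by
  apply nn_le_of_sq (nn_nonneg _)
  rw [decomp F]
  have := sq_nonneg (nn (F - JJ F))
  linarith

variable {p t : ℝ}

/-- the rest operator `P - (1-p) J` -/
theorem rest (hd : 0 < d) (hp : 0 ≤ p)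
    (hgap : ∀ F : V → E, ∑ v, F v = 0 →
        ∑ v, ‖((d : ℂ))⁻¹ • ∑ i, F (σ i v)‖ ^ 2 ≤ p ^ 2 * ∑ v, ‖F v‖ ^ 2) (F : V → E) :
    ∃ R : V → E, PP d σ F = ((1 - p : ℝ) : ℂ) • JJ F + R ∧ nn R ≤ p * nn F := by
  refine ⟨((p : ℝ) : ℂ) • JJ F + PP d σ (F - JJ F), ?_, ?_⟩
  · have h1 : F = JJ F + (F - JJ F) := by abel
    conv_lhs => rw [h1]
    rw [PP_add]
    have h2 : PP d σ (JJ F) = JJ F := PP_const d σ hd (mean F)
    rw [h2, ← add_assoc, ← add_smul]
    congr 1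
    push_cast
    rw [sub_add_cancel, one_smul]
  · apply nn_le_of_sq (mul_nonneg hp (nn_nonneg _))
    have h3 : ∑ v, PP d σ (F - JJ F) v = 0 := by
      rw [sum_PP d σ hd, sum_sub_JJ]
    have h4 : ((p : ℝ) : ℂ) • JJ F = fun _ => ((p : ℝ) : ℂ) • mean F := rfl
    rw [h4, pyth _ _ h3, ← h4, nn_smul p hp]
    have h5 : nn (PP d σ (F - JJ F)) ^ 2 ≤ p ^ 2 * nn (F - JJ F) ^ 2 := by
      rw [nn_sq, nn_sq]
      exact hgap _ (sum_sub_JJ F)
    have h6 := decomp F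
    calc (p * nn (JJ F)) ^ 2 + nn (PP d σ (F - JJ F)) ^ 2
        ≤ p ^ 2 * nn (JJ F) ^ 2 + p ^ 2 * nn (F - JJ F) ^ 2 := by
          rw [mul_pow]; linarith
      _ = (p * nn F) ^ 2 := by rw [mul_pow, h6]; ring

theorem nn_UU (hU : ∀ v x, ‖U v x‖ = ‖x‖) (F : V → E) : nn (UU U F) = nn F := by
  have h : nn (UU U F) ^ 2 = nn F ^ 2 := by
    rw [nn_sq, nn_sq]
    simp [UU, hU]
  exact (pow_left_inj₀ (nn_nonneg _) (nn_nonneg _) two_ne_zero).1 h

theorem UU_add (F G : V → E) : UU U (F + G) = UU U F + UU U G := by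
  funext v; simp [UU]

theorem UU_smul (c : ℂ) (F : V → E) : UU U (c • F) = c • UU U F := by
  funext v; simp [UU]

theorem JJ_add (F G : V → E) : JJ (F + G) = JJ F + JJ G := by
  funext v; simp [JJ, mean, Finset.sum_add_distrib]

theorem JJ_smul (c : ℂ) (F : V → E) : JJ (c • F) = c • JJ F := by
  funext v
  simp only [JJ, mean, Pi.smul_apply]
  rw [← Finset.smul_sum, smul_comm]

theorem JUJ (ht : 0 ≤ t)
    (hm : ∀ x, ‖((Fintype.card V : ℂ))⁻¹ • ∑ v, U v x‖ ≤ t * ‖x‖) (F : V → E) :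
    nn (JJ (UU U (JJ F))) ≤ t * nn (JJ F) := by
  apply nn_le_of_sq (mul_nonneg ht (nn_nonneg _))
  have h1 : nn (JJ (UU U (JJ F))) ^ 2 =
      Fintype.card V * ‖((Fintype.card V : ℂ))⁻¹ • ∑ v, U v (mean F)‖ ^ 2 :=
    nn_const _
  have h2 : nn (JJ F) ^ 2 = Fintype.card V * ‖mean F‖ ^ 2 := nn_const _
  rw [h1, mul_pow, h2]
  have h3 := hm (mean F)
  have h4 : ‖((Fintype.card V : ℂ))⁻¹ • ∑ v, U v (mean F)‖ ^ 2 ≤ (t * ‖mean F‖) ^ 2 :=
    pow_le_pow_left₀ (norm_nonneg _) h3 2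
  calc (Fintype.card V : ℝ) * ‖((Fintype.card V : ℂ))⁻¹ • ∑ v, U v (mean F)‖ ^ 2
      ≤ Fintype.card V * (t * ‖mean F‖) ^ 2 := by
        apply mul_le_mul_of_nonneg_left h4 (Nat.cast_nonneg _)
    _ = t ^ 2 * (Fintype.card V * ‖mean F‖ ^ 2) := by ring

/-- one step of the walk -/
noncomputable def TT (F : V → E) : V → E := PP d σ (UU U (PP d σ F))

theorem TT_le (hd : 0 < d) (hp : 0 ≤ p) (hp1 : p < 1) (ht : 0 ≤ t)
    (hU : ∀ v x, ‖U v x‖ = ‖x‖)
    (hgap : ∀ F : V → E, ∑ v, F v = 0 →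
        ∑ v, ‖((d : ℂ))⁻¹ • ∑ i, F (σ i v)‖ ^ 2 ≤ p ^ 2 * ∑ v, ‖F v‖ ^ 2)
    (hm : ∀ x, ‖((Fintype.card V : ℂ))⁻¹ • ∑ v, U v x‖ ≤ t * ‖x‖) (F : V → E) :
    nn (TT d σ U F) ≤ (1 - (1 - p) ^ 2 * (1 - t)) * nn F := by
  obtain ⟨R1, h1, hR1⟩ := rest d σ hd hp hgap F
  obtain ⟨R2, h2, hR2⟩ := rest d σ hd hp hgap (UU U (PP d σ F))
  have hq : 0 ≤ 1 - p := by linarith
  have hJ := nn_JJ_le F
  have hPF : nn (PP d σ F) ≤ nn F := by
    rw [h1]
    refine (nn_add _ _).trans ?_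
    rw [nn_smul _ hq]
    have := mul_le_mul_of_nonneg_left hJ hq
    linarith
  rw [nn_UU U hU] at hR2
  have hJUP : nn (JJ (UU U (PP d σ F))) ≤ (1 - p) * (t * nn F) + p * nn F := by
    rw [h1, UU_add, UU_smul, JJ_add, JJ_smul]
    refine (nn_add _ _).trans ?_
    rw [nn_smul _ hq]
    have a1 : nn (JJ (UU U (JJ F))) ≤ t * nn F :=
      (JUJ U ht hm F).trans (mul_le_mul_of_nonneg_left hJ ht)
    have a2 : nn (JJ (UU U R1)) ≤ p * nn F :=
      (nn_JJ_le _).trans (by rw [nn_UU U hU]; exact hR1)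
    have a3 := mul_le_mul_of_nonneg_left a1 hq
    linarith
  rw [TT, h2]
  refine (nn_add _ _).trans ?_
  rw [nn_smul _ hq]
  have b1 := mul_le_mul_of_nonneg_left hJUP hq
  have b2 : nn R2 ≤ p * nn F := hR2.trans (mul_le_mul_of_nonneg_left hPF hp)
  calc (1 - p) * nn (JJ (UU U (PP d σ F))) + nn R2
      ≤ (1 - p) * ((1 - p) * (t * nn F) + p * nn F) + p * nn F := by linarith
    _ = (1 - (1 - p) ^ 2 * (1 - t)) * nn F := by ring

theorem TT_apply (F : V → E) (v : V) : TT d σ U F v =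
    ((d : ℂ) ^ 2)⁻¹ • ∑ i, ∑ j, U (σ i v) (F (σ j (σ i v))) := by
  simp only [TT, PP, UU, map_smul, map_sum]
  rw [← Finset.smul_sum, smul_smul, pow_two, mul_inv]

end ops

/-- the walks -/
theorem walks (V : Type) [Fintype V] [Nonempty V] (d : ℕ) (σ : Fin d → Equiv.Perm V) (M : ℕ) :
    ∃ (W : Type) (_ : Fintype W) (pa : V → W → List V), Fintype.card W = d ^ (2 * M) ∧
    ∀ (E : Type) [NormedAddCommGroup E] [InnerProductSpace ℂ E] (U : V → (E →ₗ[ℂ] E))
      (x : E) (v : V), (TT d σ U)^[M] (fun _ => x) v =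
        ((d : ℂ) ^ (2 * M))⁻¹ • ∑ w, (pa v w).foldr (fun v y => U v y) x := by
  induction M with
  | zero =>
    refine ⟨Unit, inferInstance, fun _ _ => [], by simp, ?_⟩
    intro E _ _ U x v
    simp
  | succ M ih =>
    obtain ⟨W, hW, pa, hcard, hpa⟩ := ih
    refine ⟨(Fin d × Fin d) × W, inferInstance,
      fun v w => σ w.1.1 v :: pa (σ w.1.2 (σ w.1.1 v)) w.2, ?_, ?_⟩
    · rw [Fintype.card_prod, Fintype.card_prod, Fintype.card_fin, hcard]
      ring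
    · intro E _ _ U x v
      rw [Function.iterate_succ_apply', TT_apply]
      have h1 : ∀ u, (TT d σ U)^[M] (fun _ => x) u =
        ((d : ℂ) ^ (2 * M))⁻¹ • ∑ w, (pa u w).foldr (fun v y => U v y) x := hpa E U x
      simp only [h1, map_smul, map_sum]
      simp only [← Finset.smul_sum]
      rw [smul_smul]
      congr 1
      · rw [← mul_inv, ← pow_add]
        congr 2
        ring
      · rw [Fintype.sum_prod_type, Fintype.sum_prod_type]
        rfl

end Walk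

open Walk in
theorem p_WALK : S_WALK := by
  intro V _ _ d p t σ M hd hp hp1 ht ht1
  obtain ⟨W, hW, pa, hcard, hpa⟩ := walks V d σ M
  refine ⟨V × W, inferInstance, fun ω => pa ω.1 ω.2, ?_, ?_⟩
  · rw [Fintype.card_prod, hcard]
  · intro E _ _ U hU hgap hm x
    have hs : 0 ≤ 1 - (1 - p) ^ 2 * (1 - t) := by
      have h1 : (1 - p) ^ 2 ≤ 1 := by nlinarith
      have h2 : (1 - p) ^ 2 * (1 - t) ≤ 1 * 1 :=
        mul_le_mul h1 (by linarith) (by linarith) (by norm_num)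
      linarith
    set s := 1 - (1 - p) ^ 2 * (1 - t) with hsdef
    have hN : (Fintype.card V : ℂ) ≠ 0 := by exact_mod_cast Fintype.card_ne_zero
    have hd' : (d : ℂ) ≠ 0 := by exact_mod_cast hd.ne'
    have hiter : ∀ M, nn ((TT d σ U)^[M] (fun _ => x)) ≤ s ^ M * nn (fun _ : V => x) := by
      intro M
      induction M with
      | zero => simp
      | succ M ih =>
        rw [Function.iterate_succ_apply']
        have h7 := TT_le d σ U hd hp hp1 ht hU hgap hm ((TT d σ U)^[M] (fun _ => x))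
        rw [← hsdef] at h7
        calc _ ≤ s * nn ((TT d σ U)^[M] (fun _ => x)) := h7
          _ ≤ s * (s ^ M * nn (fun _ : V => x)) := mul_le_mul_of_nonneg_left ih hs
          _ = s ^ (M + 1) * nn (fun _ : V => x) := by ring
    have hsum : ((Fintype.card (V × W) : ℂ))⁻¹ •
        ∑ ω : V × W, (pa ω.1 ω.2).foldr (fun v y => U v y) x =
        mean ((TT d σ U)^[M] (fun _ => x)) := by
      rw [Fintype.sum_prod_type, mean]
      have h1 : ∀ v, ∑ w, (pa v w).foldr (fun v y => U v y) x =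
          ((d : ℂ) ^ (2 * M)) • (TT d σ U)^[M] (fun _ => x) v := by
        intro v
        rw [hpa E U x v, smul_smul, mul_inv_cancel₀ (pow_ne_zero _ hd'), one_smul]
      rw [Finset.sum_congr rfl fun v _ => h1 v, ← Finset.smul_sum, smul_smul]
      congr 1
      rw [Fintype.card_prod, hcard]
      push_cast
      rw [mul_inv, mul_assoc, inv_mul_cancel₀ (pow_ne_zero _ hd'), mul_one]
    rw [hsum]
    have hJ := nn_JJ_le ((TT d σ U)^[M] (fun _ => x))
    have h2 : nn (JJ ((TT d σ U)^[M] (fun _ => x))) ^ 2 =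
        Fintype.card V * ‖mean ((TT d σ U)^[M] (fun _ => x))‖ ^ 2 := nn_const _
    have h3 : nn (fun _ : V => x) ^ 2 = Fintype.card V * ‖x‖ ^ 2 := nn_const _
    have h4 : nn (JJ ((TT d σ U)^[M] (fun _ => x))) ^ 2 ≤ (s ^ M * nn (fun _ : V => x)) ^ 2 :=
      pow_le_pow_left₀ (nn_nonneg _) (hJ.trans (hiter M)) 2
    rw [h2, mul_pow, h3] at h4
    have hNpos : (0 : ℝ) < Fintype.card V := by exact_mod_cast Fintype.card_pos
    have h5 : ‖mean ((TT d σ U)^[M] (fun _ => x))‖ ^ 2 ≤ (s ^ M * ‖x‖) ^ 2 := by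
      rw [mul_pow]
      have h6 : (Fintype.card V : ℝ) * ‖mean ((TT d σ U)^[M] (fun _ => x))‖ ^ 2 ≤
          Fintype.card V * ((s ^ M) ^ 2 * ‖x‖ ^ 2) := by
        calc _ ≤ (s ^ M) ^ 2 * (Fintype.card V * ‖x‖ ^ 2) := h4
          _ = _ := by ring
      exact le_of_mul_le_mul_left h6 hNpos
    exact (abs_le_of_sq_le_sq' h5 (mul_nonneg (pow_nonneg hs M) (norm_nonneg _))).2

end Pool.Agent.H518R4.UG
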