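import Pool.Agent.H518R4.UG.Stubs

set_option autoImplicit false

open scoped ComplexOrder Topology
open Filter

noncomputable section

namespace Pool.Agent.H518R4.UG

open Pool.Agent.H467F

theorem p_WEI : S_WEI := by
  classical
  intro A _ τ hτ I _ p e he hp u hu
  have hps : ∀ k, star (p k) = p k := fun k => (hp.prj k).1
  have hpp : ∀ k, p k * p k = p k := fun k => (hp.prj k).2
  have hpe : ∀ i, p i * e = p i := by
    intro i
    rw [← hp.sum, Finset.mul_sum, Finset.sum_eq_single i]
    · exact hpp i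
    · intro j _ hj
      exact hp.ort i j (Ne.symm hj)
    · intro h
      exact absurd (Finset.mem_univ i) h
  have huu : star (u : A) * u = 1 := Unitary.coe_star_mul_self u
  have huu' : (u : A) * star (u : A) = 1 := Unitary.coe_mul_star_self u
  have hW : ∀ i k, τ (star (u : A) * p i * u * p k) = ((n2 τ (p i * u * p k) ^ 2 : ℝ) : ℂ) := by
    intro i k
    rw [← hτ.n2_sq']
    have h1 : star (p i * u * p k) * (p i * u * p k) = p k * (star (u : A) * p i * u * p k) := by
      rw [star_mul, star_mul, hps, hps]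
      calc p k * (star (u : A) * p i) * (p i * u * p k)
          = p k * (star (u : A) * (p i * p i) * u * p k) := by simp only [mul_assoc]
        _ = _ := by rw [hpp]
    rw [h1, hτ.comm (p k)]
    have h2 : star (u : A) * p i * u * p k * p k = star (u : A) * p i * u * p k := by
      rw [mul_assoc _ (p k) (p k), hpp]
    rw [h2]
  have hrow : ∀ i, ((∑ k, n2 τ (p i * u * p k) ^ 2 : ℝ) : ℂ) = τ (p i) := by
    intro i
    push_cast
    calc ∑ k, ((n2 τ (p i * u * p k) : ℂ)) ^ 2 = ∑ k, τ (star (u : A) * p i * u * p k) := by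
          refine Finset.sum_congr rfl (fun k _ => ?_)
          rw [hW]; push_cast; rfl
      _ = τ (star (u : A) * p i * u * e) := by
          rw [← map_sum, ← Finset.mul_sum, hp.sum]
      _ = τ (star (u : A) * (p i * e) * u) := by
          congr 1
          rw [mul_assoc, hu]
          simp only [mul_assoc]
      _ = τ (p i) := by
          rw [hpe, mul_assoc, hτ.comm, mul_assoc, huu', mul_one]
  have hcol : ∀ k, ((∑ i, n2 τ (p i * u * p k) ^ 2 : ℝ) : ℂ) = τ (p k) := by
    intro k
    push_cast
    calc ∑ i, ((n2 τ (p i * u * p k) : ℂ)) ^ 2 = ∑ i, τ (star (u : A) * p i * u * p k) := by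
          refine Finset.sum_congr rfl (fun i _ => ?_)
          rw [hW]; push_cast; rfl
      _ = τ (star (u : A) * e * u * p k) := by
          rw [← map_sum, ← hp.sum]
          congr 1
          simp only [Finset.mul_sum, Finset.sum_mul]
      _ = τ (e * p k) := by
          congr 1
          rw [mul_assoc (star (u : A)), ← hu, ← mul_assoc, huu, one_mul]
      _ = τ (p k) := by
          rw [hτ.comm, hpe]
  refine ⟨fun i k => n2 τ (p i * u * p k) ^ 2, fun i k => sq_nonneg _, ?_, ?_, ?_⟩
  · intro i
    rw [← hrow i, Complex.ofReal_re]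
  · intro k
    rw [← hcol k, Complex.ofReal_re]
  · intro f
    set F : A := ∑ i, (f i : ℂ) • p i with hF
    have hFs : star F = F := by
      rw [hF, star_sum]
      refine Finset.sum_congr rfl (fun i _ => ?_)
      rw [star_smul, hps]
      congr 1
      exact Complex.conj_ofReal _
    have hFF : τ (F * F) = ∑ i, (f i : ℂ) ^ 2 * τ (p i) := by
      have h1 : F * F = ∑ i, ((f i : ℂ) ^ 2) • p i := by
        rw [hF, Finset.sum_mul]
        refine Finset.sum_congr rfl (fun i _ => ?_)
        rw [Finset.mul_sum, Finset.sum_eq_single i]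
        · rw [smul_mul_smul_comm, hpp, sq]
        · intro j _ hj
          rw [smul_mul_smul_comm, hp.ort i j (Ne.symm hj), smul_zero]
        · intro h
          exact absurd (Finset.mem_univ i) h
      rw [h1, map_sum]
      refine Finset.sum_congr rfl (fun i _ => ?_)
      rw [map_smul, smul_eq_mul]
    have hcross : τ (star (u : A) * F * u * F) =
        ∑ i, ∑ k, (f i : ℂ) * (f k : ℂ) * ((n2 τ (p i * u * p k) ^ 2 : ℝ) : ℂ) := by
      have h1 : star (u : A) * F * u * F =
          ∑ i, ∑ k, ((f i : ℂ) * (f k : ℂ)) • (star (u : A) * p i * u * p k) := by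
        have h2 : star (u : A) * F * u = ∑ i, (f i : ℂ) • (star (u : A) * p i * u) := by
          rw [hF, Finset.mul_sum, Finset.sum_mul]
          refine Finset.sum_congr rfl (fun i _ => ?_)
          rw [mul_smul_comm, smul_mul_assoc]
        rw [h2, Finset.sum_mul]
        refine Finset.sum_congr rfl (fun i _ => ?_)
        rw [hF, Finset.mul_sum]
        refine Finset.sum_congr rfl (fun k _ => ?_)
        rw [smul_mul_smul_comm]
      rw [h1, map_sum]
      refine Finset.sum_congr rfl (fun i _ => ?_)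
      rw [map_sum]
      refine Finset.sum_congr rfl (fun k _ => ?_)
      rw [map_smul, smul_eq_mul, hW]
    have hexp : τ (star (cm (u : A) F) * cm (u : A) F) =
        2 * τ (F * F) - 2 * τ (star (u : A) * F * u * F) := by
      have h1 : star (cm (u : A) F) * cm (u : A) F =
          F * (star (u : A) * u) * F - F * (star (u : A) * F * u) - star (u : A) * F * u * F +
            star (u : A) * (F * F) * u := by
        unfold cm
        rw [star_sub, star_mul, star_mul, hFs]
        noncomm_ring
      have h2 : τ (F * (star (u : A) * F * u)) = τ (star (u : A) * F * u * F) := hτ.comm _ _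
      have h3 : τ (star (u : A) * (F * F) * u) = τ (F * F) := by
        rw [mul_assoc, hτ.comm, mul_assoc, huu', mul_one]
      rw [h1, map_add, map_sub, map_sub, h2, h3, huu, mul_one]
      ring
    rw [hτ.n2_sq, hexp, hFF, hcross]
    have h4 : (2 * ∑ i, (f i : ℂ) ^ 2 * τ (p i) -
        2 * ∑ i, ∑ k, (f i : ℂ) * (f k : ℂ) * ((n2 τ (p i * u * p k) ^ 2 : ℝ) : ℂ)) =
        ((∑ i, ∑ k, n2 τ (p i * u * p k) ^ 2 * (f i - f k) ^ 2 : ℝ) : ℂ) := by
      have h5 : ∑ i, ∑ k, n2 τ (p i * u * p k) ^ 2 * (f i - f k) ^ 2 =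
          ∑ i, f i ^ 2 * ∑ k, n2 τ (p i * u * p k) ^ 2 +
          ∑ k, f k ^ 2 * ∑ i, n2 τ (p i * u * p k) ^ 2 -
          2 * ∑ i, ∑ k, f i * f k * n2 τ (p i * u * p k) ^ 2 := by
        have h6 : ∑ k, f k ^ 2 * ∑ i, n2 τ (p i * u * p k) ^ 2 =
            ∑ i, ∑ k, f k ^ 2 * n2 τ (p i * u * p k) ^ 2 := by
          rw [Finset.sum_comm]
          exact Finset.sum_congr rfl (fun k _ => Finset.mul_sum _ _ _)
        rw [h6, Finset.mul_sum, ← Finset.sum_add_distrib, ← Finset.sum_sub_distrib]
        refine Finset.sum_congr rfl (fun i _ => ?_)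
        rw [Finset.mul_sum, Finset.mul_sum, ← Finset.sum_add_distrib, ← Finset.sum_sub_distrib]
        refine Finset.sum_congr rfl (fun k _ => ?_)
        ring
      rw [h5]
      have h7 : ∀ i, ((∑ k, n2 τ (p i * u * p k) ^ 2 : ℝ) : ℂ) = τ (p i) := hrow
      have h8 : ∀ k, ((∑ i, n2 τ (p i * u * p k) ^ 2 : ℝ) : ℂ) = τ (p k) := hcol
      rw [Complex.ofReal_sub, Complex.ofReal_add, Complex.ofReal_sum, Complex.ofReal_sum,
        Complex.ofReal_mul, Complex.ofReal_sum]
      have h9 : ∀ i, ((f i ^ 2 * ∑ k, n2 τ (p i * u * p k) ^ 2 : ℝ) : ℂ) =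
          (f i : ℂ) ^ 2 * τ (p i) := by
        intro i
        rw [Complex.ofReal_mul, h7, Complex.ofReal_pow]
      have h10 : ∀ k, ((f k ^ 2 * ∑ i, n2 τ (p i * u * p k) ^ 2 : ℝ) : ℂ) =
          (f k : ℂ) ^ 2 * τ (p k) := by
        intro k
        rw [Complex.ofReal_mul, h8, Complex.ofReal_pow]
      rw [Finset.sum_congr rfl (fun i _ => h9 i), Finset.sum_congr rfl (fun i _ => h10 i)]
      have h11 : ∑ i, ((∑ k, f i * f k * n2 τ (p i * u * p k) ^ 2 : ℝ) : ℂ) =
          ∑ i, ∑ k, (f i : ℂ) * (f k : ℂ) * ((n2 τ (p i * u * p k) ^ 2 : ℝ) : ℂ) := by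
        refine Finset.sum_congr rfl (fun i _ => ?_)
        rw [Complex.ofReal_sum]
        refine Finset.sum_congr rfl (fun k _ => ?_)
        rw [Complex.ofReal_mul, Complex.ofReal_mul]
      rw [h11]
      push_cast
      ring
    rw [h4, Complex.ofReal_re]

end Pool.Agent.H518R4.UG
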