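import Pool.Agent.H518R4.UG.Stubs

set_option autoImplicit false

open scoped ComplexOrder Topology InnerProductSpace
open Filter Matrix

noncomputable section

namespace Pool.Agent.H518R4.UG

open Pool.Agent.H467F

namespace WEYLh

section ph

variable {A : Type} [CStarAlgebra A]

theorem g_star {I : Type} [Fintype I] [Nonempty I] {v : I → A} {g : A} (h : IsMU v g) :
    star g = g := by
  obtain ⟨i⟩ := ‹Nonempty I›
  rw [← h.ini i, star_mul, star_star]

theorem v_g {I : Type} [Fintype I] {v : I → A} {g : A} (h : IsMU v g) (i : I) :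
    v i * g = v i := by
  classical
  have h1 : v i = (∑ j, v j * star (v j)) * v i := by rw [h.sum, one_mul]
  rw [Finset.sum_mul, Finset.sum_eq_single i] at h1
  · rw [mul_assoc, h.ini] at h1
    exact h1.symm
  · intro j _ hj
    rw [mul_assoc, h.ort j i hj, mul_zero]
  · intro hi
    exact absurd (Finset.mem_univ _) hi

theorem g_v {I : Type} [Fintype I] [Nonempty I] {v : I → A} {g : A} (h : IsMU v g) (i : I) :
    g * star (v i) = star (v i) := by
  have h1 := congrArg star (v_g h i)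
  rwa [star_mul, g_star h] at h1

/-- the representation of the matrices given by the matrix units -/
def ph {I : Type} [Fintype I] (v : I → A) (M : Matrix I I ℂ) : A :=
  ∑ s, ∑ t, M s t • (v s * star (v t))

variable {I : Type} [Fintype I] [Nonempty I] [DecidableEq I] {v : I → A} {g : A}

theorem star_v_ph (h : IsMU v g) (N : Matrix I I ℂ) (t : I) :
    star (v t) * ph v N = ∑ q, N t q • star (v q) := by
  unfold ph
  rw [Finset.mul_sum, Finset.sum_eq_single t]
  · rw [Finset.mul_sum]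
    apply Finset.sum_congr rfl
    intro q _
    rw [mul_smul_comm, ← mul_assoc, h.ini, g_v h]
  · intro p _ hp
    rw [Finset.mul_sum]
    apply Finset.sum_eq_zero
    intro q _
    rw [mul_smul_comm, ← mul_assoc, h.ort t p (Ne.symm hp), zero_mul, smul_zero]
  · intro ht
    exact absurd (Finset.mem_univ _) ht

theorem ph_mul (h : IsMU v g) (M N : Matrix I I ℂ) : ph v (M * N) = ph v M * ph v N := by
  have h1 : ph v M * ph v N = ∑ s, ∑ t, ∑ q, (M s t * N t q) • (v s * star (v q)) := by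
    conv_lhs => rw [ph]
    rw [Finset.sum_mul]
    apply Finset.sum_congr rfl
    intro s _
    rw [Finset.sum_mul]
    apply Finset.sum_congr rfl
    intro t _
    rw [smul_mul_assoc, mul_assoc, star_v_ph h, Finset.mul_sum, Finset.smul_sum]
    apply Finset.sum_congr rfl
    intro q _
    rw [mul_smul_comm, smul_smul]
  rw [h1]
  unfold ph
  apply Finset.sum_congr rfl
  intro s _
  rw [Finset.sum_comm]
  apply Finset.sum_congr rfl
  intro q _
  rw [Matrix.mul_apply, Finset.sum_smul]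

theorem ph_star (M : Matrix I I ℂ) : ph v Mᴴ = star (ph v M) := by
  unfold ph
  rw [star_sum, Finset.sum_comm]
  apply Finset.sum_congr rfl
  intro s _
  rw [star_sum]
  apply Finset.sum_congr rfl
  intro t _
  rw [star_smul, star_mul, star_star, Matrix.conjTranspose_apply]

theorem ph_one (h : IsMU v g) : ph v (1 : Matrix I I ℂ) = 1 := by
  unfold ph
  rw [← h.sum]
  apply Finset.sum_congr rfl
  intro s _
  rw [Finset.sum_eq_single s]
  · rw [Matrix.one_apply_eq, one_smul]
  · intro t _ ht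
    rw [Matrix.one_apply_ne (Ne.symm ht), zero_smul]
  · intro hs
    exact absurd (Finset.mem_univ _) hs

theorem ph_smul (c : ℂ) (M : Matrix I I ℂ) : ph v (c • M) = c • ph v M := by
  unfold ph
  rw [Finset.smul_sum]
  apply Finset.sum_congr rfl
  intro s _
  rw [Finset.smul_sum]
  apply Finset.sum_congr rfl
  intro t _
  rw [Matrix.smul_apply, smul_smul, smul_eq_mul]

theorem ph_unitary (h : IsMU v g) (U : Matrix I I ℂ) (h1 : U * Uᴴ = 1) :
    ph v U ∈ unitary A := by
  have h2 : Uᴴ * U = 1 := mul_eq_one_comm.mp h1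
  rw [Unitary.mem_iff]
  constructor
  · rw [← ph_star, ← ph_mul h, h2, ph_one h]
  · rw [← ph_star, ← ph_mul h, h1, ph_one h]

end ph

section mat

variable {n : ℕ} [NeZero n]

/-- the additive character -/
def e (t : ZMod n) : ℂ := ZMod.stdAddChar t

theorem e_add (s t : ZMod n) : e (s + t) = e s * e t := AddChar.map_add_eq_mul _ _ _

theorem e_zero : e (0 : ZMod n) = 1 := AddChar.map_zero_eq_one _

theorem e_norm (t : ZMod n) : ‖e t‖ = 1 := by
  unfold e
  rw [ZMod.stdAddChar_apply]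
  exact Circle.norm_coe _

theorem e_conj (t : ZMod n) : star (e t) = e (-t) := by
  have h1 : e t * e (-t) = 1 := by rw [← e_add, add_neg_cancel, e_zero]
  have h2 : star (e t) * e t = 1 := by
    rw [Complex.star_def, ← Complex.normSq_eq_conj_mul_self, Complex.normSq_eq_norm_sq, e_norm]
    norm_num
  calc star (e t) = star (e t) * (e t * e (-t)) := by rw [h1, mul_one]
    _ = e (-t) := by rw [← mul_assoc, h2, one_mul]

theorem e_sum (b : ZMod n) : ∑ x : ZMod n, e (x * b) = if b = 0 then (n : ℂ) else 0 := by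
  have h := AddChar.sum_mulShift b (ZMod.isPrimitive_stdAddChar n)
  unfold e
  rw [h]
  split_ifs <;> simp [ZMod.card]

/-- Weyl matrices -/
def Wm (a b : ZMod n) : Matrix (ZMod n) (ZMod n) ℂ :=
  fun s t => if s = t + a then e (b * t) else 0

theorem Wy_eq {A : Type} [CStarAlgebra A] (v : ZMod n → A) (a b : ZMod n) :
    Wy v a b = ph v (Wm a b) := by
  unfold Wy ph
  rw [Finset.sum_comm]
  apply Finset.sum_congr rfl
  intro t _
  rw [Finset.sum_eq_single (t + a)]
  · unfold Wm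
    rw [if_pos rfl]
    rfl
  · intro s _ hs
    unfold Wm
    rw [if_neg hs, zero_smul]
  · intro h
    exact absurd (Finset.mem_univ _) h

/-- diagonal matrices with entries of modulus 1 -/
theorem diag_unit (θ : ZMod n → ℂ) (h : ∀ t, ‖θ t‖ = 1) :
    Matrix.diagonal θ * (Matrix.diagonal θ)ᴴ = 1 := by
  rw [Matrix.diagonal_conjTranspose, Matrix.diagonal_mul_diagonal, ← Matrix.diagonal_one]
  congr 1
  funext t
  rw [Pi.star_apply, Complex.star_def, mul_comm, ← Complex.normSq_eq_conj_mul_self,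
    Complex.normSq_eq_norm_sq, h t]
  norm_num

theorem diag_conj (θ : ZMod n → ℂ) (M : Matrix (ZMod n) (ZMod n) ℂ) (s t : ZMod n) :
    (Matrix.diagonal θ * M * (Matrix.diagonal θ)ᴴ) s t = θ s * M s t * star (θ t) := by
  rw [Matrix.diagonal_conjTranspose, Matrix.mul_diagonal, Matrix.diagonal_mul, Pi.star_apply]

theorem Z_conj (a b : ZMod n) :
    Matrix.diagonal (e : ZMod n → ℂ) * Wm a b * (Matrix.diagonal (e : ZMod n → ℂ))ᴴ =
      e a • Wm a b := by
  ext s t
  rw [diag_conj, Matrix.smul_apply, smul_eq_mul]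
  unfold Wm
  split_ifs with h
  · rw [h, e_conj, e_add, mul_comm (e t * e a), mul_assoc]
    have h1 : e t * e a * e (-t) = e a := by
      rw [mul_comm (e t), mul_assoc, ← e_add, add_neg_cancel, e_zero, mul_one]
    rw [h1, mul_comm]
  · simp

theorem D_conj (θ : ZMod n → ℂ) (hθ : ∀ t, ‖θ t‖ = 1)
    (hq : ∀ t a, θ (t + a) = θ t * θ a * e (a * t)) (a b : ZMod n) :
    Matrix.diagonal θ * Wm a b * (Matrix.diagonal θ)ᴴ = θ a • Wm a (b + a) := by
  ext s t
  rw [diag_conj, Matrix.smul_apply, smul_eq_mul]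
  unfold Wm
  split_ifs with h
  · rw [h, hq]
    have h1 : θ t * star (θ t) = 1 := by
      rw [Complex.star_def, mul_comm, ← Complex.normSq_eq_conj_mul_self,
        Complex.normSq_eq_norm_sq, hθ t]
      norm_num
    rw [add_mul, e_add]
    linear_combination (θ a * e (a * t) * e (b * t)) * h1
  · simp

/-- the shift -/
def Xm : Matrix (ZMod n) (ZMod n) ℂ := fun s t => if s = t + 1 then 1 else 0

theorem X_mul (M : Matrix (ZMod n) (ZMod n) ℂ) (s t : ZMod n) :
    ((Xm : Matrix (ZMod n) (ZMod n) ℂ) * M) s t = M (s - 1) t := by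
  rw [Matrix.mul_apply, Finset.sum_eq_single (s - 1)]
  · unfold Xm
    rw [if_pos (by ring), one_mul]
  · intro r _ hr
    unfold Xm
    rw [if_neg (fun h => hr (by rw [h]; ring)), zero_mul]
  · intro h
    exact absurd (Finset.mem_univ _) h

theorem mul_Xh (M : Matrix (ZMod n) (ZMod n) ℂ) (s t : ZMod n) :
    (M * (Xm : Matrix (ZMod n) (ZMod n) ℂ)ᴴ) s t = M s (t - 1) := by
  rw [Matrix.mul_apply, Finset.sum_eq_single (t - 1)]
  · rw [Matrix.conjTranspose_apply]
    unfold Xm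
    rw [if_pos (by ring), star_one, mul_one]
  · intro r _ hr
    rw [Matrix.conjTranspose_apply]
    unfold Xm
    rw [if_neg (fun h => hr (by rw [h]; ring)), star_zero, mul_zero]
  · intro h
    exact absurd (Finset.mem_univ _) h

theorem X_unit : (Xm : Matrix (ZMod n) (ZMod n) ℂ) * Xmᴴ = 1 := by
  ext s t
  rw [mul_Xh]
  unfold Xm
  by_cases h : s = t
  · rw [h, Matrix.one_apply_eq, if_pos (by ring)]
  · rw [Matrix.one_apply_ne h, if_neg (fun h' => h (by rw [h']; ring))]

theorem X_conj (a b : ZMod n) :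
    (Xm : Matrix (ZMod n) (ZMod n) ℂ) * Wm a b * Xmᴴ = e (-b) • Wm a b := by
  ext s t
  rw [mul_Xh, X_mul, Matrix.smul_apply, smul_eq_mul]
  unfold Wm
  by_cases h : s = t + a
  · rw [if_pos h, if_pos (by rw [h]; ring), ← e_add]
    congr 1
    ring
  · rw [if_neg h, if_neg (fun h' => h (by linear_combination h')), mul_zero]

/-- the Fourier matrix -/
def Fm : Matrix (ZMod n) (ZMod n) ℂ := fun s t => ((Real.sqrt n : ℝ) : ℂ)⁻¹ * e (s * t)

theorem sqrt_inv_sq : ((Real.sqrt n : ℝ) : ℂ)⁻¹ * ((Real.sqrt n : ℝ) : ℂ)⁻¹ = ((n : ℂ))⁻¹ := by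
  rw [← mul_inv, ← Complex.ofReal_mul, Real.mul_self_sqrt (Nat.cast_nonneg _),
    Complex.ofReal_natCast]

theorem Fh_apply (s t : ZMod n) : (Fmᴴ : Matrix (ZMod n) (ZMod n) ℂ) s t =
    ((Real.sqrt n : ℝ) : ℂ)⁻¹ * e (-(t * s)) := by
  rw [Matrix.conjTranspose_apply]
  unfold Fm
  rw [star_mul', e_conj, star_inv₀, Complex.star_def, Complex.conj_ofReal]

theorem n_ne : (n : ℂ) ≠ 0 := Nat.cast_ne_zero.mpr (NeZero.ne n)

theorem F_unit : (Fm : Matrix (ZMod n) (ZMod n) ℂ) * Fmᴴ = 1 := by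
  ext s t
  rw [Matrix.mul_apply]
  have h1 : ∀ q : ZMod n, Fm s q * (Fmᴴ : Matrix (ZMod n) (ZMod n) ℂ) q t =
      ((n : ℂ))⁻¹ * e (q * (s - t)) := by
    intro q
    rw [Fh_apply]
    unfold Fm
    have h2 : e (q * (s - t)) = e (s * q) * e (-(t * q)) := by
      rw [← e_add]
      congr 1
      ring
    rw [h2, ← sqrt_inv_sq]
    ring
  rw [Finset.sum_congr rfl (fun q _ => h1 q), ← Finset.mul_sum, e_sum]
  by_cases h : s = t
  · rw [h, Matrix.one_apply_eq, if_pos (sub_self t), inv_mul_cancel₀ n_ne]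
  · rw [Matrix.one_apply_ne h, if_neg (sub_ne_zero.mpr h), mul_zero]

theorem mul_Wm (M : Matrix (ZMod n) (ZMod n) ℂ) (a b s q : ZMod n) :
    (M * Wm a b) s q = M s (q + a) * e (b * q) := by
  rw [Matrix.mul_apply, Finset.sum_eq_single (q + a)]
  · unfold Wm
    rw [if_pos rfl]
  · intro r _ hr
    unfold Wm
    rw [if_neg hr, mul_zero]
  · intro h
    exact absurd (Finset.mem_univ _) h

theorem F_conj (a b : ZMod n) :
    (Fm : Matrix (ZMod n) (ZMod n) ℂ) * Wm a b * Fmᴴ = e (-(a * b)) • Wm (-b) a := by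
  ext s t
  rw [Matrix.mul_apply, Matrix.smul_apply, smul_eq_mul]
  have h1 : ∀ q : ZMod n, ((Fm : Matrix (ZMod n) (ZMod n) ℂ) * Wm a b) s q *
      (Fmᴴ : Matrix (ZMod n) (ZMod n) ℂ) q t =
      ((n : ℂ))⁻¹ * e (s * a) * e (q * (s + b - t)) := by
    intro q
    rw [Fh_apply, mul_Wm]
    unfold Fm
    have h2 : e (s * a) * e (q * (s + b - t)) = e (s * (q + a)) * e (b * q) * e (-(t * q)) := by
      rw [← e_add, ← e_add, ← e_add]
      congr 1
      ring
    rw [mul_assoc (n : ℂ)⁻¹, h2, ← sqrt_inv_sq]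
    ring
  rw [Finset.sum_congr rfl (fun q _ => h1 q), ← Finset.mul_sum, e_sum]
  unfold Wm
  by_cases h : s = t + -b
  · rw [if_pos h, if_pos (by rw [h]; ring), ← e_add, h, mul_right_comm, inv_mul_cancel₀ n_ne,
      one_mul]
    congr 1
    ring
  · rw [if_neg h, if_neg (fun h' => h (by linear_combination h')), mul_zero, mul_zero]

theorem Fh_conj (a b : ZMod n) :
    (Fmᴴ : Matrix (ZMod n) (ZMod n) ℂ) * Wm a b * Fm = e (-(a * b)) • Wm b (-a) := by
  ext s t
  rw [Matrix.mul_apply, Matrix.smul_apply, smul_eq_mul]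
  have h1 : ∀ q : ZMod n, ((Fmᴴ : Matrix (ZMod n) (ZMod n) ℂ) * Wm a b) s q * Fm q t =
      ((n : ℂ))⁻¹ * e (-(a * s)) * e (q * (b + t - s)) := by
    intro q
    rw [mul_Wm, Fh_apply]
    unfold Fm
    have h2 : e (-(a * s)) * e (q * (b + t - s)) = e (-((q + a) * s)) * e (b * q) * e (q * t) := by
      rw [← e_add, ← e_add, ← e_add]
      congr 1
      ring
    rw [mul_assoc (n : ℂ)⁻¹, h2, ← sqrt_inv_sq]
    ring
  rw [Finset.sum_congr rfl (fun q _ => h1 q), ← Finset.mul_sum, e_sum]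
  unfold Wm
  by_cases h : s = t + b
  · rw [if_pos h, if_pos (by rw [h]; ring), ← e_add, h, mul_right_comm, inv_mul_cancel₀ n_ne,
      one_mul]
    congr 1
    ring
  · rw [if_neg h, if_neg (fun h' => h (by linear_combination -h')), mul_zero, mul_zero]

/-- quadratic phases -/
def th (n : ℕ) (m : ℤ) : ℂ := Complex.exp (Real.pi * Complex.I * (m : ℂ) ^ 2 / n)

theorem th_norm (m : ℤ) : ‖th n m‖ = 1 := by
  unfold th
  have h : (Real.pi * Complex.I * (m : ℂ) ^ 2 / n) =
      ((Real.pi * (m : ℝ) ^ 2 / n : ℝ) : ℂ) * Complex.I := by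
    push_cast
    ring
  rw [h, Complex.norm_exp_ofReal_mul_I]

theorem th_period (hn : Even n) (m q : ℤ) : th n (m + n * q) = th n m := by
  obtain ⟨k, hk⟩ := hn
  unfold th
  have h : (Real.pi * Complex.I * ((m + n * q : ℤ) : ℂ) ^ 2 / n) =
      Real.pi * Complex.I * (m : ℂ) ^ 2 / n + ((m * q + k * q ^ 2 : ℤ) : ℂ) * (2 * Real.pi * Complex.I) := by
    have h1 : (n : ℂ) ≠ 0 := n_ne
    have h2 : (n : ℂ) = 2 * k := by
      rw [hk]
      push_cast
      ring
    push_cast
    field_simp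
    rw [h2]
    ring
  rw [h, Complex.exp_add, Complex.exp_int_mul_two_pi_mul_I, mul_one]

theorem th_add (x y : ℤ) : th n (x + y) = th n x * th n y * e ((y * x : ℤ) : ZMod n) := by
  unfold th e
  rw [ZMod.stdAddChar_coe, ← Complex.exp_add, ← Complex.exp_add]
  congr 1
  push_cast
  ring

theorem th_val (hn : Even n) (t a : ZMod n) :
    th n ((t + a).val : ℤ) = th n (t.val : ℤ) * th n (a.val : ℤ) * e (a * t) := by
  have h1 : ((t + a).val : ℤ) = ((t.val : ℤ) + a.val) + n * (-(((t.val + a.val) / n : ℕ) : ℤ)) := by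
    rw [ZMod.val_add]
    have h2 := Nat.mod_add_div (t.val + a.val) n
    have h3 : (((t.val + a.val) % n : ℕ) : ℤ) + n * ((t.val + a.val) / n : ℕ) =
        (t.val : ℤ) + a.val := by exact_mod_cast h2
    linarith
  rw [h1, th_period hn, th_add]
  congr 2
  push_cast
  rw [ZMod.natCast_zmod_val, ZMod.natCast_zmod_val]

end mat

end WEYLh

open WEYLh in
theorem p_WEYL : S_WEYL := by
  intro A _ τ _ n _ hn v g hv
  set θ : ZMod n → ℂ := fun t => th n (t.val : ℤ) with hθ
  have hθ1 : ∀ t, ‖θ t‖ = 1 := fun t => th_norm _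
  have hθ2 : ∀ t a, θ (t + a) = θ t * θ a * e (a * t) := fun t a => th_val hn t a
  have hF := F_unit (n := n)
  have hF' : (Fmᴴ : Matrix (ZMod n) (ZMod n) ℂ) * Fm = 1 := mul_eq_one_comm.mp hF
  have hD := diag_unit θ hθ1
  have hU3 : (Fm * Matrix.diagonal θ * Fmᴴ) * (Fm * Matrix.diagonal θ * Fmᴴ)ᴴ = 1 := by
    rw [Matrix.conjTranspose_mul, Matrix.conjTranspose_mul, Matrix.conjTranspose_conjTranspose]
    calc Fm * Matrix.diagonal θ * Fmᴴ * (Fm * ((Matrix.diagonal θ)ᴴ * Fmᴴ)) =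
        Fm * Matrix.diagonal θ * (Fmᴴ * Fm) * (Matrix.diagonal θ)ᴴ * Fmᴴ := by
          simp only [Matrix.mul_assoc]
      _ = Fm * (Matrix.diagonal θ * (Matrix.diagonal θ)ᴴ) * Fmᴴ := by
          rw [hF', Matrix.mul_one, Matrix.mul_assoc Fm]
      _ = 1 := by rw [hD, Matrix.mul_one, hF]
  set U : Fin 4 → Matrix (ZMod n) (ZMod n) ℂ :=
    ![Matrix.diagonal e, Xm, Matrix.diagonal θ, Fm * Matrix.diagonal θ * Fmᴴ] with hU
  have hUu : ∀ i, U i * (U i)ᴴ = 1 := by
    intro i
    fin_cases i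
    · exact diag_unit e e_norm
    · exact X_unit
    · exact hD
    · exact hU3
  have conj : ∀ (M W W' : Matrix (ZMod n) (ZMod n) ℂ) (z : ℂ), M * W * Mᴴ = z • W' →
      ph v M * ph v W * star (ph v M) = z • ph v W' := by
    intro M W W' z h
    rw [← ph_star, ← ph_mul hv, ← ph_mul hv, h, ph_smul]
  refine ⟨fun i => ⟨ph v (U i), ph_unitary hv (U i) (hUu i)⟩, fun i => ⟨U i, rfl⟩, ?_⟩
  intro a b
  refine ⟨![1, 1, θ a, e (-(a * b)) * (θ b * e (-(b * (-a + b))))], ?_, ?_, ?_, ?_, ?_⟩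
  · intro i
    fin_cases i
    · exact norm_one
    · exact norm_one
    · exact hθ1 a
    · show ‖e (-(a * b)) * (θ b * e (-(b * (-a + b))))‖ = 1
      rw [norm_mul, norm_mul, e_norm, e_norm, hθ1]
      norm_num
  · rw [Wy_eq]
    exact conj _ _ _ _ (Z_conj a b)
  · rw [Wy_eq]
    exact conj _ _ _ _ (X_conj a b)
  · rw [Wy_eq, Wy_eq]
    exact conj _ _ _ _ (D_conj θ hθ1 hθ2 a b)
  · rw [Wy_eq, Wy_eq]
    apply conj
    show Fm * Matrix.diagonal θ * Fmᴴ * Wm a b * (Fm * Matrix.diagonal θ * Fmᴴ)ᴴ =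
      (e (-(a * b)) * (θ b * e (-(b * (-a + b))))) • Wm (a - b) b
    have h1 := Fh_conj a b
    have h2 := D_conj θ hθ1 hθ2 b (-a)
    have h3 := F_conj b (-a + b)
    rw [Matrix.conjTranspose_mul, Matrix.conjTranspose_mul, Matrix.conjTranspose_conjTranspose]
    calc Fm * Matrix.diagonal θ * Fmᴴ * Wm a b * (Fm * ((Matrix.diagonal θ)ᴴ * Fmᴴ)) =
        Fm * (Matrix.diagonal θ * (Fmᴴ * Wm a b * Fm) * (Matrix.diagonal θ)ᴴ) * Fmᴴ := by
          simp only [Matrix.mul_assoc]
      _ = (e (-(a * b)) * (θ b * e (-(b * (-a + b))))) • Wm (a - b) b := by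
          rw [h1, Matrix.mul_smul, Matrix.smul_mul, h2, Matrix.mul_smul, Matrix.smul_mul,
            Matrix.mul_smul, Matrix.smul_mul, h3, smul_smul, smul_smul]
          have h4 : -(-a + b) = a - b := by ring
          rw [h4, mul_assoc]

end Pool.Agent.H518R4.UG
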