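import Mathlib
import Pool.Agent.H518R4.UG.Stubs
import Pool.Agent.Helper467.FP.P_n2_mul_le

/-!
Universal spectral gap for non-Gamma II_1 factors: the task ZPR (a small projection of the
commutant of the matrix units outside which elements with small 2-norm are small).
-/

set_option autoImplicit false

open scoped ComplexOrder Topology
open Filter

noncomputable section

namespace Pool.Agent.H518R4.UG

open Pool.Agent.H467F

section ZPR

variable {A : Type} [CStarAlgebra A] {τ : A →ₗ[ℂ] ℂ}

/-- `τ (β * lift w) = r τ (dn β * w)`. -/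
theorem zpr_dual (h : TW τ) {I : Type} [Fintype I] [Nonempty I] (v : I → A) (β w : A) :
    τ (β * lift v w) = (Fintype.card I : ℂ) * τ (dn v β * w) := by
  have hr : (Fintype.card I : ℂ) ≠ 0 := by
    exact_mod_cast Fintype.card_ne_zero
  unfold lift dn
  rw [smul_mul_assoc, map_smul, smul_eq_mul, ← mul_assoc, mul_inv_cancel₀ hr, one_mul,
    Finset.mul_sum, Finset.sum_mul, map_sum, map_sum]
  refine Finset.sum_congr rfl fun i _ => ?_
  have e : β * (v i * w * star (v i)) = (β * v i * w) * star (v i) := by
    simp only [mul_assoc]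
  rw [e, h.comm]
  simp only [mul_assoc]

/-- `τ (lift w) = r τ (g w)`. -/
theorem zpr_trace (h : TW τ) {I : Type} [Fintype I] {v : I → A} {g : A} (hv : IsMU v g) (w : A) :
    τ (lift v w) = (Fintype.card I : ℂ) * τ (g * w) := by
  unfold lift
  rw [map_sum, Finset.sum_congr rfl (g := fun _ => τ (g * w))]
  · rw [Finset.sum_const, Finset.card_univ, nsmul_eq_mul]
  · intro i _
    rw [h.comm, ← mul_assoc, hv.ini i]

theorem zpr_star {I : Type} [Fintype I] (v : I → A) (β : A) (hβ : star β = β) :
    star (dn v β) = dn v β := by
  unfold dn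
  rw [star_smul, star_sum]
  congr 1
  · simp
  · refine Finset.sum_congr rfl fun i _ => ?_
    rw [star_mul, star_mul, star_star, hβ, mul_assoc]

theorem zpr_pos (h : TW τ) {I : Type} [Fintype I] (v : I → A) {L : Type} [Fintype L]
    (x : L → A) (w : A) :
    0 ≤ (τ (dn v (∑ l, star (x l) * x l) * (w * star w))).re := by
  have e : τ (dn v (∑ l, star (x l) * x l) * (w * star w)) =
      ((((Fintype.card I : ℝ))⁻¹ * ∑ j, ∑ l, n2 τ (x l * v j * w) ^ 2 : ℝ) : ℂ) := by
    unfold dn
    rw [smul_mul_assoc, map_smul, smul_eq_mul, Finset.sum_mul, map_sum]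
    push_cast
    congr 1
    refine Finset.sum_congr rfl fun j _ => ?_
    rw [Finset.mul_sum, Finset.sum_mul, Finset.sum_mul, map_sum]
    refine Finset.sum_congr rfl fun l _ => ?_
    have e1 : star (v j) * (star (x l) * x l) * v j * (w * star w) =
        (star (v j) * (star (x l) * x l) * v j * w) * star w := by
      simp only [mul_assoc]
    rw [e1, h.comm]
    have e2 : star w * (star (v j) * (star (x l) * x l) * v j * w) =
        star (x l * v j * w) * (x l * v j * w) := by
      rw [star_mul, star_mul]
      simp only [mul_assoc]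
    rw [e2, h.n2_sq']
    push_cast
    rfl
  rw [e, Complex.ofReal_re]
  positivity

/-- Bound of a quadratic form by the norm. -/
theorem zpr_norm (h : TW τ) (a y : A) : |(τ (a * (y * star y))).re| ≤ ‖a‖ * n2 τ y ^ 2 := by
  have e : τ (a * (y * star y)) = τ (star y * (a * y)) := by
    rw [← mul_assoc, h.comm]
  rw [e]
  calc |(τ (star y * (a * y))).re| ≤ ‖τ (star y * (a * y))‖ := Complex.abs_re_le_norm _
    _ ≤ n2 τ y * n2 τ (a * y) := h.cauchy _ _
    _ ≤ n2 τ y * (‖a‖ * n2 τ y) :=
        mul_le_mul_of_nonneg_left (n2_mul_le h a y).1 (n2_nonneg _ _)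
    _ = ‖a‖ * n2 τ y ^ 2 := by ring

end ZPR

theorem p_ZPR (hLIFT : S_LIFT) : S_ZPR := by
  intro A _ τ h I _ _ v g hv L _ x θ hθ
  classical
  have ht := h.tw
  obtain ⟨hg, hvg, -, -, hdn, -, hn2, hmul, hst, -⟩ := hLIFT A τ ht I v g hv
  set β : A := ∑ l, star (x l) * x l with hβ
  have hβs : star β = β := by
    rw [hβ, star_sum]
    refine Finset.sum_congr rfl fun l _ => ?_
    rw [star_mul, star_star]
  set b : A := dn v β with hb
  have hbs : star b = b := zpr_star v β hβs
  have hgb : g * b = b := (hdn β).1
  obtain ⟨n, p, l, hp, hpl⟩ := h.fs g hg b hbs hgb (θ / 4) (by positivity)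
  set r : ℝ := (Fintype.card I : ℝ) with hr
  have hr0 : 0 < r := by
    rw [hr]
    exact_mod_cast Fintype.card_pos
  set d : A := b - ∑ i, (l i : ℂ) • p i with hd
  set z : A := ∑ i, if 3 * θ / 4 < l i then p i else 0 with hz
  have hzp : ∀ i, z * p i = if 3 * θ / 4 < l i then p i else 0 := by
    intro i
    rw [hz, Finset.sum_mul, Finset.sum_eq_single i]
    · split_ifs
      · exact (hp.prj i).2
      · exact zero_mul _
    · intro j _ hji
      split_ifs
      · exact hp.ort j i hji
      · exact zero_mul _
    · intro hi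
      exact absurd (Finset.mem_univ i) hi
  have hpz : ∀ i, p i * z = if 3 * θ / 4 < l i then p i else 0 := by
    intro i
    rw [hz, Finset.mul_sum, Finset.sum_eq_single i]
    · split_ifs
      · exact (hp.prj i).2
      · exact mul_zero _
    · intro j _ hji
      split_ifs
      · exact hp.ort i j (Ne.symm hji)
      · exact mul_zero _
    · intro hi
      exact absurd (Finset.mem_univ i) hi
  have hzs : star z = z := by
    rw [hz, star_sum]
    refine Finset.sum_congr rfl fun i _ => ?_
    split_ifs
    · exact (hp.prj i).1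
    · exact star_zero _
  have hzz : z * z = z := by
    conv_lhs => rw [hz]
    rw [Finset.sum_mul, hz]
    refine Finset.sum_congr rfl fun i _ => ?_
    split_ifs with hi
    · rw [← hz, hpz i, if_pos hi]
    · exact zero_mul _
  have hgp : ∀ i, g * p i = p i := by
    intro i
    rw [← hp.sum, Finset.sum_mul, Finset.sum_eq_single i]
    · exact (hp.prj i).2
    · intro j _ hji
      exact hp.ort j i hji
    · intro hi
      exact absurd (Finset.mem_univ i) hi
  have hgz : g * z = z := by
    rw [hz, Finset.mul_sum]
    refine Finset.sum_congr rfl fun i _ => ?_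
    split_ifs
    · exact hgp i
    · exact mul_zero _
  have hzg : z * g = z := by
    have := congrArg star hgz
    rwa [star_mul, hzs, hg.1] at this
  -- the trace of `b`
  have htb : r * (τ b).re = ∑ l, n2 τ (x l) ^ 2 := by
    have e1 := zpr_dual ht v β g
    have e2 : lift v g = 1 := by
      unfold lift
      rw [← hv.sum]
      refine Finset.sum_congr rfl fun i _ => ?_
      rw [hvg i]
    rw [e2, mul_one, (hdn β).2] at e1
    have e3 : (τ β).re = ∑ l, n2 τ (x l) ^ 2 := by
      rw [hβ, map_sum, Complex.re_sum]
      refine Finset.sum_congr rfl fun l _ => ?_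
      rw [ht.n2_sq]
    rw [← e3, e1]
    have e4 : ((Fintype.card I : ℂ)) = ((r : ℝ) : ℂ) := by
      rw [hr]
      push_cast
      rfl
    rw [e4, Complex.re_ofReal_mul]
  have hzt : (τ z).re = n2 τ z ^ 2 := by
    rw [ht.n2_sq, hzs, hzz]
  have hz0 : 0 ≤ (τ z).re := by
    rw [hzt]
    positivity
  refine ⟨z, ⟨hzs, hzz⟩, hgz, ?_, ?_⟩
  · -- the trace of z
    have e1 : (τ (lift v z)).re = r * (τ z).re := by
      rw [zpr_trace ht hv z, hgz]
      have e4 : ((Fintype.card I : ℂ)) = ((r : ℝ) : ℂ) := by
        rw [hr]
        push_cast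
        rfl
      rw [e4, Complex.re_ofReal_mul]
    have e2 : (θ / 2) * (τ z).re ≤ (τ b).re := by
      have f1 : τ b = τ (b * (z * star z)) + τ (b * ((g - z) * star (g - z))) := by
        rw [← map_add, ← mul_add, star_sub, hzs, hg.1, hzz]
        congr 1
        have : z + (g - z) * (g - z) = g := by
          have e5 : (g - z) * (g - z) = g * g - g * z - z * g + z * z := by noncomm_ring
          rw [e5, hg.2, hgz, hzg, hzz]
          abel
        rw [this, (hdn β).2]
      have f2 : 0 ≤ (τ (b * ((g - z) * star (g - z)))).re := zpr_pos ht v x (g - z)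
      have f3 : (θ / 2) * (τ z).re ≤ (τ (b * (z * star z))).re := by
        have f4 := abs_le.1 (zpr_norm ht d z)
        have f5 : b = d + ∑ i, (l i : ℂ) • p i := by
          rw [hd]
          abel
        have f6 : τ ((∑ i, (l i : ℂ) • p i) * (z * star z)) =
            ((∑ i, (if 3 * θ / 4 < l i then l i * (τ (p i)).re else 0) : ℝ) : ℂ) := by
          rw [hzs, hzz, Finset.sum_mul, map_sum]
          push_cast
          refine Finset.sum_congr rfl fun i _ => ?_
          rw [smul_mul_assoc, hpz i, map_smul, smul_eq_mul]
          split_ifs with hi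
          · have : τ (p i) = (((τ (p i)).re : ℝ) : ℂ) := by
              have := ht.n2_sq' (p i)
              rw [(hp.prj i).1, (hp.prj i).2] at this
              rw [this, Complex.ofReal_re]
            rw [this]
            push_cast
            rfl
          · rw [map_zero, mul_zero]
            simp
        have f7 : (3 * θ / 4) * (τ z).re ≤
            ∑ i, (if 3 * θ / 4 < l i then l i * (τ (p i)).re else 0) := by
          rw [hz, map_sum, Complex.re_sum, Finset.mul_sum]
          refine Finset.sum_le_sum fun i _ => ?_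
          split_ifs with hi
          · have : 0 ≤ (τ (p i)).re := by
              have := ht.n2_sq (p i)
              rw [(hp.prj i).1, (hp.prj i).2] at this
              rw [← this]
              positivity
            exact mul_le_mul_of_nonneg_right hi.le this
          · simp
        have f8 : (τ (b * (z * star z))).re = (τ (d * (z * star z))).re +
            ∑ i, (if 3 * θ / 4 < l i then l i * (τ (p i)).re else 0) := by
          rw [f5, add_mul, map_add, f6, Complex.add_re, Complex.ofReal_re]
        have f9 : ‖d‖ * n2 τ z ^ 2 ≤ (θ / 4) * (τ z).re := by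
          rw [hzt]
          exact mul_le_mul_of_nonneg_right hpl (by positivity)
        rw [f8]
        nlinarith [f4.1, f4.2]
      rw [f1, Complex.add_re]
      linarith
    rw [e1, le_div_iff₀ hθ, ← htb]
    nlinarith
  · intro y hgy hyg hzy
    have hpy : ∀ i, 3 * θ / 4 < l i → p i * y = 0 := by
      intro i hi
      have : p i * z * y = p i * y := by rw [hpz i, if_pos hi]
      rw [← this, mul_assoc, hzy, mul_zero]
    have hgyg : g * y * g = y := by rw [hgy, hyg]
    have hgsg : g * star y * g = star y := by
      have e := congrArg star hgyg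
      rw [star_mul, star_mul, hg.1] at e
      rw [mul_assoc]
      exact e
    -- the form on `lift v y`
    have e1 : ∑ l, n2 τ (x l * lift v y) ^ 2 = r * (τ (b * (y * star y))).re := by
      have f1 : ∑ l, n2 τ (x l * lift v y) ^ 2 = (τ (β * (lift v y * star (lift v y)))).re := by
        rw [hβ, Finset.sum_mul, map_sum, Complex.re_sum]
        refine Finset.sum_congr rfl fun l _ => ?_
        rw [ht.n2_sq, star_mul]
        have e1 : star (lift v y) * star (x l) * (x l * lift v y) =
            star (lift v y) * (star (x l) * x l * lift v y) := by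
          simp only [mul_assoc]
        rw [e1, ht.comm]
        simp only [mul_assoc]
      have f2 : lift v y * star (lift v y) = lift v (y * star y) := by
        rw [hst y]
        have := hmul y (star y)
        rwa [hgyg, hgsg] at this
      rw [f1, f2, zpr_dual ht v β (y * star y)]
      have e4 : ((Fintype.card I : ℂ)) = ((r : ℝ) : ℂ) := by
        rw [hr]
        push_cast
        rfl
      rw [e4, Complex.re_ofReal_mul]
    have e2 : n2 τ (lift v y) ^ 2 = r * n2 τ y ^ 2 := by
      rw [hn2 y, hgyg]
    have e3 : (τ (b * (y * star y))).re ≤ θ * n2 τ y ^ 2 := by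
      have f4 := abs_le.1 (zpr_norm ht d y)
      have f5 : b = d + ∑ i, (l i : ℂ) • p i := by
        rw [hd]
        abel
      have f6 : ∀ i, τ (p i * (y * star y)) = ((n2 τ (p i * y) ^ 2 : ℝ) : ℂ) := by
        intro i
        rw [← ht.n2_sq', star_mul, (hp.prj i).1]
        have : star y * p i * (p i * y) = star y * (p i * y) := by
          rw [mul_assoc, ← mul_assoc (p i), (hp.prj i).2]
        rw [this, ← mul_assoc, ht.comm]
      have f7 : (τ ((∑ i, (l i : ℂ) • p i) * (y * star y))).re =
          ∑ i, l i * n2 τ (p i * y) ^ 2 := by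
        rw [Finset.sum_mul, map_sum, Complex.re_sum]
        refine Finset.sum_congr rfl fun i _ => ?_
        rw [smul_mul_assoc, map_smul, smul_eq_mul, f6 i, ← Complex.ofReal_mul, Complex.ofReal_re]
      have f8 : ∑ i, n2 τ (p i * y) ^ 2 = n2 τ y ^ 2 := by
        have : τ (g * (y * star y)) = ((∑ i, n2 τ (p i * y) ^ 2 : ℝ) : ℂ) := by
          rw [← hp.sum, Finset.sum_mul, map_sum]
          push_cast
          refine Finset.sum_congr rfl fun i _ => ?_
          rw [f6 i]
          push_cast
          rfl
        rw [← mul_assoc, hgy, ht.comm, ht.n2_sq'] at this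
        exact_mod_cast this.symm
      have f9 : ∑ i, l i * n2 τ (p i * y) ^ 2 ≤ (3 * θ / 4) * n2 τ y ^ 2 := by
        rw [← f8, Finset.mul_sum]
        refine Finset.sum_le_sum fun i _ => ?_
        by_cases hi : 3 * θ / 4 < l i
        · rw [hpy i hi, n2_zero]
          simp
        · exact mul_le_mul_of_nonneg_right (not_lt.1 hi) (by positivity)
      have f10 : (τ (b * (y * star y))).re = (τ (d * (y * star y))).re +
          ∑ i, l i * n2 τ (p i * y) ^ 2 := by
        rw [← f7, f5, add_mul, map_add, Complex.add_re]
      have f11 : ‖d‖ * n2 τ y ^ 2 ≤ (θ / 4) * n2 τ y ^ 2 :=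
        mul_le_mul_of_nonneg_right hpl (by positivity)
      rw [f10]
      linarith [f4.1, f4.2]
    rw [e1, e2]
    calc r * (τ (b * (y * star y))).re ≤ r * (θ * n2 τ y ^ 2) :=
          mul_le_mul_of_nonneg_left e3 hr0.le
      _ = θ * (r * n2 τ y ^ 2) := by ring

end Pool.Agent.H518R4.UG
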